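import Pool.Agent.Helper3K.Twi
import Pool.Agent.N20.KB.Mult

/-!
# Alternating sums and wreath products with cyclic groups of prime order
-/

set_option autoImplicit false
set_option linter.unusedSectionVars false
set_option linter.style.haveILetI false

open scoped BigOperators Classical

noncomputable section

namespace Pool.Agent.Helper3K

open Pool.Agent.Y63.KR
open Pool.Agent.Y63.NV
open Pool.Agent.N85.WM (Wr Base shiftHom wrF wrF_inZ IsIdem card_wr)
open Pool.Agent.Y63.AWC (IsIrreducibleCharacter cj)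
open Pool.Agent.H254R3.IN (IsIrr)
open Pool.Agent.N20.KB (irr_comp' knum_iso AA aB aa_aB aB_prod aB_iso)
open Pool.Agent.N19.RB (tens tens_irr tens_inj exists_tens)
open Pool.Agent.R674.Ce (chs Sp wt chs_subgroup)
open Pool.Agent.Q90.WR (Ch)

variable {q : ℕ} [hq : Fact q.Prime] {G : Type} [Group G] [Finite G] {p : ℕ} [hp : Fact p.Prime]
  {F : Type} [Field F] (red : integralClosure ℤ ℂ →+* F)

/-- chains of the wreath product and of its base group -/
theorem sum_base (hpq : p ≠ q) (f : Subgroup (Wr q G) → ℤ) :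
    ∑ υ : Ch p (Wr q G), (-1 : ℤ) ^ υ.1.ncard * f (Base q G ⊓ chainStabilizer υ.1) =
      ∑ᶠ σ : {σ : Set (Subgroup (Base q G)) // IsPChain p σ},
        (-1) ^ σ.1.ncard * f ((chainStabilizer σ.1).map (Base q G).subtype) := by
  rw [← chs_subgroup]
  have hS : Sp p (Base q G) = Sp p (⊤ : Subgroup (Wr q G)) := by
    ext P
    constructor
    · rintro ⟨h1, h2, _⟩
      exact ⟨h1, h2, le_top⟩
    · rintro ⟨h1, h2, _⟩
      exact ⟨h1, h2, fun x hx => mem_base'.2 (sft_zero hpq h1 hx)⟩
  rw [hS, ← finsum_eq_sum_of_fintype]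
  symm
  unfold chs wt
  refine finsum_eq_of_bijective (fun σ : {σ : Set (Subgroup (Wr q G)) // σ ⊆ Sp p ⊤ ∧
    IsChain (· ≤ ·) σ} => (⟨σ.1, ⟨σ.2.2, fun P hP => (σ.2.1 hP).1,
      fun P hP => (σ.2.1 hP).2.1⟩⟩ : Ch p (Wr q G))) ⟨?_, ?_⟩ ?_
  · rintro ⟨σ, _⟩ ⟨τ, _⟩ h
    have h' : σ = τ := congrArg Subtype.val h
    exact Subtype.ext h'
  · rintro ⟨σ, hσ⟩
    exact ⟨⟨σ, fun P hP => ⟨hσ.isPGroup P hP, hσ.ne_bot P hP, le_top⟩, hσ.chain⟩, rfl⟩
  · intro σ
    rfl

/-- the function `H ↦ |H| k(H)` -/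
def kz (z : Wr q G → F) (c : F) (H : Subgroup (Wr q G)) : ℤ :=
  (Nat.card H : ℤ) * (Knum red (fun x : H => z x) c : ℤ)

/-- the sum for the base group -/
theorem sum_kz_base (hpq : p ≠ q) {z : Wr q G → F} (hz : IsClassFun z) (c : F) :
    ∑ υ : Ch p (Wr q G), (-1 : ℤ) ^ υ.1.ncard * kz red z c (Base q G ⊓ chainStabilizer υ.1) =
      AA p red (Base q G) (fun x : Base q G => z x) c := by
  rw [sum_base hpq]
  unfold AA
  refine finsum_congr fun σ => ?_
  congr 1
  unfold kz
  let e := (chainStabilizer σ.1).equivMapOfInjective (Base q G).subtype (Base q G).subtype_injective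
  rw [← knum_iso red e (f := fun x : ((chainStabilizer σ.1).map (Base q G).subtype :
    Subgroup (Wr q G)) => z x) (fun g x => hz g x) c, Nat.card_congr e.toEquiv]
  rfl

/-- the difference -/
def DD (z : Wr q G → F) (c : F) (H : Subgroup (Wr q G)) : ℚ :=
  if ∀ x ∈ H, sft x = 0 then 0 else
    (Nat.card ((Base q G).subgroupOf H) : ℚ) *
      (Inum ((Base q G).subgroupOf H) red (fun x : H => z x) c : ℚ)

theorem kz_split {z : Wr q G → F} (hz : InZ (Base q G) z) (c : F) (H : Subgroup (Wr q G)) :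
    (kz red z c H : ℚ) = kz red z c (Base q G ⊓ H) + ((q : ℚ) ^ 2 - 1) * DD red z c H := by
  unfold DD
  split_ifs with h
  · have h1 : Base q G ⊓ H = H := inf_eq_right.2 fun x hx => mem_base'.2 (h x hx)
    rw [h1, mul_zero, add_zero]
  · push Not at h
    have hi := card_eq_base H h
    have hzH : InZ ((Base q G).subgroupOf H) (fun x : H => z x) :=
      ⟨fun g x => hz.conj g x, fun x hx => hz.supp x fun h3 => hx (Subgroup.mem_subgroupOf.2 h3)⟩
    have : Fintype H := Fintype.ofFinite H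
    have h1 := knum_prime ((Base q G).subgroupOf H) red hq.out hi hzH c
    have h2 := Subgroup.card_mul_index ((Base q G).subgroupOf H)
    rw [hi] at h2
    have e : (kz red z c (Base q G ⊓ H) : ℚ) = (Nat.card ((Base q G).subgroupOf H) : ℚ) *
        (Knum red (fun m : (Base q G).subgroupOf H => z (m : H)) c : ℚ) := by
      unfold kz
      let e := ((Base q G).subgroupOf H).equivMapOfInjective H.subtype H.subtype_injective
      have hs : ((Base q G).subgroupOf H).map H.subtype = Base q G ⊓ H :=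
        Subgroup.subgroupOf_map_subtype _ _
      let e' : (Base q G).subgroupOf H ≃* ↥(Base q G ⊓ H) := e.trans (MulEquiv.subgroupCongr hs)
      rw [← knum_iso red e' (f := fun x : ↥(Base q G ⊓ H) => z x) (fun g x => hz.conj g x) c,
        ← Nat.card_congr e'.toEquiv]
      push_cast
      rfl
    rw [e]
    unfold kz
    have h3 : (q : ℚ) * (Knum red (fun x : H => z x) c : ℚ) +
        (Inum ((Base q G).subgroupOf H) red (fun x : H => z x) c : ℚ) =
        (Knum red (fun m : (Base q G).subgroupOf H => z (m : H)) c : ℚ) +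
        (q : ℚ) ^ 2 * (Inum ((Base q G).subgroupOf H) red (fun x : H => z x) c : ℚ) := by
      exact_mod_cast h1
    have h4 : (Nat.card H : ℚ) = (Nat.card ((Base q G).subgroupOf H) : ℚ) * q := by
      exact_mod_cast h2.symm
    push_cast
    rw [h4]
    linear_combination (Nat.card ((Base q G).subgroupOf H) : ℚ) * h3

/-- the number of the characters whose tensor powers take the value `c` -/
def Jn (z : Wr q G → F) (c : F) (H : Subgroup G) : ℕ :=
  Nat.card {ψ : H → ℂ // IsIrreducibleCharacter ψ ∧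
    centralValue red (tens fun _ : ZMod q => ψ) (fun h => z (bas fun i => h i)) = c}

theorem dd_tws {z : Wr q G → F} (hz : InZ (Base q G) z) (c : F) (b : ZMod q → G)
    (H : Subgroup G) : DD red z c (tws b H) = (Nat.card H : ℚ) ^ q * (Jn red z c H : ℚ) := by
  unfold DD
  rw [if_neg]
  · rw [inum_tws red hz c b H, ← Nat.card_congr (fb b H).toEquiv, Nat.card_fun, Nat.card_zmod]
    push_cast
    rfl
  · intro h
    obtain ⟨x, hx⟩ := exists_shift b H (1 : ZMod q)
    have h1 := h x.1 x.2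
    rw [h1] at hx
    haveI : Fact (1 < q) := ⟨hq.out.one_lt⟩
    exact zero_ne_one hx

/-- **alternating sums and wreath products with cyclic groups of prime order `q ≠ p`** -/
theorem aa_wr (hpq : p ≠ q) {z : Wr q G → F} (hz : InZ (Base q G) z) (c : F) :
    (AA p red (Wr q G) z c : ℚ) = AA p red (Base q G) (fun x : Base q G => z x) c +
      ((q : ℚ) ^ 2 - 1) * ((Nat.card G : ℚ) ^ (q - 1) *
        ∑ σ : Ch p G, (-1 : ℚ) ^ σ.1.ncard * ((Nat.card (chainStabilizer σ.1) : ℚ) *
          (Jn red z c (chainStabilizer σ.1) : ℚ))) := by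
  have h1 : (AA p red (Wr q G) z c : ℚ) =
      ∑ υ : Ch p (Wr q G), (-1 : ℚ) ^ υ.1.ncard * (kz red z c (chainStabilizer υ.1) : ℚ) := by
    unfold AA kz
    rw [finsum_eq_sum_of_fintype]
    push_cast
    rfl
  have h2 : ∀ υ : Ch p (Wr q G), (-1 : ℚ) ^ υ.1.ncard * (kz red z c (chainStabilizer υ.1) : ℚ) =
      (-1 : ℚ) ^ υ.1.ncard * (kz red z c (Base q G ⊓ chainStabilizer υ.1) : ℚ) +
      ((q : ℚ) ^ 2 - 1) * ((-1 : ℚ) ^ υ.1.ncard * DD red z c (chainStabilizer υ.1)) := by
    intro υ
    rw [kz_split red hz c]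
    ring
  rw [h1, Finset.sum_congr rfl fun υ _ => h2 υ, Finset.sum_add_distrib, ← Finset.mul_sum,
    functional_out hpq (DD red z c) (fun H hH => by unfold DD; rw [if_pos hH])]
  have h3 := sum_kz_base (p := p) red hpq hz.conj c
  have h4 : ∑ υ : Ch p (Wr q G), (-1 : ℚ) ^ υ.1.ncard *
      (kz red z c (Base q G ⊓ chainStabilizer υ.1) : ℚ) =
      AA p red (Base q G) (fun x : Base q G => z x) c := by
    rw [← h3]
    push_cast
    rfl
  rw [h4]
  congr 2
  rw [Finset.mul_sum]
  refine Finset.sum_congr rfl fun σ _ => ?_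
  have h5 : ∀ b : B0 q G, DD red z c (tws (eB b) (chainStabilizer σ.1)) =
      (Nat.card (chainStabilizer σ.1) : ℚ) ^ q * (Jn red z c (chainStabilizer σ.1) : ℚ) :=
    fun b => dd_tws red hz c _ _
  rw [Finset.sum_congr rfl fun b _ => h5 b, Finset.sum_const, Finset.card_univ, nsmul_eq_mul,
    ← Nat.card_eq_fintype_card, Nat.card_fun, card_ne]
  have h6 : (Nat.card (chainStabilizer σ.1) : ℚ) ≠ 0 := by exact_mod_cast Nat.card_pos.ne'
  have h7 : (Nat.card (chainStabilizer σ.1) : ℚ) ^ q =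
      (Nat.card (chainStabilizer σ.1) : ℚ) ^ (q - 1) * (Nat.card (chainStabilizer σ.1) : ℚ) := by
    rw [← pow_succ, Nat.sub_add_cancel hq.out.one_le]
  rw [h7]
  push_cast
  field_simp

end Pool.Agent.Helper3K
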