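import Pool.Agent.Helper3K.Aaw

/-!
# Alternating sums for blocks and wreath products
-/

set_option autoImplicit false
set_option linter.unusedSectionVars false
set_option linter.style.haveILetI false

open scoped BigOperators Classical

noncomputable section

namespace Pool.Agent.Helper3K

open Pool.Agent.Y63.KR
open Pool.Agent.Y63.NV
open Pool.Agent.N85.WM (Wr Base shiftHom wrF wrF_inZ IsIdem card_wr)
open Pool.Agent.Y63.AWC (IsIrreducibleCharacter cj)
open Pool.Agent.H254R3.IN (IsIrr)
open Pool.Agent.N20.KB (irr_comp' knum_iso AA aB aa_aB aB_prod aB_iso aa_congr)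
open Pool.Agent.N19.RB (tens tens_irr tens_inj exists_tens)
open Pool.Agent.Q90.WR (Ch)
open Pool.Agent.R674.KB (kblk)

section pi

variable {F : Type} [Field F] (red : integralClosure ℤ ℂ →+* F) {A : Type} [Group A] [Finite A]
  {p : ℕ} [hp : Fact p.Prime] [IsAlgClosed F] [CharP F p]

theorem cl_tens' {ι : Type} [Fintype ι] {e : ι → A → F} (he : ∀ i, IsClassFun (e i)) :
    IsClassFun (fun x : ι → A => ∏ i, e i (x i)) := fun g x =>
  Finset.prod_congr rfl fun i _ => he i (g i) (x i)

theorem aB_fin' (n : ℕ) : ∀ e : Fin (n + 1) → A → F, (∀ i, IsIdem (e i)) →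
    aB red p (Fin (n + 1) → A) (fun x => ∏ i, e i (x i)) 1 = ∏ i, aB red p A (e i) 1 := by
  induction n with
  | zero =>
    intro e he
    have h := aB_iso (p := p) red (MulEquiv.piUnique (fun _ : Fin 1 => A)) (he 0).cl 1
    rw [Fin.prod_univ_one, ← h]
    congr 1
    funext x
    rw [Fin.prod_univ_one]
    rfl
  | succ n ih =>
    intro e he
    rw [Fin.prod_univ_succ, ← ih (fun i => e i.succ) fun i => he _,
      ← aB_prod red (he 0) (cl_tens' fun i => (he (Fin.succ i)).cl)]
    let φ : (Fin (n + 2) → A) ≃* A × (Fin (n + 1) → A) :=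
      { toFun := fun x => (x 0, fun i => x i.succ)
        invFun := fun y => Fin.cons y.1 y.2
        left_inv := fun x => by
          funext i
          refine Fin.cases ?_ (fun j => ?_) i
          · rfl
          · rfl
        right_inv := fun y => rfl
        map_mul' := fun x y => rfl }
    have h := aB_iso (p := p) red φ (z := fun x : A × (Fin (n + 1) → A) =>
      e 0 x.1 * ∏ i : Fin (n + 1), e i.succ (x.2 i)) (fun g x => by
        change e 0 (g.1 * x.1 * g.1⁻¹) * (∏ i : Fin (n + 1), e i.succ (g.2 i * x.2 i * (g.2 i)⁻¹)) = _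
        rw [(he 0).cl, Finset.prod_congr rfl fun (i : Fin (n + 1)) _ => (he i.succ).cl (g.2 i) (x.2 i)]) 1
    rw [← h]
    congr 1
    funext x
    rw [Fin.prod_univ_succ]
    rfl

/-- the alternating sum for the direct powers -/
theorem aB_pi {q : ℕ} [hq : NeZero q] {e : ZMod q → A → F} (he : ∀ i, IsIdem (e i)) :
    aB red p (ZMod q → A) (fun x => ∏ i, e i (x i)) 1 = ∏ i, aB red p A (e i) 1 := by
  obtain ⟨n, hn⟩ : ∃ n, q = n + 1 := ⟨q - 1, by have := NeZero.pos q; omega⟩
  subst hn
  have h := aB_fin' (p := p) red n (fun i => e ((ZMod.finEquiv (n + 1)) i)) fun i => he _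
  have h2 := aB_iso (p := p) red
    (MulEquiv.arrowCongr (ZMod.finEquiv (n + 1)).symm.toEquiv (MulEquiv.refl A))
    (cl_tens' (e := fun i => e ((ZMod.finEquiv (n + 1)) i)) fun i => (he _).cl) 1
  rw [Fintype.prod_equiv (ZMod.finEquiv (n + 1)).toEquiv (fun i => aB red p A
    (e ((ZMod.finEquiv (n + 1)) i)) 1) (fun i => aB red p A (e i) 1) fun i => rfl] at h
  rw [← h, ← h2]
  congr 1

/-- additivity -/
theorem aB_sum {T : Type} [Fintype T] {f : T → A → F} (hf : ∀ t, IsIdem (f t))
    (ho : ∀ lam : (A → F) → F, IsBlock lam → ∀ s t, s ≠ t → lam (f s) = 0 ∨ lam (f t) = 0) :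
    aB red p A (fun x => ∑ t, f t x) 1 = ∑ t, aB red p A (f t) 1 := by
  have : Fintype (Quotient (chainSetoid p A)) := Fintype.ofFinite _
  unfold aB alternatingSum
  simp only [finsum_eq_sum_of_fintype]
  rw [Finset.sum_comm]
  refine Finset.sum_congr rfl fun c _ => ?_
  rw [← Finset.mul_sum]
  congr 1
  have hadd : ∀ lam : (A → F) → F, IsBlock lam → lam (fun x => ∑ t, f t x) = ∑ t, lam (f t) := by
    intro lam hl
    have h0 : ∀ s : Finset T, IsClassFun (fun x => ∑ t ∈ s, f t x) ∧
        lam (fun x => ∑ t ∈ s, f t x) = ∑ t ∈ s, lam (f t) := by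
      intro s
      induction s using Finset.induction_on with
      | empty =>
        refine ⟨fun _ _ => by simp, ?_⟩
        have h1 : (fun x : A => ∑ t ∈ (∅ : Finset T), f t x) = (0 : F) • (fun _ => (0 : F)) := by
          funext x
          simp
        rw [h1, hl.smul _ _ fun _ _ => rfl, zero_mul, Finset.sum_empty]
      | insert a s ha ih =>
        have h1 : (fun x : A => ∑ t ∈ insert a s, f t x) = f a + fun x => ∑ t ∈ s, f t x := by
          funext x
          rw [Finset.sum_insert ha, Pi.add_apply]
        refine ⟨?_, ?_⟩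
        · rw [h1]
          exact Pool.Agent.N85.WM.cl_add (hf a).cl ih.1
        · rw [h1, hl.add _ _ (hf a).cl ih.1, ih.2, Finset.sum_insert ha]
    exact (h0 Finset.univ).2
  let H := chainStabilizer c.out.1
  have : Fintype H := Fintype.ofFinite _
  have hb : ∀ θ : H → ℂ, IsIrreducibleCharacter θ →
      IsBlock (fun g : A → F => centralValue red θ (fun x => g x)) := fun θ hθ =>
    kblk p F red A c.out.1 θ c.out.2 hθ
  have e1 : ∀ g : A → F, Knum red (fun x : H => g x) 1 =
      ((Pool.Agent.Helper884.IC.Irr H).filter fun θ => centralValue red θ (fun x : H => g x) = 1).card := by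
    intro g
    unfold Knum
    exact card_sub _
  have e2 : Knum red (fun x : H => ∑ t, f t x) 1 = ∑ t, Knum red (fun x : H => f t x) 1 := by
    rw [e1 (fun x => ∑ t, f t x), Finset.sum_congr rfl fun t _ => e1 (f t),
      ← Finset.card_biUnion]
    · congr 1
      ext θ
      rw [Finset.mem_filter, Finset.mem_biUnion]
      constructor
      · rintro ⟨h1, h2⟩
        have h3 := hadd _ (hb θ (Pool.Agent.H254R3.IN.mem_Irr.mp h1))
        change centralValue red θ (fun x : H => ∑ t, f t x) = _ at h3
        rw [h2] at h3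
        by_contra hcon
        push Not at hcon
        rw [Finset.sum_eq_zero] at h3
        · exact one_ne_zero h3
        · intro t _
          rcases (hf t).val _ (hb θ (Pool.Agent.H254R3.IN.mem_Irr.mp h1)) with h4 | h4
          · exact h4
          · exact absurd (Finset.mem_filter.2 ⟨h1, h4⟩) (hcon t (Finset.mem_univ t))
      · rintro ⟨t, -, h1⟩
        rw [Finset.mem_filter] at h1
        refine ⟨h1.1, ?_⟩
        have hbθ := hb θ (Pool.Agent.H254R3.IN.mem_Irr.mp h1.1)
        have h3 := hadd _ hbθ
        change centralValue red θ (fun x : H => ∑ t, f t x) = _ at h3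
        rw [h3, Finset.sum_eq_single t]
        · exact h1.2
        · intro s _ hs
          rcases ho _ hbθ s t hs with h4 | h4
          · exact h4
          · exfalso
            have h5 := h1.2
            change centralValue red θ (fun x : H => f t x) = 0 at h4
            rw [h4] at h5
            exact zero_ne_one h5
        · intro h4
          exact absurd (Finset.mem_univ t) h4
    · intro s _ t _ hst
      rw [Function.onFun, Finset.disjoint_left]
      intro θ h1 h2
      rw [Finset.mem_filter] at h1 h2
      rcases ho _ (hb θ (Pool.Agent.H254R3.IN.mem_Irr.mp h1.1)) s t hst with h4 | h4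
      · have h5 := h1.2
        change centralValue red θ (fun x : H => f s x) = 0 at h4
        rw [h4] at h5
        exact zero_ne_one h5
      · have h5 := h2.2
        change centralValue red θ (fun x : H => f t x) = 0 at h4
        rw [h4] at h5
        exact zero_ne_one h5
  have e3 : Knum red (fun x : chainStabilizer c.out.1 => (fun x => ∑ t, f t x) (x : A)) 1 =
    ∑ t, Knum red (fun x : chainStabilizer c.out.1 => f t x) 1 := e2
  rw [e3, Nat.cast_sum]

end pi

section wr

variable {q : ℕ} [hq : Fact q.Prime] {G : Type} [Group G] [Finite G] {p : ℕ} [hp : Fact p.Prime]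
  {F : Type} [Field F] (red : integralClosure ℤ ℂ →+* F)

/-- the sum for the base group -/
theorem aa_base {z : Wr q G → F} (hz : IsClassFun z) (c : F) :
    AA p red (Base q G) (fun x : Base q G => z x) c =
      (Nat.card G : ℤ) ^ q * aB red p (ZMod q → G) (fun h => z (bas h)) c := by
  have hcl : IsClassFun (fun x : Base q G => z x) := fun g x => hz g x
  let φ : (ZMod q → G) ≃* Base q G :=
    MonoidHom.ofInjective (f := (SemidirectProduct.inl : (ZMod q → G) →* Wr q G))
      SemidirectProduct.inl_injective
  have h := aa_congr (p := p) red φ hcl c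
  have hcl' : IsClassFun (fun h : ZMod q → G => z (bas h)) := by
    intro g x
    change z (bas (g * x * g⁻¹)) = z (bas x)
    have h1 := hz (bas g) (bas x)
    rw [← h1]
    congr 1
    refine wr_ext (fun i => ?_) (by rw [conjS]; rfl)
    rw [conjL _ _ rfl]
    change g i * x i * (g i)⁻¹ = g i * x (i - 0) * (g i)⁻¹
    rw [sub_zero]
  have e : (fun x => z ((φ x : Base q G) : Wr q G)) = fun h => z (bas h) := by
    funext h
    rfl
  rw [← h]
  change AA p red (ZMod q → G) (fun x => z ((φ x : Base q G) : Wr q G)) c = _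
  rw [e, aa_aB red hcl', Nat.card_fun, Nat.card_zmod]
  push_cast
  rfl

/-- the element of the group algebra of the base group for a family -/
def mxF (e : ZMod q → G → F) (x : Wr q G) : F :=
  if x.right = 1 then ∑ t : ZMod q, ∏ i, e i (x.left (i - t)) else 0

theorem mxF_bas (e : ZMod q → G → F) (h : ZMod q → G) :
    mxF e (bas h) = ∑ t : ZMod q, ∏ i, e i (h (i - t)) := if_pos rfl

theorem mxF_inZ {e : ZMod q → G → F} (he : ∀ i, IsClassFun (e i)) : InZ (Base q G) (mxF e) where
  conj := by
    intro g x
    unfold mxF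
    by_cases hx : x.right = 1
    · have hx0 : sft x = 0 := hx
      have h1 : (g * x * g⁻¹).right = 1 := by
        have := conjS g x
        rw [hx0] at this
        exact this
      rw [if_pos hx, if_pos h1]
      have h2 : ∀ t i, e i ((g * x * g⁻¹).left (i - t)) = e i (x.left (i - t - sft g)) := by
        intro t i
        rw [conjL g x hx0]
        exact he i _ _
      rw [Finset.sum_congr rfl fun t _ => Finset.prod_congr rfl fun i _ => h2 t i]
      refine Fintype.sum_equiv (Equiv.addRight (sft g)) _ _ fun t => ?_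
      refine Finset.prod_congr rfl fun i _ => ?_
      rw [Equiv.coe_addRight, sub_add_eq_sub_sub]
    · have h1 : (g * x * g⁻¹).right ≠ 1 := by
        intro h
        apply hx
        have := conjS g x
        have h2 : sft (g * x * g⁻¹) = 0 := h
        rw [h2] at this
        exact this.symm
      rw [if_neg hx, if_neg h1]
  supp := by
    intro x hx
    unfold mxF
    rw [if_neg]
    intro h
    exact hx (mem_base'.2 h)

/-- the value at the tensor powers -/
theorem cv_tens_mx [IsAlgClosed F] {H : Type} [Group H] [Finite H] {ψ : H → ℂ}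
    (hψ : IsIrreducibleCharacter ψ) {f : ZMod q → H → F} (hf : ∀ i, IsClassFun (f i)) :
    centralValue red (tens fun _ : ZMod q => ψ) (fun h => ∑ t : ZMod q, ∏ i, f i (h (i - t))) =
      ∑ _t : ZMod q, ∏ i, centralValue red ψ (f i) := by
  have : Fintype H := Fintype.ofFinite H
  have hirr : IsIrreducibleCharacter (tens fun _ : ZMod q => ψ) := tens_irr fun _ => hψ
  have e1 : (fun h : ZMod q → H => ∑ t : ZMod q, ∏ i, f i (h (i - t))) =
      ∑ t : ZMod q, fun h : ZMod q → H => ∏ i, f (i + t) (h i) := by
    funext h
    rw [Finset.sum_apply]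
    refine Finset.sum_congr rfl fun t _ => ?_
    exact Fintype.prod_equiv (Equiv.subRight t) _ _ fun i => by simp
  have hbl := Pool.Agent.Y930.NV.cvh F red (ZMod q → H) _ hirr
  have key : ∀ s : Finset (ZMod q),
      IsClassFun (∑ t ∈ s, fun h : ZMod q → H => ∏ i, f (i + t) (h i)) ∧
      centralValue red (tens fun _ : ZMod q => ψ)
        (∑ t ∈ s, fun h : ZMod q → H => ∏ i, f (i + t) (h i)) =
      ∑ _t ∈ s, ∏ i, centralValue red ψ (f i) := by
    intro s
    induction s using Finset.induction_on with
    | empty =>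
      refine ⟨fun _ _ => rfl, ?_⟩
      rw [Finset.sum_empty, Finset.sum_empty]
      have h0 := hbl.smul (0 : F) (0 : (ZMod q → H) → F) (fun _ _ => rfl)
      rwa [zero_smul, zero_mul] at h0
    | insert a s ha ih =>
      have hcl : IsClassFun (fun h : ZMod q → H => ∏ i, f (i + a) (h i)) :=
        cl_tens' fun i => hf (i + a)
      rw [Finset.sum_insert ha, Finset.sum_insert ha]
      refine ⟨Pool.Agent.N85.WM.cl_add hcl ih.1, ?_⟩
      rw [hbl.add _ _ hcl ih.1, ih.2]
      congr 1
      rw [Pool.Agent.N85.WM.Wpi.cv_tens red (fun _ => hψ) (fun i => f (i + a)) fun i => hf _]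
      exact Fintype.prod_equiv (Equiv.addRight a) _ _ fun i => rfl
  rw [e1]
  exact (key Finset.univ).2

end wr

end Pool.Agent.Helper3K
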