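import Pool.Agent.N20.KB.Mult
import Pool.Agent.K3h3.KB.Cov1
import Pool.Agent.Q90.WR.Bcl

/-!
# Blocks over a valuation ring and blocks over its residue field
-/

set_option autoImplicit false
set_option linter.unusedSectionVars false
set_option linter.style.haveILetI false

open scoped BigOperators Classical

noncomputable section

namespace Pool.Agent.Helper3K

open Pool.Agent.Y63.KR
open Pool.Agent.Y63.AWC (IsIrreducibleCharacter)
open Pool.Agent.Helper884
open Pool.Agent.H254R3.IN (IsIrr IsCl Om omega ind dl blockCoeff RF red rep mem_Irr IsBlock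
  blockCoeff_cl blockCoeff_mem Om_blockCoeff Om_conv Om_ind Om_dl Om_mem_one eq_of_Om conv_mem
  red_Om red_mul red_add red_sub red_zero red_one red_sum mem_of_isIntegral ind_cl dl_cl ind_mem dl_mem
  sub_mem' red_of_mem charP_RF)
open Pool.Agent.Y63.NV (IsClassFun redC centralValue Knum)
open Pool.Agent.N20.KB (aB AA aa_aB)
open Pool.Agent.N85.WM (IsIdem BEq)
open Pool.Agent.K3h3.KB (blk blk_block mem_blk_self blk_eq fs mem_fs blockCoeff_fs blockCoeff_union)
open Pool.Agent.Q90.WR (IndS mem_IndS IndS_irr sum_eq_L' blkAlt)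
open Pool.Agent.Q259.BW (L)

/-- the algebraic closure of the residue field -/
abbrev FF (O : ValuationSubring ℂ) : Type := AlgebraicClosure (RF O)

section basic

variable (O : ValuationSubring ℂ)

/-- reduction with values in the algebraic closure of the residue field -/
def ph (x : ℂ) : FF O := algebraMap (RF O) (FF O) (red O x)

/-- the reduction map on the algebraic integers -/
def rd : integralClosure ℤ ℂ →+* FF O :=
  (algebraMap (RF O) (FF O)).comp ((IsLocalRing.residue O).comp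
    { toFun := fun x => ⟨x.1, mem_of_isIntegral x.2⟩
      map_one' := rfl
      map_mul' := fun _ _ => rfl
      map_zero' := rfl
      map_add' := fun _ _ => rfl })

variable {O}

theorem redC_rd {a : ℂ} (h : IsIntegral ℤ a) : redC (rd O) a = ph O a := by
  rw [Pool.Agent.Y930.NV.redC_of (rd O) h]
  unfold ph
  rw [red_of_mem (mem_of_isIntegral h)]
  rfl

theorem ph_inj {x y : ℂ} (h : ph O x = ph O y) : red O x = red O y :=
  (algebraMap (RF O) (FF O)).injective h

theorem ph_zero : ph O 0 = 0 := by unfold ph; rw [red_zero, map_zero]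

theorem ph_one : ph O 1 = 1 := by unfold ph; rw [red_one, map_one]

theorem ph_mul {x y : ℂ} (hx : x ∈ O) (hy : y ∈ O) : ph O (x * y) = ph O x * ph O y := by
  unfold ph; rw [red_mul hx hy, map_mul]

theorem ph_sub {x y : ℂ} (hx : x ∈ O) (hy : y ∈ O) : ph O (x - y) = ph O x - ph O y := by
  unfold ph; rw [red_sub hx hy, map_sub]

theorem ph_sum {ι : Type*} (s : Finset ι) (f : ι → ℂ) (h : ∀ i ∈ s, f i ∈ O) :
    ph O (∑ i ∈ s, f i) = ∑ i ∈ s, ph O (f i) := by
  unfold ph; rw [red_sum s f h, map_sum]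

theorem charP_FF {p : ℕ} [Fact p.Prime] (hpO : (p : ℂ) ∈ O.nonunits) : CharP (FF O) p := by
  haveI := charP_RF hpO
  exact charP_of_injective_algebraMap (algebraMap (RF O) (FF O)).injective p

end basic

section funs

variable {O : ValuationSubring ℂ} {G : Type} [Group G]

/-- reduction of functions -/
def pf (O : ValuationSubring ℂ) {G : Type} (f : G → ℂ) (g : G) : FF O := ph O (f g)

theorem pf_cl {f : G → ℂ} (hf : IsCl f) : IsClassFun (pf O f) := fun g x => by
  unfold pf
  rw [hf x g]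

variable [Fintype G]

theorem pf_conv {f h : G → ℂ} (hf : ∀ g, f g ∈ O) (hh : ∀ g, h g ∈ O) :
    pf O (Pool.Agent.H254R3.IN.conv f h) = Pool.Agent.Y63.NV.conv (pf O f) (pf O h) := by
  funext g
  unfold pf Pool.Agent.H254R3.IN.conv Pool.Agent.Y63.NV.conv
  rw [ph_sum _ _ fun x _ => O.mul_mem _ _ (hf _) (hh _), finsum_eq_sum_of_fintype]
  exact Finset.sum_congr rfl fun x _ => ph_mul (hf _) (hh _)

theorem pf_dl : pf O (dl : G → ℂ) = Pi.single 1 1 := by
  funext g
  unfold pf dl
  by_cases h : g = 1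
  · subst h
    rw [if_pos rfl, ph_one, Pi.single_eq_same]
  · rw [if_neg h, ph_zero, Pi.single_eq_of_ne h]

theorem om_integral {χ : G → ℂ} (hχ : IsIrr χ) (x : G) : IsIntegral ℤ (omega χ x) :=
  hχ.omega_isIntegral x

/-- central characters and reduction -/
theorem cv_pf {χ : G → ℂ} (hχ : IsIrr χ) {f : G → ℂ} (hf : IsCl f) (hfO : ∀ g, f g ∈ O) :
    centralValue (rd O) χ (pf O f) = ph O (Om f χ) := by
  unfold centralValue
  rw [finsum_eq_sum_of_fintype]
  unfold ph
  rw [(red_Om hχ hf hfO).2, map_sum]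
  refine Finset.sum_congr (Finset.ext fun _ => by simp) fun C _ => ?_
  rw [map_mul, Pool.Agent.N85.WM.Wpi.omega_out, redC_rd (om_integral hχ _)]
  rfl

/-- the block of a character -/
theorem cv_block {χ : G → ℂ} (hχ : IsIrr χ) :
    Pool.Agent.Y63.NV.IsBlock (centralValue (rd O) χ) := Pool.Agent.Y930.NV.cvh (FF O) (rd O) G χ hχ

theorem map_zero_block {lam : (G → FF O) → FF O} (hl : Pool.Agent.Y63.NV.IsBlock lam) :
    lam 0 = 0 := by
  have h0 : IsClassFun (0 : G → FF O) := fun _ _ => rfl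
  have := hl.smul 0 0 h0
  rwa [zero_smul, zero_mul] at this

theorem map_sum_block {lam : (G → FF O) → FF O} (hl : Pool.Agent.Y63.NV.IsBlock lam) {ι : Type}
    (s : Finset ι) (f : ι → G → FF O) (hf : ∀ i ∈ s, IsClassFun (f i)) :
    lam (∑ i ∈ s, f i) = ∑ i ∈ s, lam (f i) := by
  have key : IsClassFun (∑ i ∈ s, f i) ∧ lam (∑ i ∈ s, f i) = ∑ i ∈ s, lam (f i) := by
    induction s using Finset.induction_on with
    | empty =>
      rw [Finset.sum_empty, Finset.sum_empty]
      exact ⟨fun _ _ => rfl, map_zero_block hl⟩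
    | insert i s hi ih =>
      obtain ⟨h1, h2⟩ := ih fun j hj => hf j (Finset.mem_insert_of_mem hj)
      have h3 := hf i (Finset.mem_insert_self i s)
      rw [Finset.sum_insert hi, Finset.sum_insert hi]
      exact ⟨Pool.Agent.N85.WM.cl_add h3 h1, by rw [hl.add _ _ h3 h1, h2]⟩
  exact key.2

/-- class functions are combinations of indicators -/
theorem beq_of {lam mu : (G → FF O) → FF O} (hl : Pool.Agent.Y63.NV.IsBlock lam)
    (hm : Pool.Agent.Y63.NV.IsBlock mu) (h : ∀ x : G, lam (pf O (ind x)) = mu (pf O (ind x))) :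
    BEq lam mu := by
  intro f hf
  have e : f = ∑ C : ConjClasses G, f C.out • pf O (ind C.out) := by
    funext g
    rw [Finset.sum_apply, Finset.sum_eq_single (ConjClasses.mk g)]
    · have h1 : IsConj (ConjClasses.mk g).out g :=
        ConjClasses.mk_eq_mk_iff_isConj.mp (Quotient.out_eq _)
      rw [Pi.smul_apply, smul_eq_mul]
      unfold pf ind
      rw [if_pos h1, ph_one, mul_one]
      obtain ⟨c, hc⟩ := isConj_iff.mp h1
      have e2 := hf c (ConjClasses.mk g).out
      rw [hc] at e2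
      exact e2
    · intro C _ hC
      rw [Pi.smul_apply, smul_eq_mul]
      unfold pf ind
      rw [if_neg, ph_zero, mul_zero]
      intro h1
      apply hC
      have h2 : ConjClasses.mk C.out = C := Quotient.out_eq C
      rw [← h2]
      exact ConjClasses.mk_eq_mk_iff_isConj.mpr h1
    · intro h1
      exact absurd (Finset.mem_univ _) h1
  have hc : ∀ C : ConjClasses G, IsClassFun (f C.out • pf O (ind C.out)) := fun C =>
    Pool.Agent.N85.WM.cl_smul _ (pf_cl (ind_cl _))
  rw [e, map_sum_block hl _ _ fun C _ => hc C, map_sum_block hm _ _ fun C _ => hc C]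
  refine Finset.sum_congr rfl fun C _ => ?_
  rw [hl.smul _ _ (pf_cl (ind_cl _)), hm.smul _ _ (pf_cl (ind_cl _)), h]

/-- the product of the differences -/
theorem prod_el {B : Set (G → ℂ)} (hB : IsBlock O B) {lam : (G → FF O) → FF O}
    (hl : Pool.Agent.Y63.NV.IsBlock lam) (x : G) (T : Finset (G → ℂ)) (hT : ∀ χ ∈ T, χ ∈ B) :
    ∃ y : G → ℂ, IsCl y ∧ (∀ g, y g ∈ O) ∧ (∀ χ ∈ T, Om y χ = 0) ∧
      lam (pf O y) = ∏ χ ∈ T, (lam (pf O (ind x)) - ph O (omega χ x)) := by
  induction T using Finset.induction_on with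
  | empty =>
    exact ⟨dl, dl_cl, dl_mem O, by simp, by rw [pf_dl, hl.one, Finset.prod_empty]⟩
  | insert a s ha ih =>
    obtain ⟨y, hy1, hy2, hy3, hy4⟩ := ih fun ψ hψ => hT ψ (Finset.mem_insert_of_mem hψ)
    have haB := hT a (Finset.mem_insert_self a s)
    have hai := hB.irr a haB
    have hcl : IsCl (fun g : G => ind x g - omega a x * dl g) := by
      intro g y
      change ind x (y * g * y⁻¹) - omega a x * dl (y * g * y⁻¹) = ind x g - omega a x * dl g
      rw [ind_cl x g y, dl_cl g y]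
    have hmem : ∀ g : G, ind x g - omega a x * dl g ∈ O := fun g =>
      sub_mem' (ind_mem O x g) (O.mul_mem _ _ (hai.omega_mem O x) (dl_mem O g))
    refine ⟨Pool.Agent.H254R3.IN.conv y (fun g => ind x g - omega a x * dl g), hy1.conv hcl,
      conv_mem hy2 hmem, ?_, ?_⟩
    · intro ψ hψ
      have hψi := hB.irr ψ (hT ψ hψ)
      rw [Om_conv hψi hy1 hcl]
      rcases Finset.mem_insert.mp hψ with rfl | hψ
      · rw [Om_mem_one hai, sub_self, mul_zero]
      · rw [hy3 ψ hψ, zero_mul]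
    · rw [pf_conv hy2 hmem, hl.mul _ _ (pf_cl hy1) (pf_cl hcl), hy4, Finset.prod_insert ha, mul_comm]
      congr 1
      have e : pf O (fun g : G => ind x g - omega a x * dl g) =
          pf O (ind x) + (-(ph O (omega a x))) • pf O dl := by
        funext g
        unfold pf
        rw [ph_sub (ind_mem O x g) (O.mul_mem _ _ (hai.omega_mem O x) (dl_mem O g)),
          ph_mul (hai.omega_mem O x) (dl_mem O g), Pi.add_apply, Pi.smul_apply, smul_eq_mul]
        ring
      rw [e, hl.add _ _ (pf_cl (ind_cl x)) (Pool.Agent.N85.WM.cl_smul _ (pf_cl dl_cl)),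
        hl.smul _ _ (pf_cl dl_cl), pf_dl, hl.one]
      ring

/-- **the functionals which do not vanish at the idempotent of a block** -/
theorem beq_of_ne {B : Set (G → ℂ)} (hB : IsBlock O B) {lam : (G → FF O) → FF O}
    (hl : Pool.Agent.Y63.NV.IsBlock lam) (h : lam (pf O (blockCoeff B)) ≠ 0) {χ : G → ℂ}
    (hχ : χ ∈ B) : BEq lam (centralValue (rd O) χ) := by
  refine beq_of hl (cv_block (hB.irr χ hχ)) fun x => ?_
  obtain ⟨y, hy1, hy2, hy3, hy4⟩ := prod_el hB hl x ((IC.Irr G).filter (· ∈ B)) (by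
    intro ψ hψ
    exact (Finset.mem_filter.mp hψ).2)
  have hcl := blockCoeff_cl hB.irr
  have hz : Pool.Agent.H254R3.IN.conv (blockCoeff B) y = fun _ => 0 := by
    apply eq_of_Om (hcl.conv hy1) (fun _ _ => rfl)
    intro ψ hψ
    rw [Om_conv hψ hcl hy1, Om_blockCoeff hB.irr hψ]
    have e0 : Om (fun _ : G => (0 : ℂ)) ψ = 0 := by
      unfold Om
      simp
    rw [e0]
    split_ifs with h1
    · rw [hy3 ψ (by rw [Finset.mem_filter, mem_Irr]; exact ⟨hψ, h1⟩), mul_zero]
    · rw [zero_mul]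
  have h1 := pf_conv (fun g => blockCoeff_mem hB g) hy2
  rw [hz] at h1
  have h2 : pf O (fun _ : G => (0 : ℂ)) = 0 := by
    funext g
    exact ph_zero
  rw [h2] at h1
  have h3 := hl.mul _ _ (pf_cl hcl) (pf_cl hy1)
  rw [← h1, map_zero_block hl, hy4] at h3
  rcases mul_eq_zero.mp h3.symm with h4 | h4
  · exact absurd h4 h
  · rw [Finset.prod_eq_zero_iff] at h4
    obtain ⟨ψ, hψ, h5⟩ := h4
    rw [sub_eq_zero.mp h5, cv_pf (hB.irr χ hχ) (ind_cl x) (ind_mem O x),
      Om_ind (hB.irr χ hχ)]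
    unfold ph
    rw [hB.red_eq (Finset.mem_filter.mp hψ).2 hχ x]

theorem val_of_mem {B : Set (G → ℂ)} (hB : IsBlock O B) {χ : G → ℂ} (hχ : IsIrr χ) :
    centralValue (rd O) χ (pf O (blockCoeff B)) = if χ ∈ B then 1 else 0 := by
  rw [cv_pf hχ (blockCoeff_cl hB.irr) fun g => blockCoeff_mem hB g, Om_blockCoeff hB.irr hχ]
  split_ifs
  · exact ph_one
  · exact ph_zero

theorem val_cases {B : Set (G → ℂ)} (hB : IsBlock O B) {lam : (G → FF O) → FF O}
    (hl : Pool.Agent.Y63.NV.IsBlock lam) :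
    lam (pf O (blockCoeff B)) = 0 ∨ lam (pf O (blockCoeff B)) = 1 := by
  by_cases h : lam (pf O (blockCoeff B)) = 0
  · exact Or.inl h
  · right
    obtain ⟨χ, hχ⟩ := hB.nonempty
    rw [beq_of_ne hB hl h hχ _ (pf_cl (blockCoeff_cl hB.irr)), val_of_mem hB (hB.irr χ hχ),
      if_pos hχ]

theorem idem_pf {B : Set (G → ℂ)} (hB : IsBlock O B) : IsIdem (pf O (blockCoeff B)) :=
  ⟨pf_cl (blockCoeff_cl hB.irr), fun _ hl => val_cases hB hl⟩

theorem val_one_iff {B : Set (G → ℂ)} (hB : IsBlock O B) {lam : (G → FF O) → FF O}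
    (hl : Pool.Agent.Y63.NV.IsBlock lam) {χ : G → ℂ} (hχ : χ ∈ B) :
    lam (pf O (blockCoeff B)) = 1 ↔ BEq lam (centralValue (rd O) χ) := by
  constructor
  · intro h
    exact beq_of_ne hB hl (by rw [h]; exact one_ne_zero) hχ
  · intro h
    rw [h _ (pf_cl (blockCoeff_cl hB.irr)), val_of_mem hB (hB.irr χ hχ), if_pos hχ]

/-- a functional belongs to at most one block -/
theorem blk_unique {B B' : Set (G → ℂ)} (hB : IsBlock O B) (hB' : IsBlock O B')
    {lam : (G → FF O) → FF O} (hl : Pool.Agent.Y63.NV.IsBlock lam)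
    (h : lam (pf O (blockCoeff B)) ≠ 0) (h' : lam (pf O (blockCoeff B')) ≠ 0) : B = B' := by
  obtain ⟨χ, hχ⟩ := hB.nonempty
  have h1 := beq_of_ne hB hl h hχ
  rw [h1 _ (pf_cl (blockCoeff_cl hB'.irr)), val_of_mem hB' (hB.irr χ hχ)] at h'
  have h2 : χ ∈ B' := by
    by_contra h3
    rw [if_neg h3] at h'
    exact h' rfl
  by_contra hne
  exact Set.disjoint_left.mp (Pool.Agent.Q288.MB.block_disjoint hB hB' hne) hχ h2

/-- unions of blocks -/
structure IsU (O : ValuationSubring ℂ) (U : Set (G → ℂ)) : Prop where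
  irr : ∀ χ ∈ U, IsIrr χ
  cl : ∀ χ ∈ U, blk O χ ⊆ U

/-- the blocks in a union of blocks -/
def bks (O : ValuationSubring ℂ) (U : Set (G → ℂ)) : Finset (Set (G → ℂ)) :=
  (fs U).image (blk O)

theorem mem_bks {U : Set (G → ℂ)} (hU : IsU O U) {B : Set (G → ℂ)} :
    B ∈ bks O U ↔ IsBlock O B ∧ B ⊆ U := by
  unfold bks
  rw [Finset.mem_image]
  constructor
  · rintro ⟨χ, hχ, rfl⟩
    rw [mem_fs hU.irr] at hχ
    exact ⟨blk_block (hU.irr χ hχ), hU.cl χ hχ⟩
  · rintro ⟨h1, h2⟩
    obtain ⟨χ, hχ⟩ := h1.nonempty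
    refine ⟨χ, (mem_fs hU.irr).mpr (h2 hχ), ?_⟩
    by_contra hne
    exact Set.disjoint_left.mp (Pool.Agent.Q288.MB.block_disjoint (blk_block (O := O)
      (h1.irr χ hχ)) h1 hne) (mem_blk_self (h1.irr χ hχ)) hχ

theorem coeff_U {U : Set (G → ℂ)} (hU : IsU O U) (g : G) :
    blockCoeff U g = ∑ b ∈ bks O U, blockCoeff b g := by
  unfold bks
  rw [blockCoeff_fs hU.irr]
  have h2 : ∑ χ ∈ fs U, χ 1 * χ g⁻¹ =
      ∑ b ∈ (fs U).image (blk O), ∑ χ ∈ (fs U).filter (fun χ => blk O χ = b), χ 1 * χ g⁻¹ :=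
    (Finset.sum_fiberwise_of_maps_to (fun χ hχ => Finset.mem_image_of_mem _ hχ) _).symm
  rw [h2, Finset.mul_sum]
  refine Finset.sum_congr rfl fun b hb => ?_
  obtain ⟨χ₀, h0, rfl⟩ := Finset.mem_image.mp hb
  have h0U := (mem_fs hU.irr).mp h0
  have h0i := hU.irr _ h0U
  rw [blockCoeff_fs (blk_block h0i).irr]
  congr 1
  apply Finset.sum_congr _ fun _ _ => rfl
  ext χ
  rw [Finset.mem_filter, mem_fs hU.irr, mem_fs (blk_block (O := O) h0i).irr]
  constructor
  · rintro ⟨h3, h4⟩
    rw [← h4]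
    exact mem_blk_self (hU.irr _ h3)
  · intro h3
    exact ⟨hU.cl _ h0U h3, blk_eq h0i h3⟩

theorem pf_U {U : Set (G → ℂ)} (hU : IsU O U) :
    pf O (blockCoeff U) = ∑ b ∈ bks O U, pf O (blockCoeff b) := by
  funext g
  rw [Finset.sum_apply]
  unfold pf
  rw [coeff_U hU, ph_sum _ _ fun b hb => blockCoeff_mem ((mem_bks hU).mp hb).1 g]

/-- the values at the idempotent of a union of blocks -/
theorem val_U {U : Set (G → ℂ)} (hU : IsU O U) {lam : (G → FF O) → FF O}
    (hl : Pool.Agent.Y63.NV.IsBlock lam) :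
    (lam (pf O (blockCoeff U)) = 1 ↔ ∃ b ∈ bks O U, lam (pf O (blockCoeff b)) = 1) ∧
    (lam (pf O (blockCoeff U)) = 0 ∨ lam (pf O (blockCoeff U)) = 1) := by
  have h1 : lam (pf O (blockCoeff U)) = ∑ b ∈ bks O U, lam (pf O (blockCoeff b)) := by
    rw [pf_U hU, map_sum_block hl _ _ fun b hb =>
      pf_cl (blockCoeff_cl ((mem_bks hU).mp hb).1.irr)]
  by_cases h : ∃ b ∈ bks O U, lam (pf O (blockCoeff b)) = 1
  · obtain ⟨b, hb, h2⟩ := h
    have h3 : lam (pf O (blockCoeff U)) = 1 := by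
      rw [h1, Finset.sum_eq_single b]
      · exact h2
      · intro c hc hne
        by_contra h4
        exact hne (blk_unique ((mem_bks hU).mp hc).1 ((mem_bks hU).mp hb).1 hl h4
          (by rw [h2]; exact one_ne_zero))
      · intro h4
        exact absurd hb h4
    exact ⟨⟨fun _ => ⟨b, hb, h2⟩, fun _ => h3⟩, Or.inr h3⟩
  · have h3 : lam (pf O (blockCoeff U)) = 0 := by
      rw [h1]
      refine Finset.sum_eq_zero fun b hb => ?_
      rcases val_cases ((mem_bks hU).mp hb).1 hl with h2 | h2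
      · exact h2
      · exact absurd ⟨b, hb, h2⟩ h
    refine ⟨⟨fun h4 => ?_, fun h4 => absurd h4 h⟩, Or.inl h3⟩
    rw [h3] at h4
    exact absurd h4 zero_ne_one

theorem idem_U {U : Set (G → ℂ)} (hU : IsU O U) : IsIdem (pf O (blockCoeff U)) :=
  ⟨pf_cl (blockCoeff_cl hU.irr), fun _ hl => (val_U hU hl).2⟩

theorem isU_block {B : Set (G → ℂ)} (hB : IsBlock O B) : IsU O B :=
  ⟨hB.irr, fun χ hχ => by
    have h1 : blk O χ = B := by
      by_contra hne
      exact Set.disjoint_left.mp (Pool.Agent.Q288.MB.block_disjoint (blk_block (O := O)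
        (hB.irr χ hχ)) hB hne) (mem_blk_self (hB.irr χ hχ)) hχ
    exact h1.le⟩

end funs

section ind

variable {p : ℕ} [Fact p.Prime] {O : ValuationSubring ℂ} (hpO : (p : ℂ) ∈ O.nonunits)
  {G : Type} [Group G] [Fintype G]

include hpO

theorem ind_block {σ : Set (Subgroup G)} (hσ : IsPChain p σ) {θ : chainStabilizer σ → ℂ}
    (hθ : IsIrr θ) : Pool.Agent.Y63.NV.IsBlock
      (fun f : G → FF O => centralValue (rd O) θ (fun x => f x)) := by
  haveI := charP_FF (O := O) hpO
  exact Pool.Agent.R674.KB.kblk p (FF O) (rd O) G σ θ hσ hθ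

/-- **block induction over `O` and over the residue field** -/
theorem mem_IndS_iff {B : Set (G → ℂ)} (hB : IsBlock O B) {σ : Set (Subgroup G)}
    (hσ : IsPChain p σ) {θ : chainStabilizer σ → ℂ} (hθ : IsIrr θ) :
    θ ∈ IndS O B (Subtype.val : chainStabilizer σ → G) ↔
      centralValue (rd O) θ (fun x => pf O (blockCoeff B) x) = 1 := by
  obtain ⟨χ, hχ⟩ := hB.nonempty
  have hl := ind_block hpO hσ hθ
  rw [val_one_iff hB hl hχ]
  have : Fintype (chainStabilizer σ) := Fintype.ofFinite _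
  rw [mem_IndS hB hχ]
  have hval : ∀ x : G, centralValue (rd O) θ (fun y : chainStabilizer σ => pf O (ind x) y) =
      ph O (L (Subtype.val : chainStabilizer σ → G) θ x) := by
    intro x
    have h1 := cv_pf (O := O) hθ (f := fun y : chainStabilizer σ => ind x (y : G))
      (fun g y => ind_cl x (g : G) (y : G)) (fun g => ind_mem O x g)
    have h2 : Om (fun y : chainStabilizer σ => ind x (y : G)) θ =
        L (Subtype.val : chainStabilizer σ → G) θ x := by
      unfold Om L ind
      congr 1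
      refine Finset.sum_congr rfl fun y _ => ?_
      by_cases h : IsConj x (y : G)
      · change (if IsConj x (y : G) then (1 : ℂ) else 0) * θ y = _
        rw [if_pos h, if_pos h, one_mul]
      · change (if IsConj x (y : G) then (1 : ℂ) else 0) * θ y = _
        rw [if_neg h, if_neg h, zero_mul]
    rw [← h2, ← h1]
    rfl
  have hmem : ∀ x : G, L (Subtype.val : chainStabilizer σ → G) θ x ∈ O := fun x =>
    Pool.Agent.Q90.WR.L_mem (π := (chainStabilizer σ).subtype) hθ O x
  constructor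
  · rintro ⟨-, h⟩
    refine beq_of hl (cv_block (hB.irr χ hχ)) fun x => ?_
    rw [hval, cv_pf (hB.irr χ hχ) (ind_cl x) (ind_mem O x), Om_ind (hB.irr χ hχ)]
    unfold ph
    rw [(h x).2]
  · intro h
    refine ⟨hθ, fun x => ⟨hmem x, ?_⟩⟩
    have h1 := h _ (pf_cl (ind_cl x))
    change centralValue (rd O) θ (fun y : chainStabilizer σ => pf O (ind x) y) = _ at h1
    rw [hval, cv_pf (hB.irr χ hχ) (ind_cl x) (ind_mem O x), Om_ind (hB.irr χ hχ)] at h1
    exact ph_inj h1

/-- the number of the characters in a union of blocks -/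
theorem knum_U {U : Set (G → ℂ)} (hU : IsU O U) {σ : Set (Subgroup G)} (hσ : IsPChain p σ) :
    Knum (rd O) (fun x : chainStabilizer σ => pf O (blockCoeff U) x) 1 =
      ∑ b ∈ bks O U, Nat.card (IndS O b (Subtype.val : chainStabilizer σ → G)) := by
  have : Fintype (chainStabilizer σ) := Fintype.ofFinite _
  have hcard : ∀ b : Set (G → ℂ), Nat.card (IndS O b (Subtype.val : chainStabilizer σ → G)) =
      ((IC.Irr (chainStabilizer σ)).filter
        (· ∈ IndS O b (Subtype.val : chainStabilizer σ → G))).card := by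
    intro b
    rw [← Fintype.card_coe, ← Nat.card_eq_fintype_card]
    refine Nat.card_congr (Equiv.subtypeEquivRight fun χ => ?_)
    rw [Finset.mem_filter, mem_Irr]
    exact ⟨fun h => ⟨h.1, h⟩, fun h => h.2⟩
  unfold Knum
  have e1 : Nat.card {χ : chainStabilizer σ → ℂ // IsIrreducibleCharacter χ ∧
      centralValue (rd O) χ (fun x : chainStabilizer σ => pf O (blockCoeff U) x) = 1} =
      ((IC.Irr (chainStabilizer σ)).filter fun χ =>
        centralValue (rd O) χ (fun x : chainStabilizer σ => pf O (blockCoeff U) x) = 1).card := by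
    rw [← Fintype.card_coe, ← Nat.card_eq_fintype_card]
    refine Nat.card_congr (Equiv.subtypeEquivRight fun χ => ?_)
    rw [Finset.mem_filter]
    exact and_congr_left fun _ => IC.mem_Irr.symm
  rw [e1, Finset.sum_congr rfl fun b _ => hcard b, ← Finset.card_biUnion]
  · congr 1
    ext θ
    rw [Finset.mem_filter, Finset.mem_biUnion]
    constructor
    · rintro ⟨h1, h2⟩
      obtain ⟨b, hb, h3⟩ := ((val_U hU (ind_block hpO hσ (mem_Irr.mp h1))).1.mp h2)
      refine ⟨b, hb, Finset.mem_filter.mpr ⟨h1, ?_⟩⟩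
      rw [mem_IndS_iff hpO ((mem_bks hU).mp hb).1 hσ (mem_Irr.mp h1)]
      exact h3
    · rintro ⟨b, hb, h1⟩
      rw [Finset.mem_filter] at h1
      refine ⟨h1.1, (val_U hU (ind_block hpO hσ (mem_Irr.mp h1.1))).1.mpr ⟨b, hb, ?_⟩⟩
      exact (mem_IndS_iff hpO ((mem_bks hU).mp hb).1 hσ (mem_Irr.mp h1.1)).mp h1.2
  · intro b hb c hc hne
    rw [Function.onFun, Finset.disjoint_left]
    intro θ h1 h2
    rw [Finset.mem_filter] at h1 h2
    have hl := ind_block hpO hσ (mem_Irr.mp h1.1)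
    apply hne
    refine blk_unique ((mem_bks hU).mp hb).1 ((mem_bks hU).mp hc).1 hl ?_ ?_
    · have h3 := (mem_IndS_iff hpO ((mem_bks hU).mp hb).1 hσ (mem_Irr.mp h1.1)).mp h1.2
      change centralValue (rd O) θ (fun x => pf O (blockCoeff b) x) ≠ 0
      rw [h3]
      exact one_ne_zero
    · have h3 := (mem_IndS_iff hpO ((mem_bks hU).mp hc).1 hσ (mem_Irr.mp h1.1)).mp h2.2
      change centralValue (rd O) θ (fun x => pf O (blockCoeff c) x) ≠ 0
      rw [h3]
      exact one_ne_zero

/-- the alternating sum of a union of blocks -/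
theorem aB_U {U : Set (G → ℂ)} (hU : IsU O U) :
    aB (rd O) p G (pf O (blockCoeff U)) 1 = ∑ b ∈ bks O U, blkAlt p O b := by
  have : Fintype (Quotient (chainSetoid p G)) := Fintype.ofFinite _
  unfold aB blkAlt alternatingSum
  simp only [finsum_eq_sum_of_fintype]
  rw [Finset.sum_comm]
  refine Finset.sum_congr rfl fun c _ => ?_
  rw [knum_U hpO hU c.out.2, Nat.cast_sum, Finset.mul_sum]

theorem aB_block {B : Set (G → ℂ)} (hB : IsBlock O B) :
    aB (rd O) p G (pf O (blockCoeff B)) 1 = blkAlt p O B := by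
  have h1 : bks O B = {B} := by
    ext b
    rw [mem_bks (isU_block hB), Finset.mem_singleton]
    constructor
    · rintro ⟨h1, h2⟩
      obtain ⟨χ, hχ⟩ := h1.nonempty
      by_contra hne
      exact Set.disjoint_left.mp (Pool.Agent.Q288.MB.block_disjoint h1 hB hne) hχ (h2 hχ)
    · rintro rfl
      exact ⟨hB, le_rfl⟩
  rw [aB_U hpO (isU_block hB), h1, Finset.sum_singleton]

end ind

end Pool.Agent.Helper3K
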