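import Pool.Agent.K3h3.KB.Cov1

/-!
# Characters and normal subgroups of prime index
-/

set_option autoImplicit false
set_option linter.unusedSectionVars false
set_option linter.style.haveILetI false

open scoped BigOperators Classical

noncomputable section

namespace Pool.Agent.Helper3K

open Pool.Agent.Helper884 Pool.Agent.H254R3.IN
open Pool.Agent.Helper884.IC (Irr B_irr B_smul_left B_comm IsIrrChar cardG_ne)
open Pool.Agent.Y62 (tw tw_irr tw_mul tw_one)
open Pool.Agent.Y63.AWC (res cj mult mult_spec res_eq clifford cj_irr cj_mul cj_one res_class B_cj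
  ind_eq mult_cj sum_M)
open Pool.Agent.K3h3.KB (exists_cj exists_mult cj_mem_M cj_at_one)

section one

variable {X : Type} [Group X] [Fintype X] (M : Subgroup X) [hM : M.Normal]

/-- the stabiliser of a character of the normal subgroup -/
def stab (θ : M → ℂ) : Subgroup X where
  carrier := {x | cj M x θ = θ}
  one_mem' := cj_one M θ
  mul_mem' := by
    intro a b (ha : cj M a θ = θ) (hb : cj M b θ = θ)
    change cj M (a * b) θ = θ
    rw [cj_mul, ha, hb]
  inv_mem' := by
    intro a (ha : cj M a θ = θ)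
    change cj M a⁻¹ θ = θ
    conv_lhs => rw [← ha]
    rw [← cj_mul, mul_inv_cancel, cj_one]

theorem le_stab {θ : M → ℂ} (h : IsIrr θ) : M ≤ stab M θ := fun x hx => cj_mem_M M h ⟨x, hx⟩

/-- the character is invariant -/
def Inv (θ : M → ℂ) : Prop := ∀ x : X, cj M x θ = θ

theorem cases_index {q : ℕ} (hq : q.Prime) (hi : M.index = q) (T : Subgroup X) (h : M ≤ T) :
    T = M ∨ T = ⊤ := by
  have h1 := Subgroup.relIndex_mul_index h
  rw [hi] at h1
  rcases (Nat.dvd_prime hq).1 ⟨_, h1.symm⟩ with h2 | h2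
  · left
    exact le_antisymm (Subgroup.relIndex_eq_one.mp h2) h
  · right
    rw [h2] at h1
    exact Subgroup.index_eq_one.mp (Nat.eq_of_mul_eq_mul_left hq.pos (by rw [h1, mul_one]))

theorem stab_card {q : ℕ} (hq : q.Prime) (hi : M.index = q) {θ : M → ℂ} (h : IsIrr θ) :
    Nat.card {x : X // cj M x θ = θ} = if Inv M θ then q * Nat.card M else Nat.card M := by
  have e : Nat.card {x : X // cj M x θ = θ} = Nat.card (stab M θ) := rfl
  rw [e]
  rcases cases_index M hq hi (stab M θ) (le_stab M h) with h1 | h1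
  · have h2 : ¬ Inv M θ := by
      intro h2
      have h3 : stab M θ = ⊤ := by
        rw [Subgroup.eq_top_iff']
        exact h2
      rw [h1] at h3
      have h4 := Subgroup.index_eq_one.mpr h3
      rw [hi] at h4
      exact hq.one_lt.ne' h4
    rw [if_neg h2, h1]
  · have h2 : Inv M θ := fun x => by
      have : x ∈ stab M θ := by rw [h1]; exact Subgroup.mem_top x
      exact this
    rw [if_pos h2, h1, Subgroup.card_top, ← M.card_mul_index, hi, mul_comm]

theorem sum_sq {q : ℕ} (hq : q.Prime) (hi : M.index = q) {θ : M → ℂ} (h : IsIrr θ) :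
    ∑ χ ∈ Irr X, mult M χ θ * mult M χ θ = if Inv M θ then q else 1 := by
  have h1 := clifford M θ θ h h
  rw [stab_card M hq hi h] at h1
  have h2 : 0 < Nat.card M := Nat.card_pos
  split_ifs at h1 ⊢ with h3
  · exact Nat.eq_of_mul_eq_mul_left h2 (by rw [h1, mul_comm])
  · exact Nat.eq_of_mul_eq_mul_left h2 (by rw [h1, mul_one])

/-- the restriction of a character over an invariant character -/
theorem res_inv {χ : X → ℂ} (hχ : IsIrr χ) {θ : M → ℂ} (h : IsIrr θ) (hi : Inv M θ)
    (hm : mult M χ θ ≠ 0) : res M χ = (mult M χ θ : ℂ) • θ := by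
  rw [res_eq M hχ, Finset.sum_eq_single θ]
  · intro ψ hψ hne
    have h1 : mult M χ ψ = 0 := by
      by_contra h2
      obtain ⟨x, hx⟩ := exists_cj M hχ (mem_Irr.mp hψ) h h2 hm
      exact hne (hx.symm.trans (hi x))
    rw [h1, Nat.cast_zero, zero_smul]
  · intro h1
    exact absurd (mem_Irr.mpr h) h1

theorem not_van {q : ℕ} (hq : q.Prime) (hi : M.index = q) {χ : X → ℂ} (hχ : IsIrr χ) {θ : M → ℂ}
    (h : IsIrr θ) (hinv : Inv M θ) (hm : mult M χ θ ≠ 0) : ∃ x, x ∉ M ∧ χ x ≠ 0 := by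
  by_contra hcon
  push Not at hcon
  have h1 : IC.B χ χ = 1 := by rw [B_irr hχ hχ, if_pos rfl]
  have h2 : IC.B (res M χ) (res M χ) = (mult M χ θ : ℂ) ^ 2 := by
    rw [res_inv M hχ h hinv hm, B_smul_left, B_comm, B_smul_left, B_irr h h, if_pos rfl]
    ring
  have h3 : (Nat.card X : ℂ) * IC.B χ χ = (Nat.card M : ℂ) * IC.B (res M χ) (res M χ) := by
    unfold IC.B
    rw [← mul_assoc, mul_inv_cancel₀ cardG_ne, one_mul, ← mul_assoc, mul_inv_cancel₀ cardG_ne,
      one_mul, sum_M M (fun g => χ g * χ g⁻¹) (fun g hg => by rw [hcon g hg, zero_mul])]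
    rfl
  rw [h1, h2, mul_one] at h3
  have h4 : Nat.card X = Nat.card M * (mult M χ θ) ^ 2 := by exact_mod_cast h3
  rw [← M.card_mul_index, hi] at h4
  have h5 : q = (mult M χ θ) ^ 2 := Nat.eq_of_mul_eq_mul_left Nat.card_pos h4
  exact (Irreducible.not_isSquare hq) ⟨mult M χ θ, by rw [← sq]; exact h5⟩

theorem res_tw {l : X →* ℂˣ} (hl : ∀ m ∈ M, l m = 1) (χ : X → ℂ) :
    res M (tw l χ) = res M χ := by
  funext m
  unfold res tw
  rw [hl _ m.2, Units.val_one, one_mul]

theorem mult_tw {l : X →* ℂˣ} (hl : ∀ m ∈ M, l m = 1) (χ : X → ℂ) (θ : M → ℂ) :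
    mult M (tw l χ) θ = mult M χ θ := by
  unfold mult
  rw [res_tw M hl]

/-- the number of characters over a character of `M` -/
theorem card_over_eq {q : ℕ} (hq : q.Prime) (hi : M.index = q) {θ : M → ℂ} (h : IsIrr θ) :
    ((Irr X).filter fun χ => mult M χ θ ≠ 0).card = if Inv M θ then q else 1 := by
  have hs := sum_sq M hq hi h
  have hle : ((Irr X).filter fun χ => mult M χ θ ≠ 0).card ≤
      ∑ χ ∈ Irr X, mult M χ θ * mult M χ θ := by
    rw [Finset.card_filter]
    refine Finset.sum_le_sum fun χ _ => ?_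
    split_ifs with h3
    · exact Nat.one_le_iff_ne_zero.mpr (mul_ne_zero h3 h3)
    · exact Nat.zero_le _
  have hex : ∃ χ ∈ Irr X, mult M χ θ ≠ 0 := by
    by_contra hcon
    push Not at hcon
    rw [Finset.sum_eq_zero fun χ hχ => by rw [hcon χ hχ, zero_mul]] at hs
    have h1 : (if Inv M θ then q else 1) ≠ 0 := by
      split_ifs
      · exact hq.ne_zero
      · exact one_ne_zero
    exact h1 hs.symm
  obtain ⟨χ, hχ, hm⟩ := hex
  rw [hs] at hle
  refine le_antisymm hle ?_
  split_ifs with hinv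
  · -- the twists
    have hcard : Nat.card (X ⧸ M) = q := by rw [← Subgroup.index_eq_card, hi]
    haveI : Fact q.Prime := ⟨hq⟩
    haveI : IsCyclic (X ⧸ M) := isCyclic_of_prime_card hcard
    letI : CommGroup (X ⧸ M) := IsCyclic.commGroup
    have hdual : Nat.card ((X ⧸ M) →* ℂˣ) = q :=
      (CommGroup.card_monoidHom_of_hasEnoughRootsOfUnity (X ⧸ M) ℂ).trans hcard
    haveI : Finite ((X ⧸ M) →* ℂˣ) :=
      Nat.finite_of_card_ne_zero (by rw [hdual]; exact hq.ne_zero)
    haveI : Fintype ((X ⧸ M) →* ℂˣ) := Fintype.ofFinite _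
    let L : ((X ⧸ M) →* ℂˣ) → (X →* ℂˣ) := fun l => l.comp (QuotientGroup.mk' M)
    have hL : ∀ l, ∀ m ∈ M, L l m = 1 := by
      intro l m hm
      have e : QuotientGroup.mk' M m = 1 := (QuotientGroup.eq_one_iff m).mpr hm
      change l (QuotientGroup.mk' M m) = 1
      rw [e, map_one]
    have hinj : Function.Injective fun l => tw (L l) χ := by
      intro l l' hll
      by_contra hne
      obtain ⟨x, hx, hx0⟩ := not_van M hq hi (mem_Irr.mp hχ) h hinv hm
      have h1 : ((L l x : ℂˣ) : ℂ) = ((L l' x : ℂˣ) : ℂ) :=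
        mul_right_cancel₀ hx0 (congrFun hll x)
      have h2 : L l x = L l' x := Units.ext h1
      -- the equaliser is a subgroup
      have h3 : (MonoidHom.eqLocus (L l) (L l')) = ⊤ := by
        rcases cases_index M hq hi (MonoidHom.eqLocus (L l) (L l'))
          (fun m hm => by
            change L l m = L l' m
            rw [hL l m hm, hL l' m hm]) with h4 | h4
        · exact absurd (h4 ▸ (show x ∈ MonoidHom.eqLocus (L l) (L l') from h2)) hx
        · exact h4
      apply hne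
      refine MonoidHom.ext fun y => ?_
      obtain ⟨y, rfl⟩ := QuotientGroup.mk_surjective y
      have h5 : y ∈ MonoidHom.eqLocus (L l) (L l') := by rw [h3]; exact Subgroup.mem_top y
      have h6 : L l y = L l' y := h5
      exact h6
    calc q = Fintype.card ((X ⧸ M) →* ℂˣ) := by rw [← Nat.card_eq_fintype_card, hdual]
      _ = (Finset.univ.image fun l => tw (L l) χ).card := by
        rw [Finset.card_image_of_injective _ hinj, Finset.card_univ]
      _ ≤ _ := by
        refine Finset.card_le_card fun ψ hψ => ?_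
        obtain ⟨l, -, rfl⟩ := Finset.mem_image.mp hψ
        rw [Finset.mem_filter]
        exact ⟨mem_Irr.mpr (tw_irr _ (mem_Irr.mp hχ)), by rw [mult_tw M (hL l)]; exact hm⟩
  · exact Finset.card_pos.mpr ⟨χ, Finset.mem_filter.mpr ⟨hχ, hm⟩⟩

/-- the number of the constituents of the restriction -/
theorem card_under_eq {q : ℕ} (hq : q.Prime) (hi : M.index = q) {χ : X → ℂ} (hχ : IsIrr χ)
    {θ : M → ℂ} (h : IsIrr θ) (hm : mult M χ θ ≠ 0) :
    ((Irr M).filter fun ψ => mult M χ ψ ≠ 0).card = if Inv M θ then 1 else q := by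
  have himg : (Irr M).filter (fun ψ => mult M χ ψ ≠ 0) =
      Finset.univ.image (fun x : X => cj M x θ) := by
    ext ψ
    rw [Finset.mem_filter, Finset.mem_image]
    constructor
    · rintro ⟨h1, h2⟩
      obtain ⟨x, hx⟩ := exists_cj M hχ (mem_Irr.mp h1) h h2 hm
      exact ⟨x, Finset.mem_univ x, hx⟩
    · rintro ⟨x, -, rfl⟩
      exact ⟨mem_Irr.mpr (cj_irr M x h), by rw [mult_cj M hχ h]; exact hm⟩
  rw [himg]
  split_ifs with hinv
  · have : Finset.univ.image (fun x : X => cj M x θ) = {θ} := by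
      ext ψ
      rw [Finset.mem_image, Finset.mem_singleton]
      constructor
      · rintro ⟨x, -, rfl⟩
        exact hinv x
      · rintro rfl
        exact ⟨1, Finset.mem_univ _, cj_one M ψ⟩
    rw [this, Finset.card_singleton]
  · have hfib : ∀ ψ ∈ Finset.univ.image (fun x : X => cj M x θ),
        (Finset.univ.filter fun x : X => cj M x θ = ψ).card = Nat.card M := by
      intro ψ hψ
      obtain ⟨y, -, rfl⟩ := Finset.mem_image.mp hψ
      have h1 := clifford M (cj M y θ) θ (cj_irr M y h) h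
      have h2 : ∑ χ ∈ Irr X, mult M χ (cj M y θ) * mult M χ θ = 1 := by
        rw [Finset.sum_congr rfl fun χ hχ => by rw [mult_cj M (mem_Irr.mp hχ) h],
          sum_sq M hq hi h, if_neg hinv]
      rw [h2, mul_one] at h1
      rw [h1, Nat.card_eq_fintype_card, Fintype.card_subtype]
    have h1 := Finset.card_eq_sum_card_image (fun x : X => cj M x θ) Finset.univ
    rw [Finset.sum_congr rfl hfib, Finset.sum_const, smul_eq_mul, Finset.card_univ,
      ← Nat.card_eq_fintype_card, ← M.card_mul_index, hi, mul_comm] at h1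
    exact (Nat.eq_of_mul_eq_mul_right Nat.card_pos h1).symm

/-- **Clifford theory for normal subgroups of prime index.** -/
theorem count_over {q : ℕ} (hq : q.Prime) (hi : M.index = q) (A : (M → ℂ) → Prop)
    (hA : ∀ x : X, ∀ θ, IsIrr θ → A θ → A (cj M x θ)) :
    q * ((Irr X).filter fun χ => ∃ θ, IsIrr θ ∧ A θ ∧ mult M χ θ ≠ 0).card +
        ((Irr M).filter fun θ => A θ ∧ Inv M θ).card =
      ((Irr M).filter fun θ => A θ).card +
        q ^ 2 * ((Irr M).filter fun θ => A θ ∧ Inv M θ).card := by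
  set Y1 := (Irr X).filter fun χ => ∃ θ, IsIrr θ ∧ (A θ ∧ Inv M θ) ∧ mult M χ θ ≠ 0 with hY1
  set Y2 := (Irr X).filter fun χ => ∃ θ, IsIrr θ ∧ (A θ ∧ ¬ Inv M θ) ∧ mult M χ θ ≠ 0 with hY2
  have hY : (Irr X).filter (fun χ => ∃ θ, IsIrr θ ∧ A θ ∧ mult M χ θ ≠ 0) = Y1 ∪ Y2 := by
    ext χ
    simp only [hY1, hY2, Finset.mem_filter, Finset.mem_union]
    constructor
    · rintro ⟨h1, θ, h2, h3, h4⟩
      by_cases h5 : Inv M θ
      · exact Or.inl ⟨h1, θ, h2, ⟨h3, h5⟩, h4⟩
      · exact Or.inr ⟨h1, θ, h2, ⟨h3, h5⟩, h4⟩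
    · rintro (⟨h1, θ, h2, ⟨h3, h5⟩, h4⟩ | ⟨h1, θ, h2, ⟨h3, h5⟩, h4⟩)
      · exact ⟨h1, θ, h2, h3, h4⟩
      · exact ⟨h1, θ, h2, h3, h4⟩
  have hdis : Disjoint Y1 Y2 := by
    rw [Finset.disjoint_left]
    intro χ h1 h2
    simp only [hY1, hY2, Finset.mem_filter] at h1 h2
    obtain ⟨hχ, θ, i1, ⟨-, i2⟩, i3⟩ := h1
    obtain ⟨-, ψ, j1, ⟨-, j2⟩, j3⟩ := h2
    obtain ⟨x, hx⟩ := exists_cj M (mem_Irr.mp hχ) j1 i1 j3 i3
    rw [i2 x] at hx
    subst hx
    exact j2 i2
  have key : ∀ (P : (M → ℂ) → Prop) (a b : ℕ),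
      (∀ θ, IsIrr θ → P θ → ((Irr X).filter fun χ => mult M χ θ ≠ 0).card = a) →
      (∀ χ θ, IsIrr χ → IsIrr θ → P θ → mult M χ θ ≠ 0 →
        ((Irr M).filter fun ψ => mult M χ ψ ≠ 0).card = b) →
      (∀ x : X, ∀ θ, IsIrr θ → P θ → P (cj M x θ)) →
      b * ((Irr X).filter fun χ => ∃ θ, IsIrr θ ∧ P θ ∧ mult M χ θ ≠ 0).card =
        a * ((Irr M).filter fun θ => P θ).card := by
    intro P a b h1 h2 h3
    have e1 : ∑ θ ∈ (Irr M).filter (fun θ => P θ), ∑ χ ∈ Irr X,
        (if mult M χ θ ≠ 0 then 1 else 0) = a * ((Irr M).filter fun θ => P θ).card := by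
      rw [mul_comm, ← smul_eq_mul, ← Finset.sum_const]
      refine Finset.sum_congr rfl fun θ hθ => ?_
      rw [Finset.mem_filter] at hθ
      rw [← Finset.card_filter]
      exact h1 θ (mem_Irr.mp hθ.1) hθ.2
    have e2 : ∑ χ ∈ Irr X, ∑ θ ∈ (Irr M).filter (fun θ => P θ),
        (if mult M χ θ ≠ 0 then 1 else 0) =
        b * ((Irr X).filter fun χ => ∃ θ, IsIrr θ ∧ P θ ∧ mult M χ θ ≠ 0).card := by
      rw [mul_comm, ← smul_eq_mul, ← Finset.sum_const, Finset.sum_filter]
      refine Finset.sum_congr rfl fun χ hχ => ?_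
      rw [← Finset.card_filter, Finset.filter_filter]
      split_ifs with h4
      · obtain ⟨θ, i1, i2, i3⟩ := h4
        rw [← h2 χ θ (mem_Irr.mp hχ) i1 i2 i3]
        congr 1
        refine Finset.filter_congr fun ψ hψ => ?_
        constructor
        · exact fun h => h.2
        · intro h
          obtain ⟨x, hx⟩ := exists_cj M (mem_Irr.mp hχ) (mem_Irr.mp hψ) i1 h i3
          exact ⟨hx ▸ h3 x θ i1 i2, h⟩
      · rw [Finset.card_eq_zero, Finset.filter_eq_empty_iff]
        rintro ψ hψ ⟨i1, i2⟩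
        exact h4 ⟨ψ, mem_Irr.mp hψ, i1, i2⟩
    rw [← e1, ← e2, Finset.sum_comm]
  have k1 := key (fun θ => A θ ∧ Inv M θ) q 1
    (fun θ h1 h2 => by rw [card_over_eq M hq hi h1, if_pos h2.2])
    (fun χ θ h1 h2 h3 h4 => by rw [card_under_eq M hq hi h1 h2 h4, if_pos h3.2])
    (fun x θ h1 h2 => ⟨hA x θ h1 h2.1, by rw [h2.2 x]; exact h2.2⟩)
  have k2 := key (fun θ => A θ ∧ ¬ Inv M θ) 1 q
    (fun θ h1 h2 => by rw [card_over_eq M hq hi h1, if_neg h2.2])
    (fun χ θ h1 h2 h3 h4 => by rw [card_under_eq M hq hi h1 h2 h4, if_neg h3.2])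
    (fun x θ h1 h2 => ⟨hA x θ h1 h2.1, fun h3 => h2.2 (by
      have h4 : θ = cj M x⁻¹ (cj M x θ) := by rw [← cj_mul, mul_inv_cancel, cj_one]
      rw [h4, h3 x⁻¹]
      exact h3)⟩)
  rw [one_mul] at k1 k2
  have k3 : ((Irr M).filter fun θ => A θ ∧ Inv M θ).card +
      ((Irr M).filter fun θ => A θ ∧ ¬ Inv M θ).card = ((Irr M).filter fun θ => A θ).card := by
    rw [← Finset.filter_filter, ← Finset.filter_filter]
    exact Finset.card_filter_add_card_filter_not _
  rw [hY, Finset.card_union_of_disjoint hdis, ← k3, mul_add]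
  have e1 : Y1.card = q * ((Irr M).filter fun θ => A θ ∧ Inv M θ).card := by
    rw [hY1]
    convert k1
  have e2 : q * Y2.card = ((Irr M).filter fun θ => A θ ∧ ¬ Inv M θ).card := by
    rw [hY2]
    convert k2
  rw [e1, e2]
  ring

end one

end Pool.Agent.Helper3K
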