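import Pool.Agent.Q90.WR.Cfn
import Pool.Agent.N85.WM.Val

/-!
# Invariant `p`-subgroups of wreath products with cyclic groups of prime order
-/

set_option autoImplicit false
set_option linter.unusedSectionVars false

open scoped BigOperators Classical

noncomputable section

namespace Pool.Agent.Helper3K

open Pool.Agent.Y63.KR
open Pool.Agent.N85.WM (Wr Base shiftHom)
open Pool.Agent.Q90.WR (inv mem_inv conjSub_bot bot_mem W_of_weight exists_weight Ch W_sum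
  exists_moebius)

section basic

variable {q : ℕ} {G : Type} [Group G]

/-- the shift -/
abbrev sft (x : Wr q G) : ZMod q := x.right.toAdd

theorem mulL (x y : Wr q G) (i : ZMod q) : (x * y).left i = x.left i * y.left (i - sft x) := rfl

theorem mulS (x y : Wr q G) : sft (x * y) = sft x + sft y := rfl

theorem invS (x : Wr q G) : sft x⁻¹ = - sft x := rfl

theorem oneL (i : ZMod q) : (1 : Wr q G).left i = 1 := rfl

theorem oneS : sft (1 : Wr q G) = 0 := rfl

theorem invL (x : Wr q G) (i : ZMod q) : (x⁻¹).left i = (x.left (i + sft x))⁻¹ := by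
  have h := congrArg (fun y : Wr q G => y.left i) (inv_mul_cancel x)
  simp only [mulL, invS, sub_neg_eq_add, oneL] at h
  exact eq_inv_of_mul_eq_one_left h

theorem wr_ext {x y : Wr q G} (h1 : ∀ i, x.left i = y.left i) (h2 : sft x = sft y) : x = y :=
  SemidirectProduct.ext (funext h1) h2

theorem conjL (x y : Wr q G) (hy : sft y = 0) (i : ZMod q) :
    (x * y * x⁻¹).left i = x.left i * y.left (i - sft x) * (x.left i)⁻¹ := by
  rw [mulL, mulL, mulS, hy, add_zero, invL]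
  congr 3
  ring_nf

theorem conjS (x y : Wr q G) : sft (x * y * x⁻¹) = sft y := by
  rw [mulS, mulS, invS]
  ring

/-- the zeroth coordinates of the elements of the part in the base group -/
def pr0 (P : Subgroup (Wr q G)) : Subgroup G where
  carrier := {g | ∃ x ∈ P, sft x = 0 ∧ x.left 0 = g}
  one_mem' := ⟨1, P.one_mem, rfl, rfl⟩
  mul_mem' := by
    rintro g h ⟨x, hx, hx0, rfl⟩ ⟨y, hy, hy0, rfl⟩
    refine ⟨x * y, P.mul_mem hx hy, by rw [mulS, hx0, hy0, add_zero], ?_⟩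
    rw [mulL, hx0, sub_zero]
  inv_mem' := by
    rintro g ⟨x, hx, hx0, rfl⟩
    refine ⟨x⁻¹, P.inv_mem hx, by rw [invS, hx0, neg_zero], ?_⟩
    rw [invL, hx0, add_zero]

theorem mem_pr0 {P : Subgroup (Wr q G)} {g : G} : g ∈ pr0 P ↔ ∃ x ∈ P, sft x = 0 ∧ x.left 0 = g :=
  Iff.rfl

/-- the conjugates of the power of a subgroup -/
def pw (t : ZMod q → G) (R : Subgroup G) : Subgroup (Wr q G) where
  carrier := {x | sft x = 0 ∧ ∀ i, (t i)⁻¹ * x.left i * t i ∈ R}
  one_mem' := ⟨rfl, fun i => by rw [oneL, mul_one, inv_mul_cancel]; exact R.one_mem⟩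
  mul_mem' := by
    rintro x y ⟨hx0, hx⟩ ⟨hy0, hy⟩
    refine ⟨by rw [mulS, hx0, hy0, add_zero], fun i => ?_⟩
    rw [mulL, hx0, sub_zero]
    have := R.mul_mem (hx i) (hy i)
    have e : (t i)⁻¹ * x.left i * t i * ((t i)⁻¹ * y.left i * t i) =
        (t i)⁻¹ * (x.left i * y.left i) * t i := by group
    rwa [e] at this
  inv_mem' := by
    rintro x ⟨hx0, hx⟩
    refine ⟨by rw [invS, hx0, neg_zero], fun i => ?_⟩
    rw [invL, hx0, add_zero]
    have := R.inv_mem (hx i)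
    have e : ((t i)⁻¹ * x.left i * t i)⁻¹ = (t i)⁻¹ * (x.left i)⁻¹ * t i := by group
    rwa [e] at this

theorem mem_pw {t : ZMod q → G} {R : Subgroup G} {x : Wr q G} :
    x ∈ pw t R ↔ sft x = 0 ∧ ∀ i, (t i)⁻¹ * x.left i * t i ∈ R := Iff.rfl

theorem pow_base {x : Wr q G} (hx : sft x = 0) (n : ℕ) :
    sft (x ^ n) = 0 ∧ ∀ i, (x ^ n).left i = x.left i ^ n := by
  induction n with
  | zero => exact ⟨rfl, fun i => by rw [pow_zero, pow_zero]; rfl⟩
  | succ n ih =>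
    refine ⟨by rw [pow_succ, mulS, ih.1, hx, add_zero], fun i => ?_⟩
    rw [pow_succ, mulL, ih.1, sub_zero, ih.2, pow_succ]

theorem pr0_mono {P Q : Subgroup (Wr q G)} (h : P ≤ Q) : pr0 P ≤ pr0 Q := by
  rintro g ⟨x, hx, h1, h2⟩
  exact ⟨x, h hx, h1, h2⟩

theorem pw_mono {t : ZMod q → G} {R S : Subgroup G} (h : R ≤ S) : pw t R ≤ pw t S :=
  fun _ hx => ⟨hx.1, fun i => h (hx.2 i)⟩

theorem pw_bot (t : ZMod q → G) : pw t (⊥ : Subgroup G) = ⊥ := by
  rw [Subgroup.eq_bot_iff_forall]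
  rintro x ⟨h1, h2⟩
  refine wr_ext (fun i => ?_) h1
  have h3 := h2 i
  rw [Subgroup.mem_bot] at h3
  rw [oneL]
  have h4 : x.left i = t i * ((t i)⁻¹ * x.left i * t i) * (t i)⁻¹ := by group
  rw [h4, h3, mul_one, mul_inv_cancel]

theorem pr0_pgroup {p : ℕ} {P : Subgroup (Wr q G)} (h : IsPGroup p P) : IsPGroup p (pr0 P) := by
  rintro ⟨g, x, hx, h1, h2⟩
  obtain ⟨m, hm⟩ := h ⟨x, hx⟩
  refine ⟨m, Subtype.ext ?_⟩
  have h3 : x ^ p ^ m = 1 := congrArg Subtype.val hm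
  have h4 := (pow_base h1 (p ^ m)).2 0
  rw [h3, h2] at h4
  exact h4.symm

theorem pw_pgroup [Finite G] {p : ℕ} [hp : Fact p.Prime] {t : ZMod q → G} {R : Subgroup G}
    (h : IsPGroup p R) : IsPGroup p (pw t R) := by
  obtain ⟨n, hn⟩ := IsPGroup.iff_card.mp h
  rintro ⟨x, hx⟩
  refine ⟨n, Subtype.ext ?_⟩
  change x ^ p ^ n = 1
  have h1 := pow_base hx.1 (p ^ n)
  refine wr_ext (fun i => ?_) h1.1
  rw [h1.2, oneL]
  have h2 : (⟨(t i)⁻¹ * x.left i * t i, hx.2 i⟩ : R) ^ p ^ n = 1 := by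
    rw [← hn]
    exact pow_card_eq_one'
  have h3 : ((t i)⁻¹ * x.left i * t i) ^ p ^ n = 1 := congrArg Subtype.val h2
  have h4 : ((t i)⁻¹ * x.left i * t i) ^ p ^ n = (t i)⁻¹ * x.left i ^ p ^ n * t i := by
    have := conj_pow (a := (t i)⁻¹) (b := x.left i) (i := p ^ n)
    rwa [inv_inv] at this
  rw [h4] at h3
  have h5 : x.left i ^ p ^ n = t i * ((t i)⁻¹ * x.left i ^ p ^ n * t i) * (t i)⁻¹ := by group
  rw [h5, h3, mul_one, mul_inv_cancel]

end basic

section weights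

variable {q : ℕ} [hq : Fact q.Prime] {G : Type} [Group G] [Finite G] {p : ℕ} [hp : Fact p.Prime]

/-- for `q ≠ p` the `p`-subgroups lie in the base group -/
theorem sft_zero (hpq : p ≠ q) {P : Subgroup (Wr q G)} (h : IsPGroup p P) {x : Wr q G}
    (hx : x ∈ P) : sft x = 0 := by
  obtain ⟨m, hm⟩ := h ⟨x, hx⟩
  have h1 : x ^ p ^ m = 1 := congrArg Subtype.val hm
  have h2 : ∀ n : ℕ, sft (x ^ n) = n * sft x := by
    intro n
    induction n with
    | zero => rw [pow_zero, oneS, Nat.cast_zero, zero_mul]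
    | succ n ih => rw [pow_succ, mulS, ih]; push_cast; ring
  have h3 := h2 (p ^ m)
  rw [h1, oneS] at h3
  rcases mul_eq_zero.mp h3.symm with h4 | h4
  · exfalso
    rw [ZMod.natCast_eq_zero_iff] at h4
    have := hq.out.dvd_of_dvd_pow h4
    exact hpq ((Nat.prime_dvd_prime_iff_eq hq.out hp.out).mp this).symm
  · exact h4

variable {K : Subgroup (Wr q G)} {k : ZMod q → Wr q G}

/-- a transversal of the part in the base group -/
structure Trv (K : Subgroup (Wr q G)) (k : ZMod q → Wr q G) : Prop where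
  mem : ∀ i, k i ∈ K
  sh : ∀ i, sft (k i) = i

omit hp in
theorem exists_trv (hK : ∃ x ∈ K, sft x ≠ 0) : ∃ k : ZMod q → Wr q G, Trv K k := by
  obtain ⟨x, hx, h0⟩ := hK
  have h2 : ∀ n : ℕ, sft (x ^ n) = n * sft x := by
    intro n
    induction n with
    | zero => rw [pow_zero, oneS, Nat.cast_zero, zero_mul]
    | succ n ih => rw [pow_succ, mulS, ih]; push_cast; ring
  refine ⟨fun i => x ^ (i * (sft x)⁻¹).val, fun i => K.pow_mem hx _, fun i => ?_⟩
  rw [h2, ZMod.natCast_zmod_val, mul_assoc, inv_mul_cancel₀ h0, mul_one]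

/-- the coordinates -/
def tt (k : ZMod q → Wr q G) (i : ZMod q) : G := (k i).left i

omit hp in
theorem key_mem (hk : Trv K k) {x : Wr q G} (hx : x ∈ K) (i : ZMod q) :
    (tt k i)⁻¹ * x.left i * tt k (i - sft x) ∈ pr0 K := by
  refine ⟨(k i)⁻¹ * x * k (i - sft x), K.mul_mem (K.mul_mem (K.inv_mem (hk.mem i)) hx)
    (hk.mem _), ?_, ?_⟩
  · rw [mulS, mulS, invS, hk.sh, hk.sh]
    ring
  · rw [mulL, mulL, invL, mulS, invS, hk.sh, zero_add]
    unfold tt
    congr 3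
    · ring_nf
    · ring_nf

omit hp in
theorem t0_mem (hk : Trv K k) : tt k 0 ∈ pr0 K := ⟨k 0, hk.mem 0, hk.sh 0, rfl⟩

/-- `R` is normalised by the elements of `M` -/
theorem norm_of (M : Subgroup G) {R : Subgroup G} (h : ∀ x ∈ M, conjSub x R = R) {m r : G}
    (hm : m ∈ M) (hr : r ∈ R) : m * r * m⁻¹ ∈ R := by
  have h1 := h m hm
  rw [← h1]
  exact ⟨r, hr, rfl⟩

omit hp in
theorem pw_conj (hk : Trv K k) {R : Subgroup G} (h : ∀ x ∈ pr0 K, conjSub x R = R) {x : Wr q G}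
    (hx : x ∈ K) {y : Wr q G} (hy : y ∈ pw (tt k) R) : x * y * x⁻¹ ∈ pw (tt k) R := by
  refine ⟨by rw [conjS]; exact hy.1, fun i => ?_⟩
  rw [conjL x y hy.1]
  have h1 := norm_of (pr0 K) h (key_mem hk hx i) (hy.2 (i - sft x))
  have e : (tt k i)⁻¹ * x.left i * tt k (i - sft x) *
      ((tt k (i - sft x))⁻¹ * y.left (i - sft x) * tt k (i - sft x)) *
      ((tt k i)⁻¹ * x.left i * tt k (i - sft x))⁻¹ =
      (tt k i)⁻¹ * (x.left i * y.left (i - sft x) * (x.left i)⁻¹) * tt k i := by group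
  rwa [e] at h1

theorem conjSub_eq_of {H : Type} [Group H] {K P : Subgroup H}
    (h : ∀ x ∈ K, ∀ y ∈ P, x * y * x⁻¹ ∈ P) {x : H} (hx : x ∈ K) : conjSub x P = P := by
  apply le_antisymm
  · rintro _ ⟨y, hy, rfl⟩
    exact h x hx y hy
  · intro y hy
    refine ⟨x⁻¹ * y * x, ?_, ?_⟩
    · have := h x⁻¹ (K.inv_mem hx) y hy
      rwa [inv_inv] at this
    · change x * (x⁻¹ * y * x) * x⁻¹ = y
      group

omit hp in
theorem pr0_pw (hk : Trv K k) {R : Subgroup G} (h : ∀ x ∈ pr0 K, conjSub x R = R) :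
    pr0 (pw (tt k) R) = R := by
  ext g
  constructor
  · rintro ⟨x, ⟨hx0, hx⟩, -, rfl⟩
    have h1 := norm_of (pr0 K) h (t0_mem hk) (hx 0)
    have e : tt k 0 * ((tt k 0)⁻¹ * x.left 0 * tt k 0) * (tt k 0)⁻¹ = x.left 0 := by group
    rwa [e] at h1
  · intro hg
    have h1 := norm_of (pr0 K) h ((pr0 K).inv_mem (t0_mem hk)) hg
    rw [inv_inv] at h1
    refine ⟨⟨fun i => tt k i * ((tt k 0)⁻¹ * g * tt k 0) * (tt k i)⁻¹, 1⟩, ⟨rfl, fun i => ?_⟩,
      rfl, ?_⟩
    · change (tt k i)⁻¹ * (tt k i * ((tt k 0)⁻¹ * g * tt k 0) * (tt k i)⁻¹) * tt k i ∈ R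
      have e : (tt k i)⁻¹ * (tt k i * ((tt k 0)⁻¹ * g * tt k 0) * (tt k i)⁻¹) * tt k i =
          (tt k 0)⁻¹ * g * tt k 0 := by group
      rwa [e]
    · change tt k 0 * ((tt k 0)⁻¹ * g * tt k 0) * (tt k 0)⁻¹ = g
      group

/-- an invariant `p`-subgroup is contained in the power of its projection -/
theorem le_pw (hpq : p ≠ q) (hk : Trv K k) {P : Subgroup (Wr q G)} (h : IsPGroup p P)
    (hP : ∀ x ∈ K, conjSub x P = P) : P ≤ pw (tt k) (pr0 P) := by
  intro x hx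
  have hx0 := sft_zero hpq h hx
  refine ⟨hx0, fun i => ?_⟩
  have h1 := hP (k i)⁻¹ (K.inv_mem (hk.mem i))
  have h2 : (k i)⁻¹ * x * ((k i)⁻¹)⁻¹ ∈ P := by
    rw [← h1]
    exact ⟨x, hx, rfl⟩
  refine ⟨_, h2, by rw [conjS]; exact hx0, ?_⟩
  rw [conjL _ _ hx0, invS, hk.sh, invL, hk.sh, sub_neg_eq_add, zero_add, inv_inv]
  rfl

/-- **invariants of subgroups outside the base group** -/
theorem W_out (hpq : p ≠ q) (K : Subgroup (Wr q G)) (hK : ∃ x ∈ K, sft x ≠ 0) :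
    W p (K : Set (Wr q G)) = W p (pr0 K : Set G) := by
  obtain ⟨k, hk⟩ := exists_trv hK
  obtain ⟨f₁, h3, hf₁⟩ := exists_weight p (pr0 K : Set G)
  have hpb : pr0 (⊥ : Subgroup (Wr q G)) = ⊥ := by
    rw [Subgroup.eq_bot_iff_forall]
    rintro g ⟨x, hx, -, rfl⟩
    rw [Subgroup.mem_bot] at hx
    rw [hx, oneL]
  rw [W_of_weight (f := fun P => if P = pw (tt k) (pr0 P) then f₁ (pr0 P) else 0)]
  · simp only [hpb, pw_bot, if_true, h3]
  · intro P hP
    have hP' := mem_inv.mp hP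
    have hPi : ∀ Q : Subgroup (Wr q G), Q ∈ inv p (K : Set (Wr q G)) →
        pr0 Q ∈ inv p (pr0 K : Set G) := by
      intro Q hQ
      rw [mem_inv] at hQ
      rw [mem_inv]
      refine ⟨pr0_pgroup hQ.1, fun g hg => ?_⟩
      refine conjSub_eq_of (K := pr0 K) ?_ hg
      rintro _ ⟨x, hx, hx0, rfl⟩ _ ⟨y, hy, hy0, rfl⟩
      refine ⟨x * y * x⁻¹, ?_, by rw [conjS]; exact hy0, ?_⟩
      · rw [← hQ.2 x hx]
        exact ⟨y, hy, rfl⟩
      · rw [conjL x y hy0, hx0, sub_zero]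
    rw [← Finset.sum_filter]
    have e : ∑ Q ∈ ((inv p (K : Set (Wr q G))).filter
        (P ≤ ·)).filter (fun Q => Q = pw (tt k) (pr0 Q)), f₁ (pr0 Q) =
        ∑ R ∈ (inv p (pr0 K : Set G)).filter (pr0 P ≤ ·), f₁ R := by
      refine Finset.sum_bij' (fun Q _ => pr0 Q) (fun R _ => pw (tt k) R) ?_ ?_ ?_ ?_ ?_
      · intro Q hQ
        rw [Finset.mem_filter, Finset.mem_filter] at hQ
        obtain ⟨⟨a1, a2⟩, a3⟩ := hQ
        rw [Finset.mem_filter]
        exact ⟨hPi Q a1, pr0_mono a2⟩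
      · intro R hR
        rw [Finset.mem_filter] at hR
        obtain ⟨a1, a2⟩ := hR
        rw [mem_inv] at a1
        rw [Finset.mem_filter, Finset.mem_filter, mem_inv]
        refine ⟨⟨⟨pw_pgroup a1.1, fun x hx => ?_⟩, ?_⟩, ?_⟩
        · exact conjSub_eq_of (K := K) (fun x hx y hy => pw_conj hk a1.2 hx hy) hx
        · exact (le_pw hpq hk hP'.1 hP'.2).trans (pw_mono a2)
        · rw [pr0_pw hk a1.2]
      · intro Q hQ
        rw [Finset.mem_filter] at hQ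
        exact hQ.2.symm
      · intro R hR
        rw [Finset.mem_filter, mem_inv] at hR
        exact pr0_pw hk hR.1.2
      · intro Q _
        rfl
    rw [e, hf₁ _ (hPi P hP)]

end weights

end Pool.Agent.Helper3K
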