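import Pool.Agent.Helper3K.Bridge
import Pool.Agent.N19.RB.Par
import Pool.Agent.R663.GA.FinG

/-!
# Galois conjugate blocks and alternating sums
-/

set_option autoImplicit false
set_option linter.unusedSectionVars false
set_option linter.style.haveILetI false

open scoped BigOperators Classical

noncomputable section

namespace Pool.Agent.Helper3K

open Pool.Agent.H254R3.IN (IsIrr IsCl Om omega blockCoeff RF red rep mem_Irr IsBlock)
open Pool.Agent.Q288.MB (block_disjoint gal gal_irr gal_block exists_pow omega_gal pw pw_apply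
  isConj_pow card_gal gal_refl gal_mul gal_comm conjs conjs_finite mem_conjs_self numConj)
open Pool.Agent.Q90.WR (blkAlt irr_comp irr_gal IndS mem_IndS)
open Pool.Agent.Q259.BW (L)
open Pool.Agent.Y63.KR
open Pool.Agent.N19.RB (numCh cls cls_eq cls_self)
open Pool.Agent.R615.LV (IsLevelLE)
open Pool.Agent.R663.GA (numIrrIndLE sumInd_LE)
open Pool.Agent.Y63.NV (centralValue IsClassFun numIrrInd)
open Pool.Agent.Y63.AWC (IsIrreducibleCharacter)

section ind

variable {G : Type} [Group G] [Fintype G] {O : ValuationSubring ℂ} {B : Set (G → ℂ)}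

theorem L_gal {σ : ℂ ≃+* ℂ} {N j : ℕ} (hj : N.Coprime j) (hG : Nat.card G ∣ N)
    (hσ : ∀ (G : Type) [Group G] (χ : G → ℂ), IsIrr χ → ∀ g : G, g ^ N = 1 → σ (χ g) = χ (g ^ j))
    (H : Subgroup G) [Fintype H] {θ : H → ℂ} (hθ : IsIrr θ) (x : G) :
    L (Subtype.val : H → G) (fun h => σ (θ h)) x = L (Subtype.val : H → G) θ (x ^ j) := by
  have hH : Nat.card H ∣ N := (Subgroup.card_subgroup_dvd_card H).trans hG
  have hg : ∀ g : H, g ^ N = 1 := fun g => by
    obtain ⟨m, hm⟩ := hH
    rw [hm, pow_mul, pow_card_eq_one', one_pow]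
  unfold L
  simp only [hσ H θ hθ _ (hg _), one_pow]
  congr 1
  refine Fintype.sum_equiv (pw hj hH) _ _ fun c => ?_
  have h1 : IsConj (x ^ j) ((pw hj hH c : H) : G) ↔ IsConj x (c : G) := by
    rw [pw_apply]
    exact isConj_pow hj hG
  by_cases h2 : IsConj x (c : G)
  · rw [if_pos h2, if_pos (h1.2 h2)]
    rfl
  · rw [if_neg h2, if_neg fun h => h2 (h1.1 h)]

theorem mem_IndS_gal (σ : ℂ ≃+* ℂ) (hB : IsBlock O B) (H : Subgroup G) {θ : H → ℂ} :
    (fun g => σ (θ g)) ∈ IndS O (gal σ B) (Subtype.val : H → G) ↔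
      θ ∈ IndS O B (Subtype.val : H → G) := by
  have : Fintype H := Fintype.ofFinite H
  obtain ⟨j, hj, hσ⟩ := exists_pow σ (N := Nat.card G) Nat.card_pos
  obtain ⟨χ₀, h0⟩ := hB.nonempty
  have h0' : (fun g => σ (χ₀ g)) ∈ gal σ B := ⟨χ₀, h0, rfl⟩
  rw [mem_IndS (gal_block σ hB) h0', mem_IndS hB h0]
  have hirr : IsIrr (fun g => σ (θ g)) ↔ IsIrr θ := by
    constructor
    · intro h
      have h1 : IsIrr (fun g => σ.symm (σ (θ g))) := irr_gal σ.symm h
      have h2 : (fun g => σ.symm (σ (θ g))) = θ := by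
        funext g
        simp
      rwa [h2] at h1
    · intro h
      exact irr_gal σ h
  rw [hirr]
  refine and_congr_right fun hθ => ?_
  have key : ∀ x, (L (Subtype.val : H → G) (fun h => σ (θ h)) x ∈ O ∧
      red O (L (Subtype.val : H → G) (fun h => σ (θ h)) x) =
        red O (omega (fun g => σ (χ₀ g)) x)) ↔
      (L (Subtype.val : H → G) θ (x ^ j) ∈ O ∧
        red O (L (Subtype.val : H → G) θ (x ^ j)) = red O (omega χ₀ (x ^ j))) := by
    intro x
    rw [L_gal hj dvd_rfl hσ H hθ, omega_gal hj dvd_rfl hσ (hB.irr _ h0)]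
  constructor
  · intro h x
    have h1 := (key ((pw hj (dvd_refl (Nat.card G))).symm x)).1 (h _)
    have h3 : ((pw hj (dvd_refl (Nat.card G))).symm x) ^ j = x := by
      rw [← pw_apply hj dvd_rfl, Equiv.apply_symm_apply]
    rwa [h3] at h1
  · intro h x
    exact (key x).2 (h _)

theorem IndS_gal (σ : ℂ ≃+* ℂ) (hB : IsBlock O B) (H : Subgroup G) :
    IndS O (gal σ B) (Subtype.val : H → G) = gal σ (IndS O B (Subtype.val : H → G)) := by
  ext χ
  constructor
  · intro h
    have h2 : (fun g => σ ((fun g => σ.symm (χ g)) g)) = χ := by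
      funext g
      simp
    refine ⟨fun g => σ.symm (χ g), ?_, h2.symm⟩
    rw [← mem_IndS_gal σ hB H, h2]
    exact h
  · rintro ⟨θ, h, rfl⟩
    exact (mem_IndS_gal σ hB H).2 h

/-- Galois conjugate blocks have the same alternating sums -/
theorem blkAlt_gal (p : ℕ) (σ : ℂ ≃+* ℂ) (hB : IsBlock O B) :
    blkAlt p O (gal σ B) = blkAlt p O B := by
  unfold blkAlt alternatingSum
  refine finsum_congr fun c => ?_
  have e : Nat.card (IndS O (gal σ B) (Subtype.val : chainStabilizer c.out.1 → G)) =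
      Nat.card (IndS O B (Subtype.val : chainStabilizer c.out.1 → G)) := by
    rw [IndS_gal σ hB, card_gal]
  exact congrArg (fun n : ℕ => (-1 : ℤ) ^ c.out.1.ncard * (n : ℤ)) e

theorem card_iff {X : Type} {P Q : X → Prop} (h : ∀ x, P x ↔ Q x) :
    Nat.card {x // P x} = Nat.card {x // Q x} := Nat.card_congr (Equiv.subtypeEquivRight h)

end ind

section orbits

variable {G : Type}

/-- **Orbits.** In a finite Galois-stable set the number of the functions whose number of
conjugates is divisible by `q` is divisible by `q`. -/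
theorem q_parity (q : ℕ) {A : Set (G → ℂ)} (hA : A.Finite)
    (hs : ∀ σ : ℂ ≃+* ℂ, ∀ χ ∈ A, (fun g => σ (χ g)) ∈ A) :
    Nat.card A ≡ Nat.card {χ // χ ∈ A ∧ ¬ q ∣ numCh χ} [MOD q] := by
  have hfin : {χ | χ ∈ A ∧ ¬ q ∣ numCh χ}.Finite := hA.subset fun χ h => h.1
  have c1 : Nat.card A = hA.toFinset.card := Nat.card_eq_card_finite_toFinset hA
  have c2 : Nat.card {χ // χ ∈ A ∧ ¬ q ∣ numCh χ} =
      (hA.toFinset.filter fun χ => ¬ q ∣ numCh χ).card := by
    have h1 : Nat.card {χ // χ ∈ A ∧ ¬ q ∣ numCh χ} = hfin.toFinset.card :=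
      Nat.card_eq_card_finite_toFinset hfin
    rw [h1]
    congr 1
    ext χ
    simp
  have key : ∀ χ ∈ A, (hA.toFinset.filter fun ψ => cls ψ = cls χ).card = numCh χ := by
    intro χ hχ
    unfold numCh
    rw [← Set.ncard_coe_finset]
    congr 1
    ext ψ
    rw [Finset.mem_coe, Finset.mem_filter, Set.Finite.mem_toFinset, cls_eq]
    constructor
    · exact fun h => h.2
    · rintro ⟨σ, rfl⟩
      exact ⟨hs σ χ hχ, ⟨σ, rfl⟩⟩
  rw [c1, c2, Finset.card_eq_sum_card_image cls hA.toFinset,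
    Finset.card_eq_sum_card_fiberwise (f := cls) (t := hA.toFinset.image cls)
      (s := hA.toFinset.filter fun χ => ¬ q ∣ numCh χ)
      (fun χ hχ => Finset.mem_coe.mpr (Finset.mem_image_of_mem _
        (Finset.mem_filter.mp (Finset.mem_coe.mp hχ)).1))]
  rw [← ZMod.natCast_eq_natCast_iff, Nat.cast_sum, Nat.cast_sum]
  refine Finset.sum_congr rfl fun c hc => ?_
  obtain ⟨χ, hχ, rfl⟩ := Finset.mem_image.mp hc
  rw [Set.Finite.mem_toFinset] at hχ
  rw [Finset.filter_filter]
  by_cases ho : q ∣ numCh χ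
  · rw [key χ hχ, Finset.filter_false_of_mem, Finset.card_empty, Nat.cast_zero,
      ZMod.natCast_eq_zero_iff]
    · exact ho
    · rintro ψ - ⟨h1, h2⟩
      apply h1
      change q ∣ (cls ψ).ncard
      rw [h2]
      exact ho
  · congr 2
    refine Finset.filter_congr fun ψ _ => ?_
    constructor
    · intro h
      refine ⟨?_, h⟩
      change ¬ q ∣ (cls ψ).ncard
      rw [h]
      exact ho
    · exact fun h => h.2

end orbits

section sum

variable {G : Type} [Group G] [Fintype G] {O : ValuationSubring ℂ} {B : Set (G → ℂ)}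

/-- the characters of `H` which are counted -/
def cnt (p a q : ℕ) (O : ValuationSubring ℂ) {G : Type} [Group G] (B : Set (G → ℂ))
    (H : Subgroup G) : ℕ :=
  Nat.card {θ : H → ℂ // θ ∈ IndS O B (Subtype.val : H → G) ∧ IsLevelLE p a θ ∧ ¬ q ∣ numCh θ}

theorem level_gal {p a : ℕ} {H : Type} [Group H] [Finite H] (σ : ℂ ≃+* ℂ) {χ : H → ℂ}
    (h : IsLevelLE p a χ) : IsLevelLE p a (fun g => σ (χ g)) := by
  intro τ hτ x
  have h1 := h (σ.trans (τ.trans σ.symm)) (by
    intro z hz
    change σ.symm (τ (σ z)) = z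
    rw [hτ (σ z) (by rw [← map_pow, hz, map_one])]
    exact σ.symm_apply_apply z) x
  have h2 : σ.symm (τ (σ (χ x))) = χ x := h1
  have h3 := congrArg σ h2
  rw [RingEquiv.apply_symm_apply] at h3
  exact h3

variable {p : ℕ} [hp : Fact p.Prime]

/-- the characters of level at most `a` give the same alternating sum -/
theorem blkAlt_level (hpO : (p : ℂ) ∈ O.nonunits) (hB : IsBlock O B) (a : ℕ) (ha : p = 2 → 2 ≤ a) :
    blkAlt p O B = alternatingSum p G (fun H =>
      (Nat.card {θ : H → ℂ // θ ∈ IndS O B (Subtype.val : H → G) ∧ IsLevelLE p a θ} : ℤ)) := by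
  haveI := charP_FF (O := O) hpO
  obtain ⟨χ₀, h0⟩ := hB.nonempty
  have h1 := sumInd_LE (p := p) (rd O) (G := G) (centralValue (rd O) χ₀) a ha
  have key : ∀ (σ : Set (Subgroup G)) (hσ : IsPChain p σ) (θ : chainStabilizer σ → ℂ),
      IsIrreducibleCharacter θ →
      ((∀ f : G → FF O, IsClassFun f → centralValue (rd O) θ (fun x => f x) =
        centralValue (rd O) χ₀ f) ↔ θ ∈ IndS O B (Subtype.val : chainStabilizer σ → G)) := by
    intro σ hσ θ hθ
    rw [mem_IndS_iff hpO hB hσ hθ]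
    exact (val_one_iff hB (ind_block hpO hσ hθ) h0).symm
  unfold blkAlt alternatingSum
  unfold alternatingSum at h1
  refine Eq.trans (finsum_congr fun c => ?_) (Eq.trans h1.symm (finsum_congr fun c => ?_))
  · have e : Nat.card (IndS O B (Subtype.val : chainStabilizer c.out.1 → G)) =
        numIrrInd (rd O) (chainStabilizer c.out.1) (centralValue (rd O) χ₀) := by
      unfold numIrrInd
      refine card_iff fun θ => ?_
      constructor
      · intro h
        exact ⟨h.1, (key c.out.1 c.out.2 θ h.1).2 h⟩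
      · rintro ⟨h2, h3⟩
        exact (key c.out.1 c.out.2 θ h2).1 h3
    exact congrArg (fun n : ℕ => (-1 : ℤ) ^ c.out.1.ncard * (n : ℤ)) e
  · have e : numIrrIndLE p a (rd O) (chainStabilizer c.out.1) (centralValue (rd O) χ₀) =
        Nat.card {θ : chainStabilizer c.out.1 → ℂ //
          θ ∈ IndS O B (Subtype.val : chainStabilizer c.out.1 → G) ∧ IsLevelLE p a θ} := by
      unfold numIrrIndLE
      refine card_iff fun θ => ?_
      constructor
      · rintro ⟨h2, h3, h4⟩
        exact ⟨(key c.out.1 c.out.2 θ h2).1 h3, h4⟩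
      · rintro ⟨h2, h3⟩
        exact ⟨h2.1, (key c.out.1 c.out.2 θ h2.1).2 h2, h3⟩
    exact congrArg (fun n : ℕ => (-1 : ℤ) ^ c.out.1.ncard * (n : ℤ)) e

theorem modEq_finsum {X : Type} [Finite X] {n : ℤ} {f g : X → ℤ} (h : ∀ x, f x ≡ g x [ZMOD n]) :
    (∑ᶠ x, f x) ≡ ∑ᶠ x, g x [ZMOD n] := by
  have : Fintype X := Fintype.ofFinite X
  rw [finsum_eq_sum_of_fintype, finsum_eq_sum_of_fintype]
  refine Int.modEq_iff_dvd.2 ?_
  rw [← Finset.sum_sub_distrib]
  exact Finset.dvd_sum fun x _ => (h x).dvd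

/-- **the alternating sum of a Galois-stable block modulo `q`** -/
theorem blkAlt_modq (hpO : (p : ℂ) ∈ O.nonunits) (hB : IsBlock O B) (a : ℕ) (ha : p = 2 → 2 ≤ a)
    (q : ℕ) (hst : ∀ σ : ℂ ≃+* ℂ, gal σ B = B) :
    blkAlt p O B ≡ alternatingSum p G (fun H => (cnt p a q O B H : ℤ)) [ZMOD q] := by
  rw [blkAlt_level hpO hB a ha]
  unfold alternatingSum
  refine modEq_finsum fun c => ?_
  refine Int.ModEq.mul_left _ ?_
  rw [Int.natCast_modEq_iff]
  let H := chainStabilizer c.out.1
  have : Fintype H := Fintype.ofFinite _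
  let A : Set (H → ℂ) := {θ | θ ∈ IndS O B (Subtype.val : H → G) ∧ IsLevelLE p a θ}
  have hA : A.Finite := by
    refine (Pool.Agent.Helper884.IC.Irr H).finite_toSet.subset ?_
    intro θ hθ
    exact Pool.Agent.Helper884.IC.mem_Irr.mpr hθ.1.1
  have h := q_parity q hA (by
    intro σ χ hχ
    refine ⟨?_, level_gal σ hχ.2⟩
    have h1 := (mem_IndS_gal σ hB H).2 hχ.1
    rwa [hst σ] at h1)
  have e : Nat.card {χ // χ ∈ A ∧ ¬ q ∣ numCh χ} = cnt p a q O B (chainStabilizer c.out.1) := by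
    unfold cnt
    exact card_iff fun θ => and_assoc
  rw [e] at h
  exact h

end sum

end Pool.Agent.Helper3K
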