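import Pool.Agent.Helper3K.Olv
import Pool.Agent.Helper3K.Galo

/-!
# Mixed products of Galois conjugate blocks
-/

set_option autoImplicit false
set_option linter.unusedSectionVars false
set_option linter.style.haveILetI false

open scoped BigOperators Classical

noncomputable section

namespace Pool.Agent.Helper3K

open Pool.Agent.H254R3.IN (IsIrr IsCl Om omega blockCoeff RF red rep mem_Irr IsBlock)
open Pool.Agent.Q288.MB (block_disjoint gal gal_irr gal_block card_gal gal_refl gal_mul gal_comm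
  conjs conjs_finite mem_conjs_self numConj)
open Pool.Agent.Q90.WR (blkAlt)
open Pool.Agent.K3h3.KB (bt btS sInd sIndS gal_btS gal_sIndS)
open Pool.Agent.N85.WM (Wr shiftHom)

variable {G : Type} [Group G] [Fintype G] {O : ValuationSubring ℂ} {B : Set (G → ℂ)}

/-- if `q` divides the number of conjugates, there is an automorphism which acts on the conjugates
with cycles of length `q` -/
theorem exists_cyc {q : ℕ} [hq : Fact q.Prime] (hB : ∀ θ ∈ B, IsIrr θ) (h : q ∣ numConj B) :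
    ∃ σ : ℂ ≃+* ℂ, gal (σ ^ q) B = B ∧
      ∀ i j : ℕ, i < q → j < q → gal (σ ^ i) B = gal (σ ^ j) B → i = j := by
  have hfin := conjs_finite hB
  have hX : Finite (conjs B) := hfin
  have hirr : ∀ C ∈ conjs B, ∀ θ ∈ C, IsIrr θ := by
    rintro C ⟨σ, rfl⟩
    exact gal_irr hB
  let act : MulAction (ℂ ≃+* ℂ) (conjs B) :=
    { smul := fun σ C => ⟨gal σ C.1, by
        obtain ⟨τ, hτ⟩ := C.2
        exact ⟨σ * τ, by rw [hτ, gal_mul]⟩⟩
      one_smul := fun C => Subtype.ext (gal_refl _)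
      mul_smul := fun σ τ C => Subtype.ext (gal_mul σ τ _) }
  have hsm : ∀ (σ : ℂ ≃+* ℂ) (C : conjs B), ((σ • C : conjs B) : Set (G → ℂ)) = gal σ C.1 :=
    fun _ _ => rfl
  let φ : (ℂ ≃+* ℂ) →* Equiv.Perm (conjs B) := MulAction.toPermHom _ _
  let b : conjs B := ⟨B, mem_conjs_self B⟩
  have hφ : ∀ (σ : ℂ ≃+* ℂ) (C : conjs B), φ σ C = σ • C := fun _ _ => rfl
  have hcomm : ∀ (σ τ : ℂ ≃+* ℂ) (C : conjs B), σ • τ • C = τ • σ • C := by
    intro σ τ C
    apply Subtype.ext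
    rw [hsm, hsm, hsm, hsm]
    exact gal_comm σ τ (hirr C.1 C.2)
  have hext : ∀ σ τ : ℂ ≃+* ℂ, σ • b = τ • b → φ σ = φ τ := by
    intro σ τ hst
    apply Equiv.ext
    intro C
    obtain ⟨ρ, hρ⟩ := C.2
    have hC : C = ρ • b := Subtype.ext hρ
    rw [hφ, hφ, hC, hcomm σ ρ, hcomm τ ρ, hst]
  have hcard : Nat.card φ.range = numConj B := by
    have e : Nat.card φ.range = Nat.card (conjs B) := by
      refine Nat.card_congr (Equiv.ofBijective (fun a : φ.range => a.1 b) ⟨?_, ?_⟩)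
      · rintro ⟨_, σ, rfl⟩ ⟨_, τ, rfl⟩ hst
        exact Subtype.ext (hext σ τ hst)
      · intro C
        obtain ⟨ρ, hρ⟩ := C.2
        exact ⟨⟨φ ρ, ρ, rfl⟩, Subtype.ext hρ.symm⟩
    rw [e]
    rfl
  rw [← hcard] at h
  obtain ⟨⟨_, σ, rfl⟩, ha⟩ := exists_prime_orderOf_dvd_card' (G := φ.range) q h
  refine ⟨σ, ?_, ?_⟩
  · have h3 := pow_orderOf_eq_one (⟨φ σ, σ, rfl⟩ : φ.range)
    rw [ha] at h3
    have h4 : φ σ ^ q = 1 := congrArg Subtype.val h3
    rw [← map_pow] at h4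
    have h5 := congrArg (fun f : Equiv.Perm (conjs B) => ((f b : conjs B) : Set (G → ℂ))) h4
    exact h5
  · intro i j hi hj hij
    have h3 : φ (σ ^ i) = φ (σ ^ j) := hext _ _ (Subtype.ext hij)
    rw [map_pow, map_pow] at h3
    have h4 : (⟨φ σ, σ, rfl⟩ : φ.range) ^ i = (⟨φ σ, σ, rfl⟩ : φ.range) ^ j := Subtype.ext h3
    exact pow_injOn_Iio_orderOf (by rw [ha]; exact hi) (by rw [ha]; exact hj) h4

section

variable {q : ℕ} [hq : Fact q.Prime]

/-- the family of the conjugates -/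
def gfam (q : ℕ) (σ : ℂ ≃+* ℂ) (B : Set (G → ℂ)) (i : ZMod q) : Set (G → ℂ) :=
  gal (σ ^ i.val) B

theorem gfam_block (σ : ℂ ≃+* ℂ) (hB : IsBlock O B) (i : ZMod q) : IsBlock O (gfam q σ B i) :=
  gal_block _ hB

theorem gfam_inj {σ : ℂ ≃+* ℂ}
    (h : ∀ i j : ℕ, i < q → j < q → gal (σ ^ i) B = gal (σ ^ j) B → i = j) :
    Function.Injective (gfam q σ B) := by
  intro i j hij
  exact ZMod.val_injective q (h _ _ (ZMod.val_lt i) (ZMod.val_lt j) hij)

theorem gal_pow_mod {σ : ℂ ≃+* ℂ} (h : gal (σ ^ q) B = B) (n : ℕ) :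
    gal (σ ^ n) B = gal (σ ^ (n % q)) B := by
  have h1 : ∀ m : ℕ, gal (σ ^ (q * m)) B = B := by
    intro m
    induction m with
    | zero => rw [mul_zero, pow_zero, gal_refl]
    | succ m ih => rw [mul_add, mul_one, pow_add, gal_mul, h, ih]
  conv_lhs => rw [← Nat.mod_add_div n q, pow_add, gal_mul, h1]

/-- the shifted family gives the same set -/
theorem mxS_shift (b : ZMod q → Set (G → ℂ)) (s : ZMod q) :
    mxS (fun i => b (i + s)) = mxS b := by
  have key : ∀ (t : Multiplicative (ZMod q)) (f : (ZMod q → G) → ℂ),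
      sInd (shiftHom q G) (fun n => f (shiftHom q G t n)) = sInd (shiftHom q G) f := by
    intro t f
    funext x
    unfold sInd
    split_ifs
    · refine Fintype.sum_equiv (Equiv.mulLeft t) _ _ fun u => ?_
      simp only [Equiv.coe_mulLeft, map_mul, MulAut.mul_apply]
    · rfl
  have h1 : ∀ (c : ZMod q → Set (G → ℂ)) (s : ZMod q), mxS (fun i => c (i + s)) ⊆ mxS c := by
    rintro c s χ ⟨_, ⟨ψ, h, rfl⟩, rfl⟩
    refine ⟨bt fun i => ψ (i - s), ⟨_, fun i => ?_, rfl⟩, ?_⟩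
    · have h2 : ψ (i - s) ∈ c (i - s + s) := h (i - s)
      rwa [sub_add_cancel] at h2
    · have e := key (Multiplicative.ofAdd s) (bt fun i => ψ (i - s))
      rw [bt_shift] at e
      rw [← e]
      congr 2
      funext i
      change ψ i = ψ (i + s - s)
      rw [add_sub_cancel_right]
  refine Set.Subset.antisymm (h1 b s) ?_
  have h2 := h1 (fun i => b (i + s)) (-s)
  have h3 : (fun i => b (i + -s + s)) = b := by
    funext i
    rw [neg_add_cancel_right]
  rw [h3] at h2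
  exact h2

theorem gal_mxS (τ : ℂ ≃+* ℂ) (b : ZMod q → Set (G → ℂ)) :
    gal τ (mxS b) = mxS fun i => gal τ (b i) := by
  unfold mxS
  rw [gal_sIndS, gal_btS]

/-- **the mixed block has fewer conjugates** -/
theorem numConj_mx (hB : ∀ θ ∈ B, IsIrr θ) {σ : ℂ ≃+* ℂ} (h1 : gal (σ ^ q) B = B)
    (h2 : ∀ i j : ℕ, i < q → j < q → gal (σ ^ i) B = gal (σ ^ j) B → i = j) :
    numConj (mxS (gfam q σ B)) < numConj B := by
  have hfin := conjs_finite hB
  have hirr : ∀ C ∈ conjs B, ∀ θ ∈ C, IsIrr θ := by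
    rintro C ⟨σ, rfl⟩
    exact gal_irr hB
  let F : Set (G → ℂ) → Set (Wr q G → ℂ) := fun C => mxS (gfam q σ C)
  have hF : ∀ τ : ℂ ≃+* ℂ, gal τ (mxS (gfam q σ B)) = F (gal τ B) := by
    intro τ
    rw [gal_mxS]
    change _ = mxS (gfam q σ (gal τ B))
    congr 1
    funext i
    exact gal_comm τ _ hB
  have himg : conjs (mxS (gfam q σ B)) = F '' conjs B := by
    ext C
    constructor
    · rintro ⟨τ, rfl⟩
      exact ⟨gal τ B, ⟨τ, rfl⟩, (hF τ).symm⟩
    · rintro ⟨_, ⟨τ, rfl⟩, rfl⟩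
      exact ⟨τ, (hF τ).symm⟩
  have hle : (F '' conjs B).ncard ≤ (conjs B).ncard := Set.ncard_image_le hfin
  change (conjs (mxS (gfam q σ B))).ncard < (conjs B).ncard
  rw [himg]
  refine lt_of_le_of_ne hle fun heq => ?_
  have hinj := Set.injOn_of_ncard_image_eq heq hfin
  have h3 : F (gal σ B) = F B := by
    change mxS (gfam q σ (gal σ B)) = mxS (gfam q σ B)
    rw [← mxS_shift (gfam q σ B) 1]
    congr 1
    funext i
    unfold gfam
    rw [← gal_mul, ← pow_succ, gal_pow_mod h1 (i.val + 1)]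
    congr 2
    rw [ZMod.val_add, ZMod.val_one_eq_one_mod]
    rw [Nat.add_mod_mod]
  have h4 : gal σ B = B := hinj ⟨σ, rfl⟩ (mem_conjs_self B) h3
  have h5 := h2 1 0 hq.out.one_lt hq.out.pos (by rw [pow_one, pow_zero, gal_refl, h4])
  exact one_ne_zero h5

variable {p : ℕ} [hp : Fact p.Prime]

/-- **Mixing.** A block with `q ∣ numConj B` gives a block of the wreath product with `C_q` with
fewer conjugates, whose alternating sum is the `q`-th power. -/
theorem exists_mix (hpO : (p : ℂ) ∈ O.nonunits) (hB : IsBlock O B) (h : q ∣ numConj B)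
    (hz : ∀ ψ ∈ B, (Nat.card G : ℂ) / ψ 1 ∈ O.nonunits) :
    ∃ B' : Set (Wr q G → ℂ), IsBlock O B' ∧
      (∀ χ ∈ B', (Nat.card (Wr q G) : ℂ) / χ 1 ∈ O.nonunits) ∧
      blkAlt p O B' = blkAlt p O B ^ q ∧ numConj B' < numConj B := by
  obtain ⟨σ, h1, h2⟩ := exists_cyc hB.irr h
  have hb : ∀ i, IsBlock O (gfam q σ B i) := gfam_block σ hB
  refine ⟨mxS (gfam q σ B), mxS_block hb (gfam_inj h2), pos_mx hb ?_, ?_, numConj_mx hB.irr h1 h2⟩
  · rintro i χ ⟨ψ, hψ, rfl⟩
    obtain ⟨n, -, hn⟩ := (hB.irr ψ hψ).deg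
    have h3 := hz ψ hψ
    rw [← hn] at h3
    change (Nat.card G : ℂ) / (σ ^ i.val) (ψ 1) ∈ O.nonunits
    rw [← hn, map_natCast]
    exact h3
  · rw [blkAlt_mx hpO hb (gfam_inj h2)]
    have h3 : ∀ i, blkAlt p O (gfam q σ B i) = blkAlt p O B := fun i => blkAlt_gal p _ hB
    rw [Finset.prod_congr rfl fun i _ => h3 i, Finset.prod_const, Finset.card_univ, ZMod.card]

end

end Pool.Agent.Helper3K
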