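import Pool.Agent.Helper3K.Galo

/-!
# Alternating sums modulo a prime
-/

set_option autoImplicit false
set_option linter.unusedSectionVars false
set_option linter.style.haveILetI false

open scoped BigOperators Classical

noncomputable section

namespace Pool.Agent.Helper3K

open Pool.Agent.H254R3.IN (IsIrr IsCl Om omega blockCoeff RF red rep mem_Irr IsBlock)
open Pool.Agent.Q288.MB (block_disjoint gal gal_irr gal_block card_gal gal_refl gal_mul gal_comm
  conjs conjs_finite mem_conjs_self numConj)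
open Pool.Agent.Q90.WR (blkAlt irr_gal IndS mem_IndS)
open Pool.Agent.Q259.BW (L)
open Pool.Agent.Y63.KR
open Pool.Agent.N19.RB (numCh cls cls_eq cls_self)
open Pool.Agent.R615.LV (IsLevelLE)
open Pool.Agent.Helper884 (IC.Irr)

variable {G : Type} [Group G] [Fintype G] {O : ValuationSubring ℂ} {B : Set (G → ℂ)}

/-- a character induces at most one block -/
theorem IndS_disj {C C' : Set (G → ℂ)} (hC : IsBlock O C) (hC' : IsBlock O C') {H : Subgroup G}
    {θ : H → ℂ} (h : θ ∈ IndS O C (Subtype.val : H → G))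
    (h' : θ ∈ IndS O C' (Subtype.val : H → G)) : C = C' := by
  have : Fintype H := Fintype.ofFinite H
  obtain ⟨χ, hχ⟩ := hC.nonempty
  obtain ⟨χ', hχ'⟩ := hC'.nonempty
  rw [mem_IndS hC hχ] at h
  rw [mem_IndS hC' hχ'] at h'
  by_contra hne
  refine Set.disjoint_left.mp (block_disjoint hC hC' hne) hχ ?_
  obtain ⟨χ₁, h1, h2⟩ := hC'
  rw [h2]
  rw [h2] at hχ'
  refine ⟨hC.irr _ hχ, fun x => ?_⟩
  have h3 : red O (omega χ x) = red O (omega χ' x) := by
    rw [← (h.2 x).2, ← (h'.2 x).2]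
  have h4 := hχ'.2 x
  rw [← Pool.Agent.H254R3.IN.red_eq_iff ((hC.irr _ hχ).omega_mem O x) (h1.omega_mem O x), h3,
    Pool.Agent.H254R3.IN.red_eq_iff (hχ'.1.omega_mem O x) (h1.omega_mem O x)]
  exact h4

theorem numCh_gal {H : Type} (σ : ℂ ≃+* ℂ) (θ : H → ℂ) :
    numCh (fun g => σ (θ g)) = numCh θ := by
  change (cls fun g => σ (θ g)).ncard = (cls θ).ncard
  rw [cls_eq.2 ⟨σ, rfl⟩]

/-- the characters which induce `C` and have the property `P` -/
def NB (O : ValuationSubring ℂ) {G : Type} [Group G] [Fintype G] (H : Subgroup G)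
    (P : (H → ℂ) → Prop) (C : Set (G → ℂ)) : Set (H → ℂ) :=
  {θ | θ ∈ IndS O C (Subtype.val : H → G) ∧ P θ}

theorem NB_finite (H : Subgroup G) (P : (H → ℂ) → Prop) (C : Set (G → ℂ)) :
    (NB O H P C).Finite := by
  have : Fintype H := Fintype.ofFinite H
  refine (Pool.Agent.Helper884.IC.Irr H).finite_toSet.subset ?_
  intro θ hθ
  exact Pool.Agent.Helper884.IC.mem_Irr.mpr hθ.1.1

theorem NB_gal {H : Subgroup G} {P : (H → ℂ) → Prop}
    (hP : ∀ (σ : ℂ ≃+* ℂ) (θ : H → ℂ), P θ → P (fun g => σ (θ g))) {C : Set (G → ℂ)}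
    (hC : IsBlock O C) (σ : ℂ ≃+* ℂ) : NB O H P (gal σ C) = gal σ (NB O H P C) := by
  ext χ
  constructor
  · rintro ⟨h1, h2⟩
    have h3 : (fun g => σ ((fun g => σ.symm (χ g)) g)) = χ := by
      funext g
      simp
    refine ⟨fun g => σ.symm (χ g), ⟨?_, hP σ.symm χ h2⟩, h3.symm⟩
    rw [← mem_IndS_gal σ hC H, h3]
    exact h1
  · rintro ⟨θ, ⟨h1, h2⟩, rfl⟩
    exact ⟨(mem_IndS_gal σ hC H).2 h1, hP σ θ h2⟩

/-- the characters inducing a conjugate of `B` -/
def NBU (O : ValuationSubring ℂ) {G : Type} [Group G] [Fintype G] (H : Subgroup G)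
    (P : (H → ℂ) → Prop) (B : Set (G → ℂ)) : Set (H → ℂ) := {θ | ∃ C ∈ conjs B, θ ∈ NB O H P C}

theorem NBU_finite (H : Subgroup G) (P : (H → ℂ) → Prop) (B : Set (G → ℂ)) :
    (NBU O H P B).Finite := by
  have : Fintype H := Fintype.ofFinite H
  refine (Pool.Agent.Helper884.IC.Irr H).finite_toSet.subset ?_
  rintro θ ⟨C, -, hθ⟩
  exact Pool.Agent.Helper884.IC.mem_Irr.mpr hθ.1.1

theorem card_NBU {H : Subgroup G} {P : (H → ℂ) → Prop}
    (hP : ∀ (σ : ℂ ≃+* ℂ) (θ : H → ℂ), P θ → P (fun g => σ (θ g))) (hB : IsBlock O B) :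
    Nat.card (NBU O H P B) = numConj B * Nat.card (NB O H P B) := by
  have hfin := conjs_finite hB.irr
  have hblk : ∀ C ∈ conjs B, IsBlock O C := by
    rintro C ⟨σ, rfl⟩
    exact gal_block σ hB
  have hcard : ∀ C ∈ conjs B, Nat.card (NB O H P C) = Nat.card (NB O H P B) := by
    rintro C ⟨σ, rfl⟩
    rw [NB_gal hP hB, card_gal]
  have e1 : Nat.card (NBU O H P B) =
      (hfin.toFinset.biUnion fun C => (NB_finite (O := O) H P C).toFinset).card := by
    rw [Nat.card_eq_card_finite_toFinset (NBU_finite H P B)]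
    congr 1
    ext θ
    simp only [Set.Finite.mem_toFinset, Finset.mem_biUnion]
    rfl
  have e2 : numConj B = hfin.toFinset.card := by
    change (conjs B).ncard = _
    exact Set.ncard_eq_toFinset_card _ hfin
  rw [e1, Finset.card_biUnion, e2, ← smul_eq_mul, ← Finset.sum_const]
  · refine Finset.sum_congr rfl fun C hC => ?_
    rw [Set.Finite.mem_toFinset] at hC
    rw [← hcard C hC, Nat.card_eq_card_finite_toFinset (NB_finite H P C)]
  · intro C hC C' hC' hne
    rw [Finset.mem_coe, Set.Finite.mem_toFinset] at hC hC'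
    rw [Function.onFun, Finset.disjoint_left]
    intro θ h1 h2
    rw [Set.Finite.mem_toFinset] at h1 h2
    exact hne (IndS_disj (hblk C hC) (hblk C' hC') h1.1 h2.1)

/-- the count modulo `q` -/
theorem card_modq {q : ℕ} [hq : Fact q.Prime] {H : Subgroup G} {P : (H → ℂ) → Prop}
    (hP : ∀ (σ : ℂ ≃+* ℂ) (θ : H → ℂ), P θ → P (fun g => σ (θ g))) (hB : IsBlock O B)
    (hn : ¬ q ∣ numConj B) :
    Nat.card (NB O H P B) ≡ Nat.card (NB O H (fun θ => P θ ∧ ¬ q ∣ numCh θ) B) [MOD q] := by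
  have h1 := q_parity q (NBU_finite (O := O) H P B) (by
    rintro σ θ ⟨_, ⟨τ, rfl⟩, hθ⟩
    refine ⟨gal σ (gal τ B), ⟨σ * τ, (gal_mul σ τ B).symm⟩, ?_⟩
    rw [NB_gal hP (gal_block τ hB)]
    exact ⟨θ, hθ, rfl⟩)
  have h2 : Nat.card {χ // χ ∈ NBU O H P B ∧ ¬ q ∣ numCh χ} =
      Nat.card (NBU O H (fun θ => P θ ∧ ¬ q ∣ numCh θ) B) := by
    refine card_iff fun θ => ?_
    constructor
    · rintro ⟨⟨C, hC, h3, h4⟩, h5⟩
      exact ⟨C, hC, h3, h4, h5⟩
    · rintro ⟨C, hC, h3, h4, h5⟩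
      exact ⟨⟨C, hC, h3, h4⟩, h5⟩
  rw [h2, card_NBU hP hB, card_NBU (fun σ θ h => ⟨hP σ θ h.1, by
    rw [numCh_gal]
    exact h.2⟩) hB] at h1
  exact Nat.ModEq.cancel_left_of_coprime ((Nat.Prime.coprime_iff_not_dvd hq.out).2 hn) h1

variable {p : ℕ} [hp : Fact p.Prime]

/-- **the alternating sum modulo `q` of a block with a number of conjugates prime to `q`** -/
theorem blkAlt_modq' (hpO : (p : ℂ) ∈ O.nonunits) (hB : IsBlock O B) (a : ℕ) (ha : p = 2 → 2 ≤ a)
    {q : ℕ} [hq : Fact q.Prime] (hn : ¬ q ∣ numConj B) :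
    blkAlt p O B ≡ alternatingSum p G (fun H => (cnt p a q O B H : ℤ)) [ZMOD q] := by
  rw [blkAlt_level hpO hB a ha]
  unfold alternatingSum
  refine modEq_finsum fun c => ?_
  refine Int.ModEq.mul_left _ ?_
  rw [Int.natCast_modEq_iff]
  have h := card_modq (q := q) (H := chainStabilizer c.out.1) (P := fun θ => IsLevelLE p a θ)
    (fun σ θ h => level_gal σ h) hB hn
  exact h

end Pool.Agent.Helper3K
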