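import Pool.Agent.Helper3K.Comb

/-!
# Normal `p`-subgroups of wreath products with cyclic groups of prime order
-/

set_option autoImplicit false
set_option linter.unusedSectionVars false

open scoped BigOperators Classical

noncomputable section

namespace Pool.Agent.Helper3K

open Pool.Agent.N85.WM (Wr Base shiftHom)

variable {q : ℕ} [hq : Fact q.Prime] {G : Type} [Group G]

/-- the group has no nontrivial normal `p`-subgroup -/
def NoCore (p : ℕ) (G : Type) [Group G] : Prop :=
  ∀ P : Subgroup G, P.Normal → IsPGroup p P → P = ⊥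

theorem noCore_wr {p : ℕ} (h : NoCore p G) (hG : Nontrivial G) : NoCore p (Wr q G) := by
  intro P hPn hP
  -- the part in the base group
  have h1 : pr0 P = ⊥ := by
    refine h _ ⟨?_⟩ (pr0_pgroup hP)
    rintro _ ⟨x, hx, hx0, rfl⟩ g
    refine ⟨(⟨fun _ => g, 1⟩ : Wr q G) * x * (⟨fun _ => g, 1⟩ : Wr q G)⁻¹, hPn.conj_mem _ hx _,
      by rw [conjS]; exact hx0, ?_⟩
    rw [conjL _ _ hx0]
    change g * x.left (0 - 0) * g⁻¹ = g * x.left 0 * g⁻¹
    rw [sub_zero]
  have h2 : ∀ x ∈ P, sft x = 0 → x = 1 := by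
    intro x hx hx0
    refine wr_ext (fun i => ?_) hx0
    have h3 : x.left i ∈ pr0 P := by
      refine ⟨(⟨fun _ => 1, Multiplicative.ofAdd (-i)⟩ : Wr q G) * x *
        (⟨fun _ => 1, Multiplicative.ofAdd (-i)⟩ : Wr q G)⁻¹, hPn.conj_mem _ hx _,
        by rw [conjS]; exact hx0, ?_⟩
      rw [conjL _ _ hx0]
      change 1 * x.left (0 - -i) * 1⁻¹ = x.left i
      rw [one_mul, inv_one, mul_one, sub_neg_eq_add, zero_add]
    rw [h1, Subgroup.mem_bot] at h3
    rw [h3, oneL]
  rw [Subgroup.eq_bot_iff_forall]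
  intro x hx
  apply h2 x hx
  by_contra hne
  -- the commutator with an element of the base group
  obtain ⟨g, hg⟩ := exists_ne (1 : G)
  let n : Wr q G := ⟨fun i => if i = 0 then g else 1, 1⟩
  have hn0 : sft n = 0 := rfl
  have h3 : x * n * x⁻¹ * n⁻¹ = 1 := by
    apply h2
    · have e : x * n * x⁻¹ * n⁻¹ = x * (n * x⁻¹ * n⁻¹) := by group
      rw [e]
      exact P.mul_mem hx (hPn.conj_mem _ (P.inv_mem hx) _)
    · rw [mulS, conjS, invS, add_neg_cancel]
  have h4 : x * n * x⁻¹ = n := mul_inv_eq_one.mp h3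
  have h5 := congrArg (fun w : Wr q G => w.left (sft x)) h4
  simp only [conjL _ _ hn0, sub_self] at h5
  have e1 : n.left 0 = g := if_pos rfl
  have e2 : n.left (sft x) = 1 := if_neg hne
  rw [e1, e2] at h5
  apply hg
  have h6 := mul_inv_eq_one.mp h5
  exact mul_left_cancel (a := x.left (sft x)) (by rw [h6, mul_one])

end Pool.Agent.Helper3K
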