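import Pool.Agent.Helper3K.Ten
import Pool.Agent.Helper3K.Mixg
import Pool.Agent.Helper3K.Modq
import Pool.Agent.Helper3K.Opc

/-!
# Alternating sums and congruences
-/

set_option autoImplicit false
set_option linter.unusedSectionVars false
set_option linter.style.haveILetI false

open scoped BigOperators Classical

noncomputable section

namespace Pool.Agent.Helper3K

open Pool.Agent.H254R3.IN (IsIrr IsCl Om omega blockCoeff RF red rep mem_Irr IsBlock
  IsDefectGroup)
open Pool.Agent.Q288.MB (gal gal_irr gal_block gal_refl gal_mul conjs conjs_finite mem_conjs_self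
  numConj)
open Pool.Agent.Q90.WR (blkAlt AdmB)
open Pool.Agent.Q259.BW (nonunits_of_defect)
open Pool.Agent.N85.WM (Wr)
open Pool.Agent.Y63.KR

section arith

theorem arith_ne {q : ℕ} (hq : q.Prime) {s t : ℤ} {k : ℕ} (hk : 1 ≤ k)
    (h : (q : ℤ) * t = s ^ q + ((q : ℤ) ^ 2 - 1) * s) (hs : (q : ℤ) ^ k ∣ s)
    (ht : (q : ℤ) ^ k ∣ t) : (q : ℤ) ^ (k + 1) ∣ s := by
  have h1 : (q : ℤ) ^ (k + 1) ∣ q * t := by
    rw [pow_succ']
    exact mul_dvd_mul_left _ ht
  have h2 : (q : ℤ) ^ (k + 1) ∣ s ^ q := by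
    have h3 : (q : ℤ) ^ (k * q) ∣ s ^ q := by
      rw [pow_mul]
      exact pow_dvd_pow_of_dvd hs q
    refine dvd_trans (pow_dvd_pow _ ?_) h3
    have := hq.two_le
    nlinarith
  have h3 : (q : ℤ) ^ (k + 1) ∣ (q : ℤ) ^ 2 * s := by
    refine dvd_trans ?_ (mul_dvd_mul_left _ hs)
    rw [← pow_add]
    exact pow_dvd_pow _ (by omega)
  have h4 : s = s ^ q + (q : ℤ) ^ 2 * s - q * t := by
    rw [h]
    ring
  rw [h4]
  exact dvd_sub (dvd_add h2 h3) h1

theorem arith_p {p : ℕ} (hp : p.Prime) {s t : ℤ} {k : ℕ} (hk : 1 ≤ k)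
    (h : (p : ℤ) * t = s ^ p - s) (hs : (p : ℤ) ^ k ∣ s)
    (ht : (p : ℤ) ^ k ∣ t) : (p : ℤ) ^ (k + 1) ∣ s := by
  have h1 : (p : ℤ) ^ (k + 1) ∣ p * t := by
    rw [pow_succ']
    exact mul_dvd_mul_left _ ht
  have h2 : (p : ℤ) ^ (k + 1) ∣ s ^ p := by
    have h3 : (p : ℤ) ^ (k * p) ∣ s ^ p := by
      rw [pow_mul]
      exact pow_dvd_pow_of_dvd hs p
    refine dvd_trans (pow_dvd_pow _ ?_) h3
    have := hp.two_le
    nlinarith
  have h4 : s = s ^ p - p * t := by
    rw [h]
    ring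
  rw [h4]
  exact dvd_sub h2 h1

theorem eq_zero_of_pow {q : ℕ} (hq : 2 ≤ q) {s : ℤ} (h : ∀ k : ℕ, 1 ≤ k → (q : ℤ) ^ k ∣ s) :
    s = 0 := by
  by_contra hne
  have h1 := h (s.natAbs + 1) (by omega)
  have h2 := Int.natAbs_dvd_natAbs.2 h1
  rw [Int.natAbs_pow, Int.natAbs_natCast] at h2
  have h3 := Nat.le_of_dvd (Int.natAbs_pos.2 hne) h2
  have h4 : s.natAbs + 1 < q ^ (s.natAbs + 1) := Nat.lt_pow_self (by omega)
  omega

end arith

section adm

variable {p : ℕ} [hp : Fact p.Prime] {O : ValuationSubring ℂ}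

theorem adm_pos (hpO : (p : ℂ) ∈ O.nonunits) {G : Type} [Group G] [Fintype G] {B : Set (G → ℂ)}
    (h : AdmB p O G B) : ∀ ψ ∈ B, (Nat.card G : ℂ) / ψ 1 ∈ O.nonunits := by
  obtain ⟨D, hD, hne⟩ := h.defect
  exact nonunits_of_defect hpO h.block hD hne

theorem nontrivial_of_pos {G : Type} [Group G] [Fintype G] {B : Set (G → ℂ)} (hB : IsBlock O B)
    (hz : ∀ ψ ∈ B, (Nat.card G : ℂ) / ψ 1 ∈ O.nonunits) : Nontrivial G := by
  by_contra hcon
  rw [not_nontrivial_iff_subsingleton] at hcon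
  obtain ⟨χ, hχ⟩ := hB.nonempty
  have h1 := hz χ hχ
  have hi := hB.irr χ hχ
  obtain ⟨n, hn0, hn⟩ := hi.deg
  have h2 : Nat.card G = 1 := Nat.card_eq_one_iff_unique.2 ⟨hcon, ⟨1⟩⟩
  -- the degree divides the order
  have h3 : (χ 1) ^ 2 = 1 := by
    have h4 := Pool.Agent.Helper884.IC.B_irr hi hi
    rw [if_pos rfl] at h4
    unfold Pool.Agent.Helper884.IC.B at h4
    rw [h2, Nat.cast_one, inv_one, one_mul] at h4
    have h5 : ∀ g : G, g = 1 := fun g => Subsingleton.elim g 1
    have h6 : (Finset.univ : Finset G) = {1} := by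
      ext g
      simp [h5 g]
    rw [h6, Finset.sum_singleton, inv_one, ← sq] at h4
    exact h4
  have h4 : χ 1 = 1 := by
    rw [← hn] at h3 ⊢
    have h5 : n ^ 2 = 1 := by exact_mod_cast h3
    have h6 : n = 1 := by nlinarith
    rw [h6, Nat.cast_one]
  rw [h2, h4, Nat.cast_one, div_one] at h1
  have h5 := Pool.Agent.H254R3.IN.red_eq_zero h1
  rw [Pool.Agent.H254R3.IN.red_one] at h5
  exact one_ne_zero h5

theorem adm_wr {q : ℕ} [hq : Fact q.Prime] (hpO : (p : ℂ) ∈ O.nonunits) {G : Type} [Group G]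
    [Fintype G] {B : Set (G → ℂ)} (h : AdmB p O G B) {B' : Set (Wr q G → ℂ)}
    (hB' : IsBlock O B') (hz : ∀ χ ∈ B', (Nat.card (Wr q G) : ℂ) / χ 1 ∈ O.nonunits) :
    AdmB p O (Wr q G) B' where
  fin := inferInstance
  core := noCore_wr h.core (nontrivial_of_pos h.block (adm_pos hpO h))
  block := hB'
  defect := defect_of_pos hpO hB' hz

theorem numConj_pos {G : Type} [Group G] [Fintype G] {B : Set (G → ℂ)} (hB : ∀ θ ∈ B, IsIrr θ) :
    0 < numConj B := (Set.ncard_pos (conjs_finite hB)).2 ⟨B, mem_conjs_self B⟩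

theorem stable_of_one {G : Type} [Group G] [Fintype G] {B : Set (G → ℂ)}
    (h : numConj B = 1) (σ : ℂ ≃+* ℂ) : gal σ B = B := by
  have h1 : (conjs B).ncard = 1 := h
  rw [Set.ncard_eq_one] at h1
  obtain ⟨C, hC⟩ := h1
  have h2 : B ∈ conjs B := mem_conjs_self B
  have h3 : gal σ B ∈ conjs B := ⟨σ, rfl⟩
  rw [hC, Set.mem_singleton_iff] at h2 h3
  rw [h3, ← h2]

/-- the passage from `q` to `0` -/
theorem zero_of_dvd (q : ℕ) [hq : Fact q.Prime] (hpO : (p : ℂ) ∈ O.nonunits)
    (X : (G : Type) → Group G → Prop)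
    (hX : ∀ (G : Type) [i : Group G], X G i → X (Wr q G) inferInstance)
    (h : ∀ (G : Type) [i : Group G] (B : Set (G → ℂ)), X G i → AdmB p O G B →
      (q : ℤ) ∣ blkAlt p O B) :
    ∀ (G : Type) [i : Group G] (B : Set (G → ℂ)), X G i → AdmB p O G B → blkAlt p O B = 0 := by
  have key : ∀ k : ℕ, 1 ≤ k → ∀ (G : Type) [i : Group G] (B : Set (G → ℂ)), X G i →
      AdmB p O G B → (q : ℤ) ^ k ∣ blkAlt p O B := by
    intro k hk
    induction k, hk using Nat.le_induction with
    | base =>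
      intro G _ B h1 h2
      rw [pow_one]
      exact h G B h1 h2
    | succ k hk ih =>
      intro G _ B h1 h2
      haveI := h2.fin
      haveI : Fintype G := Fintype.ofFinite G
      have hz := adm_pos hpO h2
      have h3 : (q : ℤ) ^ k ∣ ∑ b ∈ bks O (wB q B), blkAlt p O b := by
        refine Finset.dvd_sum fun b hb => ?_
        obtain ⟨h4, h5⟩ := (mem_bks (isU_wB h2.block)).1 hb
        exact ih (Wr q G) b (hX G h1) (adm_wr hpO h2 h4 fun χ hχ =>
          pos_wB h2.block hz χ (h5 hχ))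
      by_cases hpq : p = q
      · subst hpq
        exact arith_p hp.out hk (sum_wB_p hpO h2.block) (ih G B h1 h2) h3
      · exact arith_ne hq.out hk (sum_wB_ne hpO hpq h2.block) (ih G B h1 h2) h3
  intro G _ B h1 h2
  exact eq_zero_of_pow hq.out.two_le fun k hk => key k hk G B h1 h2

/-- **Congruences modulo `q`, wreath products with `C_q`.** -/
theorem cong_q (q : ℕ) [hq : Fact q.Prime] (hpO : (p : ℂ) ∈ O.nonunits) (a : ℕ)
    (ha : p = 2 → 2 ≤ a) (X : (G : Type) → Group G → Prop)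
    (hX : ∀ (G : Type) [i : Group G], X G i → X (Wr q G) inferInstance) :
    (∀ (G : Type) [i : Group G] (B : Set (G → ℂ)), X G i → AdmB p O G B → blkAlt p O B = 0) ↔
      ∀ (G : Type) [i : Group G] (B : Set (G → ℂ)), X G i → AdmB p O G B → ¬ q ∣ numConj B →
        (q : ℤ) ∣ alternatingSum p G (fun H => (cnt p a q O B H : ℤ)) := by
  constructor
  · intro h G _ B h1 h2 h3
    haveI := h2.fin
    haveI : Fintype G := Fintype.ofFinite G
    have h4 := blkAlt_modq' hpO h2.block a ha h3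
    rw [h G B h1 h2] at h4
    exact (Int.modEq_zero_iff_dvd).1 h4.symm
  · intro h
    apply zero_of_dvd q hpO X hX
    have key : ∀ n : ℕ, ∀ (G : Type) [i : Group G] (B : Set (G → ℂ)), numConj B ≤ n → X G i →
        AdmB p O G B → (q : ℤ) ∣ blkAlt p O B := by
      intro n
      induction n with
      | zero =>
        intro G _ B h0 h1 h2
        haveI := h2.fin
        haveI : Fintype G := Fintype.ofFinite G
        have := numConj_pos h2.block.irr
        omega
      | succ n ih =>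
        intro G _ B h0 h1 h2
        haveI := h2.fin
        haveI : Fintype G := Fintype.ofFinite G
        by_cases h3 : q ∣ numConj B
        · obtain ⟨B', b1, b2, b3, b4⟩ := exists_mix (p := p) hpO h2.block h3 (adm_pos hpO h2)
          have h5 := ih (Wr q G) B' (by omega) (hX G h1) (adm_wr hpO h2 b1 b2)
          rw [b3] at h5
          exact (Nat.prime_iff_prime_int.1 hq.out).dvd_of_dvd_pow h5
        · have h4 := blkAlt_modq' hpO h2.block a ha h3
          exact (Int.ModEq.dvd_iff h4).2 (h G B h1 h2 h3)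
    intro G _ B h1 h2
    exact key _ G B le_rfl h1 h2

/-- **Congruences modulo `q` for Galois-stable blocks.** -/
theorem cong_stable (q : ℕ) [hq : Fact q.Prime] (hpO : (p : ℂ) ∈ O.nonunits) (a : ℕ)
    (ha : p = 2 → 2 ≤ a) (X : (G : Type) → Group G → Prop)
    (hX : ∀ (r : ℕ) [Fact r.Prime] (G : Type) [i : Group G], X G i → X (Wr r G) inferInstance) :
    (∀ (G : Type) [i : Group G] (B : Set (G → ℂ)), X G i → AdmB p O G B → blkAlt p O B = 0) ↔
      ∀ (G : Type) [i : Group G] (B : Set (G → ℂ)), X G i → AdmB p O G B →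
        (∀ σ : ℂ ≃+* ℂ, gal σ B = B) →
        (q : ℤ) ∣ alternatingSum p G (fun H => (cnt p a q O B H : ℤ)) := by
  constructor
  · intro h G _ B h1 h2 h3
    haveI := h2.fin
    haveI : Fintype G := Fintype.ofFinite G
    have h4 := blkAlt_modq hpO h2.block a ha q h3
    rw [h G B h1 h2] at h4
    exact (Int.modEq_zero_iff_dvd).1 h4.symm
  · intro h
    apply zero_of_dvd q hpO X (hX q)
    have key : ∀ n : ℕ, ∀ (G : Type) [i : Group G] (B : Set (G → ℂ)), numConj B ≤ n → X G i →
        AdmB p O G B → (q : ℤ) ∣ blkAlt p O B := by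
      intro n
      induction n with
      | zero =>
        intro G _ B h0 h1 h2
        haveI := h2.fin
        haveI : Fintype G := Fintype.ofFinite G
        have := numConj_pos h2.block.irr
        omega
      | succ n ih =>
        intro G _ B h0 h1 h2
        haveI := h2.fin
        haveI : Fintype G := Fintype.ofFinite G
        by_cases h3 : numConj B = 1
        · have h4 := blkAlt_modq hpO h2.block a ha q (stable_of_one h3)
          exact (Int.ModEq.dvd_iff h4).2 (h G B h1 h2 (stable_of_one h3))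
        · obtain ⟨r, hr, hrn⟩ := Nat.exists_prime_and_dvd h3
          haveI : Fact r.Prime := ⟨hr⟩
          obtain ⟨B', b1, b2, b3, b4⟩ := exists_mix (p := p) hpO h2.block hrn (adm_pos hpO h2)
          have h5 := ih (Wr r G) B' (by omega) (hX r G h1) (adm_wr hpO h2 b1 b2)
          rw [b3] at h5
          exact (Nat.prime_iff_prime_int.1 hq.out).dvd_of_dvd_pow h5
    intro G _ B h1 h2
    exact key _ G B le_rfl h1 h2

end adm

end Pool.Agent.Helper3K
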