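import Pool.Agent.Helper3K.Cong

/-! # The congruence for a set of primes -/

set_option autoImplicit false

noncomputable section

namespace Pool.Agent.Helper3K

open Pool.Agent.Y63.KR (alternatingSum)
open Pool.Agent.Q90.WR (IndS AdmB blkAlt)
open Pool.Agent.Q288.MB (gal numConj)
open Pool.Agent.N85.WM (Wr)

variable {p : ℕ} [Fact p.Prime] {O : ValuationSubring ℂ}

theorem cong_set (q : ℕ) [hq : Fact q.Prime] (hpO : (p : ℂ) ∈ O.nonunits) (a : ℕ)
    (ha : p = 2 → 2 ≤ a) (R : Set ℕ) (hqR : q ∈ R) (X : (G : Type) → Group G → Prop)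
    (hX : ∀ r ∈ R, ∀ [Fact r.Prime] (G : Type) [i : Group G], X G i → X (Wr r G) inferInstance) :
    (∀ (G : Type) [i : Group G] (B : Set (G → ℂ)), X G i → AdmB p O G B → blkAlt p O B = 0) ↔
      ∀ (G : Type) [i : Group G] (B : Set (G → ℂ)), X G i → AdmB p O G B →
        (∀ r ∈ R, r.Prime → ¬ r ∣ numConj B) →
        (q : ℤ) ∣ alternatingSum p G (fun H => (cnt p a q O B H : ℤ)) := by
  constructor
  · intro h G _ B h1 h2 h3
    haveI := h2.fin
    haveI : Fintype G := Fintype.ofFinite G
    have h4 := blkAlt_modq' hpO h2.block a ha (h3 q hqR hq.out)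
    rw [h G B h1 h2] at h4
    exact (Int.modEq_zero_iff_dvd).1 h4.symm
  · intro h
    apply zero_of_dvd q hpO X (fun G i hG => hX q hqR G hG)
    have key : ∀ n : ℕ, ∀ (G : Type) [i : Group G] (B : Set (G → ℂ)), numConj B ≤ n → X G i →
        AdmB p O G B → (q : ℤ) ∣ blkAlt p O B := by
      intro n
      induction n with
      | zero =>
        intro G _ B h0 h1 h2
        haveI := h2.fin
        haveI : Fintype G := Fintype.ofFinite G
        have := numConj_pos h2.block.irr
        omega
      | succ n ih =>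
        intro G _ B h0 h1 h2
        haveI := h2.fin
        haveI : Fintype G := Fintype.ofFinite G
        by_cases h3 : ∀ r ∈ R, r.Prime → ¬ r ∣ numConj B
        · have h4 := blkAlt_modq' hpO h2.block a ha (h3 q hqR hq.out)
          exact (Int.ModEq.dvd_iff h4).2 (h G B h1 h2 h3)
        · push Not at h3
          obtain ⟨r, hrR, hr, hrn⟩ := h3
          haveI : Fact r.Prime := ⟨hr⟩
          obtain ⟨B', b1, b2, b3, b4⟩ := exists_mix (p := p) hpO h2.block hrn (adm_pos hpO h2)
          have h5 := ih (Wr r G) B' (by omega) (hX r hrR G h1) (adm_wr hpO h2 b1 b2)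
          rw [b3] at h5
          exact (Nat.prime_iff_prime_int.1 hq.out).dvd_of_dvd_pow h5
    intro G _ B h1 h2
    exact key _ G B le_rfl h1 h2

end Pool.Agent.Helper3K
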