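import Pool.Agent.R663.GA.Gal

/-!
# The Frobenius automorphism and central characters
-/

set_option autoImplicit false
set_option linter.unusedSectionVars false
set_option linter.style.haveILetI false

open scoped BigOperators Classical
open Polynomial

noncomputable section

namespace Pool.Agent.Helper3K

open Pool.Agent.Y63.NV
open Pool.Agent.Y63.AWC (IsIrreducibleCharacter)
open Pool.Agent.Y930.NV (Cf om om_int ind_cast Cf_ind om_ind irr_Cf mk_out Cf_out redC_of R)
open Pool.Agent.R663.GA (om_mem om_pow cv_fin)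
open Pool.Agent.R721.CD (IsRepChar)

/-- reduction and automorphisms which act as the Frobenius map -/
theorem fr_sigma {F : Type} [Field F] {p : ℕ} [hp : Fact p.Prime] [CharP F p]
    (red : integralClosure ℤ ℂ →+* F) {n m k : ℕ} (hn : n = p ^ k * m) (hn0 : n ≠ 0) {w : ℕ}
    (hw : w ≡ p [MOD m]) {σ : ℂ ≃+* ℂ} (hσ : ∀ z : ℂ, z ^ n = 1 → σ z = z ^ w) {a : ℂ}
    (ha : IsIntegral ℤ a)
    (hK : a ∈ IntermediateField.adjoin ℚ {Complex.exp (2 * Real.pi * Complex.I / n)}) :
    redC red (σ a) = redC red a ^ p := by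
  set z0 : ℂ := Complex.exp (2 * Real.pi * Complex.I / n) with hz0
  have hζ0 : IsPrimitiveRoot z0 n := Complex.isPrimitiveRoot_exp n hn0
  have hint0 : IsIntegral ℤ z0 := hζ0.isIntegral (Nat.pos_of_ne_zero hn0)
  have hintQ : IsIntegral ℚ z0 := hint0.tower_top
  have hne : NeZero n := ⟨hn0⟩
  have hcyc : IsCyclotomicExtension {n} ℚ (IntermediateField.adjoin ℚ {z0}) := by
    change IsCyclotomicExtension {n} ℚ (IntermediateField.adjoin ℚ {z0}).toSubalgebra
    rw [IntermediateField.adjoin_simple_toSubalgebra_of_isAlgebraic hintQ.isAlgebraic]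
    exact hζ0.adjoin_isCyclotomicExtension ℚ
  set K := IntermediateField.adjoin ℚ {z0} with hKd
  set ζ : K := ⟨z0, IntermediateField.mem_adjoin_simple_self ℚ z0⟩ with hζ
  have hζp : IsPrimitiveRoot ζ n := by
    refine IsPrimitiveRoot.of_map_of_injective (f := algebraMap K ℂ) ?_
      (algebraMap K ℂ).injective
    exact hζ0
  have hcl := IsCyclotomicExtension.Rat.isIntegralClosure_adjoin_singleton hζp
  have hy : IsIntegral ℤ (⟨a, hK⟩ : K) :=
    (isIntegral_algebraMap_iff (A := K) (B := ℂ) (R := ℤ) (x := ⟨a, hK⟩)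
      Subtype.val_injective).1 ha
  obtain ⟨y, hy'⟩ := hcl.isIntegral_iff.1 hy
  have hymem : ∀ w : K, w ∈ Algebra.adjoin ℤ {ζ} → ∃ g : ℤ[X], aeval ζ g = w := by
    intro w hw
    rw [Algebra.adjoin_singleton_eq_range_aeval] at hw
    exact hw
  obtain ⟨g, hg⟩ := hymem y.1 y.2
  have e2 : aeval z0 g = (((aeval ζ g : K)) : ℂ) := by
    have h3 := aeval_algHom_apply ((algebraMap K ℂ).toIntAlgHom) ζ g
    exact h3
  have e3 : (aeval ζ g : K) = ⟨a, hK⟩ := by
    rw [← hy']
    exact hg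
  have e4 : a = aeval z0 g := by
    rw [e2, e3]
  have hred : ∀ z : ℂ, ∀ hz : IsIntegral ℤ z, redC red (aeval z g) =
      aeval (red ⟨z, hz⟩) g := by
    intro z hz
    have h1 : aeval z g = ((aeval (⟨z, hz⟩ : integralClosure ℤ ℂ) g : integralClosure ℤ ℂ) : ℂ) := by
      have h3 := aeval_algHom_apply ((integralClosure ℤ ℂ).val) (⟨z, hz⟩ : integralClosure ℤ ℂ) g
      exact h3
    have h2 : IsIntegral ℤ (aeval z g) := by
      rw [h1]
      exact (aeval (⟨z, hz⟩ : integralClosure ℤ ℂ) g : integralClosure ℤ ℂ).2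
    rw [redC_of red h2]
    have h4 : (⟨aeval z g, h2⟩ : integralClosure ℤ ℂ) =
        aeval (⟨z, hz⟩ : integralClosure ℤ ℂ) g := Subtype.ext h1
    rw [h4]
    exact (aeval_algHom_apply (red.toIntAlgHom) (⟨z, hz⟩ : integralClosure ℤ ℂ) g).symm
  have e5 : σ a = aeval (z0 ^ w) g := by
    rw [e4, ← hσ z0 hζ0.pow_eq_one]
    exact (aeval_algHom_apply ((σ : ℂ →+* ℂ).toIntAlgHom) z0 g).symm
  have hint1 : IsIntegral ℤ (z0 ^ w) := hint0.pow w
  rw [e5, hred (z0 ^ w) hint1, e4, hred z0 hint0]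
  set u := red ⟨z0, hint0⟩ with hu
  have e6 : (⟨z0 ^ w, hint1⟩ : integralClosure ℤ ℂ) = ⟨z0, hint0⟩ ^ w := Subtype.ext rfl
  have h5 : u ^ n = 1 := by
    rw [hu, ← map_pow]
    have : (⟨z0, hint0⟩ : integralClosure ℤ ℂ) ^ n = 1 := Subtype.ext hζ0.pow_eq_one
    rw [this, map_one]
  have h6 : u ^ m = 1 := by
    rw [hn] at h5
    have : ExpChar F p := ExpChar.prime Fact.out
    exact (ExpChar.pow_prime_pow_mul_eq_one_iff p k m u).1 h5
  have h7 : red ⟨z0 ^ w, hint1⟩ = u ^ p := by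
    rw [e6, map_pow, ← hu, pow_eq_pow_mod w h6, hw, ← pow_eq_pow_mod p h6]
  rw [h7]
  have h8 := aeval_algHom_apply ((frobenius F p).toIntAlgHom) u g
  exact h8

section

variable {F : Type} [Field F] {p : ℕ} [hp : Fact p.Prime] [CharP F p]
  (red : integralClosure ℤ ℂ →+* F) {H : Type} [Group H] [Fintype H]

theorem fr_om {χ : H → ℂ} (h : IsIrreducibleCharacter χ) {v : ℕ} (hv : v.Coprime (Nat.card H))
    (hv1 : v ≡ p [MOD Nat.card H / p ^ (Nat.card H).factorization p]) (C : ConjClasses H) :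
    redC red (om (fun y => χ (y ^ v)) (Pool.Agent.Y930.NV.ind ℂ C)) =
      redC red (om χ (Pool.Agent.Y930.NV.ind ℂ C)) ^ p := by
  have hn0 : Nat.card H ≠ 0 := Nat.card_pos.ne'
  obtain ⟨σ, hσ⟩ := Pool.Agent.R677.FV.exists_sigma (Nat.card H) hn0 v hv
  have hgv : ∀ y, σ (χ y) = χ (y ^ v) := fun y =>
    Pool.Agent.R677.FV.galois_value (IsRepChar.of_irr h) σ v hσ y
  have e1 : om (fun y => χ (y ^ v)) (Pool.Agent.Y930.NV.ind ℂ C) =
      σ (om χ (Pool.Agent.Y930.NV.ind ℂ C)) := by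
    unfold om
    rw [map_div₀, map_sum, hgv 1]
    congr 1
    refine Finset.sum_congr rfl fun y _ => ?_
    rw [map_mul, hgv y]
    congr 1
    unfold Pool.Agent.Y930.NV.ind
    split_ifs
    · rw [map_one]
    · rw [map_zero]
  have hint : IsIntegral ℤ (om χ (Pool.Agent.Y930.NV.ind ℂ C)) := by
    rw [← ind_cast]
    exact om_int h (Cf_ind ℤ _)
  rw [e1]
  have hnm : Nat.card H = p ^ (Nat.card H).factorization p *
      (Nat.card H / p ^ (Nat.card H).factorization p) :=
    (Nat.ordProj_mul_ordCompl_eq_self _ _).symm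
  refine fr_sigma red hnm hn0 hv1 hσ hint ?_
  have hζ := Complex.isPrimitiveRoot_exp (Nat.card H) hn0
  have : NeZero (Nat.card H) := ⟨hn0⟩
  refine om_mem (IntermediateField.adjoin ℚ
    {Complex.exp (2 * Real.pi * Complex.I / (Nat.card H : ℕ))}).toSubfield ?_ h _
  intro z hz
  obtain ⟨i, -, rfl⟩ := hζ.eq_pow_of_pow_eq_one hz
  exact pow_mem (IntermediateField.mem_adjoin_simple_self ℚ _) i

/-- central characters and the Frobenius map -/
theorem fr_cv {χ : H → ℂ} (h : IsIrreducibleCharacter χ) (f : H → F) {v : ℕ}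
    (hv : v.Coprime (Nat.card H))
    (hv1 : v ≡ p [MOD Nat.card H / p ^ (Nat.card H).factorization p]) :
    centralValue red (fun y => χ (y ^ v)) (fun x => f x ^ p) = centralValue red χ f ^ p := by
  rw [cv_fin red h, cv_fin red (Pool.Agent.R663.GA.irr_pow h hv), finsum_eq_sum_of_fintype,
    finsum_eq_sum_of_fintype]
  have h1 := map_sum (frobenius F p) (fun C : ConjClasses H => f C.out *
    R red χ (Pool.Agent.Y930.NV.ind ℤ C)) Finset.univ
  refine Eq.trans ?_ h1.symm
  refine Finset.sum_congr rfl fun C _ => ?_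
  rw [frobenius_def, mul_pow]
  congr 1
  unfold R
  rw [ind_cast, fr_om red h hv hv1]

end

theorem exists_v {p : ℕ} [hp : Fact p.Prime] {n : ℕ} (hn : n ≠ 0) :
    ∃ v : ℕ, v.Coprime n ∧ v ≡ p [MOD n / p ^ n.factorization p] := by
  have hc : Nat.Coprime (p ^ n.factorization p) (n / p ^ n.factorization p) :=
    Nat.Coprime.pow_left _ (Nat.coprime_ordCompl hp.out hn)
  obtain ⟨v, h1, h2⟩ := Nat.chineseRemainder hc 1 p
  refine ⟨v, ?_, h2⟩
  have e : n = p ^ n.factorization p * (n / p ^ n.factorization p) :=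
    (Nat.ordProj_mul_ordCompl_eq_self _ _).symm
  rw [e]
  refine Nat.Coprime.mul_right ?_ ?_
  · have h3 := h1.gcd_eq
    rw [Nat.gcd_one_left] at h3
    exact h3
  · have h3 := h2.gcd_eq
    have h4 : Nat.gcd p (n / p ^ n.factorization p) = 1 := Nat.coprime_ordCompl hp.out hn
    rw [h4] at h3
    exact h3

section

variable {F : Type} [Field F] {p : ℕ} [hp : Fact p.Prime] [CharP F p]
  (red : integralClosure ℤ ℂ →+* F)

theorem pow_one_iff {a : F} : a ^ p = 1 ↔ a = 1 := by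
  constructor
  · intro h
    have h1 : frobenius F p a = frobenius F p 1 := by
      rw [frobenius_def, frobenius_def, one_pow, h]
    exact frobenius_inj F p h1
  · intro h
    rw [h, one_pow]

theorem irr_conj {H : Type} [Group H] (χ : H → ℂ) {v v' : ℕ}
    (hvv : v * v' ≡ 1 [MOD Nat.card H]) : (fun y => (fun z => χ (z ^ v)) (y ^ v')) = χ := by
  funext y
  change χ ((y ^ v') ^ v) = χ y
  rw [← pow_mul, mul_comm, pow_eq_pow_mod (v * v') (pow_card_eq_one' (x := y)), hvv,
    ← pow_eq_pow_mod 1 (pow_card_eq_one' (x := y)), pow_one]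

/-- the numbers of characters and the Frobenius map -/
theorem knum_frob {H : Type} [Group H] [Finite H] (f : H → F) :
    Knum red (fun x => f x ^ p) 1 = Knum red f 1 := by
  have : Fintype H := Fintype.ofFinite H
  have hn0 : Nat.card H ≠ 0 := Nat.card_pos.ne'
  obtain ⟨v, hv, hv1⟩ := exists_v (p := p) hn0
  obtain ⟨v', hv'⟩ : ∃ v' : ℕ, v * v' ≡ 1 [MOD Nat.card H] := by
    refine ⟨((v : ZMod (Nat.card H))⁻¹).val, ?_⟩
    haveI : NeZero (Nat.card H) := ⟨hn0⟩
    rw [← ZMod.natCast_eq_natCast_iff]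
    push_cast
    rw [ZMod.natCast_zmod_val, ZMod.coe_mul_inv_eq_one v hv]
  have hvc : v'.Coprime (Nat.card H) := by
    have h3 := hv'.gcd_eq
    rw [Nat.gcd_one_left] at h3
    exact Nat.Coprime.coprime_mul_left h3
  have key : ∀ χ : H → ℂ, IsIrreducibleCharacter χ →
      (centralValue red (fun y => χ (y ^ v)) (fun x => f x ^ p) = 1 ↔ centralValue red χ f = 1) := by
    intro χ hχ
    rw [fr_cv red hχ f hv hv1]
    exact pow_one_iff
  unfold Knum
  symm
  refine Nat.card_congr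
    { toFun := fun χ => ⟨fun y => χ.1 (y ^ v), Pool.Agent.R663.GA.irr_pow χ.2.1 hv,
        (key χ.1 χ.2.1).2 χ.2.2⟩
      invFun := fun χ => ⟨fun y => χ.1 (y ^ v'), Pool.Agent.R663.GA.irr_pow χ.2.1 hvc, ?_⟩
      left_inv := fun χ => Subtype.ext (irr_conj χ.1 hv')
      right_inv := fun χ => Subtype.ext (irr_conj χ.1 (by rw [mul_comm]; exact hv')) }
  rw [← key _ (Pool.Agent.R663.GA.irr_pow χ.2.1 hvc), irr_conj χ.1 (by rw [mul_comm]; exact hv')]
  exact χ.2.2

end

end Pool.Agent.Helper3K
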