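import Pool.Agent.Helper3K.Abs
import Pool.Agent.Helper3K.Frob

/-!
# Complements of the base group of a wreath product, and the formulas for alternating sums
-/

set_option autoImplicit false
set_option linter.unusedSectionVars false
set_option linter.style.haveILetI false

open scoped BigOperators Classical

noncomputable section

namespace Pool.Agent.Helper3K

open Pool.Agent.Y63.KR
open Pool.Agent.Y63.NV
open Pool.Agent.N85.WM (Wr Base shiftHom wrF wrF_inZ IsIdem card_wr)
open Pool.Agent.Y63.AWC (IsIrreducibleCharacter cj)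
open Pool.Agent.H254R3.IN (IsIrr)
open Pool.Agent.N20.KB (irr_comp' knum_iso AA aB aa_aB aB_prod aB_iso aa_congr aa_index)
open Pool.Agent.N19.RB (tens tens_irr tens_inj exists_tens)
open Pool.Agent.Q90.WR (Ch)
open Pool.Agent.R674.KB (kblk)

section cpl

variable {q : ℕ} [hq : Fact q.Prime] {G : Type} [Group G] [Finite G]

theorem mem_tws_bot {b : ZMod q → G} {x : Wr q G} :
    x ∈ tws b (⊥ : Subgroup G) ↔ ∀ i, x.left i = b i * (b (i - sft x))⁻¹ := by
  rw [mem_tws]
  refine forall_congr' fun i => ?_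
  rw [Subgroup.mem_bot]
  constructor
  · intro h
    have e : x.left i = b i * ((b i)⁻¹ * x.left i * b (i - sft x)) * (b (i - sft x))⁻¹ := by group
    rw [e, h, mul_one]
  · intro h
    rw [h]
    group

theorem card_tws_bot (b : ZMod q → G) : Nat.card (tws b (⊥ : Subgroup G)) = q := by
  obtain ⟨x, hx⟩ := exists_shift b (⊥ : Subgroup G) (1 : ZMod q)
  haveI : Fact (1 < q) := ⟨hq.out.one_lt⟩
  have h1 := card_eq_base (tws b (⊥ : Subgroup G)) ⟨x.1, x.2, by rw [hx]; exact one_ne_zero⟩
  have h2 := Subgroup.card_mul_index ((Base q G).subgroupOf (tws b (⊥ : Subgroup G)))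
  rw [h1, ← Nat.card_congr (fb b (⊥ : Subgroup G)).toEquiv, Nat.card_fun, Subgroup.card_bot,
    one_pow, one_mul] at h2
  exact h2.symm

/-- the complements of the base group -/
def IsCpl (R : Subgroup (Wr q G)) : Prop :=
  IsPGroup q R ∧ Base q G ⊔ R = ⊤ ∧ Base q G ⊓ R = ⊥

theorem cpl_tws (b : ZMod q → G) : IsCpl (tws b (⊥ : Subgroup G)) := by
  refine ⟨IsPGroup.of_card (n := 1) (by rw [pow_one, card_tws_bot]), ?_, ?_⟩
  · rw [eq_top_iff]
    intro x _
    obtain ⟨y, hy⟩ := exists_shift b (⊥ : Subgroup G) (sft x)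
    have e : x = (x * (y.1)⁻¹) * y.1 := by group
    rw [e]
    refine Subgroup.mul_mem _ (Subgroup.mem_sup_left ?_) (Subgroup.mem_sup_right y.2)
    rw [mem_base', mulS, invS, hy, add_neg_cancel]
  · rw [Subgroup.eq_bot_iff_forall]
    rintro x ⟨h1, h2⟩
    have h1' : sft x = 0 := mem_base'.1 h1
    refine wr_ext (fun i => ?_) h1'
    have h3 := mem_tws_bot.1 h2 i
    rw [h3, h1', sub_zero, mul_inv_cancel, oneL]

theorem cpl_out {R : Subgroup (Wr q G)} (hR : IsCpl R) : ∃ x ∈ R, sft x ≠ 0 := by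
  by_contra hcon
  push Not at hcon
  have h1 : R ≤ Base q G := fun x hx => mem_base'.2 (hcon x hx)
  have h2 := hR.2.1
  rw [sup_eq_left.2 h1] at h2
  haveI : Fact (1 < q) := ⟨hq.out.one_lt⟩
  have h3 : (⟨1, Multiplicative.ofAdd (1 : ZMod q)⟩ : Wr q G) ∈ Base q G := by
    rw [h2]
    exact Subgroup.mem_top _
  have h4 : (1 : ZMod q) = 0 := mem_base'.1 h3
  exact one_ne_zero h4

theorem cpl_pr0 {R : Subgroup (Wr q G)} (hR : IsCpl R) : pr0 R = ⊥ := by
  rw [Subgroup.eq_bot_iff_forall]
  rintro g ⟨x, hx, hx0, rfl⟩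
  have h1 : x ∈ Base q G ⊓ R := ⟨mem_base'.2 hx0, hx⟩
  rw [hR.2.2, Subgroup.mem_bot] at h1
  rw [h1, oneL]

/-- the complements are the conjugates of the standard complement -/
theorem cpl_unique {R : Subgroup (Wr q G)} (hR : IsCpl R) :
    ∃! b : B0 q G, R = tws (eB b) (⊥ : Subgroup G) := by
  obtain ⟨k, hk⟩ := exists_trv (cpl_out hR)
  have h1 := count_tws hk (⊥ : Subgroup G)
  rw [if_pos (cpl_pr0 hR).le, Subgroup.card_bot, one_pow, Finset.card_eq_one] at h1
  obtain ⟨b, hb⟩ := h1
  have hle : ∀ b' : B0 q G, R = tws (eB b') (⊥ : Subgroup G) ↔ b' = b := by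
    intro b'
    have h5 : b' ∈ (Finset.univ.filter fun b : B0 q G => R ≤ tws (eB b) (⊥ : Subgroup G)) ↔
        b' ∈ ({b} : Finset (B0 q G)) := by rw [hb]
    rw [Finset.mem_filter, Finset.mem_singleton] at h5
    rw [← h5]
    constructor
    · intro h
      exact ⟨Finset.mem_univ _, h.le⟩
    · rintro ⟨-, h⟩
      apply Subgroup.eq_of_le_of_card_ge h
      rw [card_tws_bot]
      have h2 := card_eq_base R (cpl_out hR)
      have h3 := Subgroup.card_mul_index ((Base q G).subgroupOf R)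
      rw [h2] at h3
      rw [← h3]
      exact Nat.le_mul_of_pos_left _ Nat.card_pos
  exact ⟨b, (hle b).2 rfl, fun b' h => (hle b').1 h⟩

/-- sums over the complements -/
theorem sum_cpl (f : Subgroup (Wr q G) → ℤ) :
    (∑ᶠ R : Subgroup (Wr q G), if IsCpl R then f R else 0) =
      ∑ b : B0 q G, f (tws (eB b) (⊥ : Subgroup G)) := by
  have : Fintype (Subgroup (Wr q G)) := Fintype.ofFinite _
  rw [finsum_eq_sum_of_fintype, ← Finset.sum_filter]
  symm
  refine Finset.sum_bij (fun b _ => tws (eB b) (⊥ : Subgroup G)) ?_ ?_ ?_ ?_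
  · intro b _
    exact Finset.mem_filter.2 ⟨Finset.mem_univ _, cpl_tws _⟩
  · intro b _ b' _ h
    obtain ⟨c, -, hc⟩ := cpl_unique (cpl_tws (eB b))
    have h1 := hc b rfl
    have h2 := hc b' h
    rw [h1, h2]
  · intro R hR
    obtain ⟨b, hb, -⟩ := cpl_unique (Finset.mem_filter.1 hR).2
    exact ⟨b, Finset.mem_univ _, hb.symm⟩
  · intro b _
    rfl

/-- the centraliser of a complement in the base group -/
def ce (b : ZMod q → G) :
    G ≃* ↥(Base q G ⊓ Subgroup.centralizer (tws b (⊥ : Subgroup G) : Set (Wr q G))) where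
  toFun g := ⟨bas fun i => b i * g * (b i)⁻¹, by
    refine Subgroup.mem_inf.2 ⟨mem_base'.2 rfl, ?_⟩
    rw [Subgroup.mem_centralizer_iff]
    intro x hx
    have hx' := mem_tws_bot.1 hx
    refine wr_ext (fun i => ?_) ?_
    · rw [mulL, mulL, hx']
      change b i * (b (i - sft x))⁻¹ * (b (i - sft x) * g * (b (i - sft x))⁻¹) =
        b i * g * (b i)⁻¹ * x.left (i - 0)
      rw [sub_zero, hx']
      group
    · rw [mulS, mulS, add_comm]⟩
  invFun y := (b 0)⁻¹ * y.1.left 0 * b 0
  left_inv g := by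
    change (b 0)⁻¹ * (b 0 * g * (b 0)⁻¹) * b 0 = g
    group
  right_inv := by
    rintro ⟨y, hy⟩
    apply Subtype.ext
    obtain ⟨hy1, hy2⟩ := Subgroup.mem_inf.1 hy
    have hy0 : sft y = 0 := mem_base'.1 hy1
    rw [Subgroup.mem_centralizer_iff] at hy2
    refine wr_ext (fun i => ?_) hy0.symm
    change b i * ((b 0)⁻¹ * y.left 0 * b 0) * (b i)⁻¹ = y.left i
    obtain ⟨x, hx⟩ := exists_shift b (⊥ : Subgroup G) i
    have h1 := congrArg (fun w : Wr q G => w.left i) (hy2 x.1 x.2)
    have h2 := mem_tws_bot.1 x.2 i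
    simp only [mulL] at h1
    rw [hy0, hx, sub_self, sub_zero, h2, hx, sub_self] at h1
    have e : y.left i = y.left i * (b i * (b 0)⁻¹) * (b 0 * (b i)⁻¹) := by group
    rw [e, ← h1]
    group
  map_mul' g h := by
    apply Subtype.ext
    refine wr_ext (fun i => ?_) (by rw [Subgroup.coe_mul, mulS]; exact (add_zero 0).symm)
    change b i * (g * h) * (b i)⁻¹ = b i * g * (b i)⁻¹ * (b (i - 0) * h * (b (i - 0))⁻¹)
    rw [sub_zero]
    group

theorem z_ce {F : Type} [Field F] {z : Wr q G → F} (hz : InZ (Base q G) z) (b : ZMod q → G)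
    (g : G) : z (ce b g : ↥(Base q G ⊓ Subgroup.centralizer (tws b (⊥ : Subgroup G) :
      Set (Wr q G)))) = z (bas fun _ => g) := by
  rw [← hz.conj (bas b) (bas fun _ => g)]
  congr 1
  refine wr_ext (fun i => ?_) (by rw [conjS]; rfl)
  rw [conjL _ _ rfl]
  rfl

end cpl

section p

variable {p : ℕ} [hp : Fact p.Prime] {G : Type} [Group G] [Finite G]
  {F : Type} [Field F] [IsAlgClosed F] [CharP F p] (red : integralClosure ℤ ℂ →+* F)

/-- **alternating sums and wreath products with the cyclic group of order `p`** -/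
theorem aa_wr_p {z : Wr p G → F} (hz : InZ (Base p G) z) (c : F) :
    AA p red (Wr p G) z c = AA p red (Base p G) (fun x : Base p G => z x) c -
      (Nat.card G : ℤ) ^ (p - 1) * AA p red G (fun g => z (bas fun _ => g)) c := by
  have hi : (Base p G).index = p := by
    rw [Subgroup.index_eq_card, Pool.Agent.N85.WM.card_quot]
  have hcl : IsClassFun (fun g : G => z (bas fun _ => g)) := by
    intro g x
    change z (bas fun _ => g * x * g⁻¹) = z (bas fun _ => x)
    rw [← hz.conj (bas fun _ => g) (bas fun _ => x)]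
    congr 1
    refine wr_ext (fun i => ?_) (by rw [conjS]; rfl)
    rw [conjL _ _ rfl]
    rfl
  rw [aa_index red hi hz c]
  congr 1
  have h := sum_cpl (q := p) (G := G) (fun R =>
    AA p red ↥(Base p G ⊓ Subgroup.centralizer (R : Set (Wr p G)))
      (fun x : ↥(Base p G ⊓ Subgroup.centralizer (R : Set (Wr p G))) => z x) c)
  refine Eq.trans (finsum_congr fun R => ?_) (Eq.trans h ?_)
  · unfold IsCpl
    congr
  have h1 : ∀ b : B0 p G,
      AA p red ↥(Base p G ⊓ Subgroup.centralizer (tws (eB b) (⊥ : Subgroup G) : Set (Wr p G)))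
        (fun x : ↥(Base p G ⊓ Subgroup.centralizer (tws (eB b) (⊥ : Subgroup G) :
          Set (Wr p G))) => z x) c = AA p red G (fun g => z (bas fun _ => g)) c := by
    intro b
    rw [← aa_congr (p := p) red (ce (eB b)) (z := fun x : ↥(Base p G ⊓
      Subgroup.centralizer (tws (eB b) (⊥ : Subgroup G) : Set (Wr p G))) => z x)
      (fun g x => hz.conj g x) c]
    congr 1
    funext g
    exact z_ce hz (eB b) g
  rw [Finset.sum_congr rfl fun b _ => h1 b, Finset.sum_const, Finset.card_univ, nsmul_eq_mul,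
    ← Nat.card_eq_fintype_card, Nat.card_fun, card_ne]
  push_cast
  rfl

end p

end Pool.Agent.Helper3K
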