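import Pool.Agent.Helper3K.Cliff
import Pool.Agent.Y930.NV.Cen
import Pool.Agent.Y286.NV.Fin
import Pool.Agent.Y63.NV.Stm5

/-!
# Central characters and normal subgroups of prime index
-/

set_option autoImplicit false
set_option linter.unusedSectionVars false
set_option linter.style.haveILetI false

open scoped BigOperators Classical

noncomputable section

namespace Pool.Agent.Helper3K

open Pool.Agent.Helper884 Pool.Agent.H254R3.IN
open Pool.Agent.Helper884.IC (Irr)
open Pool.Agent.Y63.AWC (res cj mult cj_irr cj_mul cj_one IsIrreducibleCharacter)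
open Pool.Agent.K3h3.KB (exists_cj exists_mult cj_mem_M cj_at_one Om_res ext0)
open Pool.Agent.Y63.NV
open Pool.Agent.Y930.NV (Cf R R_expand centralValue_eq om om_int ind_cast Cf_ind Cf_expand Cf_out mk_out)

section

variable {X : Type} [Group X] [Fintype X] (M : Subgroup X) [hM : M.Normal]
  {F : Type} [Field F] (red : integralClosure ℤ ℂ →+* F)

theorem ind_res_inv (C : ConjClasses X) (x : X) :
    cj M x (fun m : M => Pool.Agent.Y930.NV.ind ℂ C (m : X)) =
      fun m : M => Pool.Agent.Y930.NV.ind ℂ C (m : X) := by
  funext m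
  unfold cj
  change Pool.Agent.Y930.NV.ind ℂ C ((MulAut.conjNormal x m : M) : X) = _
  rw [MulAut.conjNormal_apply]
  exact Cf_ind ℂ C x m

/-- the values of the central characters at class functions supported on `M` -/
theorem cv_res {χ : X → ℂ} (hχ : IsIrr χ) {θ : M → ℂ} (hθ : IsIrr θ) (hm : mult M χ θ ≠ 0)
    {z : X → F} (hz : InZ M z) :
    centralValue red χ z = centralValue red θ (fun m : M => z m) := by
  have : Fintype M := Fintype.ofFinite M
  have hcl : Cf (fun m : M => z m) := fun g m => hz.conj g m
  -- the right-hand side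
  have h1 : centralValue red θ (fun m : M => z m) =
      ∑ C : ConjClasses X, z C.out * R red θ (fun m : M => Pool.Agent.Y930.NV.ind ℤ C (m : X)) := by
    rw [centralValue_eq red hθ]
    have e1 : ∀ C : ConjClasses X, z C.out * R red θ (fun m : M => Pool.Agent.Y930.NV.ind ℤ C (m : X)) =
        ∑ D : ConjClasses M, z C.out * (((Pool.Agent.Y930.NV.ind ℤ C (D.out : X) : ℤ) : F) *
          R red θ (Pool.Agent.Y930.NV.ind ℤ D)) := by
      intro C
      rw [R_expand red hθ (n := fun m : M => Pool.Agent.Y930.NV.ind ℤ C (m : X))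
        (fun g x => Cf_ind ℤ C g x), Finset.mul_sum]
      exact Finset.sum_congr (Finset.ext fun _ => by simp) fun _ _ => rfl
    refine Eq.trans ?_ (Finset.sum_congr rfl fun C _ => (e1 C).symm)
    rw [Finset.sum_comm]
    refine Finset.sum_congr (Finset.ext fun _ => by simp) fun D _ => ?_
    have e2 := Cf_expand (A := F) (f := z) hz.conj ((D.out : M) : X)
    refine Eq.trans (congrArg (fun t : F => t * R red θ (Pool.Agent.Y930.NV.ind ℤ D)) e2) ?_
    refine Eq.trans (Finset.sum_mul _ _ _) ?_
    refine Finset.sum_congr (Finset.ext fun _ => by simp) fun C _ => ?_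
    have e3 : ((Pool.Agent.Y930.NV.ind ℤ C (D.out : X) : ℤ) : F) =
        Pool.Agent.Y930.NV.ind F C (D.out : X) := by
      unfold Pool.Agent.Y930.NV.ind
      split_ifs <;> simp
    rw [e3, mul_assoc]
  rw [h1, centralValue_eq red hχ]
  refine Finset.sum_congr (Finset.ext fun _ => by simp) fun C _ => ?_
  by_cases hC : C.out ∈ M
  · congr 1
    unfold R
    congr 1
    have h2 := Om_res M hχ hθ hm (f := fun m : M => Pool.Agent.Y930.NV.ind ℂ C (m : X))
      (ind_res_inv M C)
    have h3 : ext0 M (fun m : M => Pool.Agent.Y930.NV.ind ℂ C (m : X)) =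
        Pool.Agent.Y930.NV.ind ℂ C := by
      funext g
      unfold ext0
      by_cases hg : g ∈ M
      · rw [dif_pos hg]
      · rw [dif_neg hg]
        unfold Pool.Agent.Y930.NV.ind
        rw [if_neg]
        intro h4
        apply hg
        have h5 : IsConj g C.out := ConjClasses.mk_eq_mk_iff_isConj.1 (h4.trans (mk_out C).symm)
        obtain ⟨c, hc⟩ := isConj_iff.1 h5.symm
        rw [← hc]
        exact hM.conj_mem _ hC c
    rw [h3] at h2
    have h4 : (fun g : X => ((Pool.Agent.Y930.NV.ind ℤ C g : ℤ) : ℂ)) =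
        Pool.Agent.Y930.NV.ind ℂ C := ind_cast C
    have h5 : (fun m : M => ((Pool.Agent.Y930.NV.ind ℤ C (m : X) : ℤ) : ℂ)) =
        fun m : M => Pool.Agent.Y930.NV.ind ℂ C (m : X) := by
      funext m
      exact congrFun h4 m
    rw [h4, h5]
    unfold Om at h2
    unfold om
    rw [← h2]
    congr 1
    exact Finset.sum_congr (Finset.ext fun _ => by simp) fun _ _ => rfl
  · rw [hz.supp _ hC, zero_mul, zero_mul]

theorem cv_cj {θ : M → ℂ} (hθ : IsIrr θ) (x : X) {z : X → F} (hz : InZ M z) :
    centralValue red (cj M x θ) (fun m : M => z m) = centralValue red θ (fun m : M => z m) := by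
  have h1 := Pool.Agent.Y286.NV.centralValue_comp red (MulAut.conjNormal x : M ≃* M) θ
    (fun a b h => Pool.Agent.Y286.NV.irr_class hθ a b h) (fun m : M => z m)
    (fun g m => hz.conj g m)
  rw [← h1]
  congr 1
  funext m
  change z m = z ((MulAut.conjNormal x m : M) : X)
  rw [MulAut.conjNormal_apply, hz.conj]

/-- the number of the invariant characters of `M` with a given value of the central character -/
def Inum (z : X → F) (c : F) : ℕ :=
  Nat.card {θ : M → ℂ // IsIrreducibleCharacter θ ∧ centralValue red θ (fun m : M => z m) = c ∧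
    Inv M θ}

theorem card_sub (P : (X → ℂ) → Prop) :
    Nat.card {χ : X → ℂ // IsIrreducibleCharacter χ ∧ P χ} = ((Irr X).filter P).card := by
  rw [← Fintype.card_coe, ← Nat.card_eq_fintype_card]
  refine Nat.card_congr (Equiv.subtypeEquivRight fun χ => ?_)
  rw [Finset.mem_filter]
  exact and_congr_left fun _ => IC.mem_Irr.symm

/-- **Clifford theory for the numbers `Knum`** -/
theorem knum_prime {q : ℕ} (hq : q.Prime) (hi : M.index = q) {z : X → F} (hz : InZ M z) (c : F) :
    q * Knum red z c + Inum M red z c =
      Knum red (fun m : M => z m) c + q ^ 2 * Inum M red z c := by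
  have h := count_over M hq hi (fun θ => centralValue red θ (fun m : M => z m) = c)
    (fun x θ h1 h2 => by rw [cv_cj M red h1 x hz]; exact h2)
  have e1 : Knum red z c = ((Irr X).filter fun χ => ∃ θ, IsIrr θ ∧
      centralValue red θ (fun m : M => z m) = c ∧ mult M χ θ ≠ 0).card := by
    unfold Knum
    rw [card_sub]
    congr 1
    refine Finset.filter_congr fun χ hχ => ?_
    have hχ' := mem_Irr.mp hχ
    constructor
    · intro h1
      obtain ⟨θ, h2, h3⟩ := exists_mult M hχ'
      exact ⟨θ, h2, by rw [← cv_res M red hχ' h2 h3 hz]; exact h1, h3⟩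
    · rintro ⟨θ, h1, h2, h3⟩
      rw [cv_res M red hχ' h1 h3 hz]
      exact h2
  have e2 : Knum red (fun m : M => z m) c =
      ((Irr M).filter fun θ => centralValue red θ (fun m : M => z m) = c).card := by
    unfold Knum
    rw [card_sub (X := M)]
  have e3 : Inum M red z c = ((Irr M).filter fun θ =>
      centralValue red θ (fun m : M => z m) = c ∧ Inv M θ).card := by
    unfold Inum
    rw [card_sub (X := M)]
    congr
  rw [e1, e2, e3]
  convert h

end

end Pool.Agent.Helper3K
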