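import Pool.Agent.Helper3K.Cliff
import Pool.Agent.Q90.WR.Bcl

/-!
# Defect groups and degrees
-/

set_option autoImplicit false
set_option linter.unusedSectionVars false
set_option linter.style.haveILetI false

open scoped BigOperators Classical

noncomputable section

namespace Pool.Agent.Helper3K

open Pool.Agent.Helper884 Pool.Agent.H254R3.IN
open Pool.Agent.Helper884.IC (Irr)
open Pool.Agent.Y63.AWC (res cj mult res_eq mult_cj)
open Pool.Agent.K3h3.KB (exists_cj exists_mult cj_at_one)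
open Pool.Agent.Q90.WR (GoodB)

theorem nu_mul {O : ValuationSubring ℂ} {x y : ℂ} (hx : x ∈ O.nonunits) (hy : y ∈ O) :
    x * y ∈ O.nonunits := by
  have hxO : x ∈ O := O.nonunits_subset hx
  rw [← red_eq_zero_iff (O.mul_mem _ _ hxO hy), red_mul hxO hy, red_eq_zero hx, zero_mul]

section defect

variable {p : ℕ} [hp : Fact p.Prime] {O : ValuationSubring ℂ} {G : Type} [Group G] [Finite G]

/-- a block without characters of defect zero has a nontrivial defect group -/
theorem defect_of_pos (hpO : (p : ℂ) ∈ O.nonunits) {B : Set (G → ℂ)} (hB : IsBlock O B)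
    (hz : ∀ ψ ∈ B, (Nat.card G : ℂ) / ψ 1 ∈ O.nonunits) : ∃ D, IsDefectGroup p O B D ∧ D ≠ ⊥ := by
  have : Fintype G := Fintype.ofFinite G
  obtain ⟨χ₀, h0⟩ := hB.nonempty
  have h0i := hB.irr χ₀ h0
  have h1 := (red_Om (O := O) h0i (blockCoeff_cl hB.irr) (fun g => blockCoeff_mem hB g)).2
  rw [Om_blockCoeff hB.irr h0i, if_pos h0, red_one] at h1
  have h2 : ∃ K : ConjClasses G, red O (blockCoeff B (rep K)) * red O (omega χ₀ (rep K)) ≠ 0 := by
    by_contra hcon
    push Not at hcon
    rw [Finset.sum_eq_zero fun K _ => hcon K] at h1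
    exact one_ne_zero h1
  obtain ⟨K, hK⟩ := h2
  set x := rep K
  have ha : blockCoeff B x ∉ O.nonunits := fun h => hK (by rw [red_eq_zero h, zero_mul])
  have hw : ∀ χ ∈ B, omega χ x ∉ O.nonunits := fun χ hχ h => hK (by
    rw [hB.red_eq h0 hχ x, red_eq_zero h, mul_zero])
  let P : Sylow p (Subgroup.centralizer ({x} : Set G)) := default
  refine ⟨(P : Subgroup (Subgroup.centralizer ({x} : Set G))).map
    (Subgroup.centralizer ({x} : Set G)).subtype, ⟨x, ⟨P, rfl⟩, hw, ha⟩, ?_⟩
  intro hbot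
  have hP : (P : Subgroup (Subgroup.centralizer ({x} : Set G))) = ⊥ :=
    (Subgroup.map_eq_bot_iff_of_injective _ (Subgroup.subtype_injective _)).1 hbot
  have hnd : ¬ p ∣ Nat.card (Subgroup.centralizer ({x} : Set G)) := by
    have h3 := P.card_eq_multiplicity
    have h4 : Nat.card P = 1 := by
      change Nat.card (P : Subgroup (Subgroup.centralizer ({x} : Set G))) = 1
      rw [hP, Subgroup.card_bot]
    rw [h4] at h3
    intro hdvd
    have h5 : (Nat.card (Subgroup.centralizer ({x} : Set G))).factorization p ≠ 0 := by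
      have := (hp.out.dvd_iff_one_le_factorization Nat.card_pos.ne').1 hdvd
      omega
    have h6 := Nat.one_lt_pow h5 hp.out.one_lt
    omega
  apply hw χ₀ h0
  have h3 := h0i.val_eq x
  have hG : (Nat.card G : ℂ) ≠ 0 := by exact_mod_cast Nat.card_pos.ne'
  have hC : (Nat.card (Subgroup.centralizer ({x} : Set G)) : ℂ) ≠ 0 := by
    exact_mod_cast Nat.card_pos.ne'
  have h4 : omega χ₀ x = (Nat.card G : ℂ) / χ₀ 1 *
      (χ₀ x * (Nat.card (Subgroup.centralizer ({x} : Set G)) : ℂ)⁻¹) := by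
    rw [h3]
    have := h0i.one_ne
    field_simp
  rw [h4]
  exact nu_mul (hz χ₀ h0) (O.mul_mem _ _ (h0i.val_mem O x)
    (nat_inv_mem hpO hnd))

end defect

section clifford

variable {X : Type} [Group X] [Fintype X] (M : Subgroup X) [hM : M.Normal]

/-- the degrees of the characters over a character of a normal subgroup of prime index -/
theorem deg_prime {q : ℕ} (hq : q.Prime) (hi : M.index = q) {χ : X → ℂ} (hχ : IsIrr χ)
    {θ : M → ℂ} (h : IsIrr θ) (hm : mult M χ θ ≠ 0) : χ 1 = θ 1 ∨ χ 1 = q * θ 1 := by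
  have hs := sum_sq M hq hi h
  have hc := card_over_eq M hq hi h
  have h1 := congrFun (res_eq M hχ) 1
  rw [Finset.sum_apply] at h1
  have hle : ∀ a ∈ (Irr X).filter (fun χ => mult M χ θ ≠ 0), 1 ≤ mult M a θ * mult M a θ := by
    intro a ha
    exact Nat.one_le_iff_ne_zero.2 (mul_ne_zero (Finset.mem_filter.1 ha).2
      (Finset.mem_filter.1 ha).2)
  have hs' : ∑ a ∈ (Irr X).filter (fun χ => mult M χ θ ≠ 0), mult M a θ * mult M a θ =
      ((Irr X).filter (fun χ => mult M χ θ ≠ 0)).card := by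
    rw [hc, ← hs, Finset.sum_filter]
    refine Finset.sum_congr rfl fun a _ => ?_
    split_ifs with h2
    · rfl
    · push Not at h2
      rw [h2, zero_mul]
  have hm1 : mult M χ θ = 1 := by
    have h3 : ∀ a ∈ (Irr X).filter (fun χ => mult M χ θ ≠ 0), mult M a θ * mult M a θ = 1 := by
      intro a ha
      by_contra hne
      have h4 : 1 < mult M a θ * mult M a θ := lt_of_le_of_ne (hle a ha) (Ne.symm hne)
      have h5 := Finset.sum_lt_sum hle ⟨a, ha, h4⟩
      rw [hs', Finset.sum_const, smul_eq_mul, mul_one] at h5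
      exact lt_irrefl _ h5
    exact Nat.eq_one_of_mul_eq_one_left (h3 χ (Finset.mem_filter.2 ⟨mem_Irr.2 hχ, hm⟩))
  have h2 : ∀ ψ ∈ Irr M, ((mult M χ ψ : ℂ) • ψ) 1 = if mult M χ ψ ≠ 0 then θ 1 else 0 := by
    intro ψ hψ
    rw [Pi.smul_apply, smul_eq_mul]
    split_ifs with h3
    · obtain ⟨x, rfl⟩ := exists_cj M hχ (mem_Irr.mp hψ) h h3 hm
      rw [cj_at_one, mult_cj M hχ h, hm1, Nat.cast_one, one_mul]
    · push Not at h3
      rw [h3]
      simp
  rw [Finset.sum_congr rfl h2, ← Finset.sum_filter, Finset.sum_const, card_under_eq M hq hi hχ h hm] at h1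
  have h3 : res M χ 1 = χ 1 := rfl
  rw [h3] at h1
  split_ifs at h1 with hinv
  · left
    rw [h1, one_smul]
  · right
    rw [h1, nsmul_eq_mul]

end clifford

end Pool.Agent.Helper3K
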