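import Pool.Agent.Helper3K.Bridge
import Pool.Agent.Helper3K.Dfc
import Pool.Agent.N85.WM.Cmt
import Pool.Agent.N85.WM.Dzt
import Pool.Agent.N85.WM.Van

/-!
# Pairs of elements with a given commutator and alternating sums: counting
-/

set_option autoImplicit false
set_option linter.unusedSectionVars false
set_option linter.style.haveILetI false

open scoped BigOperators Classical

noncomputable section

namespace Pool.Agent.Helper3K

open Pool.Agent.Y63.KR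
open Pool.Agent.N85.WM (cc_count PEl card_prod)
open Pool.Agent.Q90.WR (card_mul_alternatingSum')

section count

variable {G : Type} [Group G] [Finite G]

/-- the number of the pairs of elements of `H` with commutator conjugate to `g` in `G` -/
def comIn (H : Subgroup G) (g : G) : ℕ :=
  Nat.card {t : G × G // (t.1 ∈ H ∧ t.2 ∈ H) ∧ IsConj g (t.1 * t.2 * t.1⁻¹ * t.2⁻¹)}

/-- the same divided by `|H|` -/
def comCl (H : Subgroup G) (g : G) : ℕ :=
  Nat.card {s : ConjClasses H × H // IsConj g (s.2 : G) ∧ IsConj (s.2 * s.1.out) s.1.out}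

theorem isConj_right {g x : G} (a : G) : IsConj g (a * x * a⁻¹) ↔ IsConj g x := by
  have h1 : IsConj x (a * x * a⁻¹) := isConj_iff.mpr ⟨a, rfl⟩
  exact ⟨fun h2 => h2.trans h1.symm, fun h2 => h2.trans h1⟩

theorem card_comCl (H : Subgroup G) (g : G) : Nat.card H * comCl H g = comIn H g := by
  have h1 := cc_count (H := H) (R := H) (fun y r => r * y) (fun _ r => IsConj g (r : G)) (by
    intro a
    refine ⟨(MulAut.conj a).toEquiv, fun y r => ⟨?_, ?_⟩⟩
    · change IsConj g ((a * r * a⁻¹ : H) : G) ↔ _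
      exact isConj_right (a : G)
    · change a * r * a⁻¹ * (a * y * a⁻¹) = a * (r * y) * a⁻¹
      group)
  unfold comCl
  rw [h1]
  unfold comIn
  refine Nat.card_congr
    { toFun := fun t => ⟨((t.1.2.1 : G), (t.1.1 : G)), ⟨t.1.2.1.2, t.1.1.2⟩, ?_⟩
      invFun := fun t => ⟨(⟨t.1.2, t.2.1.2⟩, ⟨t.1.1, t.2.1.1⟩,
        ⟨t.1.1, t.2.1.1⟩ * ⟨t.1.2, t.2.1.2⟩ * ⟨t.1.1, t.2.1.1⟩⁻¹ * ⟨t.1.2, t.2.1.2⟩⁻¹), ?_, ?_⟩
      left_inv := fun t => ?_
      right_inv := fun t => rfl }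
  · have h2 := t.2.2
    have h3 : t.1.2.2 = t.1.2.1 * t.1.1 * t.1.2.1⁻¹ * t.1.1⁻¹ := by
      rw [h2]
      group
    have h4 := t.2.1
    rw [h3] at h4
    exact h4
  · exact t.2.2
  · group
  · apply Subtype.ext
    refine Prod.ext rfl (Prod.ext rfl ?_)
    change t.1.2.1 * t.1.1 * t.1.2.1⁻¹ * t.1.1⁻¹ = t.1.2.2
    rw [t.2.2]
    group

theorem comIn_conj (a : G) (H : Subgroup G) (g : G) : comIn (conjSub a H) g = comIn H g := by
  unfold comIn
  refine (Nat.card_congr (Equiv.subtypeEquiv (Equiv.prodCongr (MulAut.conj a).toEquiv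
    (MulAut.conj a).toEquiv) fun t => ?_)).symm
  change _ ↔ ((a * t.1 * a⁻¹ ∈ conjSub a H) ∧ (a * t.2 * a⁻¹ ∈ conjSub a H)) ∧
    IsConj g (a * t.1 * a⁻¹ * (a * t.2 * a⁻¹) * (a * t.1 * a⁻¹)⁻¹ * (a * t.2 * a⁻¹)⁻¹)
  have e1 : ∀ x : G, a * x * a⁻¹ ∈ conjSub a H ↔ x ∈ H := by
    intro x
    rw [mem_conjSub]
    have : a⁻¹ * (a * x * a⁻¹) * a = x := by group
    rw [this]
  have e2 : a * t.1 * a⁻¹ * (a * t.2 * a⁻¹) * (a * t.1 * a⁻¹)⁻¹ * (a * t.2 * a⁻¹)⁻¹ =
      a * (t.1 * t.2 * t.1⁻¹ * t.2⁻¹) * a⁻¹ := by group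
  rw [e1, e1, e2, isConj_right]

theorem card_conjSub (a : G) (H : Subgroup G) : Nat.card (conjSub a H) = Nat.card H :=
  (Nat.card_congr (H.equivMapOfInjective _ (MulAut.conj a).injective).toEquiv).symm

theorem comCl_conj (a : G) (H : Subgroup G) (g : G) : comCl (conjSub a H) g = comCl H g := by
  have h1 := card_comCl (conjSub a H) g
  rw [comIn_conj, ← card_comCl, card_conjSub] at h1
  exact Nat.eq_of_mul_eq_mul_left Nat.card_pos h1

theorem main_count' {p : ℕ} (f : Subgroup G → ℤ)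
    (hf : ∀ (g : G) (H : Subgroup G), f (conjSub g H) = f H) {T : Type} [Fintype T]
    (K : T → Set G) (h : ∀ H : Subgroup G, (Nat.card H : ℤ) * f H =
      (Nat.card {t : T // K t ⊆ H} : ℤ)) :
    (Nat.card G : ℤ) * alternatingSum p G f = ∑ t : T, W p (K t) := by
  rw [card_mul_alternatingSum' f hf]
  unfold W
  simp only [finsum_eq_sum_of_fintype]
  rw [Finset.sum_comm]
  refine Finset.sum_congr (Finset.ext fun _ => by simp) fun σ _ => ?_
  rw [h, ← Finset.mul_sum]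
  congr 1
  rw [Finset.sum_boole, Nat.card_eq_fintype_card, Fintype.card_subtype]
  congr 2
  ext t
  simp only [Finset.mem_filter, Finset.mem_univ, true_and]
  constructor
  · intro h1 P hP x hx
    exact mem_chainStabilizer.mp (h1 hx) P hP
  · intro h1 x hx
    exact mem_chainStabilizer.mpr fun P hP => h1 P hP x hx

/-- the signed number of the pairs of a chain of nontrivial `p`-subgroups and a pair of elements
which normalise its members, with commutator conjugate to `g` -/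
def RR (p : ℕ) (g : G) : ℤ :=
  ∑ᶠ t : {t : G × G // IsConj g (t.1 * t.2 * t.1⁻¹ * t.2⁻¹)}, W p ({t.1.1, t.1.2} : Set G)

theorem card_alt (p : ℕ) (g : G) :
    (Nat.card G : ℤ) * alternatingSum p G (fun H => (comCl H g : ℤ)) = RR p g := by
  have : Fintype {t : G × G // IsConj g (t.1 * t.2 * t.1⁻¹ * t.2⁻¹)} := Fintype.ofFinite _
  unfold RR
  rw [finsum_eq_sum_of_fintype]
  refine main_count' (p := p) (fun H => (comCl H g : ℤ))
    (fun a H => by beta_reduce; rw [comCl_conj])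
    (T := {t : G × G // IsConj g (t.1 * t.2 * t.1⁻¹ * t.2⁻¹)})
    (fun t => ({t.1.1, t.1.2} : Set G)) ?_
  intro H
  beta_reduce
  rw [← Nat.cast_mul, card_comCl]
  congr 1
  unfold comIn
  refine Nat.card_congr
    { toFun := fun t => ⟨⟨t.1, t.2.2⟩, ?_⟩
      invFun := fun t => ⟨t.1.1, ⟨t.2 (by simp), t.2 (by simp)⟩, t.1.2⟩
      left_inv := fun t => rfl
      right_inv := fun t => rfl }
  rintro x (rfl | rfl)
  · exact t.2.1.1
  · exact t.2.1.2

/-- the number of triples -/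
def TT (p : ℕ) (g : G) : ℕ :=
  Nat.card {t : G × G × G // IsConj g t.2.2 ∧ PEl p (t.2.2 * (t.1 * t.2.1 * t.1⁻¹ * t.2.1⁻¹))}

def dzCl (p : ℕ) (g : G) : ℕ :=
  Nat.card {s : ConjClasses G × (G × G) // (PEl p s.2.1 ∧ IsConj g s.2.2) ∧
    IsConj (s.2.1 * s.2.2 * s.1.out) s.1.out}

theorem card_dzCl (p : ℕ) [Fact p.Prime] (g : G) : Nat.card G * dzCl p g = TT p g := by
  have h1 := cc_count (H := G) (R := G × G) (fun y s => s.1 * s.2 * y)
    (fun _ s => PEl p s.1 ∧ IsConj g s.2) (by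
      intro a
      refine ⟨Equiv.prodCongr (MulAut.conj a).toEquiv (MulAut.conj a).toEquiv,
        fun y s => ⟨?_, ?_⟩⟩
      · change (PEl p (a * s.1 * a⁻¹) ∧ IsConj g (a * s.2 * a⁻¹)) ↔ _
        rw [isConj_right, Pool.Agent.N85.WM.PEl.conj]
      · change a * s.1 * a⁻¹ * (a * s.2 * a⁻¹) * (a * y * a⁻¹) = _
        group)
  unfold dzCl
  rw [h1]
  unfold TT
  have hinv : ∀ (x y k : G), (y * x * y⁻¹ * x⁻¹ * k⁻¹)⁻¹ = k * (x * y * x⁻¹ * y⁻¹) := by
    intro x y k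
    group
  have hP : ∀ x : G, PEl p x⁻¹ ↔ PEl p x := by
    intro x
    unfold PEl
    rw [orderOf_inv]
  refine Nat.card_congr
    { toFun := fun t => ⟨(t.1.1, t.1.2.1, t.1.2.2.2), t.2.1.2, ?_⟩
      invFun := fun t => ⟨(t.1.1, t.1.2.1, (t.1.2.1 * t.1.1 * t.1.2.1⁻¹ * t.1.1⁻¹ *
        t.1.2.2⁻¹, t.1.2.2)), ⟨?_, t.2.1⟩, ?_⟩
      left_inv := fun t => ?_
      right_inv := fun t => rfl }
  · have h2 := t.2.2
    have h3 : t.1.2.2.1 = t.1.2.1 * t.1.1 * t.1.2.1⁻¹ * t.1.1⁻¹ * t.1.2.2.2⁻¹ := by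
      rw [h2]
      group
    have h4 := t.2.1.1
    rw [h3, ← hP, hinv] at h4
    exact h4
  · change PEl p (t.1.2.1 * t.1.1 * t.1.2.1⁻¹ * t.1.1⁻¹ * t.1.2.2⁻¹)
    rw [← hP, hinv]
    exact t.2.2
  · change t.1.2.1 * t.1.1 * t.1.2.1⁻¹ = t.1.2.1 * t.1.1 * t.1.2.1⁻¹ * t.1.1⁻¹ *
        t.1.2.2⁻¹ * t.1.2.2 * t.1.1
    group
  · apply Subtype.ext
    refine Prod.ext rfl (Prod.ext rfl (Prod.ext ?_ rfl))
    change t.1.2.1 * t.1.1 * t.1.2.1⁻¹ * t.1.1⁻¹ * t.1.2.2.2⁻¹ = t.1.2.2.1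
    rw [t.2.2]
    group

end count

end Pool.Agent.Helper3K
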