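import Pool.Agent.Helper3K.Ecc1
import Pool.Agent.N20.CC

/-!
# Pairs of elements with a given commutator and alternating sums: traces in characteristic `p`
-/

set_option autoImplicit false
set_option linter.unusedSectionVars false
set_option linter.style.haveILetI false

open scoped BigOperators Classical

noncomputable section

namespace Pool.Agent.Helper3K

attribute [-instance] Pool.Agent.H254R3.IN.fintypeCC
attribute [-instance] Pool.Agent.H254R3.IN.decConj

open Pool.Agent.Y63.KR
open Pool.Agent.Y63.AWC (IsIrreducibleCharacter)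
open Pool.Agent.Y63.NV (IsClassFun redC centralValue IsWt)
open Pool.Agent.Y930.NV (ind mk_out Cf_expand irr_Cf)
open Pool.Agent.Helper884.IC (Irr mem_Irr)
open Pool.Agent.N85.WM (PEl card_prod)

section field

variable {p : ℕ} [hp : Fact p.Prime] {F : Type} [Field F] [CharP F p]
  (red : integralClosure ℤ ℂ →+* F) {G : Type} [Group G] [Finite G]

theorem cast_card_prod {F : Type} [Field F] {A R : Type} [Finite A] [Finite R]
    (P : A → R → Prop) : (Nat.card {s : A × R // P s.1 s.2} : F) =
      ∑ᶠ a, ∑ᶠ r, if P a r then (1 : F) else 0 := by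
  have : Fintype A := Fintype.ofFinite A
  have : Fintype R := Fintype.ofFinite R
  rw [card_prod]
  simp only [finsum_eq_sum_of_fintype]
  rw [Nat.cast_sum]
  refine Finset.sum_congr rfl fun a _ => ?_
  rw [Finset.sum_boole, Nat.card_eq_fintype_card, Fintype.card_subtype]

/-- the indicator function of the class of `g` -/
def ig (F : Type) [Field F] {G : Type} [Group G] (g : G) : G → F := fun x => if IsConj g x then 1 else 0

theorem ig_cl (g : G) : IsClassFun (ig F g) := by
  intro a x
  unfold ig
  rw [isConj_right]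

theorem ig_ind [Fintype G] (C : ConjClasses G) : ig F C.out = ind F C := by
  funext x
  unfold ig ind
  have h : IsConj C.out x ↔ ConjClasses.mk x = C := by
    conv_rhs => rhs; rw [← mk_out C]
    rw [ConjClasses.mk_eq_mk_iff_isConj]
    exact ⟨fun h => h.symm, fun h => h.symm⟩
  by_cases h1 : IsConj C.out x
  · rw [if_pos h1, if_pos (h.1 h1)]
  · rw [if_neg h1, if_neg fun h2 => h1 (h.2 h2)]

theorem ind_out [Fintype G] (C : ConjClasses G) (y : G) :
    ind F C y = if IsConj y C.out then 1 else 0 := by
  rw [← ig_ind]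
  unfold ig
  by_cases h : IsConj C.out y
  · rw [if_pos h, if_pos h.symm]
  · rw [if_neg h, if_neg fun h2 => h h2.symm]

/-- the sum of the central characters of `H` at a class of `G` -/
theorem cast_comCl (H : Subgroup G) [Fintype H] (g : G) :
    ∑ θ ∈ Irr H, centralValue red θ (fun x : H => ig F g x) = (comCl H g : F) := by
  have hw : Pool.Agent.Y930.NV.Cf (fun x : H => ig F g x) := fun a x => by
    change ig F g ((a : G) * x * (a : G)⁻¹) = ig F g x
    exact ig_cl g _ _
  have h1 := Pool.Agent.N85.WM.Dzt.sum_cv' (K := H) red hw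
  rw [Finset.sum_coe_sort (Irr H) (fun θ => centralValue red θ (fun x : H => ig F g x))] at h1
  rw [h1]
  unfold comCl
  rw [cast_card_prod (fun (C : ConjClasses H) (x : H) => IsConj g (x : G) ∧
    IsConj (x * C.out) C.out)]
  refine finsum_congr fun C => ?_
  rw [finsum_eq_sum_of_fintype]
  refine Finset.sum_congr rfl fun x _ => ?_
  rw [ind_out]
  unfold ig
  by_cases h2 : IsConj g (x : G)
  · by_cases h3 : IsConj (x * C.out) C.out
    · rw [if_pos h2, if_pos h3, if_pos (And.intro h2 h3), one_mul]
    · rw [if_neg h3, mul_zero, if_neg fun h : (_ ∧ _) => h3 h.2]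
  · rw [if_neg h2, zero_mul, if_neg fun h : (_ ∧ _) => h2 h.1]

/-- the sum of the central characters of defect zero at a class -/
theorem cast_dzCl (g : G) :
    ∑ᶠ χ : {χ : G → ℂ // IsWt p (⊥ : Subgroup G) χ}, centralValue red χ.1 (ig F g) =
      (dzCl p g : F) := by
  have h1 := Pool.Agent.N85.WM.Dzt.main Pool.Agent.N85.WM.Van.main p F red G (ig F g) (ig_cl g)
  rw [h1]
  unfold dzCl
  rw [cast_card_prod (fun (C : ConjClasses G) (s : G × G) => (PEl p s.1 ∧ IsConj g s.2) ∧
    IsConj (s.1 * s.2 * C.out) C.out)]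
  refine finsum_congr fun C => ?_
  have : Fintype G := Fintype.ofFinite G
  simp only [finsum_eq_sum_of_fintype]
  rw [Fintype.sum_prod_type]
  refine Finset.sum_congr rfl fun u _ => Finset.sum_congr rfl fun x _ => ?_
  unfold ig PEl
  by_cases h2 : (∃ k : ℕ, orderOf u = p ^ k) ∧ IsConj (u * x * C.out) C.out
  · rw [if_pos h2]
    by_cases h3 : IsConj g x
    · rw [if_pos h3, if_pos ⟨⟨h2.1, h3⟩, h2.2⟩]
    · rw [if_neg h3, if_neg fun h => h3 h.1.2]
  · rw [if_neg h2, if_neg fun h => h2 ⟨h.1.1, h.2⟩]

/-- linearity of the central characters -/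
theorem cv_lin [Fintype (ConjClasses G)] {K : Type} [Group K] [Finite K] (ι : K → G)
    (θ : K → ℂ) {f : G → F} (hf : IsClassFun f) :
    centralValue red θ (fun x => f (ι x)) =
      ∑ C : ConjClasses G, f C.out * centralValue red θ (fun x => ig F C.out (ι x)) := by
  haveI := Fintype.ofFinite (ConjClasses K)
  unfold centralValue
  simp only [finsum_eq_sum_of_fintype, Finset.mul_sum]
  rw [Finset.sum_comm]
  refine Finset.sum_congr rfl fun D _ => ?_
  have h1 : f (ι D.out) = ∑ C : ConjClasses G, f C.out * ig F C.out (ι D.out) := by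
    rw [Finset.sum_eq_single (ConjClasses.mk (ι D.out))]
    · have h2 : IsConj (ConjClasses.mk (ι D.out)).out (ι D.out) :=
        ConjClasses.mk_eq_mk_iff_isConj.1 (Quotient.out_eq _)
      unfold ig
      rw [if_pos h2, mul_one]
      obtain ⟨c, hc⟩ := isConj_iff.1 h2
      have h3 := hf c (ConjClasses.mk (ι D.out)).out
      rw [hc] at h3
      exact h3
    · intro C _ hC
      unfold ig
      rw [if_neg, mul_zero]
      intro h
      apply hC
      rw [← Quotient.out_eq C]
      exact ConjClasses.mk_eq_mk_iff_isConj.2 h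
    · intro h
      exact absurd (Finset.mem_univ _) h
  rw [h1, Finset.sum_mul]
  refine Finset.sum_congr rfl fun C _ => ?_
  ring

/-- the alternating sum of the sums of the central characters -/
def Psi (p : ℕ) (f : G → F) : F :=
  ∑ᶠ c : Quotient (chainSetoid p G), (-1) ^ c.out.1.ncard *
    (haveI := Fintype.ofFinite (chainStabilizer c.out.1)
      ∑ θ ∈ Irr (chainStabilizer c.out.1), centralValue red θ (fun x => f x))

/-- the sum of the central characters of defect zero -/
def Del (p : ℕ) (f : G → F) : F :=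
  ∑ᶠ χ : {χ : G → ℂ // IsWt p (⊥ : Subgroup G) χ}, centralValue red χ.1 f

theorem psi_ig (g : G) :
    Psi red p (ig F g) = ((alternatingSum p G (fun H => (comCl H g : ℤ)) : ℤ) : F) := by
  have : Fintype (Quotient (chainSetoid p G)) := Fintype.ofFinite _
  unfold Psi alternatingSum
  rw [finsum_eq_sum_of_fintype, finsum_eq_sum_of_fintype, Int.cast_sum]
  refine Finset.sum_congr rfl fun c _ => ?_
  rw [Int.cast_mul, Int.cast_pow, Int.cast_neg, Int.cast_one, Int.cast_natCast]
  congr 1
  haveI := Fintype.ofFinite (chainStabilizer c.out.1)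
  exact cast_comCl red (chainStabilizer c.out.1) g

theorem del_ig (g : G) : Del red p (ig F g) = (dzCl p g : F) := cast_dzCl red g

theorem psi_lin [Fintype (ConjClasses G)] {f : G → F} (hf : IsClassFun f) :
    Psi red p f = ∑ C : ConjClasses G, f C.out * Psi red p (ig F C.out) := by
  have : Fintype (Quotient (chainSetoid p G)) := Fintype.ofFinite _
  unfold Psi
  simp only [finsum_eq_sum_of_fintype]
  simp only [Finset.mul_sum]
  rw [Finset.sum_comm]
  refine Finset.sum_congr rfl fun c _ => ?_
  haveI := Fintype.ofFinite (chainStabilizer c.out.1)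
  rw [Finset.sum_comm]
  refine Finset.sum_congr rfl fun θ _ => ?_
  have h1 := cv_lin (G := G) red (Subtype.val : chainStabilizer c.out.1 → G) θ hf
  rw [h1, Finset.mul_sum]
  refine Finset.sum_congr rfl fun C _ => ?_
  ring

theorem del_lin [Fintype (ConjClasses G)] {f : G → F} (hf : IsClassFun f) :
    Del red p f = ∑ C : ConjClasses G, f C.out * Del red p (ig F C.out) := by
  have hfin : Finite {χ : G → ℂ // IsWt p (⊥ : Subgroup G) χ} := by
    have : Fintype G := Fintype.ofFinite G
    refine Finite.of_injective (β := {χ : G → ℂ // χ ∈ Irr G}) (fun χ => ⟨χ.1, mem_Irr.2 χ.2.irr⟩) ?_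
    intro a b h
    exact Subtype.ext (congrArg (fun x => x.1) h)
  have : Fintype {χ : G → ℂ // IsWt p (⊥ : Subgroup G) χ} := Fintype.ofFinite _
  unfold Del
  simp only [finsum_eq_sum_of_fintype, Finset.mul_sum]
  rw [Finset.sum_comm]
  refine Finset.sum_congr rfl fun χ _ => ?_
  exact cv_lin (G := G) red (id : G → G) χ.1 hf

theorem psi_eq_del {f : G → F} (hf : IsClassFun f)
    (h : ∀ C : ConjClasses G, f C.out ≠ 0 →
      ((alternatingSum p G (fun H => (comCl H C.out : ℤ)) : ℤ) : F) = (dzCl p C.out : F)) :
    Psi red p f = Del red p f := by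
  haveI := Fintype.ofFinite (ConjClasses G)
  rw [psi_lin red hf, del_lin red hf]
  refine Finset.sum_congr rfl fun C _ => ?_
  by_cases h1 : f C.out = 0
  · rw [h1, zero_mul, zero_mul]
  · rw [psi_ig, del_ig, h C h1]

end field

end Pool.Agent.Helper3K
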