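import Pool.Agent.Helper3K.Cong
import Pool.Agent.N20.CC
import Pool.Agent.K3h3.KB.Cov2

/-!
# The block of the wreath product above a tensor power is unique
-/

set_option autoImplicit false
set_option linter.unusedSectionVars false
set_option linter.style.haveILetI false

open scoped BigOperators Classical

noncomputable section

namespace Pool.Agent.Helper3K

open Pool.Agent.H254R3.IN (IsIrr IsCl Om omega blockCoeff RF red rep mem_Irr IsBlock
  blockCoeff_cl blockCoeff_mem Om_blockCoeff eq_of_Om red_Om red_mul red_one red_zero)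
open Pool.Agent.Helper884.IC (Irr)
open Pool.Agent.K3h3.KB (bt btS bt_irr bt_inj btS_irr btS_block blk blk_block mem_blk_self
  blk_eq fs mem_fs blockCoeff_fs exists_mult exists_over isConj_equiv cj_at_one)
open Pool.Agent.N85.WM (Wr Base shiftHom)
open Pool.Agent.Q288.MB (block_disjoint)
open Pool.Agent.Q90.WR (blkAlt irr_comp AdmB)
open Pool.Agent.Y63.AWC (cj mult)
open Pool.Agent.N20 (PE rr rr_mem blockCoeff_sing)

section two

variable {p : ℕ} [hp : Fact p.Prime] {G : Type} [Group G] [Fintype G] {O : ValuationSubring ℂ}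

/-- an irreducible character which vanishes on the `p`-singular elements has defect zero -/
theorem deg_of_van (hpO : (p : ℂ) ∈ O.nonunits) {χ : G → ℂ} (hχ : IsIrr χ)
    (hv : ∀ x : G, p ∣ orderOf x → χ x = 0) : (Nat.card G : ℂ) / χ 1 ∉ O.nonunits := by
  intro h
  have h1 := rr_mem hp.out hpO hχ
  have h2 : rr p χ = (Nat.card G : ℂ)⁻¹ * χ 1 := by
    unfold rr
    congr 1
    rw [Finset.sum_eq_single (1 : G)]
    · intro y hy hy1
      apply hv
      have h3 : y ^ p ^ (Nat.card G).factorization p = 1 := (Finset.mem_filter.1 hy).2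
      obtain ⟨k, -, hk⟩ := (Nat.dvd_prime_pow hp.out).1 (orderOf_dvd_of_pow_eq_one h3)
      rw [hk]
      apply dvd_pow_self
      rintro rfl
      rw [pow_zero, orderOf_eq_one_iff] at hk
      exact hy1 hk
    · intro hn
      exfalso
      apply hn
      unfold PE
      rw [Finset.mem_filter]
      exact ⟨Finset.mem_univ _, one_pow _⟩
  rw [h2] at h1
  have h3 := nu_mul h h1
  have h4 : (Nat.card G : ℂ) / χ 1 * ((Nat.card G : ℂ)⁻¹ * χ 1) = 1 := by
    have hG : (Nat.card G : ℂ) ≠ 0 := by exact_mod_cast Nat.card_pos.ne'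
    have := hχ.one_ne
    field_simp
  rw [h4] at h3
  have h5 := Pool.Agent.H254R3.IN.red_eq_zero h3
  rw [red_one] at h5
  exact one_ne_zero h5

/-- a block of positive defect has two different characters -/
theorem exists_two (hpO : (p : ℂ) ∈ O.nonunits) {B : Set (G → ℂ)} (hB : IsBlock O B)
    (hz : ∀ ψ ∈ B, (Nat.card G : ℂ) / ψ 1 ∈ O.nonunits) : ∃ ψ ∈ B, ∃ ψ' ∈ B, ψ ≠ ψ' := by
  by_contra hcon
  push Not at hcon
  obtain ⟨χ, hχ⟩ := hB.nonempty
  have hi := hB.irr χ hχ
  refine deg_of_van hpO hi (fun x hx => ?_) (hz χ hχ)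
  have h1 := blockCoeff_sing hpO hB (x := x⁻¹) (by rwa [orderOf_inv])
  have h2 : fs B = {χ} := by
    ext θ
    rw [mem_fs hB.irr, Finset.mem_singleton]
    exact ⟨fun h => hcon θ h χ hχ, fun h => h ▸ hχ⟩
  rw [blockCoeff_fs hB.irr, h2, Finset.sum_singleton, inv_inv] at h1
  have hG : (Nat.card G : ℂ)⁻¹ ≠ 0 := inv_ne_zero (by exact_mod_cast Nat.card_pos.ne')
  exact (mul_eq_zero.1 ((mul_eq_zero.1 h1).resolve_left hG)).resolve_left hi.one_ne

end two

theorem omega_iso {A C : Type} [Group A] [Group C] [Fintype A] [Fintype C] (e : A ≃* C)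
    (θ : C → ℂ) (a : A) : omega (fun x => θ (e x)) a = omega θ (e a) := by
  unfold omega
  beta_reduce
  rw [map_one]
  congr 3
  exact Nat.card_congr (Equiv.subtypeEquiv e.toEquiv fun z => (isConj_equiv e).symm)

section uniq

variable {q : ℕ} [hq : Fact q.Prime] {G : Type} [Group G] [Fintype G] {O : ValuationSubring ℂ}
  {B : Set (G → ℂ)}

theorem comm_le_base : commutator (Wr q G) ≤ Base q G := by
  rw [commutator_def, Subgroup.commutator_le]
  intro x _ y _
  rw [mem_base', commutatorElement_def, mulS, mulS, mulS, invS, invS]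
  ring

theorem base_index : (Base q G).index = q := by
  rw [Subgroup.index_eq_card, Pool.Agent.N85.WM.card_quot]

/-- the character `ψ ⊗ ψ' ⊗ ⋯ ⊗ ψ'` of the base group is not invariant -/
theorem not_inv {ψ ψ' : G → ℂ} (h : IsIrr ψ) (h' : IsIrr ψ') (hne : ψ ≠ ψ') :
    ¬ Inv (Base q G) (fun m => bt (fun i : ZMod q => if i = 0 then ψ else ψ')
      ((phB q G).symm m)) := by
  intro hinv
  set φ : ZMod q → G → ℂ := fun i => if i = 0 then ψ else ψ' with hφ
  have hφi : ∀ i, IsIrr (φ i) := by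
    intro i
    rw [hφ]
    dsimp only
    split_ifs
    · exact h
    · exact h'
  have h1 := hinv (SemidirectProduct.inr (Multiplicative.ofAdd (1 : ZMod q)))
  have h2 : (fun n : ZMod q → G => bt φ (shiftHom q G (Multiplicative.ofAdd (1 : ZMod q)) n)) =
      bt φ := by
    funext n
    have h3 := congrFun h1 (phB q G n)
    unfold cj at h3
    rw [MulEquiv.symm_apply_apply] at h3
    rw [← h3]
    congr 1
    rw [eq_comm, MulEquiv.symm_apply_eq]
    apply Subtype.ext
    rw [MulAut.conjNormal_apply]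
    change SemidirectProduct.inr (Multiplicative.ofAdd (1 : ZMod q)) *
      SemidirectProduct.inl n * (SemidirectProduct.inr (Multiplicative.ofAdd (1 : ZMod q)))⁻¹ =
      (SemidirectProduct.inl (shiftHom q G (Multiplicative.ofAdd (1 : ZMod q)) n) : Wr q G)
    rw [SemidirectProduct.inl_aut, map_inv]
  rw [bt_shift] at h2
  have h4 := bt_inj (fun i => hφi _) hφi h2
  have h5 := congrFun h4 0
  have h6 : φ (0 + (Multiplicative.ofAdd (1 : ZMod q)).toAdd) = ψ' := by
    rw [hφ]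
    dsimp only
    rw [if_neg]
    rw [zero_add]
    exact one_ne_zero
  have h7 : φ 0 = ψ := by
    rw [hφ]
    dsimp only
    rw [if_pos rfl]
  rw [h6, h7] at h5
  exact hne h5.symm

theorem bt_symm_irr {φ : ZMod q → G → ℂ} (h : ∀ i, IsIrr (φ i)) :
    IsIrr (fun m : Base q G => bt φ ((phB q G).symm m)) := irr_comp (phB q G).symm (bt_irr h)

/-- each block above `B ⊗ ⋯ ⊗ B` contains a character above each character of `B ⊗ ⋯ ⊗ B` -/
theorem over_each (hB : IsBlock O B) {b : Set (Wr q G → ℂ)} (hb : b ∈ bks O (wB q B))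
    {φ : ZMod q → G → ℂ} (hφ : ∀ i, φ i ∈ B) :
    ∃ χ ∈ b, mult (Base q G) χ (fun m => bt φ ((phB q G).symm m)) ≠ 0 := by
  obtain ⟨hbl, hsub⟩ := (mem_bks (isU_wB hB)).1 hb
  obtain ⟨χ₀, h0⟩ := hbl.nonempty
  have h0i := hbl.irr χ₀ h0
  obtain ⟨θ₀, hθ₀, m0⟩ := exists_mult (Base q G) h0i
  have h1 := (hsub h0).2
  rw [Om_wrC hB h0i hθ₀ m0] at h1
  have h2 : (fun h => θ₀ (phB q G h)) ∈ btS (fun _ : ZMod q => B) := by
    by_contra h3
    rw [if_neg h3] at h1
    exact zero_ne_one h1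
  refine exists_over (Base q G) comm_le_base hbl h0 hθ₀ m0 ?_
  refine ⟨bt_symm_irr fun i => hB.irr _ (hφ i), fun x => ?_⟩
  have hbt : IsBlock O (btS (fun _ : ZMod q => B)) := btS_block fun _ => hB
  have h4 : bt φ ∈ btS (fun _ : ZMod q => B) := ⟨φ, hφ, rfl⟩
  obtain ⟨χ₁, h5, h6⟩ := hbt
  rw [h6] at h4 h2
  have h7 := h4.2 ((phB q G).symm x)
  have h8 := h2.2 ((phB q G).symm x)
  have e1 := omega_iso (phB q G).symm (bt φ) x
  have e2 := omega_iso (phB q G) θ₀ ((phB q G).symm x)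
  rw [MulEquiv.apply_symm_apply] at e2
  rw [e1, ← e2]
  have h9 := O.nonunits.sub_mem h7 h8
  rwa [sub_sub_sub_cancel_right] at h9

variable {p : ℕ} [hp : Fact p.Prime]

/-- **uniqueness of the block above `B ⊗ ⋯ ⊗ B`** -/
theorem bks_subsingleton (hpO : (p : ℂ) ∈ O.nonunits) (hB : IsBlock O B)
    (hz : ∀ ψ ∈ B, (Nat.card G : ℂ) / ψ 1 ∈ O.nonunits) {b b' : Set (Wr q G → ℂ)}
    (hb : b ∈ bks O (wB q B)) (hb' : b' ∈ bks O (wB q B)) : b = b' := by
  obtain ⟨ψ, hψ, ψ', hψ', hne⟩ := exists_two hpO hB hz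
  have hφ : ∀ i : ZMod q, (if i = 0 then ψ else ψ') ∈ B := by
    intro i
    split_ifs
    · exact hψ
    · exact hψ'
  obtain ⟨χ, h1, m1⟩ := over_each hB hb hφ
  obtain ⟨χ', h2, m2⟩ := over_each hB hb' hφ
  have hbl := ((mem_bks (isU_wB hB)).1 hb).1
  have hbl' := ((mem_bks (isU_wB hB)).1 hb').1
  have hirr := bt_symm_irr (q := q) (φ := fun i => if i = 0 then ψ else ψ') fun i => hB.irr _ (hφ i)
  have h3 := card_over_eq (Base q G) hq.out base_index hirr
  rw [if_neg (not_inv (hB.irr _ hψ) (hB.irr _ hψ') hne)] at h3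
  obtain ⟨a, ha⟩ := Finset.card_eq_one.1 h3
  have e1 : χ = a := by
    rw [← Finset.mem_singleton, ← ha, Finset.mem_filter]
    exact ⟨mem_Irr.2 (hbl.irr _ h1), m1⟩
  have e2 : χ' = a := by
    rw [← Finset.mem_singleton, ← ha, Finset.mem_filter]
    exact ⟨mem_Irr.2 (hbl'.irr _ h2), m2⟩
  by_contra hbb
  rw [e1] at h1
  rw [e2] at h2
  exact Set.disjoint_left.mp (block_disjoint hbl hbl' hbb) h1 h2

/-- the block above `B ⊗ ⋯ ⊗ B`, its alternating sum, `q ≠ p` -/
theorem exists_wr (hpO : (p : ℂ) ∈ O.nonunits) (hpq : p ≠ q) (h : AdmB p O G B) :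
    ∃ b : Set (Wr q G → ℂ), AdmB p O (Wr q G) b ∧
      (q : ℤ) * blkAlt p O b = blkAlt p O B ^ q + ((q : ℤ) ^ 2 - 1) * blkAlt p O B := by
  have hz := adm_pos hpO h
  obtain ⟨χ, h1, -⟩ : ∃ χ, χ ∈ wB q B ∧ True := by
    obtain ⟨ψ, hψ⟩ := h.block.nonempty
    have hirr := bt_symm_irr (q := q) (φ := fun _ => ψ) fun i => h.block.irr _ hψ
    have h3 := card_over_eq (Base q G) hq.out base_index hirr
    have h4 : ((Irr (Wr q G)).filter fun χ => mult (Base q G) χ
        (fun m => bt (fun _ : ZMod q => ψ) ((phB q G).symm m)) ≠ 0).card ≠ 0 := by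
      rw [h3]
      split_ifs
      · exact hq.out.ne_zero
      · exact one_ne_zero
    obtain ⟨χ, hχ⟩ := Finset.card_ne_zero.1 h4
    obtain ⟨h5, h6⟩ := Finset.mem_filter.1 hχ
    refine ⟨χ, ⟨mem_Irr.1 h5, ?_⟩, trivial⟩
    rw [Om_wrC h.block (mem_Irr.1 h5) hirr h6, if_pos]
    refine ⟨fun _ => ψ, fun _ => hψ, ?_⟩
    funext g
    rw [MulEquiv.symm_apply_apply]
  have hU := isU_wB (q := q) h.block
  set b := blk O χ with hbdef
  have hb : b ∈ bks O (wB q B) := (mem_bks hU).2 ⟨blk_block (hU.irr χ h1), hU.cl χ h1⟩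
  have hs : bks O (wB q B) = {b} := by
    ext b'
    rw [Finset.mem_singleton]
    constructor
    · intro hb'
      exact bks_subsingleton hpO h.block hz hb' hb
    · rintro rfl
      exact hb
  obtain ⟨h4, h5⟩ := (mem_bks hU).1 hb
  refine ⟨b, adm_wr hpO h h4 fun χ hχ => pos_wB h.block hz χ (h5 hχ), ?_⟩
  have h6 := sum_wB_ne (q := q) hpO hpq h.block
  rwa [hs, Finset.sum_singleton] at h6

end uniq

end Pool.Agent.Helper3K
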