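import Pool.Agent.Helper3K.Ecc2
import Pool.Agent.Helper3K.Uniq
import Pool.Agent.R674.KB.Dz
import Pool.Agent.N78.DIBL

/-!
# Pairs of elements with a given commutator and alternating sums: blocks
-/

set_option autoImplicit false
set_option linter.unusedSectionVars false
set_option linter.style.haveILetI false

open scoped BigOperators Classical

noncomputable section

namespace Pool.Agent.Helper3K

open Pool.Agent.Y63.KR
open Pool.Agent.Y63.AWC (IsIrreducibleCharacter)
open Pool.Agent.Y63.NV (IsClassFun redC centralValue IsWt numDzBlock numIrrInd)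
open Pool.Agent.H254R3.IN (IsIrr IsCl Om omega blockCoeff mem_Irr IsBlock dl dl_cl
  blockCoeff_cl blockCoeff_mem Om_blockCoeff eq_of_Om)
open Pool.Agent.Helper884.IC (Irr)
open Pool.Agent.K3h3.KB (blk blk_block mem_blk_self fs mem_fs)
open Pool.Agent.Q90.WR (blkAlt AdmB IndS IndS_congr conjEquiv)
open Pool.Agent.N85.WM (BEq)
open Pool.Agent.N20 (blockCoeff_sing)

section basic

variable {p : ℕ} [hp : Fact p.Prime] {O : ValuationSubring ℂ} {G : Type} [Group G] [Fintype G]

/-- the number of the characters of defect zero in `B` -/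
def zB (p : ℕ) {G : Type} [Group G] (B : Set (G → ℂ)) : ℕ :=
  Nat.card {χ : G → ℂ // χ ∈ B ∧ IsWt p (⊥ : Subgroup G) χ}

theorem wt_iff {χ : G → ℂ} (hχ : IsIrr χ) :
    IsWt p (⊥ : Subgroup G) χ ↔ ∃ n : ℕ, χ 1 = n ∧ n.factorization p = (Nat.card G).factorization p := by
  constructor
  · intro h
    obtain ⟨n, h1, h2⟩ := h.defectZero
    refine ⟨n, h1, ?_⟩
    rw [Subgroup.card_bot, Nat.factorization_one] at h2
    simpa using h2
  · rintro ⟨n, h1, h2⟩
    refine ⟨hχ, ?_, n, h1, ?_⟩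
    · intro q hq x
      rw [Subgroup.mem_bot.1 hq, one_mul]
    · rw [Subgroup.card_bot, Nat.factorization_one]
      simpa using h2

/-- the characters of defect zero in terms of the valuation ring -/
theorem wt_iff_unit (hpO : (p : ℂ) ∈ O.nonunits) {χ : G → ℂ} (hχ : IsIrr χ) :
    IsWt p (⊥ : Subgroup G) χ ↔ (Nat.card G : ℂ) / χ 1 ∉ O.nonunits := by
  rw [wt_iff hχ]
  obtain ⟨n, hn0, hn⟩ := hχ.deg
  have hdvd : n ∣ Nat.card G := Pool.Agent.Y63.AWC.deg_dvd hχ hn.symm
  have hn0' : n ≠ 0 := by omega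
  have hle : n.factorization p ≤ (Nat.card G).factorization p :=
    (Nat.factorization_le_iff_dvd hn0' Nat.card_pos.ne').2 hdvd p
  constructor
  · rintro ⟨m, hm, h1⟩ hcon
    have hmn : m = n := by
      rw [← hn] at hm
      exact_mod_cast hm.symm
    subst hmn
    obtain ⟨c, hc⟩ := hdvd
    have hc0 : c ≠ 0 := by
      rintro rfl
      rw [mul_zero] at hc
      exact Nat.card_pos.ne' hc
    have hpc : ¬ p ∣ c := by
      intro hd
      have h2 := (hp.out.dvd_iff_one_le_factorization hc0).1 hd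
      rw [hc, Nat.factorization_mul hn0' hc0, Finsupp.add_apply] at h1
      omega
    have h3 : (Nat.card G : ℂ) / χ 1 = c := by
      rw [← hn, hc]
      push_cast
      rw [mul_div_cancel_left₀]
      exact_mod_cast hn0'
    rw [h3] at hcon
    have h4 := nu_mul hcon (Pool.Agent.H254R3.IN.nat_inv_mem hpO hpc)
    rw [mul_inv_cancel₀ (by exact_mod_cast hc0)] at h4
    have h5 := Pool.Agent.H254R3.IN.red_eq_zero h4
    rw [Pool.Agent.H254R3.IN.red_one] at h5
    exact one_ne_zero h5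
  · intro h
    refine ⟨n, hn.symm, ?_⟩
    by_contra hne
    apply h
    rw [← hn]
    exact Pool.Agent.Q90.WR.nonunits_of_fac hpO hn0' (lt_of_le_of_ne hle hne)

/-- `zB` in terms of the functional of the block -/
theorem numDz_eq {B : Set (G → ℂ)} (hB : IsBlock O B) {χ : G → ℂ} (hχ : χ ∈ B) :
    numDzBlock p (rd O) (centralValue (rd O) χ) = zB p B := by
  unfold numDzBlock zB
  refine Nat.card_congr (Equiv.subtypeEquivRight fun ψ => ?_)
  constructor
  · rintro ⟨h1, h2⟩
    refine ⟨?_, h1⟩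
    have h3 := val_of_mem hB (χ := ψ) h1.irr
    rw [h2 _ (pf_cl (blockCoeff_cl hB.irr)), val_of_mem hB (hB.irr χ hχ), if_pos hχ] at h3
    by_contra h4
    rw [if_neg h4] at h3
    exact one_ne_zero h3
  · rintro ⟨h1, h2⟩
    refine ⟨h2, ?_⟩
    have h3 := (val_one_iff hB (cv_block (hB.irr ψ h1)) hχ).1 (by
      rw [val_of_mem hB (hB.irr ψ h1), if_pos h1])
    exact fun f hf => h3 f hf

/-- the alternating sum in terms of the functional of the block -/
theorem blkAlt_num (hpO : (p : ℂ) ∈ O.nonunits) {B : Set (G → ℂ)} (hB : IsBlock O B)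
    {χ : G → ℂ} (hχ : χ ∈ B) : blkAlt p O B =
      alternatingSum p G (fun H => (numIrrInd (rd O) H (centralValue (rd O) χ) : ℤ)) := by
  unfold blkAlt alternatingSum
  refine finsum_congr fun c => ?_
  have key : Nat.card (IndS O B (Subtype.val : chainStabilizer c.out.1 → G)) =
      numIrrInd (rd O) (chainStabilizer c.out.1) (centralValue (rd O) χ) := ?_
  · beta_reduce
    rw [key]
  unfold numIrrInd
  refine Nat.card_congr (Equiv.subtypeEquivRight (fun θ : chainStabilizer c.out.1 → ℂ => ?_))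
  constructor
  · intro h
    have hθ : IsIrr θ := h.1
    have h1 := (mem_IndS_iff hpO hB c.out.2 hθ).1 h
    exact ⟨hθ, fun f hf => (val_one_iff hB (ind_block hpO c.out.2 hθ) hχ).1 h1 f hf⟩
  · rintro ⟨hθ, h⟩
    exact (mem_IndS_iff hpO hB c.out.2 hθ).2
      ((val_one_iff hB (ind_block hpO c.out.2 hθ) hχ).2 fun f hf => h f hf)

/-- blocks of defect zero -/
theorem blkAlt_dz (hpO : (p : ℂ) ∈ O.nonunits) {B : Set (G → ℂ)} (hB : IsBlock O B)
    {χ : G → ℂ} (hχ : χ ∈ B) (hz : IsWt p (⊥ : Subgroup G) χ) :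
    blkAlt p O B = 1 ∧ zB p B = 1 := by
  haveI := charP_FF (O := O) hpO
  have h1 := Pool.Agent.R674.KB.dz_alt (p := p) (F := FF O) (rd O)
    (B := centralValue (rd O) χ) (fun f _ => rfl) hz
  rw [← blkAlt_num hpO hB hχ, numDz_eq hB hχ] at h1
  have h2 : zB p B = 1 := by
    unfold zB
    rw [Nat.card_eq_one_iff_exists]
    refine ⟨⟨χ, hχ, hz⟩, ?_⟩
    rintro ⟨ψ, hψ, hψz⟩
    apply Subtype.ext
    refine Pool.Agent.R674.KB.dz_unique (F := FF O) (rd O) hz (hB.irr ψ hψ) fun f hf => ?_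
    have h3 := (val_one_iff hB (cv_block (hB.irr ψ hψ)) hχ).1 (by
      rw [val_of_mem hB (hB.irr ψ hψ), if_pos hψ])
    exact h3 f hf
  rw [h2] at h1
  exact ⟨by rw [h1]; rfl, h2⟩

/-- groups with a nontrivial normal `p`-subgroup -/
theorem blkAlt_core {B : Set (G → ℂ)} {P : Subgroup G} (hn : P.Normal) (hP : IsPGroup p P)
    (h1 : P ≠ ⊥) : blkAlt p O B = 0 := by
  refine Pool.Agent.N78.DIBL.alt_normal hn hP h1 _ fun b H => ?_
  have key : Nat.card (IndS O B (Subtype.val : conjSub b H → G)) =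
      Nat.card (IndS O B (Subtype.val : H → G)) :=
    Nat.card_congr (Equiv.subtypeEquiv
      ((conjEquiv b H).symm.toEquiv.arrowCongr (Equiv.refl ℂ)) fun θ =>
        (IndS_congr (conjEquiv b H) (fun c => isConj_iff.mpr ⟨b, rfl⟩) θ).symm)
  rw [key]

/-- all blocks with trivial defect groups or of groups with a normal `p`-subgroup -/
theorem alt_eq_zB (hpO : (p : ℂ) ∈ O.nonunits) {B : Set (G → ℂ)} (hB : IsBlock O B)
    (h : AdmB p O G B → blkAlt p O B = 0) : blkAlt p O B = zB p B := by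
  by_cases hdz : ∃ χ ∈ B, IsWt p (⊥ : Subgroup G) χ
  · obtain ⟨χ, hχ, hz⟩ := hdz
    obtain ⟨h1, h2⟩ := blkAlt_dz hpO hB hχ hz
    rw [h1, h2]
    rfl
  · have hz : zB p B = 0 := by
      unfold zB
      rw [Nat.card_eq_zero]
      left
      exact ⟨fun χ => hdz ⟨χ.1, χ.2.1, χ.2.2⟩⟩
    rw [hz, Nat.cast_zero]
    by_cases hc : ∀ P : Subgroup G, P.Normal → IsPGroup p P → P = ⊥
    · refine h ⟨inferInstance, hc, hB, defect_of_pos hpO hB fun ψ hψ => ?_⟩
      by_contra hcon
      exact hdz ⟨ψ, hψ, (wt_iff_unit hpO (hB.irr ψ hψ)).2 hcon⟩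
    · push Not at hc
      obtain ⟨P, h1, h2, h3⟩ := hc
      exact blkAlt_core h1 h2 h3

theorem zB_adm (hpO : (p : ℂ) ∈ O.nonunits) {B : Set (G → ℂ)} (h : AdmB p O G B) : zB p B = 0 := by
  have hz := adm_pos hpO h
  unfold zB
  rw [Nat.card_eq_zero]
  left
  exact ⟨fun χ => (wt_iff_unit hpO (h.block.irr _ χ.2.1)).1 χ.2.2 (hz _ χ.2.1)⟩

theorem pf_sing (hpO : (p : ℂ) ∈ O.nonunits) {B : Set (G → ℂ)} (hB : IsBlock O B) {x : G}
    (hx : p ∣ orderOf x) : pf O (blockCoeff B) x = 0 := by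
  unfold pf
  rw [blockCoeff_sing hpO hB hx, ph_zero]

theorem card_filter_irr {H : Type} [Group H] [Fintype H] {A : Set (H → ℂ)}
    (hA : ∀ θ ∈ A, IsIrr θ) : ((Irr H).filter (· ∈ A)).card = Nat.card A := by
  rw [← Fintype.card_coe, ← Nat.card_eq_fintype_card]
  refine Nat.card_congr (Equiv.subtypeEquivRight fun χ => ?_)
  rw [Finset.mem_filter, mem_Irr]
  exact ⟨fun h => h.2, fun h => ⟨hA χ h, h⟩⟩

/-- `Psi` at the idempotent of a block -/
theorem psi_block (hpO : (p : ℂ) ∈ O.nonunits) {B : Set (G → ℂ)} (hB : IsBlock O B) :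
    Psi (rd O) p (pf O (blockCoeff B)) = ((blkAlt p O B : ℤ) : FF O) := by
  have : Fintype (Quotient (chainSetoid p G)) := Fintype.ofFinite _
  unfold Psi blkAlt alternatingSum
  rw [finsum_eq_sum_of_fintype, finsum_eq_sum_of_fintype, Int.cast_sum]
  refine Finset.sum_congr rfl fun c _ => ?_
  rw [Int.cast_mul, Int.cast_pow, Int.cast_neg, Int.cast_one, Int.cast_natCast]
  congr 1
  haveI := Fintype.ofFinite (chainStabilizer c.out.1)
  rw [← card_filter_irr (A := IndS O B (Subtype.val : chainStabilizer c.out.1 → G))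
    (fun θ h => h.1), Finset.card_filter, Nat.cast_sum]
  refine Finset.sum_congr rfl fun θ hθ => ?_
  have hθi : IsIrr θ := mem_Irr.1 hθ
  by_cases h : θ ∈ IndS O B (Subtype.val : chainStabilizer c.out.1 → G)
  · rw [if_pos h, Nat.cast_one]
    exact (mem_IndS_iff hpO hB c.out.2 hθi).1 h
  · rw [if_neg h, Nat.cast_zero]
    rcases val_cases hB (ind_block hpO c.out.2 hθi) with h1 | h1
    · exact h1
    · exact absurd ((mem_IndS_iff hpO hB c.out.2 hθi).2 h1) h

/-- the characters of defect zero, a finite set -/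
theorem del_eq (f : G → FF O) : Del (rd O) p f =
    ∑ χ ∈ (Irr G).filter (fun χ => IsWt p (⊥ : Subgroup G) χ), centralValue (rd O) χ f := by
  unfold Del
  rw [← Finset.sum_coe_sort, ← finsum_eq_sum_of_fintype]
  refine finsum_eq_of_bijective (fun χ => ⟨χ.1, Finset.mem_filter.2 ⟨mem_Irr.2 χ.2.irr, χ.2⟩⟩)
    ⟨?_, ?_⟩ fun χ => rfl
  · intro χ χ' h
    apply Subtype.ext
    exact congrArg (fun x => x.1) h
  · rintro ⟨χ, hχ⟩
    exact ⟨⟨χ, (Finset.mem_filter.1 hχ).2⟩, rfl⟩

theorem card_zB {B : Set (G → ℂ)} (hB : IsBlock O B) :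
    (((Irr G).filter (fun χ => IsWt p (⊥ : Subgroup G) χ)).filter (· ∈ B)).card = zB p B := by
  unfold zB
  rw [← Fintype.card_coe, ← Nat.card_eq_fintype_card]
  refine Nat.card_congr (Equiv.subtypeEquivRight fun χ => ?_)
  rw [Finset.mem_filter, Finset.mem_filter, mem_Irr]
  exact ⟨fun h => ⟨h.2, h.1.2⟩, fun h => ⟨⟨hB.irr χ h.1, h.2⟩, h.1⟩⟩

theorem del_block {B : Set (G → ℂ)} (hB : IsBlock O B) :
    Del (rd O) p (pf O (blockCoeff B)) = (zB p B : FF O) := by
  rw [del_eq, ← card_zB hB, Finset.card_filter, Nat.cast_sum]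
  refine Finset.sum_congr rfl fun χ hχ => ?_
  rw [val_of_mem hB (mem_Irr.1 (Finset.mem_filter.1 hχ).1)]
  split_ifs <;> simp

/-- **from the congruences for the elements to the congruences for the blocks** -/
theorem blocks_of_elements (hpO : (p : ℂ) ∈ O.nonunits)
    (h : ∀ g : G, ¬ p ∣ orderOf g →
      alternatingSum p G (fun H => (comCl H g : ℤ)) ≡ dzCl p g [ZMOD p])
    {B : Set (G → ℂ)} (hB : IsBlock O B) : blkAlt p O B ≡ zB p B [ZMOD p] := by
  haveI := charP_FF (O := O) hpO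
  have hcl := pf_cl (O := O) (blockCoeff_cl hB.irr)
  have h1 := psi_eq_del (p := p) (rd O) hcl fun C hC => by
    have h2 : ¬ p ∣ orderOf C.out := fun hd => hC (pf_sing hpO hB hd)
    have h3 := (CharP.intCast_eq_intCast (FF O) p).2 (h C.out h2)
    rw [h3, Int.cast_natCast]
  rw [psi_block hpO hB, del_block hB] at h1
  apply (CharP.intCast_eq_intCast (FF O) p).1
  rw [h1, Int.cast_natCast]

/-- all irreducible characters -/
theorem isU_all : IsU O {χ : G → ℂ | IsIrr χ} := ⟨fun _ h => h, fun _ _ _ h => h.1⟩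

theorem coeff_all : blockCoeff {χ : G → ℂ | IsIrr χ} = (dl : G → ℂ) := by
  have h0 : ∀ χ ∈ {χ : G → ℂ | IsIrr χ}, IsIrr χ := fun _ h => h
  refine eq_of_Om (blockCoeff_cl h0) dl_cl fun χ hχ => ?_
  have h1 : χ ∈ {χ : G → ℂ | IsIrr χ} := hχ
  rw [Om_blockCoeff h0 hχ, Pool.Agent.H254R3.IN.Om_dl hχ, if_pos h1]

/-- each functional belongs to exactly one block -/
theorem sum_val_one {lam : (G → FF O) → FF O} (hl : Pool.Agent.Y63.NV.IsBlock lam) :
    ∑ b ∈ bks O {χ : G → ℂ | IsIrr χ}, lam (pf O (blockCoeff b)) = 1 := by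
  have h := map_sum_block hl (bks O {χ : G → ℂ | IsIrr χ}) (fun b => pf O (blockCoeff b))
    fun b hb => pf_cl (blockCoeff_cl ((mem_bks isU_all).mp hb).1.irr)
  rw [← h, ← pf_U isU_all, coeff_all, pf_dl, hl.one]

/-- a character in a block -/
def rp (B : Set (G → ℂ)) : G → ℂ := if h : B.Nonempty then h.some else fun _ => 0

theorem rp_mem {B : Set (G → ℂ)} (hB : IsBlock O B) : rp B ∈ B := by
  unfold rp
  have h : B.Nonempty := hB.nonempty
  rw [dif_pos h]
  exact h.some_mem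

theorem lam_expand {lam : (G → FF O) → FF O} (hl : Pool.Agent.Y63.NV.IsBlock lam) {f : G → FF O}
    (hf : IsClassFun f) : lam f = ∑ b ∈ bks O {χ : G → ℂ | IsIrr χ},
      lam (pf O (blockCoeff b)) * centralValue (rd O) (rp b) f := by
  have h1 : lam f = ∑ b ∈ bks O {χ : G → ℂ | IsIrr χ}, lam (pf O (blockCoeff b)) * lam f := by
    rw [← Finset.sum_mul, sum_val_one hl, one_mul]
  rw [h1]
  refine Finset.sum_congr rfl fun b hb => ?_
  have hbl := ((mem_bks isU_all).mp hb).1
  rcases val_cases hbl hl with h2 | h2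
  · rw [h2, zero_mul, zero_mul]
  · rw [h2, one_mul, one_mul]
    exact (val_one_iff hbl hl (rp_mem hbl)).1 h2 f hf

theorem psi_expand (hpO : (p : ℂ) ∈ O.nonunits) {f : G → FF O} (hf : IsClassFun f) :
    Psi (rd O) p f = ∑ b ∈ bks O {χ : G → ℂ | IsIrr χ},
      ((blkAlt p O b : ℤ) : FF O) * centralValue (rd O) (rp b) f := by
  have h1 : ∀ b ∈ bks O {χ : G → ℂ | IsIrr χ}, ((blkAlt p O b : ℤ) : FF O) *
      centralValue (rd O) (rp b) f =
      Psi (rd O) p (pf O (blockCoeff b)) * centralValue (rd O) (rp b) f := fun b hb => by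
    rw [psi_block hpO ((mem_bks isU_all).mp hb).1]
  rw [Finset.sum_congr rfl h1]
  have : Fintype (Quotient (chainSetoid p G)) := Fintype.ofFinite _
  unfold Psi
  simp only [finsum_eq_sum_of_fintype]
  simp only [Finset.sum_mul]
  rw [Finset.sum_comm]
  refine Finset.sum_congr rfl fun c _ => ?_
  simp only [mul_assoc, ← Finset.mul_sum]
  congr 1
  simp only [Finset.sum_mul]
  rw [Finset.sum_comm]
  refine Finset.sum_congr rfl fun θ hθ => ?_
  have hθ' : IsIrr θ := (@mem_Irr _ _ (Fintype.ofFinite _) _).1 hθ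
  exact lam_expand (ind_block hpO c.out.2 hθ') hf

theorem del_expand {f : G → FF O} (hf : IsClassFun f) :
    Del (rd O) p f = ∑ b ∈ bks O {χ : G → ℂ | IsIrr χ},
      (zB p b : FF O) * centralValue (rd O) (rp b) f := by
  have h1 : ∀ b ∈ bks O {χ : G → ℂ | IsIrr χ}, (zB p b : FF O) *
      centralValue (rd O) (rp b) f =
      Del (rd O) p (pf O (blockCoeff b)) * centralValue (rd O) (rp b) f := fun b hb => by
    rw [del_block ((mem_bks isU_all).mp hb).1]
  rw [Finset.sum_congr rfl h1]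
  simp only [del_eq, Finset.sum_mul]
  rw [Finset.sum_comm]
  refine Finset.sum_congr rfl fun χ hχ => ?_
  exact lam_expand (cv_block (mem_Irr.1 (Finset.mem_filter.1 hχ).1)) hf

/-- **from the congruences for the blocks to the congruences for the elements** -/
theorem elements_of_blocks (hpO : (p : ℂ) ∈ O.nonunits)
    (h : ∀ B : Set (G → ℂ), IsBlock O B → blkAlt p O B ≡ zB p B [ZMOD p]) (g : G) :
    alternatingSum p G (fun H => (comCl H g : ℤ)) ≡ dzCl p g [ZMOD p] := by
  haveI := charP_FF (O := O) hpO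
  apply (CharP.intCast_eq_intCast (FF O) p).1
  rw [← psi_ig (rd O) g, Int.cast_natCast, ← del_ig (rd O) g, psi_expand hpO (ig_cl g),
    del_expand (ig_cl g)]
  refine Finset.sum_congr rfl fun b hb => ?_
  have h1 := (CharP.intCast_eq_intCast (FF O) p).2 (h b ((mem_bks isU_all).mp hb).1)
  rw [h1, Int.cast_natCast]

end basic

section final

variable {p : ℕ} [hp : Fact p.Prime] {O : ValuationSubring ℂ} {G : Type} [Group G] [Finite G]

theorem card_factor (p : ℕ) [hp : Fact p.Prime] (a b : ℤ) :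
    a ≡ b [ZMOD p] ↔ (Nat.card G : ℤ) * a ≡ (Nat.card G : ℤ) * b
      [ZMOD (p : ℤ) ^ ((Nat.card G).factorization p + 1)] := by
  have h1 : p ^ (Nat.card G).factorization p * (Nat.card G / p ^ (Nat.card G).factorization p) =
    Nat.card G := Nat.ordProj_mul_ordCompl_eq_self _ _
  have h2 : Nat.Coprime p (Nat.card G / p ^ (Nat.card G).factorization p) :=
    Nat.coprime_ordCompl hp.out Nat.card_pos.ne'
  set c := (Nat.card G).factorization p
  set m := Nat.card G / p ^ c
  have hp0 : (p : ℤ) ^ c ≠ 0 := pow_ne_zero _ (by exact_mod_cast hp.out.ne_zero)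
  have hco : IsCoprime (p : ℤ) (m : ℤ) := Nat.isCoprime_iff_coprime.2 h2
  rw [Int.modEq_iff_dvd, Int.modEq_iff_dvd, ← mul_sub, ← h1]
  push_cast
  rw [pow_succ, mul_assoc, mul_dvd_mul_iff_left hp0]
  exact ⟨fun h => h.mul_left _, fun h => hco.dvd_of_dvd_mul_left h⟩

theorem elt_iff (g : G) :
    alternatingSum p G (fun H => (comCl H g : ℤ)) ≡ dzCl p g [ZMOD p] ↔
      RR p g ≡ TT p g [ZMOD (p : ℤ) ^ ((Nat.card G).factorization p + 1)] := by
  rw [card_factor (G := G), card_alt, ← Nat.cast_mul, card_dzCl]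

/-- **one group** -/
theorem ecc_group (hpO : (p : ℂ) ∈ O.nonunits) :
    ((∀ B : Set (G → ℂ), IsBlock O B → blkAlt p O B ≡ zB p B [ZMOD p]) ↔
      ∀ g : G, RR p g ≡ TT p g [ZMOD (p : ℤ) ^ ((Nat.card G).factorization p + 1)]) ∧
    ((∀ B : Set (G → ℂ), IsBlock O B → blkAlt p O B ≡ zB p B [ZMOD p]) ↔
      ∀ g : G, ¬ p ∣ orderOf g →
        RR p g ≡ TT p g [ZMOD (p : ℤ) ^ ((Nat.card G).factorization p + 1)]) := by
  haveI : Fintype G := Fintype.ofFinite G
  have h1 : (∀ B : Set (G → ℂ), IsBlock O B → blkAlt p O B ≡ zB p B [ZMOD p]) →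
      ∀ g : G, RR p g ≡ TT p g [ZMOD (p : ℤ) ^ ((Nat.card G).factorization p + 1)] :=
    fun h g => (elt_iff g).1 (elements_of_blocks hpO h g)
  have h2 : (∀ g : G, ¬ p ∣ orderOf g →
        RR p g ≡ TT p g [ZMOD (p : ℤ) ^ ((Nat.card G).factorization p + 1)]) →
      ∀ B : Set (G → ℂ), IsBlock O B → blkAlt p O B ≡ zB p B [ZMOD p] :=
    fun h B hB => blocks_of_elements hpO (fun g hg => (elt_iff g).2 (h g hg)) hB
  exact ⟨⟨h1, fun h => h2 fun g _ => h g⟩, ⟨fun h g _ => h1 h g, h2⟩⟩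

/-- **classes of groups** -/
theorem ecc_class (hpO : (p : ℂ) ∈ O.nonunits) (X : (G : Type) → Group G → Prop)
    (hX : ∀ (G : Type) [i : Group G], X G i → X (Pool.Agent.N85.WM.Wr p G) inferInstance) :
    ((∀ (G : Type) [i : Group G] (B : Set (G → ℂ)), X G i → AdmB p O G B → blkAlt p O B = 0) ↔
      ∀ (G : Type) [i : Group G] [Finite G], X G i → ∀ g : G,
        RR p g ≡ TT p g [ZMOD (p : ℤ) ^ ((Nat.card G).factorization p + 1)]) ∧
    ((∀ (G : Type) [i : Group G] (B : Set (G → ℂ)), X G i → AdmB p O G B → blkAlt p O B = 0) ↔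
      ∀ (G : Type) [i : Group G] [Finite G], X G i →
        (∀ P : Subgroup G, P.Normal → IsPGroup p P → P = ⊥) → ∀ g : G, ¬ p ∣ orderOf g →
          RR p g ≡ TT p g [ZMOD (p : ℤ) ^ ((Nat.card G).factorization p + 1)]) := by
  have h1 : (∀ (G : Type) [i : Group G] (B : Set (G → ℂ)), X G i → AdmB p O G B →
      blkAlt p O B = 0) → ∀ (G : Type) [i : Group G] [Finite G], X G i → ∀ g : G,
        RR p g ≡ TT p g [ZMOD (p : ℤ) ^ ((Nat.card G).factorization p + 1)] := by
    intro h G _ _ hG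
    haveI : Fintype G := Fintype.ofFinite G
    refine (ecc_group (O := O) hpO).1.1 fun B hB => ?_
    rw [alt_eq_zB hpO hB fun hA => h G B hG hA]
  have h2 : (∀ (G : Type) [i : Group G] [Finite G], X G i →
        (∀ P : Subgroup G, P.Normal → IsPGroup p P → P = ⊥) → ∀ g : G, ¬ p ∣ orderOf g →
          RR p g ≡ TT p g [ZMOD (p : ℤ) ^ ((Nat.card G).factorization p + 1)]) →
      ∀ (G : Type) [i : Group G] (B : Set (G → ℂ)), X G i → AdmB p O G B →
        blkAlt p O B = 0 := by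
    intro h
    refine zero_of_dvd p hpO X hX fun G _ B hG hA => ?_
    haveI := hA.fin
    haveI : Fintype G := Fintype.ofFinite G
    have h3 := (ecc_group (O := O) hpO).2.2 (h G hG hA.core) B hA.block
    rw [zB_adm hpO hA, Nat.cast_zero] at h3
    exact Int.modEq_zero_iff_dvd.1 h3
  exact ⟨⟨h1, fun h => h2 fun G _ _ hG _ g _ => h G hG g⟩,
    ⟨fun h G _ _ hG _ g _ => h1 h G hG g, h2⟩⟩

end final

end Pool.Agent.Helper3K
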