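import Pool.Agent.Helper3K.Cpl

/-!
# The formulas for the alternating sums of the blocks of wreath products
-/

set_option autoImplicit false
set_option linter.unusedSectionVars false
set_option linter.style.haveILetI false

open scoped BigOperators Classical

noncomputable section

namespace Pool.Agent.Helper3K

open Pool.Agent.Y63.KR
open Pool.Agent.Y63.NV
open Pool.Agent.N85.WM (Wr Base shiftHom wrF wrF_inZ IsIdem card_wr)
open Pool.Agent.Y63.AWC (IsIrreducibleCharacter cj)
open Pool.Agent.H254R3.IN (IsIrr)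
open Pool.Agent.N20.KB (irr_comp' knum_iso AA aB aa_aB aB_prod aB_iso aa_congr aa_index)
open Pool.Agent.N19.RB (tens tens_irr tens_inj exists_tens)
open Pool.Agent.Q90.WR (Ch)
open Pool.Agent.R674.KB (kblk)

variable {q : ℕ} [hq : Fact q.Prime] {G : Type} [Group G] [Finite G] {p : ℕ} [hp : Fact p.Prime]
  {F : Type} [Field F] [IsAlgClosed F] [CharP F p] (red : integralClosure ℤ ℂ →+* F)

theorem wrF_bas (e : G → F) (h : ZMod q → G) : wrF q e (bas h) = ∏ i, e (h i) := if_pos rfl

theorem cardG_ne' : (Nat.card G : ℤ) ≠ 0 := by exact_mod_cast Nat.card_pos.ne'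

/-- the sum for the base group of `e ⊗ ⋯ ⊗ e` -/
theorem aa_base_wr {e : G → F} (he : IsIdem e) :
    AA p red (Base q G) (fun x : Base q G => wrF q e x) 1 =
      (Nat.card G : ℤ) ^ q * aB red p G e 1 ^ q := by
  rw [aa_base red (wrF_inZ q G he.cl).conj 1]
  congr 1
  have h1 : (fun h : ZMod q → G => wrF q e (bas h)) = fun h => ∏ i, e (h i) := by
    funext h
    exact wrF_bas e h
  rw [h1, aB_pi red fun _ => he, Finset.prod_const, Finset.card_univ, ZMod.card]

/-- the sum for the base group of a sum of products -/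
theorem aa_base_mx {e : ZMod q → G → F} (he : ∀ i, IsIdem (e i))
    (hI : ∀ t : ZMod q, IsIdem (fun h : ZMod q → G => ∏ i, e i (h (i - t))))
    (hO : ∀ lam : ((ZMod q → G) → F) → F, IsBlock lam → ∀ s t : ZMod q, s ≠ t →
      lam (fun h => ∏ i, e i (h (i - s))) = 0 ∨ lam (fun h => ∏ i, e i (h (i - t))) = 0) :
    AA p red (Base q G) (fun x : Base q G => mxF e x) 1 =
      (Nat.card G : ℤ) ^ q * (q * ∏ i, aB red p G (e i) 1) := by
  rw [aa_base red (mxF_inZ fun i => (he i).cl).conj 1]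
  congr 1
  have h1 : (fun h : ZMod q → G => mxF e (bas h)) = fun h => ∑ t : ZMod q, ∏ i, e i (h (i - t)) := by
    funext h
    exact mxF_bas e h
  rw [h1, aB_sum red hI hO]
  have h2 : ∀ t : ZMod q, aB red p (ZMod q → G) (fun h => ∏ i, e i (h (i - t))) 1 =
      ∏ i, aB red p G (e i) 1 := by
    intro t
    have h3 : (fun h : ZMod q → G => ∏ i, e i (h (i - t))) = fun h => ∏ i, e (i + t) (h i) := by
      funext h
      exact Fintype.prod_equiv (Equiv.subRight t) _ _ fun i => by simp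
    rw [h3, aB_pi (e := fun i => e (i + t)) red fun i => he _]
    exact Fintype.prod_equiv (Equiv.addRight t) _ _ fun i => rfl
  rw [Finset.sum_congr rfl fun t _ => h2 t, Finset.sum_const, Finset.card_univ, ZMod.card,
    nsmul_eq_mul]

theorem jn_wr {e : G → F} (he : IsIdem e) (σ : Ch p G) :
    Jn (q := q) red (wrF q e) 1 (chainStabilizer σ.1) =
      Knum red (fun x : chainStabilizer σ.1 => e x) 1 := by
  have : Fintype (chainStabilizer σ.1) := Fintype.ofFinite _
  unfold Jn Knum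
  refine Nat.card_congr (Equiv.subtypeEquivRight fun ψ => and_congr_right fun hψ => ?_)
  have h1 : (fun h : ZMod q → chainStabilizer σ.1 => wrF q e (bas fun i => (h i : G))) =
      fun h => ∏ i, (fun x : chainStabilizer σ.1 => e x) (h i) := by
    funext h
    exact wrF_bas e _
  rw [h1, Pool.Agent.N85.WM.Wpi.cv_tens red (fun _ => hψ)
    (fun _ => fun x : chainStabilizer σ.1 => e x) fun _ g x => he.cl g x, Finset.prod_const,
    Finset.card_univ, ZMod.card]
  rcases he.val _ (kblk p F red G σ.1 ψ σ.2 hψ) with h2 | h2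
  · change centralValue red ψ (fun x : chainStabilizer σ.1 => e x) = 0 at h2
    rw [h2, zero_pow hq.out.ne_zero]
  · change centralValue red ψ (fun x : chainStabilizer σ.1 => e x) = 1 at h2
    rw [h2, one_pow]

theorem jn_mx {e : ZMod q → G → F} (he : ∀ i, IsIdem (e i))
    (ho : ∀ lam : (G → F) → F, IsBlock lam → lam (e 0) = 0 ∨ lam (e 1) = 0) (σ : Ch p G) :
    Jn (q := q) red (mxF e) 1 (chainStabilizer σ.1) = 0 := by
  have : Fintype (chainStabilizer σ.1) := Fintype.ofFinite _
  unfold Jn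
  rw [Nat.card_eq_zero]
  left
  constructor
  rintro ⟨ψ, hψ, h1⟩
  have h2 : (fun h : ZMod q → chainStabilizer σ.1 => mxF e (bas fun i => (h i : G))) =
      fun h => ∑ t : ZMod q, ∏ i, (fun (j : ZMod q) (x : chainStabilizer σ.1) => e j x) i
        (h (i - t)) := by
    funext h
    exact mxF_bas e _
  rw [h2, cv_tens_mx (f := fun (j : ZMod q) (x : chainStabilizer σ.1) => e j x) red hψ
    fun i g x => (he i).cl g x] at h1
  have h3 : ∏ i : ZMod q, centralValue red ψ
      ((fun (j : ZMod q) (x : chainStabilizer σ.1) => e j x) i) = 0 := by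
    rcases ho _ (kblk p F red G σ.1 ψ σ.2 hψ) with h4 | h4
    · exact Finset.prod_eq_zero (Finset.mem_univ 0) h4
    · exact Finset.prod_eq_zero (Finset.mem_univ 1) h4
  rw [h3, Finset.sum_const, smul_zero] at h1
  exact zero_ne_one h1

theorem sum_ch {z : G → F} (hz : IsClassFun z) :
    ∑ σ : Ch p G, (-1 : ℚ) ^ σ.1.ncard * ((Nat.card (chainStabilizer σ.1) : ℚ) *
      (Knum red (fun x : chainStabilizer σ.1 => z x) 1 : ℚ)) =
      (Nat.card G : ℚ) * (aB red p G z 1 : ℚ) := by
  have h := aa_aB (p := p) red hz 1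
  unfold AA at h
  rw [finsum_eq_sum_of_fintype] at h
  exact_mod_cast h

/-- **the alternating sum of `e ⊗ ⋯ ⊗ e`, `q ≠ p`** -/
theorem aB_wr_ne (hpq : p ≠ q) {e : G → F} (he : IsIdem e) :
    (q : ℤ) * aB red p (Wr q G) (wrF q e) 1 =
      aB red p G e 1 ^ q + ((q : ℤ) ^ 2 - 1) * aB red p G e 1 := by
  have hz := wrF_inZ q G he.cl
  have h1 := aa_wr (p := p) red hpq hz 1
  rw [aa_base_wr red he, aa_aB red hz.conj, card_wr,
    Finset.sum_congr rfl fun σ _ => by rw [jn_wr red he σ], sum_ch red he.cl] at h1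
  have hG : (Nat.card G : ℚ) ≠ 0 := by exact_mod_cast Nat.card_pos.ne'
  have h2 : (Nat.card G : ℚ) ^ q = (Nat.card G : ℚ) ^ (q - 1) * (Nat.card G : ℚ) := by
    rw [← pow_succ, Nat.sub_add_cancel hq.out.one_le]
  have h3 : (q : ℚ) * (aB red p (Wr q G) (wrF q e) 1 : ℚ) =
      (aB red p G e 1 : ℚ) ^ q + ((q : ℚ) ^ 2 - 1) * (aB red p G e 1 : ℚ) := by
    apply mul_left_cancel₀ (pow_ne_zero q hG)
    push_cast at h1
    rw [h2] at h1 ⊢
    linear_combination h1
  exact_mod_cast h3

/-- **the alternating sum of a mixed product, `q ≠ p`** -/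
theorem aB_mx_ne (hpq : p ≠ q) {e : ZMod q → G → F} (he : ∀ i, IsIdem (e i))
    (ho : ∀ lam : (G → F) → F, IsBlock lam → lam (e 0) = 0 ∨ lam (e 1) = 0)
    (hI : ∀ t : ZMod q, IsIdem (fun h : ZMod q → G => ∏ i, e i (h (i - t))))
    (hO : ∀ lam : ((ZMod q → G) → F) → F, IsBlock lam → ∀ s t : ZMod q, s ≠ t →
      lam (fun h => ∏ i, e i (h (i - s))) = 0 ∨ lam (fun h => ∏ i, e i (h (i - t))) = 0) :
    aB red p (Wr q G) (mxF e) 1 = ∏ i, aB red p G (e i) 1 := by
  have hz := mxF_inZ (q := q) fun i => (he i).cl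
  have h1 := aa_wr (p := p) red hpq hz 1
  rw [aa_base_mx red he hI hO, aa_aB red hz.conj, card_wr,
    Finset.sum_congr rfl fun σ _ => by rw [jn_mx red he ho σ, Nat.cast_zero, mul_zero, mul_zero],
    Finset.sum_const_zero, mul_zero, mul_zero, add_zero] at h1
  have hG : (Nat.card G : ℤ) ≠ 0 := cardG_ne'
  have hq0 : (q : ℤ) ≠ 0 := by exact_mod_cast hq.out.ne_zero
  have h2 : (Nat.card G : ℤ) ^ q * q * aB red p (Wr q G) (mxF e) 1 =
      (Nat.card G : ℤ) ^ q * (q * ∏ i, aB red p G (e i) 1) := by exact_mod_cast h1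
  apply mul_left_cancel₀ (mul_ne_zero (pow_ne_zero q hG) hq0)
  linear_combination h2

section p

theorem aa_frob (e : G → F) :
    AA p red G (fun g => e g ^ p) 1 = AA p red G e 1 := by
  unfold AA
  refine finsum_congr fun σ => ?_
  have h := knum_frob (p := p) red (fun x : chainStabilizer σ.1 => e x)
  rw [h]

/-- **the alternating sum of `e ⊗ ⋯ ⊗ e`, `q = p`** -/
theorem aB_wr_p {e : G → F} (he : IsIdem e) :
    (p : ℤ) * aB red p (Wr p G) (wrF p e) 1 = aB red p G e 1 ^ p - aB red p G e 1 := by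
  have hz := wrF_inZ p G he.cl
  have h1 := aa_wr_p (p := p) red hz 1
  have h0 : (fun g : G => wrF p e (bas fun _ => g)) = fun g => e g ^ p := by
    funext g
    rw [wrF_bas, Finset.prod_const, Finset.card_univ, ZMod.card]
  rw [aa_base_wr red he, aa_aB red hz.conj, card_wr, h0, aa_frob, aa_aB red he.cl] at h1
  have h2 : (Nat.card G : ℤ) ^ p = (Nat.card G : ℤ) ^ (p - 1) * (Nat.card G : ℤ) := by
    rw [← pow_succ, Nat.sub_add_cancel hp.out.one_le]
  apply mul_left_cancel₀ (pow_ne_zero p (cardG_ne' (G := G)))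
  push_cast at h1
  rw [h2] at h1 ⊢
  linear_combination h1

theorem aa_zero : AA p red G (fun _ => (0 : F)) 1 = 0 := by
  unfold AA
  refine finsum_eq_zero_of_forall_eq_zero fun σ => ?_
  have : Fintype (chainStabilizer σ.1) := Fintype.ofFinite _
  have h : Knum red (fun _ : chainStabilizer σ.1 => (0 : F)) 1 = 0 := by
    unfold Knum
    rw [Nat.card_eq_zero]
    left
    constructor
    rintro ⟨χ, hχ, hv⟩
    unfold centralValue at hv
    simp at hv
  rw [h]
  simp

/-- **the alternating sum of a mixed product, `q = p`** -/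
theorem aB_mx_p {e : ZMod p → G → F} (he : ∀ i, IsIdem (e i))
    (hI : ∀ t : ZMod p, IsIdem (fun h : ZMod p → G => ∏ i, e i (h (i - t))))
    (hO : ∀ lam : ((ZMod p → G) → F) → F, IsBlock lam → ∀ s t : ZMod p, s ≠ t →
      lam (fun h => ∏ i, e i (h (i - s))) = 0 ∨ lam (fun h => ∏ i, e i (h (i - t))) = 0) :
    aB red p (Wr p G) (mxF e) 1 = ∏ i, aB red p G (e i) 1 := by
  have hz := mxF_inZ (q := p) fun i => (he i).cl
  have h1 := aa_wr_p (p := p) red hz 1
  have h0 : (fun g : G => mxF e (bas fun _ => g)) = fun _ => 0 := by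
    funext g
    rw [mxF_bas, Finset.sum_const, Finset.card_univ, ZMod.card, nsmul_eq_mul, CharP.cast_eq_zero,
      zero_mul]
  rw [aa_base_mx red he hI hO, aa_aB red hz.conj, card_wr, h0, aa_zero, mul_zero, sub_zero] at h1
  have hG : (Nat.card G : ℤ) ≠ 0 := cardG_ne'
  have hq0 : (p : ℤ) ≠ 0 := by exact_mod_cast hp.out.ne_zero
  apply mul_left_cancel₀ (mul_ne_zero (pow_ne_zero p hG) hq0)
  push_cast at h1
  linear_combination h1

end p

/-- **the alternating sum of a mixed product** -/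
theorem aB_mx {e : ZMod q → G → F} (he : ∀ i, IsIdem (e i))
    (ho : ∀ lam : (G → F) → F, IsBlock lam → lam (e 0) = 0 ∨ lam (e 1) = 0)
    (hI : ∀ t : ZMod q, IsIdem (fun h : ZMod q → G => ∏ i, e i (h (i - t))))
    (hO : ∀ lam : ((ZMod q → G) → F) → F, IsBlock lam → ∀ s t : ZMod q, s ≠ t →
      lam (fun h => ∏ i, e i (h (i - s))) = 0 ∨ lam (fun h => ∏ i, e i (h (i - t))) = 0) :
    aB red p (Wr q G) (mxF e) 1 = ∏ i, aB red p G (e i) 1 := by
  by_cases h : p = q
  · subst h
    exact aB_mx_p red he hI hO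
  · exact aB_mx_ne red h he ho hI hO

end Pool.Agent.Helper3K
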