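import Pool.Agent.Helper3K.Comb

/-!
# Alternating sums over chains of wreath products with cyclic groups of prime order
-/

set_option autoImplicit false
set_option linter.unusedSectionVars false

open scoped BigOperators Classical

noncomputable section

namespace Pool.Agent.Helper3K

open Pool.Agent.Y63.KR
open Pool.Agent.N85.WM (Wr Base shiftHom)
open Pool.Agent.Q90.WR (inv mem_inv conjSub_bot bot_mem W_of_weight exists_weight Ch W_sum
  exists_moebius)

section tws

variable {q : ℕ} {G : Type} [Group G]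

/-- the wreath product of a subgroup, conjugated by an element of the base group -/
def tws (b : ZMod q → G) (H : Subgroup G) : Subgroup (Wr q G) where
  carrier := {x | ∀ i, (b i)⁻¹ * x.left i * b (i - sft x) ∈ H}
  one_mem' := fun i => by
    rw [oneL, oneS, mul_one, sub_zero, inv_mul_cancel]
    exact H.one_mem
  mul_mem' := by
    intro x y hx hy i
    have h := H.mul_mem (hx i) (hy (i - sft x))
    rw [mulL, mulS]
    have e : (b i)⁻¹ * x.left i * b (i - sft x) *
        ((b (i - sft x))⁻¹ * y.left (i - sft x) * b (i - sft x - sft y)) =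
        (b i)⁻¹ * (x.left i * y.left (i - sft x)) * b (i - sft x - sft y) := by group
    rw [e] at h
    rwa [sub_add_eq_sub_sub]
  inv_mem' := by
    intro x hx i
    have h := H.inv_mem (hx (i + sft x))
    rw [invL, invS, sub_neg_eq_add]
    rw [add_sub_cancel_right] at h
    have e : ((b (i + sft x))⁻¹ * x.left (i + sft x) * b i)⁻¹ =
        (b i)⁻¹ * (x.left (i + sft x))⁻¹ * b (i + sft x) := by group
    rwa [e] at h

theorem mem_tws {b : ZMod q → G} {H : Subgroup G} {x : Wr q G} :
    x ∈ tws b H ↔ ∀ i, (b i)⁻¹ * x.left i * b (i - sft x) ∈ H := Iff.rfl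

/-- the families with first member `1` -/
abbrev B0 (q : ℕ) (G : Type) : Type := {i : ZMod q // i ≠ 0} → G

/-- extension by `1` -/
def eB (b : B0 q G) (i : ZMod q) : G := if h : i ≠ 0 then b ⟨i, h⟩ else 1

theorem eB_zero (b : B0 q G) : eB b 0 = 1 := dif_neg (fun h => h rfl)

theorem eB_ne (b : B0 q G) (i : {i : ZMod q // i ≠ 0}) : eB b i.1 = b i := dif_pos i.2

variable {K : Subgroup (Wr q G)} {k : ZMod q → Wr q G}

theorem le_tws [Fact q.Prime] [Finite G] (hk : Trv K k) {b : ZMod q → G} (hb : b 0 = 1)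
    (H : Subgroup G) : K ≤ tws b H ↔ pr0 K ≤ H ∧ ∀ i, (b i)⁻¹ * tt k i ∈ H := by
  constructor
  · intro h
    refine ⟨?_, fun i => ?_⟩
    · rintro g ⟨x, hx, hx0, rfl⟩
      have h1 := h hx 0
      rwa [hx0, sub_zero, hb, inv_one, one_mul, mul_one] at h1
    · have h1 := h (hk.mem i) i
      rwa [hk.sh, sub_self, hb, mul_one] at h1
  · rintro ⟨h1, h2⟩ x hx i
    have h3 := H.mul_mem (H.mul_mem (h2 i) (h1 (key_mem hk hx i))) (H.inv_mem (h2 (i - sft x)))
    have e : (b i)⁻¹ * tt k i * ((tt k i)⁻¹ * x.left i * tt k (i - sft x)) *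
        ((b (i - sft x))⁻¹ * tt k (i - sft x))⁻¹ = (b i)⁻¹ * x.left i * b (i - sft x) := by group
    rwa [e] at h3

theorem card_ne [hq : Fact q.Prime] : Nat.card {i : ZMod q // i ≠ 0} = q - 1 := by
  rw [Nat.card_eq_fintype_card, Fintype.card_subtype_compl, ZMod.card, Fintype.card_subtype_eq]

instance finB0 [Fact q.Prime] [Finite G] : Fintype (B0 q G) := Fintype.ofFinite _

theorem count_tws [hq : Fact q.Prime] [Finite G] (hk : Trv K k) (H : Subgroup G) :
    (Finset.univ.filter fun b : B0 q G => K ≤ tws (eB b) H).card =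
      if pr0 K ≤ H then Nat.card H ^ (q - 1) else 0 := by
  split_ifs with h
  · have e : {b : B0 q G // K ≤ tws (eB b) H} ≃ ({i : ZMod q // i ≠ 0} → H) :=
      { toFun := fun b i => ⟨(b.1 i)⁻¹ * tt k i.1, by
          have h1 := ((le_tws hk (eB_zero b.1) H).mp b.2).2 i.1
          rwa [eB_ne] at h1⟩
        invFun := fun h' => ⟨fun i => tt k i.1 * ((h' i : H) : G)⁻¹, by
          rw [le_tws hk (eB_zero _)]
          refine ⟨h, fun i => ?_⟩
          by_cases hi : i = 0
          · subst hi
            rw [eB_zero, inv_one, one_mul]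
            exact h (t0_mem hk)
          · have e1 := eB_ne (fun i : {i : ZMod q // i ≠ 0} => tt k i.1 * ((h' i : H) : G)⁻¹) ⟨i, hi⟩
            rw [e1]
            have e2 : (tt k i * ((h' ⟨i, hi⟩ : H) : G)⁻¹)⁻¹ * tt k i = (h' ⟨i, hi⟩ : H) := by
              group
            rw [e2]
            exact (h' ⟨i, hi⟩).2⟩
        left_inv := fun b => by
          apply Subtype.ext
          funext i
          change tt k i.1 * ((b.1 i)⁻¹ * tt k i.1)⁻¹ = b.1 i
          group
        right_inv := fun h' => by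
          funext i
          apply Subtype.ext
          change (tt k i.1 * ((h' i : H) : G)⁻¹)⁻¹ * tt k i.1 = (h' i : H)
          group }
    rw [← Fintype.card_subtype, ← Nat.card_eq_fintype_card, Nat.card_congr e, Nat.card_fun, card_ne]
  · rw [Finset.card_eq_zero, Finset.filter_eq_empty_iff]
    intro b _ hb
    exact h ((le_tws hk (eB_zero b) H).mp hb).1

end tws

section functional

variable {q : ℕ} [hq : Fact q.Prime] {G : Type} [Group G] [Finite G] {p : ℕ} [hp : Fact p.Prime]

/-- **the functional identity** for functions which vanish at the subgroups of the base group -/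
theorem functional_out (hpq : p ≠ q) (D : Subgroup (Wr q G) → ℚ)
    (hD : ∀ H : Subgroup (Wr q G), (∀ x ∈ H, sft x = 0) → D H = 0) :
    ∑ υ : Ch p (Wr q G), (-1 : ℚ) ^ υ.1.ncard * D (chainStabilizer υ.1) =
      ∑ σ : Ch p G, (-1 : ℚ) ^ σ.1.ncard * (((Nat.card (chainStabilizer σ.1) : ℚ) ^ (q - 1))⁻¹ *
        ∑ b : B0 q G, D (tws (eB b) (chainStabilizer σ.1))) := by
  have : Fintype (Subgroup (Wr q G)) := Fintype.ofFinite _
  obtain ⟨c, hc⟩ := exists_moebius D
  -- the coefficients vanish at the subgroups of the base group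
  have hc0 : ∀ H : Subgroup (Wr q G), (∀ x ∈ H, sft x = 0) → c H = 0 := by
    intro H
    induction H using WellFoundedLT.induction with
    | ind H ih =>
      intro hH
      have h1 := hc H
      rw [hD H hH] at h1
      have h2 : ∀ K : Subgroup (Wr q G), (if K ≤ H then c K else 0) = if K = H then c K else 0 := by
        intro K
        by_cases h3 : K = H
        · subst h3
          rw [if_pos le_rfl, if_pos rfl]
        · rw [if_neg h3]
          split_ifs with h4
          · exact ih K (lt_of_le_of_ne h4 h3) fun x hx => hH x (h4 hx)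
          · rfl
      rw [Finset.sum_congr rfl fun K _ => h2 K, Finset.sum_ite_eq' Finset.univ H] at h1
      simpa using h1.symm
  -- the identity for one subgroup
  have key : ∀ K : Subgroup (Wr q G),
      ∑ υ : Ch p (Wr q G), (-1 : ℚ) ^ υ.1.ncard * (if K ≤ chainStabilizer υ.1 then c K else 0) =
      ∑ σ : Ch p G, (-1 : ℚ) ^ σ.1.ncard * (((Nat.card (chainStabilizer σ.1) : ℚ) ^ (q - 1))⁻¹ *
        ∑ b : B0 q G, (if K ≤ tws (eB b) (chainStabilizer σ.1) then c K else 0)) := by
    intro K
    by_cases hK : ∀ x ∈ K, sft x = 0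
    · simp [hc0 K hK]
    · push Not at hK
      obtain ⟨k, hk⟩ := exists_trv hK
      rw [W_sum, W_out hpq K hK, ← W_sum]
      refine Finset.sum_congr rfl fun σ _ => ?_
      congr 1
      rw [← Finset.sum_filter, Finset.sum_const, count_tws hk, nsmul_eq_mul]
      split_ifs with h
      · push_cast
        rw [← mul_assoc, inv_mul_cancel₀, one_mul]
        exact pow_ne_zero _ (by exact_mod_cast Nat.card_pos.ne')
      · simp
  have e1 : ∀ υ : Ch p (Wr q G), (-1 : ℚ) ^ υ.1.ncard * D (chainStabilizer υ.1) =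
      ∑ K : Subgroup (Wr q G), (-1 : ℚ) ^ υ.1.ncard *
        (if K ≤ chainStabilizer υ.1 then c K else 0) := by
    intro υ
    rw [hc, Finset.mul_sum]
  have e2 : ∀ σ : Ch p G, (-1 : ℚ) ^ σ.1.ncard * (((Nat.card (chainStabilizer σ.1) : ℚ) ^ (q - 1))⁻¹ *
        ∑ b : B0 q G, D (tws (eB b) (chainStabilizer σ.1))) =
      ∑ K : Subgroup (Wr q G), (-1 : ℚ) ^ σ.1.ncard *
        (((Nat.card (chainStabilizer σ.1) : ℚ) ^ (q - 1))⁻¹ *
        ∑ b : B0 q G, (if K ≤ tws (eB b) (chainStabilizer σ.1) then c K else 0)) := by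
    intro σ
    rw [← Finset.mul_sum, ← Finset.mul_sum, Finset.sum_comm]
    congr 2
    exact Finset.sum_congr rfl fun b _ => hc _
  rw [Finset.sum_congr rfl fun υ _ => e1 υ, Finset.sum_comm, Finset.sum_congr rfl fun σ _ => e2 σ,
    Finset.sum_comm (s := (Finset.univ : Finset (Ch p G)))]
  exact Finset.sum_congr rfl fun K _ => key K

end functional

end Pool.Agent.Helper3K
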