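import Pool.Agent.Helper3K.Uniq

/-!
# Growth of the alternating sums
-/

set_option autoImplicit false
set_option linter.unusedSectionVars false
set_option linter.style.haveILetI false

open scoped BigOperators Classical

noncomputable section

namespace Pool.Agent.Helper3K

open Pool.Agent.H254R3.IN (IsIrr IsBlock blockCoeff blockCoeff_mem)
open Pool.Agent.K3h3.KB (tenS tenS_block tenS_irr blockCoeff_tenS)
open Pool.Agent.N85.WM (Wr)
open Pool.Agent.Q90.WR (blkAlt AdmB)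
open Pool.Agent.N20.KB (aB aB_prod)

section sq

variable {p : ℕ} [hp : Fact p.Prime] {G : Type} [Group G] [Fintype G] {O : ValuationSubring ℂ}
  {B : Set (G → ℂ)}

theorem pf_tenS (hB : IsBlock O B) : pf O (blockCoeff (tenS B B)) =
    fun x => pf O (blockCoeff B) x.1 * pf O (blockCoeff B) x.2 := by
  funext x
  unfold pf
  rw [blockCoeff_tenS hB.irr hB.irr, ph_mul (blockCoeff_mem hB _) (blockCoeff_mem hB _)]

/-- the alternating sum for the direct square -/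
theorem blkAlt_sq (hpO : (p : ℂ) ∈ O.nonunits) (hB : IsBlock O B) :
    blkAlt p O (tenS B B) = blkAlt p O B ^ 2 := by
  haveI := charP_FF (O := O) hpO
  rw [← aB_block hpO (tenS_block hB hB), ← aB_block hpO hB, pf_tenS hB,
    aB_prod (rd O) (idem_pf hB) (idem_pf hB).cl, sq]

theorem adm_sq (hpO : (p : ℂ) ∈ O.nonunits) (h : AdmB p O G B) : AdmB p O (G × G) (tenS B B) where
  fin := inferInstance
  core := by
    intro P hP hp'
    have h1 : P.map (MonoidHom.fst G G) = ⊥ :=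
      h.core _ (hP.map _ Prod.fst_surjective) (hp'.map _)
    have h2 : P.map (MonoidHom.snd G G) = ⊥ :=
      h.core _ (hP.map _ Prod.snd_surjective) (hp'.map _)
    rw [Subgroup.eq_bot_iff_forall]
    intro x hx
    have e1 : x.1 ∈ P.map (MonoidHom.fst G G) := ⟨x, hx, rfl⟩
    have e2 : x.2 ∈ P.map (MonoidHom.snd G G) := ⟨x, hx, rfl⟩
    rw [h1, Subgroup.mem_bot] at e1
    rw [h2, Subgroup.mem_bot] at e2
    exact Prod.ext e1 e2
  block := tenS_block h.block h.block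
  defect := by
    refine defect_of_pos hpO (tenS_block h.block h.block) ?_
    rintro _ ⟨θ, hθ, ψ, hψ, rfl⟩
    have hz := adm_pos hpO h
    have e : (Nat.card (G × G) : ℂ) / (Pool.Agent.Q99.AS.ten θ ψ) 1 =
        (Nat.card G : ℂ) / θ 1 * ((Nat.card G : ℂ) / ψ 1) := by
      have h1 := (h.block.irr _ hθ).one_ne
      have h2 := (h.block.irr _ hψ).one_ne
      rw [Nat.card_prod]
      change _ / (θ 1 * ψ 1) = _
      push_cast
      field_simp
    rw [e]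
    exact nu_mul (hz _ hθ) (O.nonunits_subset (hz _ hψ))

end sq

section arith

variable {P : ℕ → ℤ → Prop} {q : ℕ}

theorem step_ge (hq : 2 ≤ q) {s t : ℤ} (hs : 1 ≤ s)
    (h : (q : ℤ) * t = s ^ q + ((q : ℤ) ^ 2 - 1) * s) : (q : ℤ) * s ≤ t := by
  have h1 : s ≤ s ^ q := by
    calc s = s ^ 1 := (pow_one s).symm
      _ ≤ s ^ q := pow_le_pow_right₀ hs (by omega)
  have hq0 : (0 : ℤ) < q := by exact_mod_cast (by omega : 0 < q)
  have h2 : (q : ℤ) * ((q : ℤ) * s) ≤ (q : ℤ) * t := by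
    rw [h]
    nlinarith
  exact le_of_mul_le_mul_left h2 hq0

theorem grow (hq : 2 ≤ q) (hP : ∀ n s, P n s → 1 ≤ n)
    (hW : ∀ n s, P n s → ∃ t, P (q * n ^ q) t ∧ (q : ℤ) * t = s ^ q + ((q : ℤ) ^ 2 - 1) * s)
    {n : ℕ} {s : ℤ} (h : P n s) (hs : 1 ≤ s) :
    ∃ M : ℕ, 2 ≤ M ∧ ∀ k : ℕ, ∃ m t, P m t ∧ m ≤ M ^ q ^ k ∧ (2 : ℤ) ^ q ^ k ≤ t := by
  obtain ⟨t₁, h1, e1⟩ := hW n s h
  have g1 := step_ge hq hs e1
  have hq2 : (2 : ℤ) ≤ q := by exact_mod_cast hq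
  obtain ⟨t₂, h2, e2⟩ := hW _ t₁ h1
  have g2 := step_ge hq (by nlinarith) e2
  set N := q * (q * n ^ q) ^ q with hN
  have hN1 : 1 ≤ N := hP _ _ h2
  have g3 : (q : ℤ) * 2 ≤ t₂ := by nlinarith
  refine ⟨q * N, by nlinarith, fun k => ?_⟩
  have key : ∃ m t, P m t ∧ q * m ≤ (q * N) ^ q ^ k ∧ (q : ℤ) * 2 ^ q ^ k ≤ t := by
    induction k with
    | zero => exact ⟨N, t₂, h2, by rw [pow_zero, pow_one], by rw [pow_zero, pow_one]; exact g3⟩
    | succ k ih =>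
      obtain ⟨m, t, hm, hb, hc⟩ := ih
      obtain ⟨t', hm', e'⟩ := hW m t hm
      refine ⟨_, t', hm', ?_, ?_⟩
      · calc q * (q * m ^ q) = q ^ 2 * m ^ q := by ring
          _ ≤ q ^ q * m ^ q := Nat.mul_le_mul_right _ (Nat.pow_le_pow_right (by omega) hq)
          _ = (q * m) ^ q := (mul_pow _ _ _).symm
          _ ≤ ((q * N) ^ q ^ k) ^ q := Nat.pow_le_pow_left hb q
          _ = (q * N) ^ q ^ (k + 1) := by rw [← pow_mul, pow_succ]
      · have ht0 : (0 : ℤ) ≤ (q : ℤ) * 2 ^ q ^ k := by positivity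
        have ht1 : 0 ≤ t := ht0.trans hc
        have h5 : ((q : ℤ) * 2 ^ q ^ k) ^ q ≤ t ^ q := pow_le_pow_left₀ ht0 hc q
        have h6 : (q : ℤ) ^ q * 2 ^ q ^ (k + 1) ≤ t ^ q := by
          calc (q : ℤ) ^ q * 2 ^ q ^ (k + 1) = ((q : ℤ) * 2 ^ q ^ k) ^ q := by
                rw [mul_pow, ← pow_mul, pow_succ]
            _ ≤ t ^ q := h5
        have h7 : (q : ℤ) ^ 2 * 2 ^ q ^ (k + 1) ≤ (q : ℤ) ^ q * 2 ^ q ^ (k + 1) :=
          mul_le_mul_of_nonneg_right (pow_le_pow_right₀ (by omega) hq) (by positivity)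
        have h8 : 0 ≤ ((q : ℤ) ^ 2 - 1) * t := mul_nonneg (by nlinarith) ht1
        have h9 : (q : ℤ) * ((q : ℤ) * 2 ^ q ^ (k + 1)) ≤ (q : ℤ) * t' := by
          rw [e']
          calc (q : ℤ) * ((q : ℤ) * 2 ^ q ^ (k + 1)) = (q : ℤ) ^ 2 * 2 ^ q ^ (k + 1) := by ring
            _ ≤ t ^ q := h7.trans h6
            _ ≤ _ := by linarith
        exact le_of_mul_le_mul_left h9 (by linarith)
  obtain ⟨m, t, hm, hb, hc⟩ := key
  refine ⟨m, t, hm, le_trans (Nat.le_mul_of_pos_left m (by omega)) hb, le_trans ?_ hc⟩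
  have : (0 : ℤ) ≤ 2 ^ q ^ k := by positivity
  nlinarith

/-- **an upper bound by all positive powers makes the sums nonpositive** -/
theorem nonpos_of_growth (hq : 2 ≤ q) (hP : ∀ n s, P n s → 1 ≤ n)
    (hW : ∀ n s, P n s → ∃ t, P (q * n ^ q) t ∧ (q : ℤ) * t = s ^ q + ((q : ℤ) ^ 2 - 1) * s)
    (hU : ∀ ε : ℝ, 0 < ε → ∃ C : ℝ, ∀ n s, P n s → (s : ℝ) ≤ C * (n : ℝ) ^ ε) :
    ∀ n s, P n s → s ≤ 0 := by
  intro n s h
  by_contra hs
  push Not at hs
  obtain ⟨M, hM, hk⟩ := grow hq hP hW h hs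
  have hM1 : (1 : ℝ) < M := by exact_mod_cast (by omega : 1 < M)
  have hlog : 0 < Real.log M := Real.log_pos hM1
  have hl2 : 0 < Real.log (3 / 2 : ℝ) := Real.log_pos (by norm_num)
  set ε := Real.log (3 / 2 : ℝ) / Real.log M with hε
  have hε0 : 0 < ε := div_pos hl2 hlog
  have hMe : (M : ℝ) ^ ε = 3 / 2 := by
    rw [Real.rpow_def_of_pos (by linarith), hε, mul_div_cancel₀ _ hlog.ne', Real.exp_log (by norm_num)]
  obtain ⟨C, hC⟩ := hU ε hε0
  obtain ⟨N, hN⟩ := pow_unbounded_of_one_lt |C| (by norm_num : (1 : ℝ) < 4 / 3)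
  obtain ⟨m, t, hm, hb, hc⟩ := hk N
  have h1 := hC m t hm
  have hm1 : (1 : ℝ) ≤ m := by exact_mod_cast hP m t hm
  have h2 : (m : ℝ) ^ ε ≤ ((3 : ℝ) / 2) ^ q ^ N := by
    calc (m : ℝ) ^ ε ≤ ((M : ℝ) ^ q ^ N) ^ ε :=
          Real.rpow_le_rpow (by linarith) (by exact_mod_cast hb) hε0.le
      _ = ((M : ℝ) ^ ε) ^ q ^ N := by
          rw [← Real.rpow_natCast, ← Real.rpow_natCast, ← Real.rpow_mul (by linarith),
            ← Real.rpow_mul (by linarith), mul_comm]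
      _ = _ := by rw [hMe]
  have h3 : ((2 : ℝ)) ^ q ^ N ≤ t := by exact_mod_cast hc
  have h4 : (t : ℝ) ≤ |C| * ((3 : ℝ) / 2) ^ q ^ N := by
    refine h1.trans ?_
    have h5 : 0 ≤ (m : ℝ) ^ ε := Real.rpow_nonneg (by linarith) _
    calc C * (m : ℝ) ^ ε ≤ |C| * (m : ℝ) ^ ε := mul_le_mul_of_nonneg_right (le_abs_self C) h5
      _ ≤ _ := mul_le_mul_of_nonneg_left h2 (abs_nonneg C)
  have h5 : ((2 : ℝ)) ^ q ^ N = (4 / 3) ^ q ^ N * (3 / 2) ^ q ^ N := by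
    rw [← mul_pow]
    norm_num
  have h6 : (4 / 3 : ℝ) ^ q ^ N ≤ |C| := by
    have h7 : (0 : ℝ) < (3 / 2) ^ q ^ N := by positivity
    have h8 := h3.trans h4
    rw [h5] at h8
    exact le_of_mul_le_mul_right h8 h7
  have h7 : (4 / 3 : ℝ) ^ N ≤ (4 / 3 : ℝ) ^ q ^ N :=
    pow_le_pow_right₀ (by norm_num) (Nat.lt_pow_self (by omega)).le
  linarith

theorem nonneg_of_growth (hq : 2 ≤ q) (hodd : Odd q) (hP : ∀ n s, P n s → 1 ≤ n)
    (hW : ∀ n s, P n s → ∃ t, P (q * n ^ q) t ∧ (q : ℤ) * t = s ^ q + ((q : ℤ) ^ 2 - 1) * s)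
    (hU : ∀ ε : ℝ, 0 < ε → ∃ C : ℝ, ∀ n s, P n s → -(C * (n : ℝ) ^ ε) ≤ (s : ℝ)) :
    ∀ n s, P n s → 0 ≤ s := by
  intro n s h
  have h1 := nonpos_of_growth (P := fun n s => P n (-s)) hq (fun n s h => hP n _ h) ?_ ?_ n (-s)
    (by rwa [neg_neg])
  · linarith
  · intro n s h
    obtain ⟨t, h2, h3⟩ := hW n (-s) h
    refine ⟨-t, by rwa [neg_neg], ?_⟩
    rw [hodd.neg_pow] at h3
    linarith
  · intro ε hε
    obtain ⟨C, hC⟩ := hU ε hε
    refine ⟨C, fun n s h => ?_⟩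
    have := hC n (-s) h
    push_cast at this
    linarith

end arith

section main

variable {p : ℕ} [hp : Fact p.Prime] (q : ℕ) [hq : Fact q.Prime] {O : ValuationSubring ℂ}

/-- the pairs of the order and the alternating sum -/
def OS (p : ℕ) (O : ValuationSubring ℂ) (X : (G : Type) → Group G → Prop) (n : ℕ) (s : ℤ) : Prop :=
  ∃ (G : Type) (i : Group G) (B : Set (G → ℂ)), X G i ∧ AdmB p O G B ∧ n = Nat.card G ∧
    s = blkAlt p O B

theorem os_pos {X : (G : Type) → Group G → Prop} : ∀ n s, OS p O X n s → 1 ≤ n := by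
  rintro n s ⟨G, i, B, h1, h2, rfl, rfl⟩
  haveI := h2.fin
  exact Nat.card_pos

theorem os_wr (hpO : (p : ℂ) ∈ O.nonunits) (hpq : p ≠ q) {X : (G : Type) → Group G → Prop}
    (hX : ∀ (G : Type) [i : Group G], X G i → X (Wr q G) inferInstance) :
    ∀ n s, OS p O X n s → ∃ t, OS p O X (q * n ^ q) t ∧
      (q : ℤ) * t = s ^ q + ((q : ℤ) ^ 2 - 1) * s := by
  rintro n s ⟨G, i, B, h1, h2, rfl, rfl⟩
  haveI := h2.fin
  haveI : Fintype G := Fintype.ofFinite G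
  obtain ⟨b, hb, e⟩ := exists_wr (q := q) hpO hpq h2
  refine ⟨_, ⟨Wr q G, inferInstance, b, hX G h1, hb, ?_, rfl⟩, e⟩
  rw [Pool.Agent.N85.WM.card_wr, mul_comm]

theorem growth_up (hpO : (p : ℂ) ∈ O.nonunits) (hpq : p ≠ q) (X : (G : Type) → Group G → Prop)
    (hX : ∀ (G : Type) [i : Group G], X G i → X (Wr q G) inferInstance) :
    (∀ (G : Type) [i : Group G] (B : Set (G → ℂ)), X G i → AdmB p O G B → blkAlt p O B ≤ 0) ↔
      ∀ ε : ℝ, 0 < ε → ∃ C : ℝ, ∀ (G : Type) [i : Group G] (B : Set (G → ℂ)), X G i →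
        AdmB p O G B → (blkAlt p O B : ℝ) ≤ C * (Nat.card G : ℝ) ^ ε := by
  constructor
  · intro h ε hε
    refine ⟨0, fun G _ B h1 h2 => ?_⟩
    rw [zero_mul]
    exact_mod_cast h G B h1 h2
  · intro h G i B h1 h2
    refine nonpos_of_growth (P := OS p O X) hq.out.two_le os_pos (os_wr q hpO hpq hX) ?_ _ _
      ⟨G, i, B, h1, h2, rfl, rfl⟩
    intro ε hε
    obtain ⟨C, hC⟩ := h ε hε
    refine ⟨C, ?_⟩
    rintro n s ⟨G, i, B, h1, h2, rfl, rfl⟩
    exact hC G B h1 h2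

theorem growth_down (hpO : (p : ℂ) ∈ O.nonunits) (hpq : p ≠ q) (hq2 : q ≠ 2)
    (X : (G : Type) → Group G → Prop)
    (hX : ∀ (G : Type) [i : Group G], X G i → X (Wr q G) inferInstance) :
    (∀ (G : Type) [i : Group G] (B : Set (G → ℂ)), X G i → AdmB p O G B → 0 ≤ blkAlt p O B) ↔
      ∀ ε : ℝ, 0 < ε → ∃ C : ℝ, ∀ (G : Type) [i : Group G] (B : Set (G → ℂ)), X G i →
        AdmB p O G B → -(C * (Nat.card G : ℝ) ^ ε) ≤ (blkAlt p O B : ℝ) := by
  constructor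
  · intro h ε hε
    refine ⟨0, fun G _ B h1 h2 => ?_⟩
    rw [zero_mul, neg_zero]
    exact_mod_cast h G B h1 h2
  · intro h G i B h1 h2
    refine nonneg_of_growth (P := OS p O X) hq.out.two_le (hq.out.odd_of_ne_two hq2) os_pos
      (os_wr q hpO hpq hX) ?_ _ _ ⟨G, i, B, h1, h2, rfl, rfl⟩
    intro ε hε
    obtain ⟨C, hC⟩ := h ε hε
    refine ⟨C, ?_⟩
    rintro n s ⟨G, i, B, h1, h2, rfl, rfl⟩
    exact hC G B h1 h2

theorem growth_zero (hpO : (p : ℂ) ∈ O.nonunits) (hpq : p ≠ q) (X : (G : Type) → Group G → Prop)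
    (hX : ∀ (G : Type) [i : Group G], X G i → X (Wr q G) inferInstance)
    (hX2 : ∀ (G : Type) [i : Group G], X G i → X (G × G) inferInstance) :
    (∀ (G : Type) [i : Group G] (B : Set (G → ℂ)), X G i → AdmB p O G B → blkAlt p O B = 0) ↔
      ∀ ε : ℝ, 0 < ε → ∃ C : ℝ, ∀ (G : Type) [i : Group G] (B : Set (G → ℂ)), X G i →
        AdmB p O G B → (blkAlt p O B : ℝ) ≤ C * (Nat.card G : ℝ) ^ ε := by
  rw [← growth_up q hpO hpq X hX]
  constructor
  · intro h G _ B h1 h2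
    exact (h G B h1 h2).le
  · intro h G _ B h1 h2
    haveI := h2.fin
    haveI : Fintype G := Fintype.ofFinite G
    have h3 := h (G × G) _ (hX2 G h1) (adm_sq hpO h2)
    rw [blkAlt_sq hpO h2.block] at h3
    exact pow_eq_zero_iff two_ne_zero |>.1 (le_antisymm h3 (sq_nonneg _))

end main

end Pool.Agent.Helper3K
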