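import Mathlib

/-!
# Residue classes of a set of positive integers closed under products and `n ↦ (n^l-n)/l + l n`

`Clo p U`: the set `U` of positive integers is closed under products and, for every prime `l ≠ p`,
under `n ↦ (n ^ l + (l ^ 2 - 1) * n) / l`.  If `U` is not empty, then it meets every residue class
modulo every `m` prime to `p` in arbitrarily large numbers (`Clo.classes`).
-/

set_option autoImplicit false

namespace Pool.Agent.Helper3K.NT

/-- Closure properties. -/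
structure Clo (p : ℕ) (U : ℕ → Prop) : Prop where
  pos : ∀ n, U n → 0 < n
  mul : ∀ a b, U a → U b → U (a * b)
  wr : ∀ l n, l.Prime → l ≠ p → U n → ∃ t, U t ∧ l * t = n ^ l + (l ^ 2 - 1) * n

theorem cast_wr {R : Type*} [CommRing R] {l t n : ℕ} (hl : 1 ≤ l)
    (h : l * t = n ^ l + (l ^ 2 - 1) * n) :
    (l : R) * t = (n : R) ^ l + ((l : R) ^ 2 - 1) * n := by
  have h1 : (1 : ℕ) ≤ l ^ 2 := Nat.one_le_pow _ _ hl
  have := congrArg (Nat.cast : ℕ → R) h
  push_cast [Nat.cast_sub h1] at this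
  exact this

theorem step_one {s l t x : ℕ} [Fact s.Prime] (hl : 1 ≤ l)
    (h : l * t = x ^ l + (l ^ 2 - 1) * x) (hx : (x : ZMod s) = 1) (hls : (l : ZMod s) ≠ 0) :
    (t : ZMod s) = l := by
  have h1 := cast_wr (R := ZMod s) hl h
  rw [hx] at h1
  have h2 : (l : ZMod s) * t = l * l := by rw [h1]; ring
  exact mul_left_cancel₀ hls h2

theorem step_fermat {s l t x : ℕ} [Fact s.Prime] (hl : 1 ≤ l)
    (h : l * t = x ^ l + (l ^ 2 - 1) * x) (hx : (x : ZMod s) ≠ 0) (hls : (l : ZMod s) ≠ 0)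
    (hd : (s - 1) ∣ (l - 1)) :
    (t : ZMod s) = l * x := by
  have h1 := cast_wr (R := ZMod s) hl h
  have h3 : (x : ZMod s) ^ l = x := by
    obtain ⟨k, hk⟩ := hd
    have : l = (s - 1) * k + 1 := by omega
    rw [this, pow_succ, pow_mul, ZMod.pow_card_sub_one_eq_one hx, one_pow, one_mul]
  rw [h3] at h1
  have h2 : (l : ZMod s) * t = l * (l * x) := by rw [h1]; ring
  exact mul_left_cancel₀ hls h2

theorem factor {l t x : ℕ} (hl : 1 ≤ l) (h : l * t = x ^ l + (l ^ 2 - 1) * x) :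
    l * t = x * (x ^ (l - 1) + (l ^ 2 - 1)) := by
  obtain ⟨k, rfl⟩ : ∃ k, l = k + 1 := ⟨l - 1, by omega⟩
  rw [h]
  simp only [Nat.add_sub_cancel]
  ring

theorem step_val {q l t x : ℕ} (hq : q.Prime) (hl : 2 ≤ l)
    (h : l * t = x ^ l + (l ^ 2 - 1) * x) (hx : q ∣ x) (hql : ¬ q ∣ l)
    (hq2 : ¬ q ∣ (l ^ 2 - 1)) (k : ℕ) :
    q ^ k ∣ t ↔ q ^ k ∣ x := by
  have h1 := factor (by omega) h
  have hc : Nat.Coprime q l := (Nat.Prime.coprime_iff_not_dvd hq).2 hql
  have hc2 : Nat.Coprime q (x ^ (l - 1) + (l ^ 2 - 1)) := by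
    rw [Nat.Prime.coprime_iff_not_dvd hq]
    intro hd
    have h3 : q ∣ x ^ (l - 1) := dvd_pow hx (by omega)
    exact hq2 ((Nat.dvd_add_right h3).1 hd)
  constructor
  · intro hd
    have h4 : q ^ k ∣ x * (x ^ (l - 1) + (l ^ 2 - 1)) := h1 ▸ dvd_mul_of_dvd_right hd l
    exact (Nat.Coprime.pow_left k hc2).dvd_of_dvd_mul_right h4
  · intro hd
    have h4 : q ^ k ∣ l * t := h1 ▸ dvd_mul_of_dvd_left hd _
    exact (Nat.Coprime.pow_left k hc).dvd_of_dvd_mul_left h4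

theorem step_self {q t x : ℕ} (hq : q.Prime)
    (h : q * t = x ^ q + (q ^ 2 - 1) * x) (hx : q ∣ x) (k : ℕ) (hd : q ^ k ∣ t) :
    q ^ (k + 1) ∣ x := by
  have h1 := factor hq.one_le h
  have hc2 : Nat.Coprime q (x ^ (q - 1) + (q ^ 2 - 1)) := by
    rw [Nat.Prime.coprime_iff_not_dvd hq]
    intro hd
    have h3 : q ∣ x ^ (q - 1) := dvd_pow hx (by have := hq.two_le; omega)
    have h5 : q ∣ q ^ 2 - 1 := (Nat.dvd_add_right h3).1 hd
    have h6 : q ∣ q ^ 2 := dvd_pow_self q (by norm_num)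
    have h7 : q ∣ 1 := by
      have h8 : q ^ 2 = (q ^ 2 - 1) + 1 := by
        have := Nat.one_le_pow 2 q hq.one_le; omega
      rw [h8] at h6
      exact (Nat.dvd_add_right h5).1 h6
    exact hq.one_lt.ne' (Nat.dvd_one.1 h7)
  have h4 : q ^ (k + 1) ∣ x * (x ^ (q - 1) + (q ^ 2 - 1)) := by
    rw [← h1, pow_succ, mul_comm (q ^ k) q]
    exact Nat.mul_dvd_mul_left q hd
  exact (Nat.Coprime.pow_left (k + 1) hc2).dvd_of_dvd_mul_right h4

theorem exists_prime_congr (D r q u N : ℕ) (hD : D ≠ 0) (hr : r.Prime) (hq : q.Prime)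
    (hq5 : 5 ≤ q) (hDr : D.Coprime r) (hDq : D.Coprime q) (hrq : r.Coprime q)
    (hu : u.Coprime r) :
    ∃ l, N < l ∧ l.Prime ∧ l ≡ 1 [MOD D] ∧ l ≡ u [MOD r] ∧ l ≡ 2 [MOD q] := by
  obtain ⟨k1, hk1, hk1'⟩ := Nat.chineseRemainder hDr 1 u
  have hc : (D * r).Coprime q := Nat.Coprime.mul_left hDq hrq
  obtain ⟨k2, hk2, hk2'⟩ := Nat.chineseRemainder hc k1 2
  have e1 : k2 ≡ 1 [MOD D] := (hk2.of_mul_right r).trans hk1
  have e2 : k2 ≡ u [MOD r] := (hk2.of_mul_left D).trans hk1'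
  have c1 : k2.Coprime D := by
    have := e1.gcd_eq
    rw [Nat.Coprime]
    rw [this]; simp
  have c2 : k2.Coprime r := by
    have := e2.gcd_eq
    rw [Nat.Coprime]
    rw [this]; exact hu
  have c3 : k2.Coprime q := by
    have := hk2'.gcd_eq
    rw [Nat.Coprime]
    rw [this]
    exact (Nat.coprime_primes Nat.prime_two hq).2 (by omega)
  have c4 : k2.Coprime (D * r * q) := Nat.Coprime.mul_right (Nat.Coprime.mul_right c1 c2) c3
  obtain ⟨l, hl1, hl2, hl3⟩ := Nat.forall_exists_prime_gt_and_modEq N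
    (q := D * r * q) (by have := hr.pos; have := hq.pos; positivity) c4
  refine ⟨l, hl1, hl2, ?_, ?_, ?_⟩
  · exact ((hl3.of_mul_right q).of_mul_right r).trans e1
  · exact ((hl3.of_mul_right q).of_mul_left D).trans e2
  · exact (hl3.of_mul_left (D * r)).trans hk2'

/-- `x` is prime to all primes `s < q`, `s ≠ p`. -/
def Cop (p q x : ℕ) : Prop := ∀ s, s.Prime → s < q → s ≠ p → ¬ s ∣ x

theorem not_dvd_of_modEq_one {D s l : ℕ} (hs : s.Prime) (h : l ≡ 1 [MOD D]) (hd : s ∣ D) :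
    ¬ s ∣ l := by
  intro h1
  have h2 : l ≡ 1 [MOD s] := h.of_dvd hd
  have h3 : 1 ≡ 0 [MOD s] := h2.symm.trans ((Nat.modEq_zero_iff_dvd).2 h1)
  exact hs.one_lt.ne' (Nat.dvd_one.1 ((Nat.modEq_zero_iff_dvd).1 h3))

theorem cast_ne {s x : ℕ} [Fact s.Prime] : (x : ZMod s) ≠ 0 ↔ ¬ s ∣ x := by
  rw [Ne, ZMod.natCast_eq_zero_iff]

theorem steer_step {p : ℕ} {U : ℕ → Prop} (H : Clo p U) {q : ℕ} (hq : q.Prime) (hq5 : 5 ≤ q)
    (k : ℕ) (r : ℕ) (hr : r.Prime) (hrp : r ≠ p) (hrq : r < q) (x : ℕ) (hx : U x)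
    (hqx : q ∣ x) (hk : ¬ q ^ (k + 1) ∣ x) (hc : Cop p q x)
    (h1 : ∀ s, s.Prime → r < s → s < q → s ≠ p → (x : ZMod s) = 1) :
    ∃ y, U y ∧ q ∣ y ∧ ¬ q ^ (k + 1) ∣ y ∧ Cop p q y ∧
      ∀ s, s.Prime → r ≤ s → s < q → s ≠ p → (y : ZMod s) = 1 := by
  classical
  have hrf : Fact r.Prime := ⟨hr⟩
  set D : ℕ := ∏ i ∈ (Finset.Ico 1 q).filter (fun i => i.Coprime r), i with hD
  have hDmem : ∀ i, 1 ≤ i → i < q → i.Coprime r → i ∣ D := by
    intro i hi1 hi2 hi3
    exact Finset.dvd_prod_of_mem _ (Finset.mem_filter.2 ⟨Finset.mem_Ico.2 ⟨hi1, hi2⟩, hi3⟩)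
  have hD0 : D ≠ 0 := by
    rw [hD, Finset.prod_ne_zero_iff]
    intro i hi
    have := (Finset.mem_Ico.1 (Finset.mem_filter.1 hi).1).1
    omega
  have hDr : D.Coprime r := by
    rw [hD]
    exact Nat.Coprime.prod_left fun i hi => (Finset.mem_filter.1 hi).2
  have hDq : D.Coprime q := by
    rw [hD]
    refine Nat.Coprime.prod_left fun i hi => ?_
    have h2 := Finset.mem_Ico.1 (Finset.mem_filter.1 hi).1
    exact (Nat.coprime_of_lt_prime (by omega) h2.2 hq).symm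
  have hxr : (x : ZMod r) ≠ 0 := cast_ne.2 (hc r hr hrq hrp)
  set u : ℕ := ((x : ZMod r)⁻¹).val with hu
  have huc : (u : ZMod r) = (x : ZMod r)⁻¹ := by rw [hu, ZMod.natCast_zmod_val]
  have hucop : u.Coprime r := by
    rw [Nat.coprime_comm, Nat.Prime.coprime_iff_not_dvd hr, ← cast_ne, huc]
    exact inv_ne_zero hxr
  obtain ⟨l, hl1, hl2, hl3, hl4, hl5⟩ := exists_prime_congr D r q u (p + q) hD0 hr hq hq5 hDr hDq
    ((Nat.coprime_primes hr hq).2 (by omega)) hucop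
  obtain ⟨t, ht, hlt⟩ := H.wr l x hl2 (by omega) hx
  have hl1' : 1 ≤ l := hl2.one_le
  have hDl : D ∣ l - 1 := (Nat.modEq_iff_dvd' hl1').1 hl3.symm
  have key : ∀ s, s.Prime → s < q → ¬ s ∣ l := by
    intro s hs hsq hd
    have := (Nat.prime_dvd_prime_iff_eq hs hl2).1 hd
    omega
  refine ⟨t, ht, ?_, ?_, ?_, ?_⟩
  · have hql : ¬ q ∣ l := by
      intro hd
      have := (Nat.prime_dvd_prime_iff_eq hq hl2).1 hd
      omega
    have hql2 : ¬ q ∣ (l ^ 2 - 1) := by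
      intro hd
      have e1 : l ^ 2 ≡ 2 ^ 2 [MOD q] := hl5.pow 2
      have e2 : (1 : ℕ) ≡ l ^ 2 [MOD q] := (Nat.modEq_iff_dvd' (Nat.one_le_pow _ _ hl1')).2 hd
      have e3 : (1 : ℕ) ≡ 4 [MOD q] := e2.trans e1
      have e4 : q ∣ 4 - 1 := (Nat.modEq_iff_dvd' (by norm_num)).1 e3
      have := Nat.le_of_dvd (by norm_num) e4
      omega
    have := (step_val hq hl2.two_le hlt hqx hql hql2 1).2 (by simpa using hqx)
    simpa using this
  · have hql : ¬ q ∣ l := by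
      intro hd
      have := (Nat.prime_dvd_prime_iff_eq hq hl2).1 hd
      omega
    have hql2 : ¬ q ∣ (l ^ 2 - 1) := by
      intro hd
      have e1 : l ^ 2 ≡ 2 ^ 2 [MOD q] := hl5.pow 2
      have e2 : (1 : ℕ) ≡ l ^ 2 [MOD q] := (Nat.modEq_iff_dvd' (Nat.one_le_pow _ _ hl1')).2 hd
      have e3 : (1 : ℕ) ≡ 4 [MOD q] := e2.trans e1
      have e4 : q ∣ 4 - 1 := (Nat.modEq_iff_dvd' (by norm_num)).1 e3
      have := Nat.le_of_dvd (by norm_num) e4
      omega
    intro hd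
    exact hk ((step_val hq hl2.two_le hlt hqx hql hql2 (k + 1)).1 hd)
  · intro s hs hsq hsp
    have hsf : Fact s.Prime := ⟨hs⟩
    have hsl : (l : ZMod s) ≠ 0 := cast_ne.2 (key s hs hsq)
    by_cases hsr : r < s
    · have := step_one hl1' hlt (h1 s hs hsr hsq hsp) hsl
      rw [← cast_ne, this]
      exact hsl
    · have hd : (s - 1) ∣ (l - 1) := by
        refine (hDmem (s - 1) (by have := hs.two_le; omega) (by omega) ?_).trans hDl
        exact (Nat.coprime_of_lt_prime (by have := hs.two_le; omega)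
          (by have := hs.two_le; omega) hr).symm
      have := step_fermat hl1' hlt (cast_ne.2 (hc s hs hsq hsp)) hsl hd
      rw [← cast_ne, this]
      exact mul_ne_zero hsl (cast_ne.2 (hc s hs hsq hsp))
  · intro s hs hrs hsq hsp
    have hsf : Fact s.Prime := ⟨hs⟩
    have hsl : (l : ZMod s) ≠ 0 := cast_ne.2 (key s hs hsq)
    rcases hrs.lt_or_eq with hlt' | heq
    · have := step_one hl1' hlt (h1 s hs hlt' hsq hsp) hsl
      rw [this]
      have hsD : s ∣ D := hDmem s hs.one_le hsq ((Nat.coprime_primes hs hr).2 (by omega))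
      have : l ≡ 1 [MOD s] := hl3.of_dvd hsD
      have := (ZMod.natCast_eq_natCast_iff _ _ _).2 this
      simpa using this
    · subst heq
      have hd : (r - 1) ∣ (l - 1) := by
        refine (hDmem (r - 1) (by have := hr.two_le; omega) (by omega) ?_).trans hDl
        exact (Nat.coprime_of_lt_prime (by have := hr.two_le; omega)
          (by have := hr.two_le; omega) hr).symm
      have := step_fermat hl1' hlt hxr hsl hd
      rw [this]
      have e1 : (l : ZMod r) = (u : ZMod r) := (ZMod.natCast_eq_natCast_iff _ _ _).2 hl4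
      rw [e1, huc, inv_mul_cancel₀ hxr]

theorem steer {p : ℕ} {U : ℕ → Prop} (H : Clo p U) {q : ℕ} (hq : q.Prime) (hq5 : 5 ≤ q)
    (k : ℕ) (x : ℕ) (hx : U x) (hqx : q ∣ x) (hk : ¬ q ^ (k + 1) ∣ x) (hc : Cop p q x) (i : ℕ) :
    ∃ y, U y ∧ q ∣ y ∧ ¬ q ^ (k + 1) ∣ y ∧ Cop p q y ∧
      ∀ s, s.Prime → q ≤ s + i → s < q → s ≠ p → (y : ZMod s) = 1 := by
  induction i with
  | zero => exact ⟨x, hx, hqx, hk, hc, fun s hs h1 h2 => by omega⟩
  | succ i ih =>
    obtain ⟨y, hy, hqy, hky, hcy, h1⟩ := ih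
    by_cases hr : (q - (i + 1)).Prime ∧ q - (i + 1) ≠ p
    · obtain ⟨z, hz, hqz, hkz, hcz, h2⟩ := steer_step H hq hq5 k (q - (i + 1)) hr.1 hr.2
        (by omega) y hy hqy hky hcy (fun s hs h3 h4 h5 => h1 s hs (by omega) h4 h5)
      exact ⟨z, hz, hqz, hkz, hcz, fun s hs h3 h4 h5 => h2 s hs (by omega) h4 h5⟩
    · refine ⟨y, hy, hqy, hky, hcy, fun s hs h3 h4 h5 => ?_⟩
      by_cases h6 : s = q - (i + 1)
      · subst h6
        exact absurd ⟨hs, h5⟩ hr
      · exact h1 s hs (by omega) h4 h5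

theorem steer_all {p : ℕ} {U : ℕ → Prop} (H : Clo p U) {q : ℕ} (hq : q.Prime)
    (k : ℕ) (x : ℕ) (hx : U x) (hqx : q ∣ x) (hk : ¬ q ^ (k + 1) ∣ x) (hc : Cop p q x) :
    ∃ y, U y ∧ q ∣ y ∧ ¬ q ^ (k + 1) ∣ y ∧
      ∀ s, s.Prime → s < q → s ≠ p → (y : ZMod s) = 1 := by
  rcases Nat.lt_or_ge q 5 with h5 | h5
  · refine ⟨x, hx, hqx, hk, ?_⟩
    intro s hs hsq hsp
    have h4 : q ≠ 4 := by rintro rfl; exact absurd hq (by norm_num)
    have : s = 2 := by have := hs.two_le; omega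
    subst this
    have h2 := hc 2 hs hsq hsp
    have h3 : (x : ZMod 2) ≠ 0 := by
      rw [Ne, ZMod.natCast_eq_zero_iff]; exact h2
    generalize (x : ZMod 2) = z at h3 ⊢
    revert h3
    revert z
    decide
  · obtain ⟨y, hy, hqy, hky, _, h1⟩ := steer H hq h5 k x hx hqx hk hc q
    exact ⟨y, hy, hqy, hky, fun s hs h2 h3 => h1 s hs (by omega) h2 h3⟩

theorem remove {p : ℕ} {U : ℕ → Prop} (H : Clo p U) {q : ℕ} (hq : q.Prime) (hqp : q ≠ p)
    (k : ℕ) : ∀ x : ℕ, U x → ¬ q ^ (k + 1) ∣ x → Cop p q x → ∃ y, U y ∧ Cop p (q + 1) y := by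
  induction k with
  | zero =>
    intro x hx hk hc
    refine ⟨x, hx, ?_⟩
    intro s hs hsq hsp
    rcases Nat.lt_or_ge s q with h | h
    · exact hc s hs h hsp
    · have : s = q := by omega
      subst this
      simpa using hk
  | succ k ih =>
    intro x hx hk hc
    by_cases hqx : q ∣ x
    · obtain ⟨y, hy, hqy, hky, h1⟩ := steer_all H hq (k + 1) x hx hqx hk hc
      obtain ⟨t, ht, hqt⟩ := H.wr q y hq hqp hy
      refine ih t ht ?_ ?_
      · intro hd
        exact hky (step_self hq hqt hqy (k + 1) hd)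
      · intro s hs hsq hsp
        have hsf : Fact s.Prime := ⟨hs⟩
        have hsl : (q : ZMod s) ≠ 0 := by
          rw [cast_ne]
          intro hd
          have := (Nat.prime_dvd_prime_iff_eq hs hq).1 hd
          omega
        have := step_one hq.one_le hqt (h1 s hs hsq hsp) hsl
        rw [← cast_ne, this]
        exact hsl
    · refine ⟨x, hx, ?_⟩
      intro s hs hsq hsp
      rcases Nat.lt_or_ge s q with h | h
      · exact hc s hs h hsp
      · have : s = q := by omega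
        subst this
        exact hqx

theorem exists_cop {p : ℕ} {U : ℕ → Prop} (H : Clo p U) (hne : ∃ x, U x) (n : ℕ) :
    ∃ x, U x ∧ Cop p n x := by
  induction n with
  | zero =>
    obtain ⟨x, hx⟩ := hne
    exact ⟨x, hx, fun s hs h => by omega⟩
  | succ n ih =>
    obtain ⟨x, hx, hc⟩ := ih
    by_cases hn : n.Prime ∧ n ≠ p
    · obtain ⟨k, hk⟩ : ∃ k, ¬ n ^ (k + 1) ∣ x := by
        refine ⟨x, fun hd => ?_⟩
        have h1 := Nat.le_of_dvd (H.pos x hx) hd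
        have h2 : x < n ^ x := Nat.lt_pow_self hn.1.one_lt
        have h3 : n ^ x ≤ n ^ (x + 1) := Nat.pow_le_pow_right hn.1.pos (by omega)
        omega
      exact remove H hn.1 hn.2 k x hx hk hc
    · refine ⟨x, hx, ?_⟩
      intro s hs hsn hsp
      rcases Nat.lt_or_ge s n with h | h
      · exact hc s hs h hsp
      · have : s = n := by omega
        subst this
        exact absurd ⟨hs, hsp⟩ hn

theorem Clo.pow {p : ℕ} {U : ℕ → Prop} (H : Clo p U) {x : ℕ} (hx : U x) (n : ℕ) (hn : 0 < n) :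
    U (x ^ n) := by
  obtain ⟨k, rfl⟩ : ∃ k, n = k + 1 := ⟨n - 1, by omega⟩
  clear hn
  induction k with
  | zero => simpa using hx
  | succ k ih => rw [pow_succ]; exact H.mul _ _ ih hx

theorem exists_one {p : ℕ} {U : ℕ → Prop} (H : Clo p U) (hne : ∃ x, U x) (m : ℕ) (hm : 0 < m)
    (hmp : m.Coprime p) (hp : p.Prime) : ∃ y, U y ∧ y ≡ 1 [MOD m] := by
  obtain ⟨x, hx, hc⟩ := exists_cop H hne (m + 1)
  have hxm : x.Coprime m := by
    rw [Nat.coprime_comm]
    refine Nat.Coprime.symm (Nat.coprime_of_dvd ?_)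
    intro s hs hsx hsm
    have hsp : s ≠ p := by
      rintro rfl
      have := Nat.Coprime.eq_one_of_dvd hmp.symm hsm
      exact hs.one_lt.ne' this
    exact hc s hs (by have := Nat.le_of_dvd hm hsm; omega) hsp hsx
  exact ⟨x ^ m.totient, H.pow hx _ (Nat.totient_pos.2 hm), Nat.ModEq.pow_totient hxm⟩

theorem exists_prime_val {p : ℕ} {U : ℕ → Prop} (H : Clo p U) (hne : ∃ x, U x) (m : ℕ)
    (hm : 0 < m) (hmp : m.Coprime p) (hp : p.Prime) (l : ℕ) (hl : l.Prime) (hlp : l ≠ p) :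
    ∃ t, U t ∧ t ≡ l [MOD m] ∧ l ≤ t := by
  obtain ⟨y, hy, hy1⟩ := exists_one H hne (l * m) (Nat.mul_pos hl.pos hm)
    (Nat.Coprime.mul_left ((Nat.coprime_primes hl hp).2 hlp) hmp) hp
  obtain ⟨t, ht, hlt⟩ := H.wr l y hl hlp hy
  refine ⟨t, ht, ?_, ?_⟩
  · have h1 : l * t ≡ 1 ^ l + (l ^ 2 - 1) * 1 [MOD l * m] := by
      rw [hlt]
      exact Nat.ModEq.add (hy1.pow l) (Nat.ModEq.mul_left _ hy1)
    have h2 : 1 ^ l + (l ^ 2 - 1) * 1 = l * l := by
      have := Nat.one_le_pow 2 l hl.one_le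
      rw [one_pow, mul_one, ← sq]
      omega
    rw [h2] at h1
    exact Nat.ModEq.mul_left_cancel' hl.ne_zero h1
  · have hy0 := H.pos y hy
    have h1 : l ^ 2 ≤ l * t := by
      rw [hlt]
      have h3 : 1 ≤ y ^ l := Nat.one_le_pow _ _ hy0
      have h4 : (l ^ 2 - 1) * 1 ≤ (l ^ 2 - 1) * y := Nat.mul_le_mul_left _ hy0
      have := Nat.one_le_pow 2 l hl.one_le
      omega
    rw [sq] at h1
    exact Nat.le_of_mul_le_mul_left h1 hl.pos

theorem exists_val {p : ℕ} {U : ℕ → Prop} (H : Clo p U) (hne : ∃ x, U x) (m : ℕ)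
    (hm : 0 < m) (hmp : m.Coprime p) (hp : p.Prime) (n : ℕ) :
    0 < n → ¬ p ∣ n → ∃ t, U t ∧ t ≡ n [MOD m] ∧ n ≤ t := by
  induction n using Nat.recOnMul with
  | zero => intro h; omega
  | one =>
    intro _ _
    obtain ⟨y, hy, hy1⟩ := exists_one H hne m hm hmp hp
    exact ⟨y, hy, hy1, H.pos y hy⟩
  | prime l hl =>
    intro _ hpl
    exact exists_prime_val H hne m hm hmp hp l hl (by rintro rfl; exact hpl dvd_rfl)
  | mul a b iha ihb =>
    intro hab hpab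
    obtain ⟨s, hs, hs1, hs2⟩ := iha (Nat.pos_of_ne_zero (by rintro rfl; simp at hab))
      (fun hd => hpab (dvd_mul_of_dvd_left hd b))
    obtain ⟨t, ht, ht1, ht2⟩ := ihb (Nat.pos_of_ne_zero (by rintro rfl; simp at hab))
      (fun hd => hpab (dvd_mul_of_dvd_right hd a))
    exact ⟨s * t, H.mul _ _ hs ht, hs1.mul ht1, Nat.mul_le_mul hs2 ht2⟩

/-- All residue classes modulo `m` prime to `p`. -/
theorem Clo.classes {p : ℕ} {U : ℕ → Prop} (H : Clo p U) (hp : p.Prime) (hne : ∃ x, U x)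
    (m : ℕ) (hm : 0 < m) (hmp : m.Coprime p) (a N : ℕ) :
    ∃ t, U t ∧ t ≡ a [MOD m] ∧ N < t := by
  obtain ⟨k, hk1, hk2⟩ := Nat.chineseRemainder hmp a 1
  have hmp0 : 0 < m * p := Nat.mul_pos hm hp.pos
  have e1 : k + (m * p) * (N + 1) ≡ k [MOD m * p] := by
    rw [Nat.ModEq]; simp
  have e2 : k + (m * p) * (N + 1) ≡ a [MOD m] := (e1.of_mul_right p).trans hk1
  have e3 : k + (m * p) * (N + 1) ≡ 1 [MOD p] := (e1.of_mul_left m).trans hk2
  have hge : N + 1 ≤ k + (m * p) * (N + 1) := by nlinarith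
  obtain ⟨t, ht, ht1, ht2⟩ := exists_val H hne m hm hmp hp (k + (m * p) * (N + 1)) (by omega)
    (not_dvd_of_modEq_one hp e3 dvd_rfl)
  exact ⟨t, ht, ht1.trans e2, by omega⟩

/-! ### Powers of `p` -/

/-- the map `x ↦ (x ^ p - x) / p` -/
structure CloP (p : ℕ) (U : ℕ → Prop) : Prop extends Clo p U where
  hp : ∀ n, 2 ≤ n → U n → ∃ t, U t ∧ p * t + n = n ^ p

theorem le_step {p t x : ℕ} (hp : p.Prime) (hx : 3 ≤ x) (h : p * t + x = x ^ p) : x ≤ t := by
  obtain ⟨k, rfl⟩ : ∃ k, p = k + 1 := ⟨p - 1, by have := hp.one_le; omega⟩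
  have hk : 1 ≤ k := by have := hp.two_le; omega
  have h1 : k + 2 ≤ 3 ^ k := by
    clear hp h
    induction k, hk using Nat.le_induction with
    | base => norm_num
    | succ k hk ih => rw [pow_succ]; omega
  have h2 : k + 2 ≤ x ^ k := h1.trans (Nat.pow_le_pow_left hx k)
  have h3 : (k + 2) * x ≤ (k + 1) * t + x := by
    rw [h, pow_succ]
    exact Nat.mul_le_mul_right x h2
  have h4 : (k + 1) * x ≤ (k + 1) * t := by nlinarith
  exact Nat.le_of_mul_le_mul_left h4 (by omega)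

theorem step_p {p t x : ℕ} (hp : p.Prime) (h : p * t + x = x ^ p) (hx : p ∣ x) (k : ℕ)
    (hd : p ^ (k + 1) ∣ t) : p ^ (k + 2) ∣ x := by
  by_contra hcon
  -- the exact power of `p` in `x`
  obtain ⟨j, hj1, hj2, hj3⟩ : ∃ j, 1 ≤ j ∧ p ^ j ∣ x ∧ ¬ p ^ (j + 1) ∣ x := by
    have : ∃ j, ¬ p ^ j ∣ x := ⟨k + 2, hcon⟩
    classical
    refine ⟨Nat.find this - 1, ?_, ?_, ?_⟩
    · have h0 : Nat.find this ≠ 0 := by
        intro h0
        have := Nat.find_spec this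
        rw [h0] at this
        exact this (by simp)
      have h1 : Nat.find this ≠ 1 := by
        intro h0
        have := Nat.find_spec this
        rw [h0] at this
        exact this (by simpa using hx)
      omega
    · by_contra h5
      have h0 : Nat.find this ≠ 0 := by
        intro h0
        have := Nat.find_spec this
        rw [h0] at this
        exact this (by simp)
      have := Nat.find_min' this h5
      omega
    · have h0 : Nat.find this ≠ 0 := by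
        intro h0
        have := Nat.find_spec this
        rw [h0] at this
        exact this (by simp)
      have h5 := Nat.find_spec this
      rwa [show Nat.find this - 1 + 1 = Nat.find this by omega]
  have hjk : j < k + 2 := by
    by_contra h5
    exact hcon ((pow_dvd_pow p (by omega)).trans hj2)
  have h1 : p ^ (j + 1) ∣ p * t := by
    refine (pow_dvd_pow p (show j + 1 ≤ k + 2 by omega)).trans ?_
    rw [show k + 2 = (k + 1) + 1 from rfl, pow_succ, mul_comm]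
    exact Nat.mul_dvd_mul_left p hd
  have h2 : p ^ (j + 1) ∣ x ^ p := by
    have h3 : (p ^ j) ^ p ∣ x ^ p := pow_dvd_pow_of_dvd hj2 p
    rw [← pow_mul] at h3
    refine (pow_dvd_pow p ?_).trans h3
    have := hp.two_le
    nlinarith
  rw [← h] at h2
  exact hj3 ((Nat.dvd_add_right h1).1 h2)

theorem exists_prime_to {p : ℕ} {U : ℕ → Prop} (H : CloP p U) (hp : p.Prime) (k : ℕ) :
    ∀ x, U x → 3 ≤ x → ¬ p ^ (k + 1) ∣ x → ∃ y, U y ∧ ¬ p ∣ y := by
  induction k with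
  | zero =>
    intro x hx _ h
    exact ⟨x, hx, by simpa using h⟩
  | succ k ih =>
    intro x hx h3 h
    by_cases hpx : p ∣ x
    · obtain ⟨t, ht, e⟩ := H.hp x (by omega) hx
      exact ih t ht (h3.trans (le_step hp h3 e)) fun hd => h (step_p hp e hpx k hd)
    · exact ⟨x, hx, hpx⟩

theorem exists_unit {p : ℕ} {U : ℕ → Prop} (H : CloP p U) (hp : p.Prime) (hne : ∃ x, U x) :
    ∃ y, U y ∧ ¬ p ∣ y := by
  obtain ⟨x, hx, -, h3⟩ := H.toClo.classes hp hne 1 one_pos (Nat.coprime_one_left p) 0 2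
  refine exists_prime_to H hp x x hx h3 fun hd => ?_
  have h1 := Nat.le_of_dvd (H.pos x hx) hd
  have h2 : x < p ^ x := Nat.lt_pow_self hp.one_lt
  have h4 : p ^ x ≤ p ^ (x + 1) := Nat.pow_le_pow_right hp.pos (by omega)
  omega

theorem exists_val_p {p : ℕ} {U : ℕ → Prop} (H : CloP p U) (hne : ∃ x, U x)
    (hp : p.Prime) (k n : ℕ) :
    0 < n → ¬ p ∣ n → ∃ t, U t ∧ t ≡ n [MOD p ^ k] ∧ n ≤ t := by
  obtain ⟨x, hx, hpx⟩ := exists_unit H hp hne
  have hm : 0 < p ^ k := Nat.pow_pos hp.pos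
  have hxm : x.Coprime (p ^ k) :=
    (Nat.Coprime.pow_left k ((Nat.Prime.coprime_iff_not_dvd hp).2 hpx)).symm
  have hy : U (x ^ (p ^ k).totient) := H.toClo.pow hx _ (Nat.totient_pos.2 hm)
  have hy1 : x ^ (p ^ k).totient ≡ 1 [MOD p ^ k] := Nat.ModEq.pow_totient hxm
  set y := x ^ (p ^ k).totient
  induction n using Nat.recOnMul with
  | zero => intro h; omega
  | one =>
    intro _ _
    exact ⟨y, hy, hy1, H.pos y hy⟩
  | prime l hl =>
    intro _ hpl
    have hlp : l ≠ p := by rintro rfl; exact hpl dvd_rfl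
    obtain ⟨t, ht, hlt⟩ := H.wr l y hl hlp hy
    refine ⟨t, ht, ?_, ?_⟩
    · have h1 : l * t ≡ 1 ^ l + (l ^ 2 - 1) * 1 [MOD p ^ k] := by
        rw [hlt]
        exact Nat.ModEq.add (hy1.pow l) (Nat.ModEq.mul_left _ hy1)
      have h2 : 1 ^ l + (l ^ 2 - 1) * 1 = l * l := by
        have := Nat.one_le_pow 2 l hl.one_le
        rw [one_pow, mul_one, ← sq]
        omega
      rw [h2] at h1
      refine Nat.ModEq.cancel_left_of_coprime ?_ h1
      exact Nat.Coprime.pow_left k ((Nat.coprime_primes hp hl).2 (Ne.symm hlp))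
    · have hy0 := H.pos y hy
      have h1 : l ^ 2 ≤ l * t := by
        rw [hlt]
        have h3 : 1 ≤ y ^ l := Nat.one_le_pow _ _ hy0
        have h4 : (l ^ 2 - 1) * 1 ≤ (l ^ 2 - 1) * y := Nat.mul_le_mul_left _ hy0
        have := Nat.one_le_pow 2 l hl.one_le
        omega
      rw [sq] at h1
      exact Nat.le_of_mul_le_mul_left h1 hl.pos
  | mul a b iha ihb =>
    intro hab hpab
    obtain ⟨s, hs, hs1, hs2⟩ := iha (Nat.pos_of_ne_zero (by rintro rfl; simp at hab))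
      (fun hd => hpab (dvd_mul_of_dvd_left hd b))
    obtain ⟨t, ht, ht1, ht2⟩ := ihb (Nat.pos_of_ne_zero (by rintro rfl; simp at hab))
      (fun hd => hpab (dvd_mul_of_dvd_right hd a))
    exact ⟨s * t, H.mul _ _ hs ht, hs1.mul ht1, Nat.mul_le_mul hs2 ht2⟩

/-- `u ↦ (u ^ p - u) / p` on the principal units is onto. -/
theorem lift_units {p : ℕ} (hp : p.Prime) (a : ℤ) (k : ℕ) :
    ∃ w : ℤ, ((p : ℤ) ^ (k + 1)) ∣ (1 + p * w) ^ p - (1 + p * w) - p * a := by
  induction k with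
  | zero =>
    refine ⟨0, ?_⟩
    rw [mul_zero, add_zero, one_pow, sub_self, zero_sub, zero_add, pow_one]
    exact (Dvd.intro a rfl).neg_right
  | succ k ih =>
    obtain ⟨w, e, he⟩ := ih
    refine ⟨w + p ^ k * e, ?_⟩
    obtain ⟨r, hr⟩ := exists_add_pow_prime_eq hp (1 + (p : ℤ) * w) ((p : ℤ) ^ (k + 1) * e)
    have e1 : 1 + (p : ℤ) * (w + p ^ k * e) = (1 + p * w) + p ^ (k + 1) * e := by ring
    rw [e1, hr]
    have h2 : ((p : ℤ) ^ (k + 1 + 1)) ∣ ((p : ℤ) ^ (k + 1) * e) ^ p := by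
      rw [mul_pow, ← pow_mul]
      refine Dvd.dvd.mul_right (pow_dvd_pow _ ?_) _
      have := hp.two_le
      nlinarith
    have h3 : ((p : ℤ) ^ (k + 1 + 1)) ∣
        (p : ℤ) * (1 + p * w) * ((p : ℤ) ^ (k + 1) * e) * r := by
      refine ⟨(1 + p * w) * e * r, by ring⟩
    have h4 : (1 + (p : ℤ) * w) ^ p + ((p : ℤ) ^ (k + 1) * e) ^ p +
        (p : ℤ) * (1 + p * w) * ((p : ℤ) ^ (k + 1) * e) * r -
        ((1 + p * w) + p ^ (k + 1) * e) - p * a =
        ((p : ℤ) ^ (k + 1) * e) ^ p + (p : ℤ) * (1 + p * w) * ((p : ℤ) ^ (k + 1) * e) * r := by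
      have : (1 + (p : ℤ) * w) ^ p = (p : ℤ) ^ (k + 1) * e + (1 + p * w) + p * a := by
        linear_combination he
      rw [this]
      ring
    rw [h4]
    exact dvd_add h2 h3

/-- All residue classes modulo `p ^ k`. -/
theorem CloP.classes {p : ℕ} {U : ℕ → Prop} (H : CloP p U) (hp : p.Prime) (hne : ∃ x, U x)
    (k a N : ℕ) : ∃ t, U t ∧ t ≡ a [MOD p ^ k] ∧ N < t := by
  obtain ⟨w, hw⟩ := lift_units hp a k
  have hm : (0 : ℤ) < (p : ℤ) ^ (k + 1) := by
    have := hp.pos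
    positivity
  -- a natural number in the class of `1 + p w`
  obtain ⟨n, hn⟩ : ∃ n : ℕ, (n : ℤ) ≡ 1 + p * w [ZMOD (p : ℤ) ^ (k + 1)] := by
    refine ⟨((1 + p * w) % (p : ℤ) ^ (k + 1)).toNat, ?_⟩
    rw [Int.toNat_of_nonneg (Int.emod_nonneg _ hm.ne')]
    exact Int.mod_modEq _ _
  have hnp : (n : ℤ) ≡ 1 [ZMOD p] := by
    have h1 : (n : ℤ) ≡ 1 + p * w [ZMOD p] := hn.of_dvd (dvd_pow_self _ (by omega))
    refine h1.trans ?_
    have : (1 : ℤ) + p * w ≡ 1 + 0 [ZMOD p] :=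
      Int.ModEq.add_left _ ((Int.modEq_zero_iff_dvd).2 (Dvd.intro _ rfl))
    simpa using this
  have hnp' : n ≡ 1 [MOD p] := by
    apply Int.natCast_modEq_iff.1
    simpa using hnp
  have e1 : n + p ^ (k + 1) * (N + 3) ≡ n [MOD p ^ (k + 1)] := by
    rw [Nat.ModEq]; simp
  have e2 : n + p ^ (k + 1) * (N + 3) ≡ 1 [MOD p] :=
    (e1.of_dvd (dvd_pow_self _ (by omega))).trans hnp'
  have hge : N + 3 ≤ n + p ^ (k + 1) * (N + 3) := by
    have : 1 ≤ p ^ (k + 1) := Nat.one_le_pow _ _ hp.pos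
    nlinarith
  obtain ⟨u, hu, hu1, hu2⟩ := exists_val_p H hne hp (k + 1) (n + p ^ (k + 1) * (N + 3))
    (by omega) (not_dvd_of_modEq_one hp e2 dvd_rfl)
  obtain ⟨t, ht, e⟩ := H.hp u (by omega) hu
  have hle := le_step hp (by omega) e
  refine ⟨t, ht, ?_, by omega⟩
  have hu3 : (u : ℤ) ≡ 1 + p * w [ZMOD (p : ℤ) ^ (k + 1)] := by
    refine Int.ModEq.trans ?_ hn
    have := Int.natCast_modEq_iff.2 (hu1.trans e1)
    simpa using this
  have h5 : (p : ℤ) * t + u = (u : ℤ) ^ p := by exact_mod_cast e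
  have h6 : (p : ℤ) * t ≡ p * a [ZMOD (p : ℤ) * (p : ℤ) ^ k] := by
    have h7 : (u : ℤ) ^ p - u ≡ (1 + p * w) ^ p - (1 + p * w) [ZMOD (p : ℤ) ^ (k + 1)] :=
      Int.ModEq.sub (hu3.pow p) hu3
    have h8 : (1 + (p : ℤ) * w) ^ p - (1 + p * w) ≡ p * a [ZMOD (p : ℤ) ^ (k + 1)] := by
      refine Int.ModEq.symm ?_
      rw [Int.modEq_iff_dvd]
      exact hw
    have h9 : (p : ℤ) * t = (u : ℤ) ^ p - u := by linarith
    rw [h9, ← pow_succ']
    exact h7.trans h8
  have h8 : (t : ℤ) ≡ a [ZMOD (p : ℤ) ^ k] := by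
    rw [Int.modEq_iff_dvd] at h6 ⊢
    rw [← mul_sub] at h6
    exact Int.dvd_of_mul_dvd_mul_left (by exact_mod_cast hp.ne_zero) h6
  apply Int.natCast_modEq_iff.1
  simpa using h8

end Pool.Agent.Helper3K.NT
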