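import Pool.Agent.Helper3K.Frm
import Pool.Agent.Helper3K.Bridge
import Pool.Agent.Helper3K.Dfc
import Pool.Agent.K3h3.KB.Wr

/-!
# Blocks of wreath products with cyclic groups of prime order: mixed products
-/

set_option autoImplicit false
set_option linter.unusedSectionVars false
set_option linter.style.haveILetI false

open scoped BigOperators Classical

noncomputable section

namespace Pool.Agent.Helper3K

open Pool.Agent.H254R3.IN (IsIrr IsCl Om omega blockCoeff RF red rep mem_Irr IsBlock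
  blockCoeff_cl blockCoeff_mem Om_blockCoeff eq_of_Om red_Om red_mul red_one red_zero)
open Pool.Agent.K3h3.KB (bt btS bt_irr bt_inj btS_irr btS_block blockCoeff_btS sInd sIndS
  sIndS_block sIndS_irr blockCoeff_sIndS blk blk_block mem_blk_self fs mem_fs sInd_one)
open Pool.Agent.N85.WM (Wr Base shiftHom wrF wrF_inZ IsIdem)
open Pool.Agent.N20.KB (aB)
open Pool.Agent.Q288.MB (block_disjoint gal gal_irr gal_block)
open Pool.Agent.Q90.WR (blkAlt)

section ph

variable {O : ValuationSubring ℂ}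

theorem ph_prod {ι : Type} (s : Finset ι) (f : ι → ℂ) (h : ∀ i ∈ s, f i ∈ O) :
    ph O (∏ i ∈ s, f i) = ∏ i ∈ s, ph O (f i) := by
  induction s using Finset.induction_on with
  | empty => rw [Finset.prod_empty, Finset.prod_empty, ph_one]
  | insert a s ha ih =>
    rw [Finset.prod_insert ha, Finset.prod_insert ha, ph_mul (h a (Finset.mem_insert_self a s))
      (prod_mem fun i hi => h i (Finset.mem_insert_of_mem hi)),
      ih fun i hi => h i (Finset.mem_insert_of_mem hi)]

end ph

section mix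

variable {q : ℕ} [hq : Fact q.Prime] {G : Type} [Group G] [Fintype G] {O : ValuationSubring ℂ}
  {b : ZMod q → Set (G → ℂ)}

theorem btS_inj {b c : ZMod q → Set (G → ℂ)} (hb : ∀ i, IsBlock O (b i))
    (hc : ∀ i, IsBlock O (c i)) (h : btS b = btS c) : b = c := by
  funext i
  by_contra hne
  choose χ hχ using fun i => (hb i).nonempty
  have h1 : bt χ ∈ btS b := ⟨χ, hχ, rfl⟩
  rw [h] at h1
  obtain ⟨ψ, h2, h3⟩ := h1
  have h4 := bt_inj (fun i => (hb i).irr _ (hχ i)) (fun i => (hc i).irr _ (h2 i)) h3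
  refine Set.disjoint_left.mp (block_disjoint (hb i) (hc i) hne) (hχ i) ?_
  rw [h4]
  exact h2 i

/-- the pointwise shift of a product of characters -/
theorem bt_shift (ψ : ZMod q → G → ℂ) (t : Multiplicative (ZMod q)) :
    (fun n => bt ψ (shiftHom q G t n)) = bt (fun i => ψ (i + t.toAdd)) := by
  funext g
  unfold bt
  refine Fintype.prod_equiv (Equiv.subRight t.toAdd) _ _ fun i => ?_
  change ψ i (g (i - t.toAdd)) = ψ (i - t.toAdd + t.toAdd) (g (i - t.toAdd))
  rw [sub_add_cancel]

theorem free_mx (hb : ∀ i, IsBlock O (b i)) (hinj : Function.Injective b) :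
    ∀ t : Multiplicative (ZMod q), t ≠ 1 → ∀ θ ∈ btS b,
      (fun n => θ (shiftHom q G t n)) ∉ btS b := by
  rintro t ht _ ⟨ψ, h, rfl⟩
  rw [bt_shift]
  rintro ⟨φ, h', e⟩
  have e1 := bt_inj (fun i => (hb _).irr _ (h _)) (fun i => (hb i).irr _ (h' i)) e
  have h1 : b (0 + t.toAdd) = b 0 := by
    by_contra hne
    refine Set.disjoint_left.mp (block_disjoint (hb _) (hb 0) hne) (h (0 + t.toAdd)) ?_
    have e2 : ψ (0 + t.toAdd) = φ 0 := congrFun e1 0
    rw [e2]
    exact h' 0
  have h2 := hinj h1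
  rw [zero_add] at h2
  exact ht h2

/-- the induced characters of the wreath product -/
def mxS (b : ZMod q → Set (G → ℂ)) : Set (Wr q G → ℂ) := sIndS (shiftHom q G) (btS b)

theorem mxS_block (hb : ∀ i, IsBlock O (b i)) (hinj : Function.Injective b) :
    IsBlock O (mxS b) := sIndS_block (btS_block hb) (free_mx hb hinj)

theorem coeff_mxS (hb : ∀ i, IsBlock O (b i)) (hinj : Function.Injective b) (x : Wr q G) :
    blockCoeff (mxS b) x =
      if x.right = 1 then ∑ t : ZMod q, ∏ i, blockCoeff (b i) (x.left (i - t)) else 0 := by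
  unfold mxS
  rw [blockCoeff_sIndS (btS_block hb).irr (free_mx hb hinj)]
  unfold sInd
  split_ifs with h
  · refine Fintype.sum_equiv Multiplicative.toAdd _ _ fun t => ?_
    rw [blockCoeff_btS fun i => (hb i).irr]
    rfl
  · rfl

theorem pf_mxS (hb : ∀ i, IsBlock O (b i)) (hinj : Function.Injective b) :
    pf O (blockCoeff (mxS b)) = mxF fun i => pf O (blockCoeff (b i)) := by
  funext x
  unfold pf mxF
  rw [coeff_mxS hb hinj]
  split_ifs with h
  · rw [ph_sum _ _ fun t _ => prod_mem fun i _ => blockCoeff_mem (hb i) _]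
    exact Finset.sum_congr rfl fun t _ => ph_prod _ _ fun i _ => blockCoeff_mem (hb i) _
  · exact ph_zero

theorem pf_btS (hb : ∀ i, IsBlock O (b i)) :
    pf O (blockCoeff (btS b)) = fun h => ∏ i, pf O (blockCoeff (b i)) (h i) := by
  funext h
  unfold pf
  rw [blockCoeff_btS fun i => (hb i).irr]
  exact ph_prod _ _ fun i _ => blockCoeff_mem (hb i) _

theorem pf_btS_shift (hb : ∀ i, IsBlock O (b i)) (t : ZMod q) :
    (fun h : ZMod q → G => ∏ i, pf O (blockCoeff (b i)) (h (i - t))) =
      pf O (blockCoeff (btS fun i => b (i + t))) := by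
  rw [pf_btS fun i => hb _]
  funext h
  refine Fintype.prod_equiv (Equiv.subRight t) _ _ fun i => ?_
  have e : (Equiv.subRight t) i = i - t := rfl
  rw [e, sub_add_cancel]

variable {p : ℕ} [hp : Fact p.Prime]

/-- **the alternating sum of the mixed block** -/
theorem blkAlt_mx (hpO : (p : ℂ) ∈ O.nonunits) (hb : ∀ i, IsBlock O (b i))
    (hinj : Function.Injective b) : blkAlt p O (mxS b) = ∏ i, blkAlt p O (b i) := by
  haveI := charP_FF (O := O) hpO
  haveI : Fact (1 < q) := ⟨hq.out.one_lt⟩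
  rw [← aB_block hpO (mxS_block hb hinj), pf_mxS hb hinj,
    Finset.prod_congr rfl fun i _ => (aB_block hpO (hb i)).symm]
  refine aB_mx (p := p) (rd O) (fun i => idem_pf (hb i)) ?_ ?_ ?_
  · intro lam hl
    by_contra hcon
    push Not at hcon
    exact zero_ne_one (hinj (blk_unique (hb 0) (hb 1) hl hcon.1 hcon.2))
  · intro t
    rw [pf_btS_shift hb t]
    exact idem_pf (btS_block fun i => hb _)
  · intro lam hl s t hst
    rw [pf_btS_shift hb s, pf_btS_shift hb t]
    by_contra hcon
    push Not at hcon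
    have h1 := blk_unique (btS_block fun i => hb _) (btS_block fun i => hb _) hl hcon.1 hcon.2
    have h2 := btS_inj (fun i => hb _) (fun i => hb _) h1
    have h3 := hinj (congrFun h2 0)
    rw [zero_add, zero_add] at h3
    exact hst h3

/-- the degrees -/
theorem pos_mx (hb : ∀ i, IsBlock O (b i))
    (hz : ∀ i, ∀ ψ ∈ b i, (Nat.card G : ℂ) / ψ 1 ∈ O.nonunits) :
    ∀ χ ∈ mxS b, (Nat.card (Wr q G) : ℂ) / χ 1 ∈ O.nonunits := by
  rintro χ ⟨_, ⟨ψ, hψ, rfl⟩, rfl⟩
  rw [sInd_one, Pool.Agent.N85.WM.card_wr]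
  have h1 : (Nat.card (Multiplicative (ZMod q)) : ℂ) = q := by
    rw [Nat.card_congr Multiplicative.toAdd, Nat.card_zmod]
  have hq0 : (q : ℂ) ≠ 0 := by exact_mod_cast hq.out.ne_zero
  have h2 : ((Nat.card G ^ q * q : ℕ) : ℂ) / (Nat.card (Multiplicative (ZMod q)) * bt ψ 1) =
      ∏ i, ((Nat.card G : ℂ) / ψ i 1) := by
    rw [h1]
    unfold bt
    rw [Finset.prod_div_distrib, Finset.prod_const, Finset.card_univ, ZMod.card]
    have h3 : ∏ i, ψ i ((1 : ZMod q → G) i) = ∏ i, ψ i 1 := rfl
    rw [h3]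
    have h4 : ∏ i, ψ i 1 ≠ 0 := Finset.prod_ne_zero_iff.2 fun i _ => ((hb i).irr _ (hψ i)).one_ne
    push_cast
    field_simp
  rw [h2, ← Finset.mul_prod_erase Finset.univ _ (Finset.mem_univ (0 : ZMod q))]
  exact nu_mul (hz 0 _ (hψ 0)) (prod_mem fun i _ => O.nonunits_subset (hz i _ (hψ i)))

end mix

end Pool.Agent.Helper3K
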