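import Pool.Agent.Helper3K.Grow
import Pool.Agent.Helper3K.NT

/-!
# Residue classes of the alternating sums
-/

set_option autoImplicit false
set_option linter.unusedSectionVars false
set_option linter.style.haveILetI false

open scoped BigOperators Classical

noncomputable section

namespace Pool.Agent.Helper3K

open Pool.Agent.H254R3.IN (IsIrr IsBlock blockCoeff blockCoeff_mem mem_Irr)
open Pool.Agent.Helper884.IC (Irr)
open Pool.Agent.K3h3.KB (tenS tenS_block tenS_irr blockCoeff_tenS blk blk_block mem_blk_self bt)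
open Pool.Agent.N85.WM (Wr Base)
open Pool.Agent.Q90.WR (blkAlt AdmB irr_comp)
open Pool.Agent.N20.KB (aB aB_prod)
open Pool.Agent.Y63.AWC (cj mult)

section prod

variable {p : ℕ} [hp : Fact p.Prime] {G : Type} [Group G] [Fintype G] {H : Type} [Group H]
  [Fintype H] {O : ValuationSubring ℂ} {B : Set (G → ℂ)} {C : Set (H → ℂ)}

theorem pf_tenS' (hB : IsBlock O B) (hC : IsBlock O C) : pf O (blockCoeff (tenS B C)) =
    fun x => pf O (blockCoeff B) x.1 * pf O (blockCoeff C) x.2 := by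
  funext x
  unfold pf
  rw [blockCoeff_tenS hB.irr hC.irr, ph_mul (blockCoeff_mem hB _) (blockCoeff_mem hC _)]

/-- the alternating sum for a direct product -/
theorem blkAlt_prod (hpO : (p : ℂ) ∈ O.nonunits) (hB : IsBlock O B) (hC : IsBlock O C) :
    blkAlt p O (tenS B C) = blkAlt p O B * blkAlt p O C := by
  haveI := charP_FF (O := O) hpO
  rw [← aB_block hpO (tenS_block hB hC), ← aB_block hpO hB, ← aB_block hpO hC, pf_tenS' hB hC,
    aB_prod (rd O) (idem_pf hB) (idem_pf hC).cl]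

theorem adm_prod (hpO : (p : ℂ) ∈ O.nonunits) (h : AdmB p O G B) (h' : AdmB p O H C) :
    AdmB p O (G × H) (tenS B C) where
  fin := inferInstance
  core := by
    intro P hP hp'
    have h1 : P.map (MonoidHom.fst G H) = ⊥ :=
      h.core _ (hP.map _ Prod.fst_surjective) (hp'.map _)
    have h2 : P.map (MonoidHom.snd G H) = ⊥ :=
      h'.core _ (hP.map _ Prod.snd_surjective) (hp'.map _)
    rw [Subgroup.eq_bot_iff_forall]
    intro x hx
    have e1 : x.1 ∈ P.map (MonoidHom.fst G H) := ⟨x, hx, rfl⟩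
    have e2 : x.2 ∈ P.map (MonoidHom.snd G H) := ⟨x, hx, rfl⟩
    rw [h1, Subgroup.mem_bot] at e1
    rw [h2, Subgroup.mem_bot] at e2
    exact Prod.ext e1 e2
  block := tenS_block h.block h'.block
  defect := by
    refine defect_of_pos hpO (tenS_block h.block h'.block) ?_
    rintro _ ⟨θ, hθ, ψ, hψ, rfl⟩
    have hz := adm_pos hpO h
    have hz' := adm_pos hpO h'
    have e : (Nat.card (G × H) : ℂ) / (Pool.Agent.Q99.AS.ten θ ψ) 1 =
        (Nat.card G : ℂ) / θ 1 * ((Nat.card H : ℂ) / ψ 1) := by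
      have h1 := (h.block.irr _ hθ).one_ne
      have h2 := (h'.block.irr _ hψ).one_ne
      rw [Nat.card_prod]
      change _ / (θ 1 * ψ 1) = _
      push_cast
      field_simp
    rw [e]
    exact nu_mul (hz _ hθ) (O.nonunits_subset (hz' _ hψ))

end prod

section wrp

variable {p : ℕ} [hp : Fact p.Prime] {G : Type} [Group G] [Fintype G] {O : ValuationSubring ℂ}
  {B : Set (G → ℂ)}

/-- the block of `G ≀ C_p` above `B ⊗ ⋯ ⊗ B` -/
theorem exists_wr_p (hpO : (p : ℂ) ∈ O.nonunits) (h : AdmB p O G B) :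
    ∃ b : Set (Wr p G → ℂ), AdmB p O (Wr p G) b ∧
      (p : ℤ) * blkAlt p O b = blkAlt p O B ^ p - blkAlt p O B := by
  have hz := adm_pos hpO h
  obtain ⟨χ, h1, -⟩ : ∃ χ, χ ∈ wB p B ∧ True := by
    obtain ⟨ψ, hψ⟩ := h.block.nonempty
    have hirr := bt_symm_irr (q := p) (φ := fun _ => ψ) fun i => h.block.irr _ hψ
    have h3 := card_over_eq (Base p G) hp.out base_index hirr
    have h4 : ((Irr (Wr p G)).filter fun χ => mult (Base p G) χ
        (fun m => bt (fun _ : ZMod p => ψ) ((phB p G).symm m)) ≠ 0).card ≠ 0 := by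
      rw [h3]
      split_ifs
      · exact hp.out.ne_zero
      · exact one_ne_zero
    obtain ⟨χ, hχ⟩ := Finset.card_ne_zero.1 h4
    obtain ⟨h5, h6⟩ := Finset.mem_filter.1 hχ
    refine ⟨χ, ⟨mem_Irr.1 h5, ?_⟩, trivial⟩
    rw [Om_wrC h.block (mem_Irr.1 h5) hirr h6, if_pos]
    refine ⟨fun _ => ψ, fun _ => hψ, ?_⟩
    funext g
    rw [MulEquiv.symm_apply_apply]
  have hU := isU_wB (q := p) h.block
  set b := blk O χ with hbdef
  have hb : b ∈ bks O (wB p B) := (mem_bks hU).2 ⟨blk_block (hU.irr χ h1), hU.cl χ h1⟩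
  have hs : bks O (wB p B) = {b} := by
    ext b'
    rw [Finset.mem_singleton]
    constructor
    · intro hb'
      exact bks_subsingleton hpO h.block hz hb' hb
    · rintro rfl
      exact hb
  obtain ⟨h4, h5⟩ := (mem_bks hU).1 hb
  refine ⟨b, adm_wr hpO h h4 fun χ hχ => pos_wB h.block hz χ (h5 hχ), ?_⟩
  have h6 := sum_wB_p hpO h.block
  rwa [hs, Finset.sum_singleton] at h6

end wrp

section resid

variable {p : ℕ} [hp : Fact p.Prime] {O : ValuationSubring ℂ}

/-- the positive values of the alternating sums -/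
def PV (p : ℕ) (O : ValuationSubring ℂ) (X : (G : Type) → Group G → Prop) (n : ℕ) : Prop :=
  0 < n ∧ ∃ (G : Type) (i : Group G) (B : Set (G → ℂ)), X G i ∧ AdmB p O G B ∧
    (n : ℤ) = blkAlt p O B

theorem pv_clo (hpO : (p : ℂ) ∈ O.nonunits) {X : (G : Type) → Group G → Prop}
    (hX2 : ∀ (G : Type) [i : Group G] (H : Type) [j : Group H], X G i → X H j →
      X (G × H) inferInstance)
    (hX : ∀ (q : ℕ) [Fact q.Prime], q ≠ p → ∀ (G : Type) [i : Group G], X G i →
      X (Wr q G) inferInstance) : NT.Clo p (PV p O X) where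
  pos := fun n h => h.1
  mul := by
    rintro a b ⟨ha, G, i, B, h1, h2, h3⟩ ⟨hb, H, j, C, k1, k2, k3⟩
    haveI := h2.fin
    haveI : Fintype G := Fintype.ofFinite G
    haveI := k2.fin
    haveI : Fintype H := Fintype.ofFinite H
    refine ⟨Nat.mul_pos ha hb, G × H, inferInstance, _, hX2 G H h1 k1, adm_prod hpO h2 k2, ?_⟩
    rw [blkAlt_prod hpO h2.block k2.block, ← h3, ← k3, Nat.cast_mul]
  wr := by
    rintro l n hl hlp ⟨hn, G, i, B, h1, h2, h3⟩
    haveI := h2.fin
    haveI : Fintype G := Fintype.ofFinite G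
    haveI : Fact l.Prime := ⟨hl⟩
    obtain ⟨b, hb, e⟩ := exists_wr (q := l) hpO (Ne.symm hlp) h2
    rw [← h3] at e
    have hl0 : (0 : ℤ) < l := by exact_mod_cast hl.pos
    have hn0 : (0 : ℤ) < n := by exact_mod_cast hn
    have hl1 : (1 : ℤ) ≤ (l : ℤ) ^ 2 := one_le_pow₀ (by exact_mod_cast hl.one_le)
    have h4 : 0 < blkAlt p O b := by
      have h5 : 0 < (l : ℤ) * blkAlt p O b := by
        rw [e]
        have : 0 ≤ ((l : ℤ) ^ 2 - 1) * n := mul_nonneg (by linarith) hn0.le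
        have h6 : 0 < (n : ℤ) ^ l := pow_pos hn0 _
        linarith
      exact (mul_pos_iff_of_pos_left hl0).1 h5
    obtain ⟨t, ht⟩ := Int.eq_ofNat_of_zero_le h4.le
    refine ⟨t, ⟨by rw [ht] at h4; exact_mod_cast h4, Wr l G, inferInstance, b, hX l hlp G h1,
      hb, ht.symm⟩, ?_⟩
    rw [ht] at e
    have h5 : 1 ≤ l ^ 2 := Nat.one_le_pow _ _ hl.pos
    zify [h5]
    exact e

theorem pv_cloP (hpO : (p : ℂ) ∈ O.nonunits) {X : (G : Type) → Group G → Prop}
    (hX2 : ∀ (G : Type) [i : Group G] (H : Type) [j : Group H], X G i → X H j →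
      X (G × H) inferInstance)
    (hX : ∀ (q : ℕ) [Fact q.Prime], ∀ (G : Type) [i : Group G], X G i →
      X (Wr q G) inferInstance) : NT.CloP p (PV p O X) where
  toClo := pv_clo hpO hX2 fun q _ _ G _ h => hX q G h
  hp := by
    rintro n hn2 ⟨hn, G, i, B, h1, h2, h3⟩
    haveI := h2.fin
    haveI : Fintype G := Fintype.ofFinite G
    obtain ⟨b, hb, e⟩ := exists_wr_p hpO h2
    rw [← h3] at e
    have hl0 : (0 : ℤ) < p := by exact_mod_cast hp.out.pos
    have hn0 : (0 : ℤ) < n := by exact_mod_cast hn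
    have h4 : 0 < blkAlt p O b := by
      have h5 : 0 < (p : ℤ) * blkAlt p O b := by
        rw [e]
        have h6 : (n : ℤ) ^ 1 < (n : ℤ) ^ p :=
          pow_lt_pow_right₀ (by exact_mod_cast hn2) hp.out.one_lt
        rw [pow_one] at h6
        linarith
      exact (mul_pos_iff_of_pos_left hl0).1 h5
    obtain ⟨t, ht⟩ := Int.eq_ofNat_of_zero_le h4.le
    refine ⟨t, ⟨by rw [ht] at h4; exact_mod_cast h4, Wr p G, inferInstance, b, hX p G h1,
      hb, ht.symm⟩, ?_⟩
    rw [ht] at e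
    zify
    have e' : (p : ℤ) * t = (n : ℤ) ^ p - n := e
    rw [e']
    ring

theorem pv_ne (hpO : (p : ℂ) ∈ O.nonunits) {X : (G : Type) → Group G → Prop}
    (hX2 : ∀ (G : Type) [i : Group G] (H : Type) [j : Group H], X G i → X H j →
      X (G × H) inferInstance) {G : Type} [i : Group G] {B : Set (G → ℂ)} (h1 : X G i)
    (h2 : AdmB p O G B) (h3 : blkAlt p O B ≠ 0) : ∃ n, PV p O X n := by
  haveI := h2.fin
  haveI : Fintype G := Fintype.ofFinite G
  have h4 : 0 < blkAlt p O B ^ 2 := by positivity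
  obtain ⟨t, ht⟩ := Int.eq_ofNat_of_zero_le h4.le
  refine ⟨t, by rw [ht] at h4; exact_mod_cast h4, G × G, inferInstance, _, hX2 G G h1 h1,
    adm_prod hpO h2 h2, ?_⟩
  rw [blkAlt_prod hpO h2.block h2.block, ← sq, ht]

theorem resid (hpO : (p : ℂ) ∈ O.nonunits) {X : (G : Type) → Group G → Prop}
    (hX2 : ∀ (G : Type) [i : Group G] (H : Type) [j : Group H], X G i → X H j →
      X (G × H) inferInstance)
    (hX : ∀ (q : ℕ) [Fact q.Prime], q ≠ p → ∀ (G : Type) [i : Group G], X G i →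
      X (Wr q G) inferInstance)
    (hne : ∃ (G : Type) (i : Group G) (B : Set (G → ℂ)), X G i ∧ AdmB p O G B ∧
      blkAlt p O B ≠ 0) (m : ℕ) (hm : m.Coprime p) (hm0 : 0 < m) (a N : ℤ) :
    ∃ (G : Type) (i : Group G) (B : Set (G → ℂ)), X G i ∧ AdmB p O G B ∧ N < blkAlt p O B ∧
      blkAlt p O B ≡ a [ZMOD m] := by
  obtain ⟨G, i, B, h1, h2, h3⟩ := hne
  have hm' : (0 : ℤ) < m := by exact_mod_cast hm0
  obtain ⟨t, ⟨-, H, j, C, k1, k2, k3⟩, h5, h6⟩ := (pv_clo hpO hX2 hX).classes hp.out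
    (pv_ne hpO hX2 h1 h2 h3) m hm0 hm (a % m).toNat N.toNat
  refine ⟨H, j, C, k1, k2, ?_, ?_⟩
  · rw [← k3]
    have := Int.self_le_toNat N
    have : ((N.toNat : ℕ) : ℤ) < t := by exact_mod_cast h6
    omega
  · rw [← k3]
    have h7 := Int.natCast_modEq_iff.2 h5
    rw [Int.toNat_of_nonneg (Int.emod_nonneg _ hm'.ne')] at h7
    exact h7.trans (Int.mod_modEq _ _)

theorem resid_p (hpO : (p : ℂ) ∈ O.nonunits) {X : (G : Type) → Group G → Prop}
    (hX2 : ∀ (G : Type) [i : Group G] (H : Type) [j : Group H], X G i → X H j →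
      X (G × H) inferInstance)
    (hX : ∀ (q : ℕ) [Fact q.Prime], ∀ (G : Type) [i : Group G], X G i →
      X (Wr q G) inferInstance)
    (hne : ∃ (G : Type) (i : Group G) (B : Set (G → ℂ)), X G i ∧ AdmB p O G B ∧
      blkAlt p O B ≠ 0) (k : ℕ) (a N : ℤ) :
    ∃ (G : Type) (i : Group G) (B : Set (G → ℂ)), X G i ∧ AdmB p O G B ∧ N < blkAlt p O B ∧
      blkAlt p O B ≡ a [ZMOD (p : ℤ) ^ k] := by
  obtain ⟨G, i, B, h1, h2, h3⟩ := hne
  have hm' : (0 : ℤ) < (p : ℤ) ^ k := by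
    have := hp.out.pos
    positivity
  obtain ⟨t, ⟨-, H, j, C, k1, k2, k3⟩, h5, h6⟩ := (pv_cloP hpO hX2 hX).classes hp.out
    (pv_ne hpO hX2 h1 h2 h3) k (a % (p : ℤ) ^ k).toNat N.toNat
  refine ⟨H, j, C, k1, k2, ?_, ?_⟩
  · rw [← k3]
    have := Int.self_le_toNat N
    have : ((N.toNat : ℕ) : ℤ) < t := by exact_mod_cast h6
    omega
  · rw [← k3]
    have h7 := Int.natCast_modEq_iff.2 h5
    rw [Int.toNat_of_nonneg (Int.emod_nonneg _ hm'.ne'), Nat.cast_pow] at h7
    exact h7.trans (Int.mod_modEq _ _)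

end resid

end Pool.Agent.Helper3K
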