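import Pool.Agent.Helper3K.Olv

/-!
# Blocks of wreath products with cyclic groups of prime order: tensor powers
-/

set_option autoImplicit false
set_option linter.unusedSectionVars false
set_option linter.style.haveILetI false

open scoped BigOperators Classical

noncomputable section

namespace Pool.Agent.Helper3K

open Pool.Agent.H254R3.IN (IsIrr IsCl Om omega blockCoeff RF red rep mem_Irr IsBlock
  blockCoeff_cl blockCoeff_mem Om_blockCoeff eq_of_Om red_Om red_mul red_one red_zero)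
open Pool.Agent.K3h3.KB (bt btS bt_irr bt_inj btS_irr btS_block blockCoeff_btS sInd sIndS
  sIndS_block sIndS_irr blockCoeff_sIndS blk blk_block mem_blk_self fs mem_fs sInd_one
  exists_mult Om_res ext0 red_Om_eq)
open Pool.Agent.N85.WM (Wr Base shiftHom wrF wrF_inZ IsIdem)
open Pool.Agent.N20.KB (aB)
open Pool.Agent.Q288.MB (block_disjoint gal gal_irr gal_block)
open Pool.Agent.Q90.WR (blkAlt irr_comp)
open Pool.Agent.Y63.AWC (cj mult)

variable {q : ℕ} [hq : Fact q.Prime] {G : Type} [Group G] [Fintype G] {O : ValuationSubring ℂ}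
  {B : Set (G → ℂ)}

/-- the idempotent `e ⊗ ⋯ ⊗ e` -/
def wrC (q : ℕ) [Fact q.Prime] {G : Type} [Group G] (B : Set (G → ℂ)) (x : Wr q G) : ℂ :=
  if x.right = 1 then ∏ i, blockCoeff B (x.left i) else 0

theorem wrC_cl (hB : ∀ χ ∈ B, IsIrr χ) : IsCl (wrC q B) := by
  intro g y
  have hcl := blockCoeff_cl hB
  unfold wrC
  by_cases hg : g.right = 1
  · have hg0 : sft g = 0 := hg
    have h1 : (y * g * y⁻¹).right = 1 := by
      have := conjS y g
      rw [hg0] at this
      exact this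
    rw [if_pos hg, if_pos h1]
    have h2 : ∀ i, blockCoeff B ((y * g * y⁻¹).left i) = blockCoeff B (g.left (i - sft y)) := by
      intro i
      rw [conjL y g hg0]
      exact hcl _ _
    rw [Finset.prod_congr rfl fun i _ => h2 i]
    exact Fintype.prod_equiv (Equiv.subRight (sft y)) _ _ fun i => rfl
  · have h1 : (y * g * y⁻¹).right ≠ 1 := by
      intro h
      apply hg
      have := conjS y g
      have h2 : sft (y * g * y⁻¹) = 0 := h
      rw [h2] at this
      exact this.symm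
    rw [if_neg hg, if_neg h1]

theorem wrC_mem (hB : IsBlock O B) (x : Wr q G) : wrC q B x ∈ O := by
  unfold wrC
  split_ifs
  · exact prod_mem fun i _ => blockCoeff_mem hB _
  · exact O.zero_mem

theorem pf_wrC (hB : IsBlock O B) : pf O (wrC q B) = wrF q (pf O (blockCoeff B)) := by
  funext x
  unfold pf wrC wrF
  split_ifs with h
  · exact ph_prod _ _ fun i _ => blockCoeff_mem hB _
  · exact ph_zero

/-- the base group -/
def phB (q : ℕ) [Fact q.Prime] (G : Type) [Group G] : (ZMod q → G) ≃* Base q G :=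
  MonoidHom.ofInjective (f := (SemidirectProduct.inl : (ZMod q → G) →* Wr q G))
    SemidirectProduct.inl_injective

theorem phB_coe (h : ZMod q → G) : ((phB q G h : Base q G) : Wr q G) = bas h := rfl

/-- the values of the central characters -/
theorem Om_wrC (hB : IsBlock O B) {χ : Wr q G → ℂ} (hχ : IsIrr χ) {θ : Base q G → ℂ}
    (hθ : IsIrr θ) (hm : mult (Base q G) χ θ ≠ 0) :
    Om (wrC q B) χ = if (fun h => θ (phB q G h)) ∈ btS (fun _ : ZMod q => B) then 1 else 0 := by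
  have hcl := wrC_cl (q := q) hB.irr
  have h1 := Om_res (Base q G) hχ hθ hm (f := fun m : Base q G => wrC q B m) (by
    intro x
    funext m
    change wrC q B ((MulAut.conjNormal x m : Base q G) : Wr q G) = wrC q B m
    rw [MulAut.conjNormal_apply]
    exact hcl _ _)
  have h2 : ext0 (Base q G) (fun m : Base q G => wrC q B m) = wrC q B := by
    funext g
    unfold ext0
    by_cases hg : g ∈ Base q G
    · rw [dif_pos hg]
    · rw [dif_neg hg]
      unfold wrC
      rw [if_neg]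
      intro h
      exact hg (mem_base'.2 h)
  rw [h2] at h1
  rw [← h1]
  have hirr : IsIrr (fun h => θ (phB q G h)) := irr_comp (phB q G) hθ
  rw [← Om_blockCoeff (btS_irr fun _ => hB.irr) hirr]
  unfold Om
  have h3 : (fun h => θ (phB q G h)) 1 = θ 1 := by
    change θ (phB q G 1) = θ 1
    rw [map_one]
  rw [h3]
  congr 1
  refine (Fintype.sum_equiv (phB q G).toEquiv _ _ fun h => ?_).symm
  rw [blockCoeff_btS fun _ => hB.irr]
  change _ = wrC q B ((phB q G h : Base q G) : Wr q G) * θ (phB q G h)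
  rw [phB_coe]
  have e : wrC q B (bas h) = ∏ i, blockCoeff B (h i) := if_pos rfl
  rw [e]

theorem Om_wrC_cases (hB : IsBlock O B) {χ : Wr q G → ℂ} (hχ : IsIrr χ) :
    Om (wrC q B) χ = 0 ∨ Om (wrC q B) χ = 1 := by
  obtain ⟨θ, hθ, hm⟩ := exists_mult (Base q G) hχ
  rw [Om_wrC hB hχ hθ hm]
  split_ifs
  · exact Or.inr rfl
  · exact Or.inl rfl

/-- the characters above the block of the base group -/
def wB (q : ℕ) [Fact q.Prime] {G : Type} [Group G] [Fintype G] (B : Set (G → ℂ)) :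
    Set (Wr q G → ℂ) := {χ | IsIrr χ ∧ Om (wrC q B) χ = 1}

theorem isU_wB (hB : IsBlock O B) : IsU O (wB q B) := by
  refine ⟨fun χ h => h.1, ?_⟩
  rintro χ ⟨hχ, h1⟩ ψ hψ
  refine ⟨hψ.1, ?_⟩
  have h2 := red_Om_eq (blk_block (O := O) hχ) (mem_blk_self hχ) hψ (wrC_cl (q := q) hB.irr)
    (wrC_mem hB)
  rw [h1, red_one] at h2
  rcases Om_wrC_cases (q := q) hB hψ.1 with h3 | h3
  · rw [h3, red_zero] at h2
    exact absurd h2.symm zero_ne_one
  · exact h3

theorem coeff_wB (hB : IsBlock O B) : blockCoeff (wB q B) = wrC q B := by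
  have hU := isU_wB (q := q) hB
  refine eq_of_Om (blockCoeff_cl hU.irr) (wrC_cl hB.irr) ?_
  intro χ hχ
  rw [Om_blockCoeff hU.irr hχ]
  rcases Om_wrC_cases (q := q) hB hχ with h3 | h3
  · rw [h3, if_neg]
    rintro ⟨-, h4⟩
    rw [h3] at h4
    exact zero_ne_one h4
  · rw [h3, if_pos ⟨hχ, h3⟩]

variable {p : ℕ} [hp : Fact p.Prime]

theorem sum_bks (hpO : (p : ℂ) ∈ O.nonunits) (hB : IsBlock O B) :
    haveI := charP_FF (O := O) hpO
    ∑ b ∈ bks O (wB q B), blkAlt p O b = aB (rd O) p (Wr q G) (wrF q (pf O (blockCoeff B))) 1 := by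
  haveI := charP_FF (O := O) hpO
  rw [← aB_U hpO (isU_wB hB), coeff_wB hB, pf_wrC hB]

/-- **the alternating sum of the blocks above `B ⊗ ⋯ ⊗ B`, `q ≠ p`** -/
theorem sum_wB_ne (hpO : (p : ℂ) ∈ O.nonunits) (hpq : p ≠ q) (hB : IsBlock O B) :
    (q : ℤ) * ∑ b ∈ bks O (wB q B), blkAlt p O b =
      blkAlt p O B ^ q + ((q : ℤ) ^ 2 - 1) * blkAlt p O B := by
  haveI := charP_FF (O := O) hpO
  rw [sum_bks hpO hB, ← aB_block hpO hB]
  exact aB_wr_ne (rd O) hpq (idem_pf hB)

/-- **the alternating sum of the blocks above `B ⊗ ⋯ ⊗ B`, `q = p`** -/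
theorem sum_wB_p (hpO : (p : ℂ) ∈ O.nonunits) (hB : IsBlock O B) :
    (p : ℤ) * ∑ b ∈ bks O (wB p B), blkAlt p O b = blkAlt p O B ^ p - blkAlt p O B := by
  haveI := charP_FF (O := O) hpO
  rw [sum_bks hpO hB, ← aB_block hpO hB]
  exact aB_wr_p (rd O) (idem_pf hB)

/-- the degrees -/
theorem pos_wB (hB : IsBlock O B) (hz : ∀ ψ ∈ B, (Nat.card G : ℂ) / ψ 1 ∈ O.nonunits) :
    ∀ χ ∈ wB q B, (Nat.card (Wr q G) : ℂ) / χ 1 ∈ O.nonunits := by
  rintro χ ⟨hχ, h1⟩
  obtain ⟨θ, hθ, hm⟩ := exists_mult (Base q G) hχ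
  rw [Om_wrC hB hχ hθ hm] at h1
  have h2 : (fun h => θ (phB q G h)) ∈ btS (fun _ : ZMod q => B) := by
    by_contra h3
    rw [if_neg h3] at h1
    exact zero_ne_one h1
  obtain ⟨ψ, hψ, h3⟩ := h2
  have hi : (Base q G).index = q := by
    rw [Subgroup.index_eq_card, Pool.Agent.N85.WM.card_quot]
  have h4 : θ 1 = ∏ i, ψ i 1 := by
    have h5 := congrFun h3 1
    rw [map_one] at h5
    exact h5
  have hq0 : (q : ℂ) ≠ 0 := by exact_mod_cast hq.out.ne_zero
  have h6 : ∏ i, ψ i 1 ≠ 0 := Finset.prod_ne_zero_iff.2 fun i _ => (hB.irr _ (hψ i)).one_ne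
  have hN : ∏ i, ((Nat.card G : ℂ) / ψ i 1) ∈ O.nonunits := by
    rw [← Finset.mul_prod_erase Finset.univ _ (Finset.mem_univ (0 : ZMod q))]
    exact nu_mul (hz _ (hψ 0)) (prod_mem fun i _ => O.nonunits_subset (hz _ (hψ i)))
  have h7 : ∏ i, ((Nat.card G : ℂ) / ψ i 1) = (Nat.card G : ℂ) ^ q / ∏ i, ψ i 1 := by
    rw [Finset.prod_div_distrib, Finset.prod_const, Finset.card_univ, ZMod.card]
  rcases deg_prime (Base q G) hq.out hi hχ hθ hm with h5 | h5
  · have h8 : (Nat.card (Wr q G) : ℂ) / χ 1 = (∏ i, ((Nat.card G : ℂ) / ψ i 1)) * (q : ℂ) := by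
      rw [h5, h4, h7, Pool.Agent.N85.WM.card_wr]
      push_cast
      field_simp
    rw [h8]
    exact nu_mul hN (Pool.Agent.H254R3.IN.natCast_mem' q)
  · have h8 : (Nat.card (Wr q G) : ℂ) / χ 1 = ∏ i, ((Nat.card G : ℂ) / ψ i 1) := by
      rw [h5, h4, h7, Pool.Agent.N85.WM.card_wr]
      push_cast
      field_simp
    rw [h8]
    exact hN

end Pool.Agent.Helper3K
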