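import Pool.Agent.Helper3K.Func
import Pool.Agent.Helper3K.Cv
import Pool.Agent.N20.KB.Mult

/-!
# Invariant characters of powers in wreath products
-/

set_option autoImplicit false
set_option linter.unusedSectionVars false

open scoped BigOperators Classical

noncomputable section

namespace Pool.Agent.Helper3K

open Pool.Agent.Y63.KR
open Pool.Agent.Y63.NV
open Pool.Agent.N85.WM (Wr Base shiftHom)
open Pool.Agent.Y63.AWC (IsIrreducibleCharacter cj)
open Pool.Agent.H254R3.IN (IsIrr)
open Pool.Agent.N20.KB (irr_comp' knum_iso AA)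
open Pool.Agent.N19.RB (tens tens_irr tens_inj exists_tens)

section transport

variable {X : Type} [Group X] [Finite X] (M : Subgroup X) [hM : M.Normal]
  {F : Type} [Field F] (red : integralClosure ℤ ℂ →+* F) {Y : Type} [Group Y] [Finite Y]

/-- transport of the number of invariant characters -/
theorem inum_iso (φ : Y ≃* M) {z : X → F} (hz : InZ M z) (c : F) :
    Inum M red z c = Nat.card {χ : Y → ℂ // IsIrreducibleCharacter χ ∧
      centralValue red χ (fun y => z (φ y : M)) = c ∧
      ∀ x : X, (fun y => χ (φ.symm (MulAut.conjNormal x (φ y)))) = χ} := by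
  have hcl : IsClassFun (fun m : M => z m) := fun g m => hz.conj g m
  unfold Inum
  refine Nat.card_congr
    { toFun := fun θ => ⟨fun y => θ.1 (φ y), irr_comp' φ θ.2.1, ?_, fun x => ?_⟩
      invFun := fun χ => ⟨fun m => χ.1 (φ.symm m), irr_comp' φ.symm χ.2.1, ?_, fun x => ?_⟩
      left_inv := fun θ => Subtype.ext (by funext x; simp)
      right_inv := fun χ => Subtype.ext (by funext x; simp) }
  · rw [Pool.Agent.Y286.NV.centralValue_comp red φ θ.1
      (Pool.Agent.Y286.NV.irr_class θ.2.1) _ hcl]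
    exact θ.2.2.1
  · funext y
    have h := congrFun (θ.2.2.2 x) (φ y)
    simp only [MulEquiv.apply_symm_apply]
    exact h
  · have h1 := Pool.Agent.Y286.NV.centralValue_comp red φ (fun m => χ.1 (φ.symm m))
      (Pool.Agent.Y286.NV.irr_class (irr_comp' φ.symm χ.2.1)) (fun m : M => z m) hcl
    have h2 : (fun y => χ.1 (φ.symm (φ y))) = χ.1 := by
      funext y
      rw [φ.symm_apply_apply]
    rw [h2] at h1
    rw [← h1]
    exact χ.2.2.1
  · funext m
    have h := congrFun (χ.2.2.2 x) (φ.symm m)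
    simp only [MulEquiv.apply_symm_apply] at h
    exact h

end transport

section tws

variable {q : ℕ} [hq : Fact q.Prime] {G : Type} [Group G] [Finite G]
  {F : Type} [Field F] (red : integralClosure ℤ ℂ →+* F)

theorem mem_base' {x : Wr q G} : x ∈ Base q G ↔ sft x = 0 := Pool.Agent.N85.WM.mem_base q G

theorem card_eq_base (H : Subgroup (Wr q G)) (hH : ∃ x ∈ H, sft x ≠ 0) :
    ((Base q G).subgroupOf H).index = q := by
  have h1 : ((Base q G).subgroupOf H).index = (Base q G).relIndex H := rfl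
  have h2 : (Base q G).index = q := by
    rw [Subgroup.index_eq_card, Pool.Agent.N85.WM.card_quot]
  have h3 : (Base q G).relIndex H ∣ q :=
    (Subgroup.relIndex_dvd_index_of_normal (Base q G) H).trans (dvd_of_eq h2)
  rcases (Nat.dvd_prime hq.out).1 h3 with h4 | h4
  · exfalso
    rw [Subgroup.relIndex_eq_one] at h4
    obtain ⟨x, hx, h5⟩ := hH
    exact h5 (mem_base'.1 (h4 hx))
  · rw [h1, h4]

/-- the part of the wreath product of `H` in the base group -/
def fb (b : ZMod q → G) (H : Subgroup G) :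
    (ZMod q → H) ≃* ((Base q G).subgroupOf (tws b H)) where
  toFun h := ⟨⟨⟨fun i => b i * h i * (b i)⁻¹, 1⟩, fun i => by
      change (b i)⁻¹ * (b i * h i * (b i)⁻¹) * b (i - 0) ∈ H
      have e : (b i)⁻¹ * (b i * h i * (b i)⁻¹) * b (i - 0) = h i := by
        rw [sub_zero]; group
      rw [e]
      exact (h i).2⟩, Subgroup.mem_subgroupOf.2 (mem_base'.2 rfl)⟩
  invFun x i := ⟨(b i)⁻¹ * x.1.1.left i * b i, by
    have h1 := x.1.2 i
    have h2 : sft x.1.1 = 0 := mem_base'.1 (Subgroup.mem_subgroupOf.1 x.2)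
    rwa [h2, sub_zero] at h1⟩
  left_inv h := by
    funext i
    apply Subtype.ext
    change (b i)⁻¹ * (b i * h i * (b i)⁻¹) * b i = h i
    group
  right_inv x := by
    apply Subtype.ext
    apply Subtype.ext
    refine wr_ext (fun i => ?_) (mem_base'.1 (Subgroup.mem_subgroupOf.1 x.2)).symm
    change b i * ((b i)⁻¹ * x.1.1.left i * b i) * (b i)⁻¹ = x.1.1.left i
    group
  map_mul' h h' := by
    apply Subtype.ext
    apply Subtype.ext
    refine wr_ext (fun i => ?_) (by rw [Subgroup.coe_mul, Subgroup.coe_mul, mulS]; exact (add_zero 0).symm)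
    change b i * (h i * h' i : G) * (b i)⁻¹ = b i * h i * (b i)⁻¹ * (b (i - 0) * h' (i - 0) * (b (i - 0))⁻¹)
    rw [sub_zero]
    group

theorem fb_left (b : ZMod q → G) (H : Subgroup G) (h : ZMod q → H) (i : ZMod q) :
    ((fb b H h : (Base q G).subgroupOf (tws b H)) : tws b H).1.left i = b i * h i * (b i)⁻¹ := rfl

theorem fb_sft (b : ZMod q → G) (H : Subgroup G) (h : ZMod q → H) :
    sft ((fb b H h : (Base q G).subgroupOf (tws b H)) : tws b H).1 = 0 := rfl

/-- the element of the base group -/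
def bas (h : ZMod q → G) : Wr q G := ⟨h, 1⟩

theorem z_fb {z : Wr q G → F} (hz : InZ (Base q G) z) (b : ZMod q → G) (H : Subgroup G)
    (h : ZMod q → H) : z ((fb b H h : (Base q G).subgroupOf (tws b H)) : tws b H).1 =
      z (bas fun i => h i) := by
  rw [← hz.conj (bas b) (bas fun i => (h i : G))]
  congr 1
  refine wr_ext (fun i => ?_) (by rw [conjS]; rfl)
  rw [conjL _ _ rfl, fb_left]
  change b i * h i * (b i)⁻¹ = b i * (h (i - 0) : G) * (b i)⁻¹
  rw [sub_zero]

/-- the action of an element on the coordinates -/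
theorem conj_fb (b : ZMod q → G) (H : Subgroup G) (x : tws b H) (h : ZMod q → H) (i : ZMod q) :
    (fb b H).symm (MulAut.conjNormal x (fb b H h)) i =
      ⟨(b i)⁻¹ * x.1.left i * b (i - sft x.1), x.2 i⟩ * h (i - sft x.1) *
        (⟨(b i)⁻¹ * x.1.left i * b (i - sft x.1), x.2 i⟩ : H)⁻¹ := by
  apply Subtype.ext
  change (b i)⁻¹ * (((MulAut.conjNormal x (fb b H h) : (Base q G).subgroupOf (tws b H)) :
    tws b H).1.left i) * b i = (b i)⁻¹ * x.1.left i * b (i - sft x.1) * h (i - sft x.1) *
      ((b i)⁻¹ * x.1.left i * b (i - sft x.1))⁻¹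
  rw [MulAut.conjNormal_apply]
  change (b i)⁻¹ * ((x.1 * ((fb b H h : (Base q G).subgroupOf (tws b H)) : tws b H).1 *
    x.1⁻¹).left i) * b i = _
  rw [conjL _ _ (fb_sft b H h), fb_left]
  group

theorem tens_conj (b : ZMod q → G) (H : Subgroup G) (x : tws b H) {ψ : ZMod q → H → ℂ}
    (hψ : ∀ i, IsIrr (ψ i)) :
    (fun h => tens ψ ((fb b H).symm (MulAut.conjNormal x (fb b H h)))) =
      tens (fun i => ψ (i + sft x.1)) := by
  funext h
  unfold tens
  have e : ∀ i, ψ i ((fb b H).symm (MulAut.conjNormal x (fb b H h)) i) = ψ i (h (i - sft x.1)) := by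
    intro i
    rw [conj_fb]
    exact (hψ i).conj _ _
  rw [Finset.prod_congr rfl fun i _ => e i]
  exact Fintype.prod_equiv (Equiv.subRight (sft x.1)) _ _ fun i => by
    simp [Equiv.subRight]

theorem exists_shift (b : ZMod q → G) (H : Subgroup G) (s : ZMod q) :
    ∃ x : tws b H, sft x.1 = s :=
  ⟨⟨⟨fun i => b i * (b (i - s))⁻¹, Multiplicative.ofAdd s⟩, fun i => by
    change (b i)⁻¹ * (b i * (b (i - s))⁻¹) * b (i - s) ∈ H
    have e : (b i)⁻¹ * (b i * (b (i - s))⁻¹) * b (i - s) = 1 := by group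
    rw [e]
    exact H.one_mem⟩, rfl⟩

/-- **the invariant characters of the base group of the wreath product of `H`** -/
theorem inum_tws {z : Wr q G → F} (hz : InZ (Base q G) z) (c : F) (b : ZMod q → G)
    (H : Subgroup G) :
    Inum ((Base q G).subgroupOf (tws b H)) red (fun x : tws b H => z x) c =
      Nat.card {ψ : H → ℂ // IsIrreducibleCharacter ψ ∧
        centralValue red (tens fun _ : ZMod q => ψ) (fun h => z (bas fun i => h i)) = c} := by
  have hzH : InZ ((Base q G).subgroupOf (tws b H)) (fun x : tws b H => z x) :=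
    ⟨fun g x => hz.conj g x, fun x hx => hz.supp x fun h3 => hx (Subgroup.mem_subgroupOf.2 h3)⟩
  rw [inum_iso _ red (fb b H) hzH c]
  have e1 : (fun y : ZMod q → H => (fun x : tws b H => z x)
      ((fb b H y : (Base q G).subgroupOf (tws b H)) : tws b H)) =
      fun h => z (bas fun i => h i) := by
    funext h
    exact z_fb hz b H h
  rw [e1]
  have : Fintype H := Fintype.ofFinite H
  symm
  refine Nat.card_congr (Equiv.ofBijective (fun ψ => ⟨tens fun _ : ZMod q => ψ.1, ?_, ψ.2.2, ?_⟩)
    ⟨?_, ?_⟩)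
  · exact tens_irr fun _ => ψ.2.1
  · intro x
    exact tens_conj b H x fun _ => ψ.2.1
  · rintro ⟨ψ, h1, h2⟩ ⟨ψ', h1', h2'⟩ h
    have h3 := tens_inj (fun _ => h1) (fun _ => h1') (congrArg Subtype.val h)
    exact Subtype.ext (congrFun h3 0)
  · rintro ⟨χ, h1, h2, h3⟩
    obtain ⟨ψ, h4, rfl⟩ := exists_tens h1
    have h5 : ∀ s, ψ s = ψ 0 := by
      intro s
      obtain ⟨x, hx⟩ := exists_shift b H s
      have h6 := h3 x
      rw [tens_conj b H x h4] at h6
      have h7 := congrFun (tens_inj (fun i => h4 _) h4 h6) 0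
      rw [hx, zero_add] at h7
      exact h7
    have h6 : ψ = fun _ => ψ 0 := funext h5
    refine ⟨⟨ψ 0, h4 0, ?_⟩, ?_⟩
    · rw [← h6]
      exact h2
    · apply Subtype.ext
      change tens (fun _ => ψ 0) = tens ψ
      rw [← h6]

end tws

end Pool.Agent.Helper3K
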